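import Pool.Agent.Lib.MP_ef18bd_co.P.Idx4
import Pool.Agent.Lib.MP_ef18bd_co.P.Wj
import Pool.Agent.Lib.MP_ef18bd_co.P.Gij

/-!
# The components with two lists of values, girth five
-/

namespace EF18

/-- the components and their values -/
noncomputable def CAGf : List CPc := [((6, 0x19130c17100b251f06231c05201b03140f09), [0, 0, 0, 0, 12, 18, 36]), ((6,
0x19120d16110b251e07221d05211b03150f09), [0, 0, 0, 0, 0, 6, 12, 18]), ((6,
0x1010601130c01100b1d16051a1503200f09), [0, 0, 0, 0, 0]), ((9,
0x12a24010107341712321d0c01231101290b261b042015022d0e08), [0, 0, 0, 0, 0, 0]), ((0xa,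
0x1013638312b352412331e0c2e190a281710231d022c1a072620050f0914), [0, 0, 0, 0, 0, 6, 12]), ((0xe,
0x10149463c36514e4244302a4c1e164a2412401c0c3e100634190a3a2e0e23380232281a2c2005260914), [0, 0, 0, 0]), ((0xa,
0x136233a312b35241f330c062e39022d130801100b1d160528151a260f20), [0, 0, 0, 0, 0, 0, 0, 0])]

/-- the components and their values -/
noncomputable def CBGf : List CPc := [((6, 0x19130c17100b251f06231c05201b03140f09), [0, 0, 0, 0, 0, 0, 0]), ((6,
0x19120d16110b251e07221d05211b03150f09), [0, 0, 0, 0, 0, 0, 0, 0]), ((6,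
0x1010601130c01100b1d16051a1503200f09), [0, 0, 0, 0, 12]), ((9,
0x12a24010107341712321d0c01231101290b261b042015022d0e08), [0, 0, 0, 0, 0, 6]), ((0xa,
0x1013638312b352412331e0c2e190a281710231d022c1a072620050f0914), [0, 0, 0, 0, 0, 0, 12]), ((0xe,
0x10149463c36514e4244302a4c1e164a2412401c0c3e100634190a3a2e0e23380232281a2c2005260914), [0, 0, 0, 6]), ((0xa,
0x136233a312b35241f330c062e39022d130801100b1d160528151a260f20), [0, 0, 0, 0, 0, 0, 0, 6])]

/-- the components and their link ports -/
noncomputable def MLGf : List MPc := [((6, 0x19130c17100b251f06231c05201b03140f09), [0, 1, 3, 4, 6, 8, 10, 11, 12, 14, 16, 17]), ((6,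
0x19120d16110b251e07221d05211b03150f09), [0, 1, 2, 3, 4, 5, 6, 7, 9, 11, 12, 13, 15, 17]), ((6,
0x1010601130c01100b1d16051a1503200f09), [0, 1, 3, 4, 6, 8, 9, 13]), ((9,
0x12a24010107341712321d0c01231101290b261b042015022d0e08), [2, 4, 7, 9, 10, 12, 13, 16, 19, 21]), ((0xa,
0x1013638312b352412331e0c2e190a281710231d022c1a072620050f0914), [1, 2, 3, 6, 10, 11, 13, 16, 20, 23, 24,
25]), ((0xe, 0x10149463c36514e4244302a4c1e164a2412401c0c3e100634190a3a2e0e23380232281a2c2005260914), [1, 3,
11, 16, 35, 39]), ((0xa, 0x136233a312b35241f330c062e39022d130801100b1d160528151a260f20), [1, 4, 6, 8, 9, 13,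
14, 16, 20, 21, 23, 24, 25, 27])]

/-- the closed pieces -/
noncomputable def PLGf : List (ℕ × ℕ) := []

theorem vokAGf : vok CAGf := by decide +kernel

theorem vokBGf : vok CBGf := by decide +kernel

theorem mclAGf : MLGf = mcl CAGf := by decide +kernel

theorem mclBGf : MLGf = mcl CBGf := by decide +kernel

theorem lenGf : CAGf.length = 7 := by decide +kernel

theorem mkoGf : MLGf.all mkok = true := by decide +kernel

theorem wfpGf : PLGf.all wfp = true := by decide +kernel

theorem bdGf : (PLGf.all fun q => Nat.ble q.1 256) = true := by decide +kernel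

/-- the start -/
noncomputable def QGfn : List (ℕ × ℕ) := []

theorem cGfn : Dj5 CAGf CBGf PLGf (dnL QGfn) := dj5_nil _ _ _

end EF18
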