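import Pool.Agent.Lib.MP_ef18bd_co.G5.P0

/-!
# Phase 0: the states of the components
-/

namespace EF18

set_option linter.defProp false

def kGf0_0r : rwV 6 TGf0 (gE CAGf 0) (gE CBGf 0)
  [6, 5, 4, 3, 2, 1, 0] = true := by
  decide +kernel

def kGf0_0m : lnV (6, 0x19130c17100b251f06231c05201b03140f09) 64 = true := by
  decide +kernel

def kGf0_0c0 : ckV QGfn (6, 0x19130c17100b251f06231c05201b03140f09) [6, 5, 4, 3, 2, 1, 0] 0 64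
  [0, 0, 0, 0, 0, 0, 0, 0, 0, 0, 0, 0, 0, 0, 0, 0, 0, 0, 0, 0, 0, 0, 0, 0, 0, 0, 0, 0, 0, 0, 0, 0, 0, 0, 0, 0,
0, 0, 0, 0, 0, 0, 0, 0, 0, 0, 0, 0, 0, 0, 0, 0, 0, 0, 0, 0, 0, 0, 0, 0, 0, 0, 0, 0]
  0 = true := by
  decide +kernel

def kGf0_1r : rwV 6 TGf0 (gE CAGf 1) (gE CBGf 1)
  [7, 6, 5, 4, 3, 2, 1, 0] = true := by
  decide +kernel

def kGf0_1m : lnV (6, 0x19120d16110b251e07221d05211b03150f09) 128 = true := by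
  decide +kernel

def kGf0_1c0 : ckV QGfn (6, 0x19120d16110b251e07221d05211b03150f09) [7, 6, 5, 4, 3, 2, 1, 0] 0 128
  [0, 0, 0, 0, 0, 0, 0, 0, 0, 0, 0, 0, 0, 0, 0, 0, 0, 0, 0, 0, 0, 0, 0, 0, 0, 0, 0, 0, 0, 0, 0, 0, 0, 0, 0, 0,
0, 0, 0, 0, 0, 0, 0, 0, 0, 0, 0, 0, 0, 0, 0, 0, 0, 0, 0, 0, 0, 0, 0, 0, 0, 0, 0, 0, 0, 0, 0, 0, 0, 0, 0, 0,
0, 0, 0, 0, 0, 0, 0, 0, 0, 0, 0, 0, 0, 0, 0, 0, 0, 0, 0, 0, 0, 0, 0, 0, 0, 0, 0, 0, 0, 0, 0, 0, 0, 0, 0, 0,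
0, 0, 0, 0, 0, 0, 0, 0, 0, 0, 0, 0, 0, 0, 0, 0, 0, 0, 0, 0]
  0 = true := by
  decide +kernel

def kGf0_2r : rwV 6 TGf0 (gE CAGf 2) (gE CBGf 2)
  [4, 3, 2, 1, 0] = true := by
  decide +kernel

def kGf0_2m : lnV (6, 0x1010601130c01100b1d16051a1503200f09) 16 = true := by
  decide +kernel

def kGf0_2c0 : ckV QGfn (6, 0x1010601130c01100b1d16051a1503200f09) [4, 3, 2, 1, 0] 0 16
  [0, 0, 0, 0, 0, 0, 0, 0, 0, 0, 0, 0, 0, 0, 0, 0]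
  0 = true := by
  decide +kernel

def kGf0_3r : rwV 6 TGf0 (gE CAGf 3) (gE CBGf 3)
  [5, 4, 3, 2, 1, 0] = true := by
  decide +kernel

def kGf0_3m : lnV (9, 0x12a24010107341712321d0c01231101290b261b042015022d0e08) 32 = true := by
  decide +kernel

def kGf0_3c0 : ckV QGfn (9, 0x12a24010107341712321d0c01231101290b261b042015022d0e08) [5, 4, 3, 2, 1, 0] 0 32
  [0, 0, 0, 0, 0, 0, 0, 0, 0, 0, 0, 0, 0, 0, 0, 0, 0, 0, 0, 0, 0, 0, 0, 0, 0, 0, 0, 0, 0, 0, 0, 0]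
  0 = true := by
  decide +kernel

def kGf0_4r : rwV 6 TGf0 (gE CAGf 4) (gE CBGf 4)
  [6, 5, 4, 3, 2, 1, 0] = true := by
  decide +kernel

def kGf0_4m : lnV (0xa, 0x1013638312b352412331e0c2e190a281710231d022c1a072620050f0914) 64 = true := by
  decide +kernel

def kGf0_4c0 : ckV QGfn (0xa, 0x1013638312b352412331e0c2e190a281710231d022c1a072620050f0914) [6, 5, 4, 3, 2, 1, 0] 0 64
  [0, 0, 0, 0, 0, 0, 0, 0, 0, 0, 0, 0, 0, 0, 0, 0, 0, 0, 0, 0, 0, 0, 0, 0, 0, 0, 0, 0, 0, 0, 0, 0, 0, 0, 0, 0,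
0, 0, 0, 0, 0, 0, 0, 0, 0, 0, 0, 0, 0, 0, 0, 0, 0, 0, 0, 0, 0, 0, 0, 0, 0, 0, 0, 0]
  0 = true := by
  decide +kernel

def kGf0_5r : rwV 6 TGf0 (gE CAGf 5) (gE CBGf 5)
  [3, 2, 1, 0] = true := by
  decide +kernel

def kGf0_5m : lnV (0xe, 0x10149463c36514e4244302a4c1e164a2412401c0c3e100634190a3a2e0e23380232281a2c2005260914) 8 = true := by
  decide +kernel

def kGf0_5c0 : ckV QGfn (0xe, 0x10149463c36514e4244302a4c1e164a2412401c0c3e100634190a3a2e0e23380232281a2c2005260914) [3, 2, 1, 0] 0 8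
  [0, 0, 0, 0, 0, 0, 0, 0]
  0 = true := by
  decide +kernel

def kGf0_6r : rwV 6 TGf0 (gE CAGf 6) (gE CBGf 6)
  [7, 6, 5, 4, 3, 2, 1, 0] = true := by
  decide +kernel

def kGf0_6m : lnV (0xa, 0x136233a312b35241f330c062e39022d130801100b1d160528151a260f20) 128 = true := by
  decide +kernel

def kGf0_6c0 : ckV QGfn (0xa, 0x136233a312b35241f330c062e39022d130801100b1d160528151a260f20) [7, 6, 5, 4, 3, 2, 1, 0] 0 128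
  [0, 0, 0, 0, 0, 0, 0, 0, 0, 0, 0, 0, 0, 0, 0, 0, 0, 0, 0, 0, 0, 0, 0, 0, 0, 0, 0, 0, 0, 0, 0, 0, 0, 0, 0, 0,
0, 0, 0, 0, 0, 0, 0, 0, 0, 0, 0, 0, 0, 0, 0, 0, 0, 0, 0, 0, 0, 0, 0, 0, 0, 0, 0, 0, 0, 0, 0, 0, 0, 0, 0, 0,
0, 0, 0, 0, 0, 0, 0, 0, 0, 0, 0, 0, 0, 0, 0, 0, 0, 0, 0, 0, 0, 0, 0, 0, 0, 0, 0, 0, 0, 0, 0, 0, 0, 0, 0, 0,
0, 0, 0, 0, 0, 0, 0, 0, 0, 0, 0, 0, 0, 0, 0, 0, 0, 0, 0, 0]
  0 = true := by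
  decide +kernel

end EF18
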