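import Pool.Agent.Lib.MP_ef18bd_co.G5.Base
import Pool.Agent.Lib.MP_ef18bd_co.G5.P0x0
import Pool.Agent.Lib.MP_ef18bd_co.G5.P0x1
import Pool.Agent.Lib.MP_ef18bd_co.G5.P0r0
import Pool.Agent.Lib.MP_ef18bd_co.G5.P0k0

/-!
# Phase 0
-/

namespace EF18

theorem aGf0 : ∀ i < 1538, Val (stD (dnL QGfn) SGf0) (prc BGf0 i) := by
  have j0 := ents_zeroF QGfn SGf0 BGf0
  have h0 := j0
  have h1 := wGf0_0_0 h0
  have h2 := wGf0_0_1 h1
  have h3 := wGf0_0_2 h2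
  have h4 := wGf0_0_3 h3
  have h5 := wGf0_0_4 h4
  have h6 := wGf0_0_5 h5
  have h7 := wGf0_0_6 h6
  have h8 := wGf0_0_7 h7
  have h9 := wGf0_0_8 h8
  have h10 := wGf0_0_9 h9
  have h11 := wGf0_0_10 h10
  have h12 := wGf0_0_11 h11
  have h13 := wGf0_0_12 h12
  have h14 := wGf0_0_13 h13
  have h15 := wGf0_0_14 h14
  have h16 := wGf0_0_15 h15
  have h17 := wGf0_0_16 h16
  have h18 := wGf0_0_17 h17
  have h19 := wGf0_0_18 h18
  have h20 := wGf0_0_19 h19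
  have h21 := wGf0_0_20 h20
  have h22 := wGf0_0_21 h21
  have h23 := wGf0_0_22 h22
  have h24 := wGf0_0_23 h23
  have h25 := wGf0_0_24 h24
  have h26 := wGf0_0_25 h25
  have h27 := wGf0_0_26 h26
  have h28 := wGf0_0_27 h27
  have h29 := wGf0_0_28 h28
  have h30 := wGf0_0_29 h29
  have h31 := wGf0_0_30 h30
  have h32 := wGf0_0_31 h31
  have h33 := wGf0_0_32 h32
  have h34 := wGf0_0_33 h33
  have h35 := wGf0_0_34 h34
  have h36 := wGf0_0_35 h35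
  have h37 := wGf0_1_0 h36
  have h38 := wGf0_1_1 h37
  have h39 := wGf0_1_2 h38
  have h40 := wGf0_1_3 h39
  have h41 := wGf0_1_4 h40
  have h42 := wGf0_1_5 h41
  have h43 := wGf0_1_6 h42
  have h44 := wGf0_1_7 h43
  have h45 := wGf0_1_8 h44
  have h46 := wGf0_1_9 h45
  have h47 := wGf0_1_10 h46
  have h48 := wGf0_1_11 h47
  have h49 := wGf0_1_12 h48
  have h50 := wGf0_1_13 h49
  have h51 := wGf0_1_14 h50
  have h52 := wGf0_1_15 h51
  have h53 := wGf0_1_16 h52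
  have h54 := wGf0_1_17 h53
  have h55 := wGf0_1_18 h54
  have h56 := wGf0_1_19 h55
  have h57 := wGf0_1_20 h56
  have h58 := wGf0_1_21 h57
  have h59 := wGf0_1_22 h58
  have h60 := wGf0_1_23 h59
  have h61 := wGf0_1_24 h60
  have h62 := wGf0_1_25 h61
  have h63 := wGf0_1_26 h62
  exact h63

theorem bGf0 : RtI (ok5 (okB 2 true)) (stD (dnL QGfn) SGf0) RBGf0 1715 := by
  have h0 := rtI_zero (ok5 (okB 2 true)) (stD (dnL QGfn) SGf0) RBGf0
  have h1 := uGf0 aGf0 h0 oGf0_0_0 (show 0 + 25 = 25 from rfl)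
  have h2 := uGf0 aGf0 h1 oGf0_0_1 (show 25 + 25 = 50 from rfl)
  have h3 := uGf0 aGf0 h2 oGf0_0_2 (show 50 + 25 = 75 from rfl)
  have h4 := uGf0 aGf0 h3 oGf0_0_3 (show 75 + 25 = 100 from rfl)
  have h5 := uGf0 aGf0 h4 oGf0_0_4 (show 100 + 25 = 125 from rfl)
  have h6 := uGf0 aGf0 h5 oGf0_0_5 (show 125 + 25 = 150 from rfl)
  have h7 := uGf0 aGf0 h6 oGf0_0_6 (show 150 + 25 = 175 from rfl)
  have h8 := uGf0 aGf0 h7 oGf0_0_7 (show 175 + 25 = 200 from rfl)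
  have h9 := uGf0 aGf0 h8 oGf0_0_8 (show 200 + 25 = 225 from rfl)
  have h10 := uGf0 aGf0 h9 oGf0_0_9 (show 225 + 25 = 250 from rfl)
  have h11 := uGf0 aGf0 h10 oGf0_0_10 (show 250 + 25 = 275 from rfl)
  have h12 := uGf0 aGf0 h11 oGf0_0_11 (show 275 + 25 = 300 from rfl)
  have h13 := uGf0 aGf0 h12 oGf0_0_12 (show 300 + 25 = 325 from rfl)
  have h14 := uGf0 aGf0 h13 oGf0_0_13 (show 325 + 25 = 350 from rfl)
  have h15 := uGf0 aGf0 h14 oGf0_0_14 (show 350 + 25 = 375 from rfl)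
  have h16 := uGf0 aGf0 h15 oGf0_0_15 (show 375 + 25 = 400 from rfl)
  have h17 := uGf0 aGf0 h16 oGf0_0_16 (show 400 + 25 = 425 from rfl)
  have h18 := uGf0 aGf0 h17 oGf0_0_17 (show 425 + 25 = 450 from rfl)
  have h19 := uGf0 aGf0 h18 oGf0_0_18 (show 450 + 25 = 475 from rfl)
  have h20 := uGf0 aGf0 h19 oGf0_0_19 (show 475 + 25 = 500 from rfl)
  have h21 := uGf0 aGf0 h20 oGf0_0_20 (show 500 + 25 = 525 from rfl)
  have h22 := uGf0 aGf0 h21 oGf0_0_21 (show 525 + 25 = 550 from rfl)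
  have h23 := uGf0 aGf0 h22 oGf0_0_22 (show 550 + 25 = 575 from rfl)
  have h24 := uGf0 aGf0 h23 oGf0_0_23 (show 575 + 25 = 600 from rfl)
  have h25 := uGf0 aGf0 h24 oGf0_0_24 (show 600 + 25 = 625 from rfl)
  have h26 := uGf0 aGf0 h25 oGf0_0_25 (show 625 + 25 = 650 from rfl)
  have h27 := uGf0 aGf0 h26 oGf0_0_26 (show 650 + 25 = 675 from rfl)
  have h28 := uGf0 aGf0 h27 oGf0_0_27 (show 675 + 25 = 700 from rfl)
  have h29 := uGf0 aGf0 h28 oGf0_0_28 (show 700 + 25 = 725 from rfl)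
  have h30 := uGf0 aGf0 h29 oGf0_0_29 (show 725 + 25 = 750 from rfl)
  have h31 := uGf0 aGf0 h30 oGf0_0_30 (show 750 + 25 = 775 from rfl)
  have h32 := uGf0 aGf0 h31 oGf0_0_31 (show 775 + 25 = 800 from rfl)
  have h33 := uGf0 aGf0 h32 oGf0_0_32 (show 800 + 25 = 825 from rfl)
  have h34 := uGf0 aGf0 h33 oGf0_0_33 (show 825 + 25 = 850 from rfl)
  have h35 := uGf0 aGf0 h34 oGf0_0_34 (show 850 + 25 = 875 from rfl)
  have h36 := uGf0 aGf0 h35 oGf0_0_35 (show 875 + 25 = 900 from rfl)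
  have h37 := uGf0 aGf0 h36 oGf0_0_36 (show 900 + 25 = 925 from rfl)
  have h38 := uGf0 aGf0 h37 oGf0_0_37 (show 925 + 25 = 950 from rfl)
  have h39 := uGf0 aGf0 h38 oGf0_0_38 (show 950 + 25 = 975 from rfl)
  have h40 := uGf0 aGf0 h39 oGf0_0_39 (show 975 + 25 = 1000 from rfl)
  have h41 := uGf0 aGf0 h40 oGf0_0_40 (show 1000 + 25 = 1025 from rfl)
  have h42 := uGf0 aGf0 h41 oGf0_0_41 (show 1025 + 25 = 1050 from rfl)
  have h43 := uGf0 aGf0 h42 oGf0_0_42 (show 1050 + 25 = 1075 from rfl)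
  have h44 := uGf0 aGf0 h43 oGf0_0_43 (show 1075 + 25 = 1100 from rfl)
  have h45 := uGf0 aGf0 h44 oGf0_0_44 (show 1100 + 25 = 1125 from rfl)
  have h46 := uGf0 aGf0 h45 oGf0_0_45 (show 1125 + 25 = 1150 from rfl)
  have h47 := uGf0 aGf0 h46 oGf0_0_46 (show 1150 + 25 = 1175 from rfl)
  have h48 := uGf0 aGf0 h47 oGf0_0_47 (show 1175 + 25 = 1200 from rfl)
  have h49 := uGf0 aGf0 h48 oGf0_0_48 (show 1200 + 25 = 1225 from rfl)
  have h50 := uGf0 aGf0 h49 oGf0_0_49 (show 1225 + 25 = 1250 from rfl)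
  have h51 := uGf0 aGf0 h50 oGf0_0_50 (show 1250 + 25 = 1275 from rfl)
  have h52 := uGf0 aGf0 h51 oGf0_0_51 (show 1275 + 25 = 1300 from rfl)
  have h53 := uGf0 aGf0 h52 oGf0_0_52 (show 1300 + 25 = 1325 from rfl)
  have h54 := uGf0 aGf0 h53 oGf0_0_53 (show 1325 + 25 = 1350 from rfl)
  have h55 := uGf0 aGf0 h54 oGf0_0_54 (show 1350 + 25 = 1375 from rfl)
  have h56 := uGf0 aGf0 h55 oGf0_0_55 (show 1375 + 25 = 1400 from rfl)
  have h57 := uGf0 aGf0 h56 oGf0_0_56 (show 1400 + 25 = 1425 from rfl)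
  have h58 := uGf0 aGf0 h57 oGf0_0_57 (show 1425 + 25 = 1450 from rfl)
  have h59 := uGf0 aGf0 h58 oGf0_0_58 (show 1450 + 25 = 1475 from rfl)
  have h60 := uGf0 aGf0 h59 oGf0_0_59 (show 1475 + 25 = 1500 from rfl)
  have h61 := uGf0 aGf0 h60 oGf0_0_60 (show 1500 + 25 = 1525 from rfl)
  have h62 := uGf0 aGf0 h61 oGf0_0_61 (show 1525 + 25 = 1550 from rfl)
  have h63 := uGf0 aGf0 h62 oGf0_0_62 (show 1550 + 25 = 1575 from rfl)
  have h64 := uGf0 aGf0 h63 oGf0_0_63 (show 1575 + 25 = 1600 from rfl)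
  have h65 := uGf0 aGf0 h64 oGf0_0_64 (show 1600 + 25 = 1625 from rfl)
  have h66 := uGf0 aGf0 h65 oGf0_0_65 (show 1625 + 25 = 1650 from rfl)
  have h67 := uGf0 aGf0 h66 oGf0_0_66 (show 1650 + 25 = 1675 from rfl)
  have h68 := uGf0 aGf0 h67 oGf0_0_67 (show 1675 + 25 = 1700 from rfl)
  have h69 := uGf0 aGf0 h68 oGf0_0_68 (show 1700 + 15 = 1715 from rfl)
  exact h69

theorem tGf0 : (TGf0.all okJ) = true := by decide +kernel

theorem pGf0_0 : CkP QGfn (6, 0x19130c17100b251f06231c05201b03140f09)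
    [6, 5, 4, 3, 2, 1, 0] 64 := by
  have h0 := ckP_zero QGfn (6, 0x19130c17100b251f06231c05201b03140f09)
    [6, 5, 4, 3, 2, 1, 0]
  have h1 := ckP_step (k := 64) h0 kGf0_0c0 rfl
  exact h1

theorem pGf0_1 : CkP QGfn (6, 0x19120d16110b251e07221d05211b03150f09)
    [7, 6, 5, 4, 3, 2, 1, 0] 128 := by
  have h0 := ckP_zero QGfn (6, 0x19120d16110b251e07221d05211b03150f09)
    [7, 6, 5, 4, 3, 2, 1, 0]
  have h1 := ckP_step (k := 128) h0 kGf0_1c0 rfl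
  exact h1

theorem pGf0_2 : CkP QGfn (6, 0x1010601130c01100b1d16051a1503200f09)
    [4, 3, 2, 1, 0] 16 := by
  have h0 := ckP_zero QGfn (6, 0x1010601130c01100b1d16051a1503200f09)
    [4, 3, 2, 1, 0]
  have h1 := ckP_step (k := 16) h0 kGf0_2c0 rfl
  exact h1

theorem pGf0_3 : CkP QGfn (9, 0x12a24010107341712321d0c01231101290b261b042015022d0e08)
    [5, 4, 3, 2, 1, 0] 32 := by
  have h0 := ckP_zero QGfn (9, 0x12a24010107341712321d0c01231101290b261b042015022d0e08)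
    [5, 4, 3, 2, 1, 0]
  have h1 := ckP_step (k := 32) h0 kGf0_3c0 rfl
  exact h1

theorem pGf0_4 : CkP QGfn (0xa, 0x1013638312b352412331e0c2e190a281710231d022c1a072620050f0914)
    [6, 5, 4, 3, 2, 1, 0] 64 := by
  have h0 := ckP_zero QGfn (0xa, 0x1013638312b352412331e0c2e190a281710231d022c1a072620050f0914)
    [6, 5, 4, 3, 2, 1, 0]
  have h1 := ckP_step (k := 64) h0 kGf0_4c0 rfl
  exact h1

theorem pGf0_5 : CkP QGfn (0xe, 0x10149463c36514e4244302a4c1e164a2412401c0c3e100634190a3a2e0e23380232281a2c2005260914)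
    [3, 2, 1, 0] 8 := by
  have h0 := ckP_zero QGfn (0xe, 0x10149463c36514e4244302a4c1e164a2412401c0c3e100634190a3a2e0e23380232281a2c2005260914)
    [3, 2, 1, 0]
  have h1 := ckP_step (k := 8) h0 kGf0_5c0 rfl
  exact h1

theorem pGf0_6 : CkP QGfn (0xa, 0x136233a312b35241f330c062e39022d130801100b1d160528151a260f20)
    [7, 6, 5, 4, 3, 2, 1, 0] 128 := by
  have h0 := ckP_zero QGfn (0xa, 0x136233a312b35241f330c062e39022d130801100b1d160528151a260f20)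
    [7, 6, 5, 4, 3, 2, 1, 0]
  have h1 := ckP_step (k := 128) h0 kGf0_6c0 rfl
  exact h1

theorem kGf0 : PpI QGfn 6 TGf0 CAGf CBGf 7 := by
  have h0 := ppI_zero QGfn 6 TGf0 CAGf CBGf
  have h1 := ppI_stepV (k' := 1) (q := (6, 0x19130c17100b251f06231c05201b03140f09)) h0 rfl kGf0_0r pGf0_0 kGf0_0m rfl
  have h2 := ppI_stepV (k' := 2) (q := (6, 0x19120d16110b251e07221d05211b03150f09)) h1 rfl kGf0_1r pGf0_1 kGf0_1m rfl
  have h3 := ppI_stepV (k' := 3) (q := (6, 0x1010601130c01100b1d16051a1503200f09)) h2 rfl kGf0_2r pGf0_2 kGf0_2m rfl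
  have h4 := ppI_stepV (k' := 4) (q := (9, 0x12a24010107341712321d0c01231101290b261b042015022d0e08)) h3 rfl kGf0_3r pGf0_3 kGf0_3m rfl
  have h5 := ppI_stepV (k' := 5) (q := (0xa, 0x1013638312b352412331e0c2e190a281710231d022c1a072620050f0914)) h4 rfl kGf0_4r pGf0_4 kGf0_4m rfl
  have h6 := ppI_stepV (k' := 6) (q := (0xe, 0x10149463c36514e4244302a4c1e164a2412401c0c3e100634190a3a2e0e23380232281a2c2005260914)) h5 rfl kGf0_5r pGf0_5 kGf0_5m rfl
  have h7 := ppI_stepV (k' := 7) (q := (0xa, 0x136233a312b35241f330c062e39022d130801100b1d160528151a260f20)) h6 rfl kGf0_6r pGf0_6 kGf0_6m rfl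
  exact h7

theorem zGf0 : (!false || allK QGfn (fun _ => true) (nzq CBGf)
  0) = true := by decide +kernel

theorem mGf0A : (Nat.ble 2 2 || memI QGfn 0 1 257) = true := by decide +kernel

theorem mGf0B : (Nat.ble 1 2 || memI QGfn 0 1 1) = true := by decide +kernel

/-- **the phase 0** -/
theorem cGf0 : Dj5 CAGf CBGf PLGf (dnL QGf0) :=
  Dj5.rawP vokAGf vokBGf mclAGf mclBGf mkoGf wfpGf cGfn mGf0A mGf0B (by norm_num) tGf0 kGf0 lenGf zGf0 bGf0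

end EF18
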