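import Pool.Agent.Lib.MP_ef18bd_co.G5.P1

/-!
# Phase 1: closed patterns
-/

namespace EF18

set_option linter.defProp false

def jGf1_0 : j0F QGf0 BGf1 100 0
  0xbb8000bb4000bb0000bac000ba8000ba4000ba0000b9c000b98000b94000b90000b8c000b88000b84000b80000b7c000b78000b74000b70000b6c000b68000b64000b60000b5c000b58000b54000b50000b4c000b48000b44000b40000b3c000b38000b34000b30000b2c000b28000b24000b20000b1c000b18000b14000b10000b0c000b08000b04000b00000afc000af8000af4000af0000aec000ae8000ae4000ae0000adc000ad8000ad4000ad0000acc000ac8000ac4000ac0000abc000ab8000ab4000ab0000aac000aa8000aa4000aa0000a9c000a98000a94000a90000a8c000a88000a84000a80000a7c000a78000a74000a70000a6c000a68000a64000a60000a5c000a58000a54000a38000a2c000a24000a140009e40009ac00099c0009980009940009880 = true := by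
  decide +kernel

def jGf1_1 : j0F QGf0 BGf1 100 100
  0xdc8000dc4000dc0000dbc000db8000db4000db0000dac000da8000da4000da0000d9c000d98000d94000d90000d8c000d88000d84000d80000d7c000d78000d74000d70000d6c000d68000d64000d60000d5c000d58000d54000d50000d4c000d48000d44000d40000d3c000d38000d34000d30000d2c000d28000d24000d20000d1c000d18000d04000ccc000cbc000cb8000cb4000cac000c7c000c78000c74000c70000c6c000c68000c64000c60000c5c000c58000c54000c50000c4c000c48000c44000c40000c3c000c38000c34000c30000c2c000c28000c24000c20000c1c000c18000c14000c10000c0c000c08000c04000c00000bfc000bf8000bf4000bf0000bec000be8000be4000be0000bdc000bd8000bd4000bd0000bcc000bc8000bc4000bc0000bbc0 = true := by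
  decide +kernel

def jGf1_2 : j0F QGf0 BGf1 100 200
  0x1004001000000ffc000ff8000ff4000ff0000fec000fe8000fe4000fe0000fdc000fd8000fd4000fd0000fcc000fc8000fc4000fc0000fbc000fb8000fb4000fb0000fac000fa8000fa4000fa0000f9c000f98000f94000f90000f8c000f88000f84000f80000f7c000f78000f74000f70000f6c000f68000f64000f60000f5c000f58000f54000f50000f4c000f48000f44000f40000f3c000f38000f34000f30000f2c000f28000f24000f20000f1c000f18000f14000f10000f0c000f08000f04000f00000efc000ef8000ef4000ef0000eec000ee8000ee4000ee0000eac000ea8000e9c000e94000e78000e6c000e58000e54000e4c000e1c000e10000e04000e00000dfc000df8000df4000df0000dec000de8000de4000de0000ddc000dd8000dd4000dd0000dcc0 = true := by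
  decide +kernel

def jGf1_3 : j0F QGf0 BGf1 100 300
  0x144c00143c0014240013f80013f40013e80013e40013e00013dc0013d80013b800138c0013600013540013500013480013200012e40012a400129400128400126c00126800125800122c0012240012080011ec00115c00115000114c0011480011440011340011280011180011140011040010fc0010f80010f40010f00010ec0010e80010e40010e00010dc0010d80010d40010d00010cc0010c80010c40010c00010bc0010b80010b40010b00010ac0010a80010a40010a000109c00109800109400109000108c00108800108400108000107c00107800107400107000106c00106800106400106000105c00105800105400105000104c00104800104400104000103c00103800103400103000102c00102800102400102000101c00101800101400101000100c0010080 = true := by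
  decide +kernel

def jGf1_4 : j0F QGf0 BGf1 97 400
  0x21c001aa4001a9c001a98001a88001a80001a70001a6c001a68001a64001a60001a5c001a58001a54001a50001a4c001a48001a44001a40001a3c001a34001a28001a1c001a18001a14001a0c001a080019f00019d80019d40019c00019b800199400197c00197800197000196c00196400196000195c00194400193c00192400192000191c00191400190c0019040018fc0018f80018ec0018e80018e40018e00018c80017e80017c40017a400178c00177800177400177000175c00174000173c0017380017000016f40016d40016d00016a000169c00169000168000167c00167800166400164400161c0015c00015bc0015b80015b40015b00015a80015a000157800157000156c0015640015600015080014e80014d80014b40014780014600 = true := by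
  decide +kernel

end EF18
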