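import Pool.Agent.Lib.MP_ef18bd_co.G5.C0
import Pool.Agent.Lib.MP_ef18bd_co.G5.P1x0
import Pool.Agent.Lib.MP_ef18bd_co.G5.P1x1
import Pool.Agent.Lib.MP_ef18bd_co.G5.P1j0
import Pool.Agent.Lib.MP_ef18bd_co.G5.P1r0
import Pool.Agent.Lib.MP_ef18bd_co.G5.P1k0

/-!
# Phase 1
-/

namespace EF18

theorem aGf1 : ∀ i < 1683, Val (stD (dnL QGf0) SGf1) (prc BGf1 i) := by
  have j0 := ents_zeroF QGf0 SGf1 BGf1
  have j1 := ents_dnF (k := 100) j0 jGf1_0 rfl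
  have j2 := ents_dnF (k := 200) j1 jGf1_1 rfl
  have j3 := ents_dnF (k := 300) j2 jGf1_2 rfl
  have j4 := ents_dnF (k := 400) j3 jGf1_3 rfl
  have j5 := ents_dnF (k := 497) j4 jGf1_4 rfl
  have h0 := j5
  have h1 := wGf1_0_0 h0
  have h2 := wGf1_0_1 h1
  have h3 := wGf1_0_2 h2
  have h4 := wGf1_0_3 h3
  have h5 := wGf1_0_4 h4
  have h6 := wGf1_0_5 h5
  have h7 := wGf1_0_6 h6
  have h8 := wGf1_0_7 h7
  have h9 := wGf1_0_8 h8
  have h10 := wGf1_0_9 h9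
  have h11 := wGf1_0_10 h10
  have h12 := wGf1_0_11 h11
  have h13 := wGf1_0_12 h12
  have h14 := wGf1_0_13 h13
  have h15 := wGf1_0_14 h14
  have h16 := wGf1_0_15 h15
  have h17 := wGf1_0_16 h16
  have h18 := wGf1_0_17 h17
  have h19 := wGf1_0_18 h18
  have h20 := wGf1_0_19 h19
  have h21 := wGf1_0_20 h20
  have h22 := wGf1_0_21 h21
  have h23 := wGf1_0_22 h22
  have h24 := wGf1_0_23 h23
  have h25 := wGf1_0_24 h24
  have h26 := wGf1_0_25 h25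
  have h27 := wGf1_0_26 h26
  have h28 := wGf1_0_27 h27
  have h29 := wGf1_0_28 h28
  have h30 := wGf1_0_29 h29
  have h31 := wGf1_0_30 h30
  have h32 := wGf1_0_31 h31
  have h33 := wGf1_0_32 h32
  have h34 := wGf1_0_33 h33
  have h35 := wGf1_1_0 h34
  have h36 := wGf1_1_1 h35
  have h37 := wGf1_1_2 h36
  have h38 := wGf1_1_3 h37
  have h39 := wGf1_1_4 h38
  have h40 := wGf1_1_5 h39
  have h41 := wGf1_1_6 h40
  have h42 := wGf1_1_7 h41
  have h43 := wGf1_1_8 h42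
  have h44 := wGf1_1_9 h43
  have h45 := wGf1_1_10 h44
  have h46 := wGf1_1_11 h45
  have h47 := wGf1_1_12 h46
  have h48 := wGf1_1_13 h47
  exact h48

theorem bGf1 : RtI (ok5 (okB 2 true)) (stD (dnL QGf0) SGf1) RBGf1 529 := by
  have h0 := rtI_zero (ok5 (okB 2 true)) (stD (dnL QGf0) SGf1) RBGf1
  have h1 := uGf1 aGf1 h0 oGf1_0_0 (show 0 + 25 = 25 from rfl)
  have h2 := uGf1 aGf1 h1 oGf1_0_1 (show 25 + 25 = 50 from rfl)
  have h3 := uGf1 aGf1 h2 oGf1_0_2 (show 50 + 25 = 75 from rfl)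
  have h4 := uGf1 aGf1 h3 oGf1_0_3 (show 75 + 25 = 100 from rfl)
  have h5 := uGf1 aGf1 h4 oGf1_0_4 (show 100 + 25 = 125 from rfl)
  have h6 := uGf1 aGf1 h5 oGf1_0_5 (show 125 + 25 = 150 from rfl)
  have h7 := uGf1 aGf1 h6 oGf1_0_6 (show 150 + 25 = 175 from rfl)
  have h8 := uGf1 aGf1 h7 oGf1_0_7 (show 175 + 25 = 200 from rfl)
  have h9 := uGf1 aGf1 h8 oGf1_0_8 (show 200 + 25 = 225 from rfl)
  have h10 := uGf1 aGf1 h9 oGf1_0_9 (show 225 + 25 = 250 from rfl)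
  have h11 := uGf1 aGf1 h10 oGf1_0_10 (show 250 + 25 = 275 from rfl)
  have h12 := uGf1 aGf1 h11 oGf1_0_11 (show 275 + 25 = 300 from rfl)
  have h13 := uGf1 aGf1 h12 oGf1_0_12 (show 300 + 25 = 325 from rfl)
  have h14 := uGf1 aGf1 h13 oGf1_0_13 (show 325 + 25 = 350 from rfl)
  have h15 := uGf1 aGf1 h14 oGf1_0_14 (show 350 + 25 = 375 from rfl)
  have h16 := uGf1 aGf1 h15 oGf1_0_15 (show 375 + 25 = 400 from rfl)
  have h17 := uGf1 aGf1 h16 oGf1_0_16 (show 400 + 25 = 425 from rfl)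
  have h18 := uGf1 aGf1 h17 oGf1_0_17 (show 425 + 25 = 450 from rfl)
  have h19 := uGf1 aGf1 h18 oGf1_0_18 (show 450 + 25 = 475 from rfl)
  have h20 := uGf1 aGf1 h19 oGf1_0_19 (show 475 + 25 = 500 from rfl)
  have h21 := uGf1 aGf1 h20 oGf1_0_20 (show 500 + 25 = 525 from rfl)
  have h22 := uGf1 aGf1 h21 oGf1_0_21 (show 525 + 4 = 529 from rfl)
  exact h22

theorem tGf1 : (TGf1.all okJ) = true := by decide +kernel

theorem pGf1_0 : CkP QGf0 (6, 0x19130c17100b251f06231c05201b03140f09)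
    [6, 4, 3, 3, 2, 0, 0] 64 := by
  have h0 := ckP_zero QGf0 (6, 0x19130c17100b251f06231c05201b03140f09)
    [6, 4, 3, 3, 2, 0, 0]
  have h1 := ckP_step (k := 47) h0 kGf1_0c0 rfl
  have h2 := ckP_step (k := 62) h1 kGf1_0c1 rfl
  have h3 := ckP_step (k := 64) h2 kGf1_0c2 rfl
  exact h3

theorem pGf1_1 : CkP QGf0 (6, 0x19120d16110b251e07221d05211b03150f09)
    [7, 6, 5, 4, 3, 2, 1, 0] 128 := by
  have h0 := ckP_zero QGf0 (6, 0x19120d16110b251e07221d05211b03150f09)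
    [7, 6, 5, 4, 3, 2, 1, 0]
  have h1 := ckP_step (k := 128) h0 kGf1_1c0 rfl
  exact h1

theorem pGf1_2 : CkP QGf0 (6, 0x1010601130c01100b1d16051a1503200f09)
    [4, 3, 2, 1, 0] 16 := by
  have h0 := ckP_zero QGf0 (6, 0x1010601130c01100b1d16051a1503200f09)
    [4, 3, 2, 1, 0]
  have h1 := ckP_step (k := 16) h0 kGf1_2c0 rfl
  exact h1

theorem pGf1_3 : CkP QGf0 (9, 0x12a24010107341712321d0c01231101290b261b042015022d0e08)
    [5, 4, 3, 2, 1, 0] 32 := by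
  have h0 := ckP_zero QGf0 (9, 0x12a24010107341712321d0c01231101290b261b042015022d0e08)
    [5, 4, 3, 2, 1, 0]
  have h1 := ckP_step (k := 32) h0 kGf1_3c0 rfl
  exact h1

theorem pGf1_4 : CkP QGf0 (0xa, 0x1013638312b352412331e0c2e190a281710231d022c1a072620050f0914)
    [6, 5, 4, 3, 2, 1, 0] 64 := by
  have h0 := ckP_zero QGf0 (0xa, 0x1013638312b352412331e0c2e190a281710231d022c1a072620050f0914)
    [6, 5, 4, 3, 2, 1, 0]
  have h1 := ckP_step (k := 64) h0 kGf1_4c0 rfl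
  exact h1

theorem pGf1_5 : CkP QGf0 (0xe, 0x10149463c36514e4244302a4c1e164a2412401c0c3e100634190a3a2e0e23380232281a2c2005260914)
    [3, 2, 1, 0] 8 := by
  have h0 := ckP_zero QGf0 (0xe, 0x10149463c36514e4244302a4c1e164a2412401c0c3e100634190a3a2e0e23380232281a2c2005260914)
    [3, 2, 1, 0]
  have h1 := ckP_step (k := 8) h0 kGf1_5c0 rfl
  exact h1

theorem pGf1_6 : CkP QGf0 (0xa, 0x136233a312b35241f330c062e39022d130801100b1d160528151a260f20)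
    [7, 6, 5, 4, 3, 2, 1, 0] 128 := by
  have h0 := ckP_zero QGf0 (0xa, 0x136233a312b35241f330c062e39022d130801100b1d160528151a260f20)
    [7, 6, 5, 4, 3, 2, 1, 0]
  have h1 := ckP_step (k := 128) h0 kGf1_6c0 rfl
  exact h1

theorem kGf1 : PpI QGf0 6 TGf1 CAGf CBGf 7 := by
  have h0 := ppI_zero QGf0 6 TGf1 CAGf CBGf
  have h1 := ppI_stepV (k' := 1) (q := (6, 0x19130c17100b251f06231c05201b03140f09)) h0 rfl kGf1_0r pGf1_0 kGf1_0m rfl
  have h2 := ppI_stepV (k' := 2) (q := (6, 0x19120d16110b251e07221d05211b03150f09)) h1 rfl kGf1_1r pGf1_1 kGf1_1m rfl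
  have h3 := ppI_stepV (k' := 3) (q := (6, 0x1010601130c01100b1d16051a1503200f09)) h2 rfl kGf1_2r pGf1_2 kGf1_2m rfl
  have h4 := ppI_stepV (k' := 4) (q := (9, 0x12a24010107341712321d0c01231101290b261b042015022d0e08)) h3 rfl kGf1_3r pGf1_3 kGf1_3m rfl
  have h5 := ppI_stepV (k' := 5) (q := (0xa, 0x1013638312b352412331e0c2e190a281710231d022c1a072620050f0914)) h4 rfl kGf1_4r pGf1_4 kGf1_4m rfl
  have h6 := ppI_stepV (k' := 6) (q := (0xe, 0x10149463c36514e4244302a4c1e164a2412401c0c3e100634190a3a2e0e23380232281a2c2005260914)) h5 rfl kGf1_5r pGf1_5 kGf1_5m rfl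
  have h7 := ppI_stepV (k' := 7) (q := (0xa, 0x136233a312b35241f330c062e39022d130801100b1d160528151a260f20)) h6 rfl kGf1_6r pGf1_6 kGf1_6m rfl
  exact h7

theorem zGf1 : (!false || allK QGf0 (fun _ => true) (nzq CBGf)
  0) = true := by decide +kernel

theorem mGf1A : (Nat.ble 2 2 || memI QGf0 0 1 257) = true := by decide +kernel

theorem mGf1B : (Nat.ble 1 2 || memI QGf0 0 1 1) = true := by decide +kernel

/-- **the phase 1** -/
theorem cGf1 : Dj5 CAGf CBGf PLGf (dnL QGf1) :=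
  Dj5.rawP vokAGf vokBGf mclAGf mclBGf mkoGf wfpGf cGf0 mGf1A mGf1B (by norm_num) tGf1 kGf1 lenGf zGf1 bGf1

end EF18
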