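import Pool.Agent.Lib.MP_ef18bd_co.G5.P10

/-!
# Phase 10: closed patterns
-/

namespace EF18

set_option linter.defProp false

def jGf10_0 : j0F QGf9 BGf10 25 0
  0x13c80013c40013ec0013e80013e40013b00013dc000e20000bd4000050101c88201c50201aa4200aac300a9c300a74309338409328409f64409f60409218409f50409ecc408ff44000187 = true := by
  decide +kernel

end EF18
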