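import Pool.Agent.Lib.MP_ef18bd_co.G5.C9
import Pool.Agent.Lib.MP_ef18bd_co.G5.P10x0
import Pool.Agent.Lib.MP_ef18bd_co.G5.P10j0
import Pool.Agent.Lib.MP_ef18bd_co.G5.P10r0
import Pool.Agent.Lib.MP_ef18bd_co.G5.P10k0

/-!
# Phase 10
-/

namespace EF18

theorem aGf10 : ∀ i < 398, Val (stD (dnL QGf9) SGf10) (prc BGf10 i) := by
  have j0 := ents_zeroF QGf9 SGf10 BGf10
  have j1 := ents_dnF (k := 25) j0 jGf10_0 rfl
  have h0 := j1
  have h1 := wGf10_0_0 h0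
  have h2 := wGf10_0_1 h1
  have h3 := wGf10_0_2 h2
  have h4 := wGf10_0_3 h3
  have h5 := wGf10_0_4 h4
  have h6 := wGf10_0_5 h5
  have h7 := wGf10_0_6 h6
  have h8 := wGf10_0_7 h7
  have h9 := wGf10_0_8 h8
  have h10 := wGf10_0_9 h9
  have h11 := wGf10_0_10 h10
  have h12 := wGf10_0_11 h11
  have h13 := wGf10_0_12 h12
  have h14 := wGf10_0_13 h13
  have h15 := wGf10_0_14 h14
  exact h15

theorem bGf10 : RtI (ok5 (okB 1 true)) (stD (dnL QGf9) SGf10) RBGf10 301 := by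
  have h0 := rtI_zero (ok5 (okB 1 true)) (stD (dnL QGf9) SGf10) RBGf10
  have h1 := uGf10 aGf10 h0 oGf10_0_0 (show 0 + 25 = 25 from rfl)
  have h2 := uGf10 aGf10 h1 oGf10_0_1 (show 25 + 25 = 50 from rfl)
  have h3 := uGf10 aGf10 h2 oGf10_0_2 (show 50 + 25 = 75 from rfl)
  have h4 := uGf10 aGf10 h3 oGf10_0_3 (show 75 + 25 = 100 from rfl)
  have h5 := uGf10 aGf10 h4 oGf10_0_4 (show 100 + 25 = 125 from rfl)
  have h6 := uGf10 aGf10 h5 oGf10_0_5 (show 125 + 25 = 150 from rfl)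
  have h7 := uGf10 aGf10 h6 oGf10_0_6 (show 150 + 25 = 175 from rfl)
  have h8 := uGf10 aGf10 h7 oGf10_0_7 (show 175 + 25 = 200 from rfl)
  have h9 := uGf10 aGf10 h8 oGf10_0_8 (show 200 + 25 = 225 from rfl)
  have h10 := uGf10 aGf10 h9 oGf10_0_9 (show 225 + 25 = 250 from rfl)
  have h11 := uGf10 aGf10 h10 oGf10_0_10 (show 250 + 25 = 275 from rfl)
  have h12 := uGf10 aGf10 h11 oGf10_0_11 (show 275 + 25 = 300 from rfl)
  have h13 := uGf10 aGf10 h12 oGf10_0_12 (show 300 + 1 = 301 from rfl)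
  exact h13

theorem tGf10 : (TGf10.all okJ) = true := by decide +kernel

theorem pGf10_0 : CkP QGf9 (6, 0x19130c17100b251f06231c05201b03140f09)
    [6, 5, 4, 0, 0, 0, 0] 64 := by
  have h0 := ckP_zero QGf9 (6, 0x19130c17100b251f06231c05201b03140f09)
    [6, 5, 4, 0, 0, 0, 0]
  have h1 := ckP_step (k := 64) h0 kGf10_0c0 rfl
  exact h1

theorem pGf10_1 : CkP QGf9 (6, 0x19120d16110b251e07221d05211b03150f09)
    [7, 6, 5, 4, 3, 0, 0, 0] 128 := by
  have h0 := ckP_zero QGf9 (6, 0x19120d16110b251e07221d05211b03150f09)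
    [7, 6, 5, 4, 3, 0, 0, 0]
  have h1 := ckP_step (k := 128) h0 kGf10_1c0 rfl
  exact h1

theorem pGf10_2 : CkP QGf9 (6, 0x1010601130c01100b1d16051a1503200f09)
    [4, 3, 2, 1, 0] 16 := by
  have h0 := ckP_zero QGf9 (6, 0x1010601130c01100b1d16051a1503200f09)
    [4, 3, 2, 1, 0]
  have h1 := ckP_step (k := 16) h0 kGf10_2c0 rfl
  exact h1

theorem pGf10_3 : CkP QGf9 (9, 0x12a24010107341712321d0c01231101290b261b042015022d0e08)
    [5, 4, 3, 2, 1, 0] 32 := by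
  have h0 := ckP_zero QGf9 (9, 0x12a24010107341712321d0c01231101290b261b042015022d0e08)
    [5, 4, 3, 2, 1, 0]
  have h1 := ckP_step (k := 32) h0 kGf10_3c0 rfl
  exact h1

theorem pGf10_4 : CkP QGf9 (0xa, 0x1013638312b352412331e0c2e190a281710231d022c1a072620050f0914)
    [6, 5, 4, 0, 0, 0, 0] 64 := by
  have h0 := ckP_zero QGf9 (0xa, 0x1013638312b352412331e0c2e190a281710231d022c1a072620050f0914)
    [6, 5, 4, 0, 0, 0, 0]
  have h1 := ckP_step (k := 64) h0 kGf10_4c0 rfl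
  exact h1

theorem pGf10_5 : CkP QGf9 (0xe, 0x10149463c36514e4244302a4c1e164a2412401c0c3e100634190a3a2e0e23380232281a2c2005260914)
    [3, 2, 1, 0] 8 := by
  have h0 := ckP_zero QGf9 (0xe, 0x10149463c36514e4244302a4c1e164a2412401c0c3e100634190a3a2e0e23380232281a2c2005260914)
    [3, 2, 1, 0]
  have h1 := ckP_step (k := 8) h0 kGf10_5c0 rfl
  exact h1

theorem pGf10_6 : CkP QGf9 (0xa, 0x136233a312b35241f330c062e39022d130801100b1d160528151a260f20)
    [7, 6, 5, 4, 3, 2, 1, 0] 128 := by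
  have h0 := ckP_zero QGf9 (0xa, 0x136233a312b35241f330c062e39022d130801100b1d160528151a260f20)
    [7, 6, 5, 4, 3, 2, 1, 0]
  have h1 := ckP_step (k := 128) h0 kGf10_6c0 rfl
  exact h1

theorem kGf10 : PpI QGf9 6 TGf10 CAGf CBGf 7 := by
  have h0 := ppI_zero QGf9 6 TGf10 CAGf CBGf
  have h1 := ppI_stepV (k' := 1) (q := (6, 0x19130c17100b251f06231c05201b03140f09)) h0 rfl kGf10_0r pGf10_0 kGf10_0m rfl
  have h2 := ppI_stepV (k' := 2) (q := (6, 0x19120d16110b251e07221d05211b03150f09)) h1 rfl kGf10_1r pGf10_1 kGf10_1m rfl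
  have h3 := ppI_stepV (k' := 3) (q := (6, 0x1010601130c01100b1d16051a1503200f09)) h2 rfl kGf10_2r pGf10_2 kGf10_2m rfl
  have h4 := ppI_stepV (k' := 4) (q := (9, 0x12a24010107341712321d0c01231101290b261b042015022d0e08)) h3 rfl kGf10_3r pGf10_3 kGf10_3m rfl
  have h5 := ppI_stepV (k' := 5) (q := (0xa, 0x1013638312b352412331e0c2e190a281710231d022c1a072620050f0914)) h4 rfl kGf10_4r pGf10_4 kGf10_4m rfl
  have h6 := ppI_stepV (k' := 6) (q := (0xe, 0x10149463c36514e4244302a4c1e164a2412401c0c3e100634190a3a2e0e23380232281a2c2005260914)) h5 rfl kGf10_5r pGf10_5 kGf10_5m rfl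
  have h7 := ppI_stepV (k' := 7) (q := (0xa, 0x136233a312b35241f330c062e39022d130801100b1d160528151a260f20)) h6 rfl kGf10_6r pGf10_6 kGf10_6m rfl
  exact h7

theorem zGf10 : (!false || allK QGf9 (fun _ => true) (nzq CBGf)
  0) = true := by decide +kernel

theorem mGf10A : (Nat.ble 2 1 || memI QGf9 5 1 257) = true := by decide +kernel

theorem mGf10B : (Nat.ble 1 1 || memI QGf9 0 1 1) = true := by decide +kernel

/-- **the phase 10** -/
theorem cGf10 : Dj5 CAGf CBGf PLGf (dnL QGf10) :=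
  Dj5.rawP vokAGf vokBGf mclAGf mclBGf mkoGf wfpGf cGf9 mGf10A mGf10B (by norm_num) tGf10 kGf10 lenGf zGf10 bGf10

end EF18
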