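import Pool.Agent.Lib.MP_ef18bd_co.G5.C10
import Pool.Agent.Lib.MP_ef18bd_co.G5.P11x0
import Pool.Agent.Lib.MP_ef18bd_co.G5.P11x1
import Pool.Agent.Lib.MP_ef18bd_co.G5.P11x2
import Pool.Agent.Lib.MP_ef18bd_co.G5.P11x3
import Pool.Agent.Lib.MP_ef18bd_co.G5.P11j0
import Pool.Agent.Lib.MP_ef18bd_co.G5.P11r0
import Pool.Agent.Lib.MP_ef18bd_co.G5.P11k0

/-!
# Phase 11
-/

namespace EF18

theorem aGf11 : ∀ i < 3998, Val (stD (dnL QGf10) SGf11) (prc BGf11 i) := by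
  have j0 := ents_zeroF QGf10 SGf11 BGf11
  have j1 := ents_dnF (k := 100) j0 jGf11_0 rfl
  have j2 := ents_dnF (k := 200) j1 jGf11_1 rfl
  have j3 := ents_dnF (k := 300) j2 jGf11_2 rfl
  have j4 := ents_dnF (k := 400) j3 jGf11_3 rfl
  have j5 := ents_dnF (k := 500) j4 jGf11_4 rfl
  have j6 := ents_dnF (k := 600) j5 jGf11_5 rfl
  have j7 := ents_dnF (k := 700) j6 jGf11_6 rfl
  have j8 := ents_dnF (k := 800) j7 jGf11_7 rfl
  have j9 := ents_dnF (k := 900) j8 jGf11_8 rfl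
  have j10 := ents_dnF (k := 1000) j9 jGf11_9 rfl
  have j11 := ents_dnF (k := 1100) j10 jGf11_10 rfl
  have j12 := ents_dnF (k := 1200) j11 jGf11_11 rfl
  have j13 := ents_dnF (k := 1300) j12 jGf11_12 rfl
  have j14 := ents_dnF (k := 1400) j13 jGf11_13 rfl
  have j15 := ents_dnF (k := 1500) j14 jGf11_14 rfl
  have j16 := ents_dnF (k := 1600) j15 jGf11_15 rfl
  have j17 := ents_dnF (k := 1700) j16 jGf11_16 rfl
  have j18 := ents_dnF (k := 1800) j17 jGf11_17 rfl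
  have j19 := ents_dnF (k := 1900) j18 jGf11_18 rfl
  have j20 := ents_dnF (k := 2000) j19 jGf11_19 rfl
  have j21 := ents_dnF (k := 2100) j20 jGf11_20 rfl
  have j22 := ents_dnF (k := 2200) j21 jGf11_21 rfl
  have j23 := ents_dnF (k := 2300) j22 jGf11_22 rfl
  have j24 := ents_dnF (k := 2400) j23 jGf11_23 rfl
  have j25 := ents_dnF (k := 2500) j24 jGf11_24 rfl
  have j26 := ents_dnF (k := 2600) j25 jGf11_25 rfl
  have j27 := ents_dnF (k := 2616) j26 jGf11_26 rfl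
  have h0 := j27
  have h1 := wGf11_0_0 h0
  have h2 := wGf11_0_1 h1
  have h3 := wGf11_0_2 h2
  have h4 := wGf11_0_3 h3
  have h5 := wGf11_0_4 h4
  have h6 := wGf11_0_5 h5
  have h7 := wGf11_0_6 h6
  have h8 := wGf11_0_7 h7
  have h9 := wGf11_0_8 h8
  have h10 := wGf11_0_9 h9
  have h11 := wGf11_0_10 h10
  have h12 := wGf11_0_11 h11
  have h13 := wGf11_0_12 h12
  have h14 := wGf11_0_13 h13
  have h15 := wGf11_0_14 h14
  have h16 := wGf11_1_0 h15
  have h17 := wGf11_1_1 h16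
  have h18 := wGf11_1_2 h17
  have h19 := wGf11_1_3 h18
  have h20 := wGf11_1_4 h19
  have h21 := wGf11_1_5 h20
  have h22 := wGf11_1_6 h21
  have h23 := wGf11_1_7 h22
  have h24 := wGf11_1_8 h23
  have h25 := wGf11_1_9 h24
  have h26 := wGf11_1_10 h25
  have h27 := wGf11_1_11 h26
  have h28 := wGf11_1_12 h27
  have h29 := wGf11_1_13 h28
  have h30 := wGf11_1_14 h29
  have h31 := wGf11_1_15 h30
  have h32 := wGf11_1_16 h31
  have h33 := wGf11_1_17 h32
  have h34 := wGf11_1_18 h33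
  have h35 := wGf11_1_19 h34
  have h36 := wGf11_2_0 h35
  have h37 := wGf11_2_1 h36
  have h38 := wGf11_2_2 h37
  have h39 := wGf11_2_3 h38
  have h40 := wGf11_2_4 h39
  have h41 := wGf11_2_5 h40
  have h42 := wGf11_2_6 h41
  have h43 := wGf11_2_7 h42
  have h44 := wGf11_2_8 h43
  have h45 := wGf11_2_9 h44
  have h46 := wGf11_2_10 h45
  have h47 := wGf11_2_11 h46
  have h48 := wGf11_2_12 h47
  have h49 := wGf11_2_13 h48
  have h50 := wGf11_2_14 h49
  have h51 := wGf11_2_15 h50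
  have h52 := wGf11_3_0 h51
  have h53 := wGf11_3_1 h52
  have h54 := wGf11_3_2 h53
  have h55 := wGf11_3_3 h54
  have h56 := wGf11_3_4 h55
  have h57 := wGf11_3_5 h56
  exact h57

theorem bGf11 : RtI (ok5 (okB 1 true)) (stD (dnL QGf10) SGf11) RBGf11 318 := by
  have h0 := rtI_zero (ok5 (okB 1 true)) (stD (dnL QGf10) SGf11) RBGf11
  have h1 := uGf11 aGf11 h0 oGf11_0_0 (show 0 + 25 = 25 from rfl)
  have h2 := uGf11 aGf11 h1 oGf11_0_1 (show 25 + 25 = 50 from rfl)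
  have h3 := uGf11 aGf11 h2 oGf11_0_2 (show 50 + 25 = 75 from rfl)
  have h4 := uGf11 aGf11 h3 oGf11_0_3 (show 75 + 25 = 100 from rfl)
  have h5 := uGf11 aGf11 h4 oGf11_0_4 (show 100 + 25 = 125 from rfl)
  have h6 := uGf11 aGf11 h5 oGf11_0_5 (show 125 + 25 = 150 from rfl)
  have h7 := uGf11 aGf11 h6 oGf11_0_6 (show 150 + 25 = 175 from rfl)
  have h8 := uGf11 aGf11 h7 oGf11_0_7 (show 175 + 25 = 200 from rfl)
  have h9 := uGf11 aGf11 h8 oGf11_0_8 (show 200 + 25 = 225 from rfl)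
  have h10 := uGf11 aGf11 h9 oGf11_0_9 (show 225 + 25 = 250 from rfl)
  have h11 := uGf11 aGf11 h10 oGf11_0_10 (show 250 + 25 = 275 from rfl)
  have h12 := uGf11 aGf11 h11 oGf11_0_11 (show 275 + 25 = 300 from rfl)
  have h13 := uGf11 aGf11 h12 oGf11_0_12 (show 300 + 18 = 318 from rfl)
  exact h13

theorem tGf11 : (TGf11.all okJ) = true := by decide +kernel

theorem pGf11_0 : CkP QGf10 (6, 0x19130c17100b251f06231c05201b03140f09)
    [6, 5, 0, 0, 0, 0, 0] 64 := by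
  have h0 := ckP_zero QGf10 (6, 0x19130c17100b251f06231c05201b03140f09)
    [6, 5, 0, 0, 0, 0, 0]
  have h1 := ckP_step (k := 64) h0 kGf11_0c0 rfl
  exact h1

theorem pGf11_1 : CkP QGf10 (6, 0x19120d16110b251e07221d05211b03150f09)
    [4, 3, 5, 4, 3, 0, 0, 0] 128 := by
  have h0 := ckP_zero QGf10 (6, 0x19120d16110b251e07221d05211b03150f09)
    [4, 3, 5, 4, 3, 0, 0, 0]
  have h1 := ckP_step (k := 63) h0 kGf11_1c0 rfl
  have h2 := ckP_step (k := 64) h1 kGf11_1c1 rfl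
  have h3 := ckP_step (k := 95) h2 kGf11_1c2 rfl
  have h4 := ckP_step (k := 96) h3 kGf11_1c3 rfl
  have h5 := ckP_step (k := 111) h4 kGf11_1c4 rfl
  have h6 := ckP_step (k := 112) h5 kGf11_1c5 rfl
  have h7 := ckP_step (k := 119) h6 kGf11_1c6 rfl
  have h8 := ckP_step (k := 120) h7 kGf11_1c7 rfl
  have h9 := ckP_step (k := 123) h8 kGf11_1c8 rfl
  have h10 := ckP_step (k := 124) h9 kGf11_1c9 rfl
  have h11 := ckP_step (k := 125) h10 kGf11_1c10 rfl
  have h12 := ckP_step (k := 126) h11 kGf11_1c11 rfl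
  have h13 := ckP_step (k := 127) h12 kGf11_1c12 rfl
  have h14 := ckP_step (k := 128) h13 kGf11_1c13 rfl
  exact h14

theorem pGf11_2 : CkP QGf10 (6, 0x1010601130c01100b1d16051a1503200f09)
    [4, 3, 2, 1, 0] 16 := by
  have h0 := ckP_zero QGf10 (6, 0x1010601130c01100b1d16051a1503200f09)
    [4, 3, 2, 1, 0]
  have h1 := ckP_step (k := 16) h0 kGf11_2c0 rfl
  exact h1

theorem pGf11_3 : CkP QGf10 (9, 0x12a24010107341712321d0c01231101290b261b042015022d0e08)
    [5, 4, 3, 2, 1, 0] 32 := by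
  have h0 := ckP_zero QGf10 (9, 0x12a24010107341712321d0c01231101290b261b042015022d0e08)
    [5, 4, 3, 2, 1, 0]
  have h1 := ckP_step (k := 32) h0 kGf11_3c0 rfl
  exact h1

theorem pGf11_4 : CkP QGf10 (0xa, 0x1013638312b352412331e0c2e190a281710231d022c1a072620050f0914)
    [4, 3, 4, 0, 0, 0, 0] 64 := by
  have h0 := ckP_zero QGf10 (0xa, 0x1013638312b352412331e0c2e190a281710231d022c1a072620050f0914)
    [4, 3, 4, 0, 0, 0, 0]
  have h1 := ckP_step (k := 47) h0 kGf11_4c0 rfl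
  have h2 := ckP_step (k := 59) h1 kGf11_4c1 rfl
  have h3 := ckP_step (k := 62) h2 kGf11_4c2 rfl
  have h4 := ckP_step (k := 63) h3 kGf11_4c3 rfl
  have h5 := ckP_step (k := 64) h4 kGf11_4c4 rfl
  exact h5

theorem pGf11_5 : CkP QGf10 (0xe, 0x10149463c36514e4244302a4c1e164a2412401c0c3e100634190a3a2e0e23380232281a2c2005260914)
    [0, 1, 0, 0] 8 := by
  have h0 := ckP_zero QGf10 (0xe, 0x10149463c36514e4244302a4c1e164a2412401c0c3e100634190a3a2e0e23380232281a2c2005260914)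
    [0, 1, 0, 0]
  have h1 := ckP_step (k := 8) h0 kGf11_5c0 rfl
  exact h1

theorem pGf11_6 : CkP QGf10 (0xa, 0x136233a312b35241f330c062e39022d130801100b1d160528151a260f20)
    [7, 6, 5, 4, 3, 2, 1, 0] 128 := by
  have h0 := ckP_zero QGf10 (0xa, 0x136233a312b35241f330c062e39022d130801100b1d160528151a260f20)
    [7, 6, 5, 4, 3, 2, 1, 0]
  have h1 := ckP_step (k := 128) h0 kGf11_6c0 rfl
  exact h1

theorem kGf11 : PpI QGf10 6 TGf11 CAGf CBGf 7 := by
  have h0 := ppI_zero QGf10 6 TGf11 CAGf CBGf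
  have h1 := ppI_stepV (k' := 1) (q := (6, 0x19130c17100b251f06231c05201b03140f09)) h0 rfl kGf11_0r pGf11_0 kGf11_0m rfl
  have h2 := ppI_stepV (k' := 2) (q := (6, 0x19120d16110b251e07221d05211b03150f09)) h1 rfl kGf11_1r pGf11_1 kGf11_1m rfl
  have h3 := ppI_stepV (k' := 3) (q := (6, 0x1010601130c01100b1d16051a1503200f09)) h2 rfl kGf11_2r pGf11_2 kGf11_2m rfl
  have h4 := ppI_stepV (k' := 4) (q := (9, 0x12a24010107341712321d0c01231101290b261b042015022d0e08)) h3 rfl kGf11_3r pGf11_3 kGf11_3m rfl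
  have h5 := ppI_stepV (k' := 5) (q := (0xa, 0x1013638312b352412331e0c2e190a281710231d022c1a072620050f0914)) h4 rfl kGf11_4r pGf11_4 kGf11_4m rfl
  have h6 := ppI_stepV (k' := 6) (q := (0xe, 0x10149463c36514e4244302a4c1e164a2412401c0c3e100634190a3a2e0e23380232281a2c2005260914)) h5 rfl kGf11_5r pGf11_5 kGf11_5m rfl
  have h7 := ppI_stepV (k' := 7) (q := (0xa, 0x136233a312b35241f330c062e39022d130801100b1d160528151a260f20)) h6 rfl kGf11_6r pGf11_6 kGf11_6m rfl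
  exact h7

theorem zGf11 : (!false || allK QGf10 (fun _ => true) (nzq CBGf)
  0) = true := by decide +kernel

theorem mGf11A : (Nat.ble 2 1 || memI QGf10 6 1 257) = true := by decide +kernel

theorem mGf11B : (Nat.ble 1 1 || memI QGf10 0 1 1) = true := by decide +kernel

/-- **the phase 11** -/
theorem cGf11 : Dj5 CAGf CBGf PLGf (dnL QGf11) :=
  Dj5.rawP vokAGf vokBGf mclAGf mclBGf mkoGf wfpGf cGf10 mGf11A mGf11B (by norm_num) tGf11 kGf11 lenGf zGf11 bGf11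

end EF18
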