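import Pool.Agent.Lib.MP_ef18bd_co.G5.C11
import Pool.Agent.Lib.MP_ef18bd_co.G5.P12x0
import Pool.Agent.Lib.MP_ef18bd_co.G5.P12x1
import Pool.Agent.Lib.MP_ef18bd_co.G5.P12x2
import Pool.Agent.Lib.MP_ef18bd_co.G5.P12j0
import Pool.Agent.Lib.MP_ef18bd_co.G5.P12r0
import Pool.Agent.Lib.MP_ef18bd_co.G5.P12k0

/-!
# Phase 12
-/

namespace EF18

theorem aGf12 : ∀ i < 3999, Val (stD (dnL QGf11) SGf12) (prc BGf12 i) := by
  have j0 := ents_zeroF QGf11 SGf12 BGf12
  have j1 := ents_dnF (k := 100) j0 jGf12_0 rfl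
  have j2 := ents_dnF (k := 200) j1 jGf12_1 rfl
  have j3 := ents_dnF (k := 300) j2 jGf12_2 rfl
  have j4 := ents_dnF (k := 400) j3 jGf12_3 rfl
  have j5 := ents_dnF (k := 500) j4 jGf12_4 rfl
  have j6 := ents_dnF (k := 600) j5 jGf12_5 rfl
  have j7 := ents_dnF (k := 700) j6 jGf12_6 rfl
  have j8 := ents_dnF (k := 800) j7 jGf12_7 rfl
  have j9 := ents_dnF (k := 900) j8 jGf12_8 rfl
  have j10 := ents_dnF (k := 1000) j9 jGf12_9 rfl
  have j11 := ents_dnF (k := 1100) j10 jGf12_10 rfl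
  have j12 := ents_dnF (k := 1200) j11 jGf12_11 rfl
  have j13 := ents_dnF (k := 1300) j12 jGf12_12 rfl
  have j14 := ents_dnF (k := 1400) j13 jGf12_13 rfl
  have j15 := ents_dnF (k := 1500) j14 jGf12_14 rfl
  have j16 := ents_dnF (k := 1600) j15 jGf12_15 rfl
  have j17 := ents_dnF (k := 1700) j16 jGf12_16 rfl
  have j18 := ents_dnF (k := 1800) j17 jGf12_17 rfl
  have j19 := ents_dnF (k := 1900) j18 jGf12_18 rfl
  have j20 := ents_dnF (k := 2000) j19 jGf12_19 rfl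
  have j21 := ents_dnF (k := 2100) j20 jGf12_20 rfl
  have j22 := ents_dnF (k := 2200) j21 jGf12_21 rfl
  have j23 := ents_dnF (k := 2300) j22 jGf12_22 rfl
  have j24 := ents_dnF (k := 2400) j23 jGf12_23 rfl
  have j25 := ents_dnF (k := 2500) j24 jGf12_24 rfl
  have j26 := ents_dnF (k := 2600) j25 jGf12_25 rfl
  have j27 := ents_dnF (k := 2700) j26 jGf12_26 rfl
  have j28 := ents_dnF (k := 2719) j27 jGf12_27 rfl
  have h0 := j28
  have h1 := wGf12_0_0 h0
  have h2 := wGf12_0_1 h1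
  have h3 := wGf12_0_2 h2
  have h4 := wGf12_0_3 h3
  have h5 := wGf12_0_4 h4
  have h6 := wGf12_0_5 h5
  have h7 := wGf12_0_6 h6
  have h8 := wGf12_0_7 h7
  have h9 := wGf12_0_8 h8
  have h10 := wGf12_0_9 h9
  have h11 := wGf12_0_10 h10
  have h12 := wGf12_0_11 h11
  have h13 := wGf12_0_12 h12
  have h14 := wGf12_0_13 h13
  have h15 := wGf12_0_14 h14
  have h16 := wGf12_0_15 h15
  have h17 := wGf12_1_0 h16
  have h18 := wGf12_1_1 h17
  have h19 := wGf12_1_2 h18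
  have h20 := wGf12_1_3 h19
  have h21 := wGf12_1_4 h20
  have h22 := wGf12_1_5 h21
  have h23 := wGf12_1_6 h22
  have h24 := wGf12_1_7 h23
  have h25 := wGf12_1_8 h24
  have h26 := wGf12_1_9 h25
  have h27 := wGf12_1_10 h26
  have h28 := wGf12_1_11 h27
  have h29 := wGf12_1_12 h28
  have h30 := wGf12_1_13 h29
  have h31 := wGf12_1_14 h30
  have h32 := wGf12_1_15 h31
  have h33 := wGf12_1_16 h32
  have h34 := wGf12_1_17 h33
  have h35 := wGf12_1_18 h34
  have h36 := wGf12_1_19 h35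
  have h37 := wGf12_1_20 h36
  have h38 := wGf12_1_21 h37
  have h39 := wGf12_1_22 h38
  have h40 := wGf12_2_0 h39
  have h41 := wGf12_2_1 h40
  have h42 := wGf12_2_2 h41
  have h43 := wGf12_2_3 h42
  have h44 := wGf12_2_4 h43
  have h45 := wGf12_2_5 h44
  have h46 := wGf12_2_6 h45
  have h47 := wGf12_2_7 h46
  have h48 := wGf12_2_8 h47
  have h49 := wGf12_2_9 h48
  have h50 := wGf12_2_10 h49
  have h51 := wGf12_2_11 h50
  have h52 := wGf12_2_12 h51
  have h53 := wGf12_2_13 h52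
  exact h53

theorem bGf12 : RtI (ok5 (okB 1 true)) (stD (dnL QGf11) SGf12) RBGf12 66 := by
  have h0 := rtI_zero (ok5 (okB 1 true)) (stD (dnL QGf11) SGf12) RBGf12
  have h1 := uGf12 aGf12 h0 oGf12_0_0 (show 0 + 25 = 25 from rfl)
  have h2 := uGf12 aGf12 h1 oGf12_0_1 (show 25 + 25 = 50 from rfl)
  have h3 := uGf12 aGf12 h2 oGf12_0_2 (show 50 + 16 = 66 from rfl)
  exact h3

theorem tGf12 : (TGf12.all okJ) = true := by decide +kernel

theorem pGf12_0 : CkP QGf11 (6, 0x19130c17100b251f06231c05201b03140f09)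
    [6, 5, 0, 0, 0, 0, 0] 64 := by
  have h0 := ckP_zero QGf11 (6, 0x19130c17100b251f06231c05201b03140f09)
    [6, 5, 0, 0, 0, 0, 0]
  have h1 := ckP_step (k := 64) h0 kGf12_0c0 rfl
  exact h1

theorem pGf12_1 : CkP QGf11 (6, 0x19120d16110b251e07221d05211b03150f09)
    [4, 3, 5, 4, 3, 0, 0, 0] 128 := by
  have h0 := ckP_zero QGf11 (6, 0x19120d16110b251e07221d05211b03150f09)
    [4, 3, 5, 4, 3, 0, 0, 0]
  have h1 := ckP_step (k := 63) h0 kGf12_1c0 rfl
  have h2 := ckP_step (k := 64) h1 kGf12_1c1 rfl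
  have h3 := ckP_step (k := 95) h2 kGf12_1c2 rfl
  have h4 := ckP_step (k := 96) h3 kGf12_1c3 rfl
  have h5 := ckP_step (k := 111) h4 kGf12_1c4 rfl
  have h6 := ckP_step (k := 112) h5 kGf12_1c5 rfl
  have h7 := ckP_step (k := 119) h6 kGf12_1c6 rfl
  have h8 := ckP_step (k := 120) h7 kGf12_1c7 rfl
  have h9 := ckP_step (k := 123) h8 kGf12_1c8 rfl
  have h10 := ckP_step (k := 124) h9 kGf12_1c9 rfl
  have h11 := ckP_step (k := 125) h10 kGf12_1c10 rfl
  have h12 := ckP_step (k := 126) h11 kGf12_1c11 rfl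
  have h13 := ckP_step (k := 127) h12 kGf12_1c12 rfl
  have h14 := ckP_step (k := 128) h13 kGf12_1c13 rfl
  exact h14

theorem pGf12_2 : CkP QGf11 (6, 0x1010601130c01100b1d16051a1503200f09)
    [4, 3, 2, 1, 0] 16 := by
  have h0 := ckP_zero QGf11 (6, 0x1010601130c01100b1d16051a1503200f09)
    [4, 3, 2, 1, 0]
  have h1 := ckP_step (k := 16) h0 kGf12_2c0 rfl
  exact h1

theorem pGf12_3 : CkP QGf11 (9, 0x12a24010107341712321d0c01231101290b261b042015022d0e08)
    [5, 4, 3, 2, 1, 0] 32 := by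
  have h0 := ckP_zero QGf11 (9, 0x12a24010107341712321d0c01231101290b261b042015022d0e08)
    [5, 4, 3, 2, 1, 0]
  have h1 := ckP_step (k := 32) h0 kGf12_3c0 rfl
  exact h1

theorem pGf12_4 : CkP QGf11 (0xa, 0x1013638312b352412331e0c2e190a281710231d022c1a072620050f0914)
    [4, 3, 4, 0, 0, 0, 0] 64 := by
  have h0 := ckP_zero QGf11 (0xa, 0x1013638312b352412331e0c2e190a281710231d022c1a072620050f0914)
    [4, 3, 4, 0, 0, 0, 0]
  have h1 := ckP_step (k := 47) h0 kGf12_4c0 rfl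
  have h2 := ckP_step (k := 59) h1 kGf12_4c1 rfl
  have h3 := ckP_step (k := 62) h2 kGf12_4c2 rfl
  have h4 := ckP_step (k := 63) h3 kGf12_4c3 rfl
  have h5 := ckP_step (k := 64) h4 kGf12_4c4 rfl
  exact h5

theorem pGf12_5 : CkP QGf11 (0xe, 0x10149463c36514e4244302a4c1e164a2412401c0c3e100634190a3a2e0e23380232281a2c2005260914)
    [0, 1, 0, 0] 8 := by
  have h0 := ckP_zero QGf11 (0xe, 0x10149463c36514e4244302a4c1e164a2412401c0c3e100634190a3a2e0e23380232281a2c2005260914)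
    [0, 1, 0, 0]
  have h1 := ckP_step (k := 8) h0 kGf12_5c0 rfl
  exact h1

theorem pGf12_6 : CkP QGf11 (0xa, 0x136233a312b35241f330c062e39022d130801100b1d160528151a260f20)
    [7, 6, 5, 4, 3, 2, 1, 0] 128 := by
  have h0 := ckP_zero QGf11 (0xa, 0x136233a312b35241f330c062e39022d130801100b1d160528151a260f20)
    [7, 6, 5, 4, 3, 2, 1, 0]
  have h1 := ckP_step (k := 128) h0 kGf12_6c0 rfl
  exact h1

theorem kGf12 : PpI QGf11 6 TGf12 CAGf CBGf 7 := by
  have h0 := ppI_zero QGf11 6 TGf12 CAGf CBGf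
  have h1 := ppI_stepV (k' := 1) (q := (6, 0x19130c17100b251f06231c05201b03140f09)) h0 rfl kGf12_0r pGf12_0 kGf12_0m rfl
  have h2 := ppI_stepV (k' := 2) (q := (6, 0x19120d16110b251e07221d05211b03150f09)) h1 rfl kGf12_1r pGf12_1 kGf12_1m rfl
  have h3 := ppI_stepV (k' := 3) (q := (6, 0x1010601130c01100b1d16051a1503200f09)) h2 rfl kGf12_2r pGf12_2 kGf12_2m rfl
  have h4 := ppI_stepV (k' := 4) (q := (9, 0x12a24010107341712321d0c01231101290b261b042015022d0e08)) h3 rfl kGf12_3r pGf12_3 kGf12_3m rfl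
  have h5 := ppI_stepV (k' := 5) (q := (0xa, 0x1013638312b352412331e0c2e190a281710231d022c1a072620050f0914)) h4 rfl kGf12_4r pGf12_4 kGf12_4m rfl
  have h6 := ppI_stepV (k' := 6) (q := (0xe, 0x10149463c36514e4244302a4c1e164a2412401c0c3e100634190a3a2e0e23380232281a2c2005260914)) h5 rfl kGf12_5r pGf12_5 kGf12_5m rfl
  have h7 := ppI_stepV (k' := 7) (q := (0xa, 0x136233a312b35241f330c062e39022d130801100b1d160528151a260f20)) h6 rfl kGf12_6r pGf12_6 kGf12_6m rfl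
  exact h7

theorem zGf12 : (!false || allK QGf11 (fun _ => true) (nzq CBGf)
  0) = true := by decide +kernel

theorem mGf12A : (Nat.ble 2 1 || memI QGf11 7 1 257) = true := by decide +kernel

theorem mGf12B : (Nat.ble 1 1 || memI QGf11 0 1 1) = true := by decide +kernel

/-- **the phase 12** -/
theorem cGf12 : Dj5 CAGf CBGf PLGf (dnL QGf12) :=
  Dj5.rawP vokAGf vokBGf mclAGf mclBGf mkoGf wfpGf cGf11 mGf12A mGf12B (by norm_num) tGf12 kGf12 lenGf zGf12 bGf12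

end EF18
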