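import Pool.Agent.Lib.MP_ef18bd_co.G5.C12
import Pool.Agent.Lib.MP_ef18bd_co.G5.P13x0
import Pool.Agent.Lib.MP_ef18bd_co.G5.P13x1
import Pool.Agent.Lib.MP_ef18bd_co.G5.P13j0
import Pool.Agent.Lib.MP_ef18bd_co.G5.P13r0
import Pool.Agent.Lib.MP_ef18bd_co.G5.P13k0

/-!
# Phase 13
-/

namespace EF18

theorem aGf13 : ∀ i < 2353, Val (stD (dnL QGf12) SGf13) (prc BGf13 i) := by
  have j0 := ents_zeroF QGf12 SGf13 BGf13
  have j1 := ents_dnF (k := 100) j0 jGf13_0 rfl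
  have j2 := ents_dnF (k := 200) j1 jGf13_1 rfl
  have j3 := ents_dnF (k := 300) j2 jGf13_2 rfl
  have j4 := ents_dnF (k := 400) j3 jGf13_3 rfl
  have j5 := ents_dnF (k := 500) j4 jGf13_4 rfl
  have j6 := ents_dnF (k := 600) j5 jGf13_5 rfl
  have j7 := ents_dnF (k := 700) j6 jGf13_6 rfl
  have j8 := ents_dnF (k := 800) j7 jGf13_7 rfl
  have j9 := ents_dnF (k := 900) j8 jGf13_8 rfl
  have j10 := ents_dnF (k := 1000) j9 jGf13_9 rfl
  have j11 := ents_dnF (k := 1100) j10 jGf13_10 rfl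
  have j12 := ents_dnF (k := 1200) j11 jGf13_11 rfl
  have j13 := ents_dnF (k := 1300) j12 jGf13_12 rfl
  have j14 := ents_dnF (k := 1400) j13 jGf13_13 rfl
  have j15 := ents_dnF (k := 1441) j14 jGf13_14 rfl
  have h0 := j15
  have h1 := wGf13_0_0 h0
  have h2 := wGf13_0_1 h1
  have h3 := wGf13_0_2 h2
  have h4 := wGf13_0_3 h3
  have h5 := wGf13_0_4 h4
  have h6 := wGf13_0_5 h5
  have h7 := wGf13_0_6 h6
  have h8 := wGf13_0_7 h7
  have h9 := wGf13_0_8 h8
  have h10 := wGf13_0_9 h9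
  have h11 := wGf13_0_10 h10
  have h12 := wGf13_0_11 h11
  have h13 := wGf13_0_12 h12
  have h14 := wGf13_0_13 h13
  have h15 := wGf13_0_14 h14
  have h16 := wGf13_0_15 h15
  have h17 := wGf13_0_16 h16
  have h18 := wGf13_0_17 h17
  have h19 := wGf13_0_18 h18
  have h20 := wGf13_0_19 h19
  have h21 := wGf13_0_20 h20
  have h22 := wGf13_0_21 h21
  have h23 := wGf13_0_22 h22
  have h24 := wGf13_1_0 h23
  have h25 := wGf13_1_1 h24
  have h26 := wGf13_1_2 h25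
  have h27 := wGf13_1_3 h26
  have h28 := wGf13_1_4 h27
  have h29 := wGf13_1_5 h28
  have h30 := wGf13_1_6 h29
  have h31 := wGf13_1_7 h30
  have h32 := wGf13_1_8 h31
  have h33 := wGf13_1_9 h32
  have h34 := wGf13_1_10 h33
  have h35 := wGf13_1_11 h34
  have h36 := wGf13_1_12 h35
  have h37 := wGf13_1_13 h36
  exact h37

theorem bGf13 : RtI (ok5 (okB 1 true)) (stD (dnL QGf12) SGf13) RBGf13 121 := by
  have h0 := rtI_zero (ok5 (okB 1 true)) (stD (dnL QGf12) SGf13) RBGf13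
  have h1 := uGf13 aGf13 h0 oGf13_0_0 (show 0 + 25 = 25 from rfl)
  have h2 := uGf13 aGf13 h1 oGf13_0_1 (show 25 + 25 = 50 from rfl)
  have h3 := uGf13 aGf13 h2 oGf13_0_2 (show 50 + 25 = 75 from rfl)
  have h4 := uGf13 aGf13 h3 oGf13_0_3 (show 75 + 25 = 100 from rfl)
  have h5 := uGf13 aGf13 h4 oGf13_0_4 (show 100 + 21 = 121 from rfl)
  exact h5

theorem tGf13 : (TGf13.all okJ) = true := by decide +kernel

theorem pGf13_0 : CkP QGf12 (6, 0x19130c17100b251f06231c05201b03140f09)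
    [6, 5, 0, 0, 0, 0, 0] 64 := by
  have h0 := ckP_zero QGf12 (6, 0x19130c17100b251f06231c05201b03140f09)
    [6, 5, 0, 0, 0, 0, 0]
  have h1 := ckP_step (k := 64) h0 kGf13_0c0 rfl
  exact h1

theorem pGf13_1 : CkP QGf12 (6, 0x19120d16110b251e07221d05211b03150f09)
    [4, 3, 5, 4, 3, 0, 0, 0] 128 := by
  have h0 := ckP_zero QGf12 (6, 0x19120d16110b251e07221d05211b03150f09)
    [4, 3, 5, 4, 3, 0, 0, 0]
  have h1 := ckP_step (k := 63) h0 kGf13_1c0 rfl
  have h2 := ckP_step (k := 64) h1 kGf13_1c1 rfl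
  have h3 := ckP_step (k := 95) h2 kGf13_1c2 rfl
  have h4 := ckP_step (k := 96) h3 kGf13_1c3 rfl
  have h5 := ckP_step (k := 111) h4 kGf13_1c4 rfl
  have h6 := ckP_step (k := 112) h5 kGf13_1c5 rfl
  have h7 := ckP_step (k := 119) h6 kGf13_1c6 rfl
  have h8 := ckP_step (k := 120) h7 kGf13_1c7 rfl
  have h9 := ckP_step (k := 123) h8 kGf13_1c8 rfl
  have h10 := ckP_step (k := 124) h9 kGf13_1c9 rfl
  have h11 := ckP_step (k := 125) h10 kGf13_1c10 rfl
  have h12 := ckP_step (k := 126) h11 kGf13_1c11 rfl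
  have h13 := ckP_step (k := 127) h12 kGf13_1c12 rfl
  have h14 := ckP_step (k := 128) h13 kGf13_1c13 rfl
  exact h14

theorem pGf13_2 : CkP QGf12 (6, 0x1010601130c01100b1d16051a1503200f09)
    [4, 3, 2, 1, 0] 16 := by
  have h0 := ckP_zero QGf12 (6, 0x1010601130c01100b1d16051a1503200f09)
    [4, 3, 2, 1, 0]
  have h1 := ckP_step (k := 16) h0 kGf13_2c0 rfl
  exact h1

theorem pGf13_3 : CkP QGf12 (9, 0x12a24010107341712321d0c01231101290b261b042015022d0e08)
    [5, 4, 3, 2, 1, 0] 32 := by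
  have h0 := ckP_zero QGf12 (9, 0x12a24010107341712321d0c01231101290b261b042015022d0e08)
    [5, 4, 3, 2, 1, 0]
  have h1 := ckP_step (k := 32) h0 kGf13_3c0 rfl
  exact h1

theorem pGf13_4 : CkP QGf12 (0xa, 0x1013638312b352412331e0c2e190a281710231d022c1a072620050f0914)
    [4, 3, 4, 0, 0, 0, 0] 64 := by
  have h0 := ckP_zero QGf12 (0xa, 0x1013638312b352412331e0c2e190a281710231d022c1a072620050f0914)
    [4, 3, 4, 0, 0, 0, 0]
  have h1 := ckP_step (k := 47) h0 kGf13_4c0 rfl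
  have h2 := ckP_step (k := 59) h1 kGf13_4c1 rfl
  have h3 := ckP_step (k := 62) h2 kGf13_4c2 rfl
  have h4 := ckP_step (k := 63) h3 kGf13_4c3 rfl
  have h5 := ckP_step (k := 64) h4 kGf13_4c4 rfl
  exact h5

theorem pGf13_5 : CkP QGf12 (0xe, 0x10149463c36514e4244302a4c1e164a2412401c0c3e100634190a3a2e0e23380232281a2c2005260914)
    [0, 1, 0, 0] 8 := by
  have h0 := ckP_zero QGf12 (0xe, 0x10149463c36514e4244302a4c1e164a2412401c0c3e100634190a3a2e0e23380232281a2c2005260914)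
    [0, 1, 0, 0]
  have h1 := ckP_step (k := 8) h0 kGf13_5c0 rfl
  exact h1

theorem pGf13_6 : CkP QGf12 (0xa, 0x136233a312b35241f330c062e39022d130801100b1d160528151a260f20)
    [7, 6, 5, 4, 3, 2, 1, 0] 128 := by
  have h0 := ckP_zero QGf12 (0xa, 0x136233a312b35241f330c062e39022d130801100b1d160528151a260f20)
    [7, 6, 5, 4, 3, 2, 1, 0]
  have h1 := ckP_step (k := 128) h0 kGf13_6c0 rfl
  exact h1

theorem kGf13 : PpI QGf12 6 TGf13 CAGf CBGf 7 := by
  have h0 := ppI_zero QGf12 6 TGf13 CAGf CBGf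
  have h1 := ppI_stepV (k' := 1) (q := (6, 0x19130c17100b251f06231c05201b03140f09)) h0 rfl kGf13_0r pGf13_0 kGf13_0m rfl
  have h2 := ppI_stepV (k' := 2) (q := (6, 0x19120d16110b251e07221d05211b03150f09)) h1 rfl kGf13_1r pGf13_1 kGf13_1m rfl
  have h3 := ppI_stepV (k' := 3) (q := (6, 0x1010601130c01100b1d16051a1503200f09)) h2 rfl kGf13_2r pGf13_2 kGf13_2m rfl
  have h4 := ppI_stepV (k' := 4) (q := (9, 0x12a24010107341712321d0c01231101290b261b042015022d0e08)) h3 rfl kGf13_3r pGf13_3 kGf13_3m rfl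
  have h5 := ppI_stepV (k' := 5) (q := (0xa, 0x1013638312b352412331e0c2e190a281710231d022c1a072620050f0914)) h4 rfl kGf13_4r pGf13_4 kGf13_4m rfl
  have h6 := ppI_stepV (k' := 6) (q := (0xe, 0x10149463c36514e4244302a4c1e164a2412401c0c3e100634190a3a2e0e23380232281a2c2005260914)) h5 rfl kGf13_5r pGf13_5 kGf13_5m rfl
  have h7 := ppI_stepV (k' := 7) (q := (0xa, 0x136233a312b35241f330c062e39022d130801100b1d160528151a260f20)) h6 rfl kGf13_6r pGf13_6 kGf13_6m rfl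
  exact h7

theorem zGf13 : (!false || allK QGf12 (fun _ => true) (nzq CBGf)
  0) = true := by decide +kernel

theorem mGf13A : (Nat.ble 2 1 || memI QGf12 8 1 257) = true := by decide +kernel

theorem mGf13B : (Nat.ble 1 1 || memI QGf12 0 1 1) = true := by decide +kernel

/-- **the phase 13** -/
theorem cGf13 : Dj5 CAGf CBGf PLGf (dnL QGf13) :=
  Dj5.rawP vokAGf vokBGf mclAGf mclBGf mkoGf wfpGf cGf12 mGf13A mGf13B (by norm_num) tGf13 kGf13 lenGf zGf13 bGf13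

end EF18
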