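import Pool.Agent.Lib.MP_ef18bd_co.G5.P14

/-!
# Phase 14: closed patterns
-/

namespace EF18

set_option linter.defProp false

def jGf14_0 : j0F QGf13 BGf14 100 0
  0x3c0200b40700b3c700b38700b34700b30700b2c700b28700b24700b20700b1c700b18700b14700b10700b0c700b087003bc200afc700af8700af4700af07003b8200ae8700ae07003b42003b02003ac2003a8200ab47003a4200ab0700aa4700aa0700a6c700a64700a60700a347003a0200a0870039c2009a070098070095c70094870093470065c709cac809ca8809ca4809ca0809c9c809c98809c94809c90809c8c809c88809c84809c80809c7c809c78809c34809c30809c2c809c28809c24809c20809c1c809c18809c14809af4809af0809aec809ae8809ae4809ae0809adc809ad880998080997c80997880997480997080996c80996880996480996080995c80990c809908809670809114800398208fe080039420039020038c20014cc0012cc0001cc00054d = true := by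
  decide +kernel

def jGf14_1 : j0F QGf13 BGf14 100 100
  0x15a470159c70159870159470159070158c70043420158470158070157c70157870043020042c2004282004242014587014147014107004202013c07013b87013b47013b07013ac70041c2004182013a070139070041420041020040c20040820138c70138870138470138070137c70137870137470137070040420136c70136870040020136070135c7003fc2003f82013487013447013247013207003f42003f02003ec2003e82013087013047013007012fc7012e07012dc7012d87012d47012c47012b470126070125070124c7012487012447003e42011c47011ac7011987011807003e0201158701148700d20700d1c7003dc2003d8200cfc700cbc700cb8700ca0700c64700c54700c047003d4200c00700bfc700bf8700bf07003d02003cc2003c82003c4200b847 = true := by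
  decide +kernel

def jGf14_2 : j0F QGf13 BGf14 100 200
  0x4b040008400008000007c0004a84000780000740004a040049c40007000006c0000680004784004684004304000640003f84003f44003d840004050003c5000385000ac1000305000a81000a410002050001c5000185000a010001050000050009c1000981000941019e060179c60009010008c100eac600ea8600088100ea4600ea0600e9c600084100e98600e94600e90600e8c600e8860008010007c100078100074100e78600e74600e6060007010006c100068100064100060100d8c600d88600d7c60090860005c1009006008fc6008f86008f46008f06008ec6008e86000581000541008bc6008b86000501008906008886008646007d06016007015fc7015f87015f47015f07004442015dc7004402015d070043c2015cc7004382015c07015b87015b47015b07 = true := by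
  decide +kernel

def jGf14_3 : j0F QGf13 BGf14 100 300
  0x13400093c40093040013000012c0009044009004008fc4008f84008f44001280001240008dc4008d44008ac4008a44008a040089c40012000089840087c40011c00087040086c40086840086440086040085440084440084040083840083440083040011800082040081c40011400081840081440081040080c40011000080040010c0001080001040007504001000000fc0000f80000f40007404000f00000ec0000e80000e40000e00000dc0006f44006f04006ec4000d80006e04006d84006a84006a44006a040069c4000d40000d00000cc0000c80000c400052440050c4000c00005084000bc0000b80000b40000b00000ac0000a80005004000a40004fc4004f84004f44004f04000a000009c0000980000940004d04000900004bc40008c0004b84004b44000880 = true := by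
  decide +kernel

def jGf14_4 : j0F QGf13 BGf14 100 400
  0x1b0000be04001ac000bd44001a8000bcc400bc84001a40001a000019c000bac400ba8400ba4400198000b64400ab4400194000ab0400aac400aa840019000018c000188000a90400a8c40018400018000017c000178000a80400174000a7c400a78400a74400170000a6c40016c000a68400168000164000a58400160000a5040015c000a4c400a48400a44400158000a40400154000a34400a30400a2c400a28400a24400a20400a1c400a18400a14400a10400a0c400a08400a0440015000014c0001480009fc4009f84009f44009f04009ec4009e84009e44009e04009dc4009d84009d44009d04009cc4009c84009c44009c04009bc4001440009a84009a440099c40014000013c00099040098c40098840098440098040097c40097840097440013800095040094c4 = true := by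
  decide +kernel

def jGf14_5 : j0F QGf13 BGf14 60 500
  0x33820032c20006000031c2002b82000101002ac2002a82002942002882002782000001002602002102001e0007070806fe0806fd880009c70008c7000107000087004943003ac3003a830039030031c3003183002e83001dc000ee4400ee0400edc400ed8400ed4400ed0400ecc400ec8400ec0400ebc4001d8000eb8400eb4400eb0400eac400ea44001d4000ea04001d0000e984001cc000e94400e8c400e884001c80001c40001c00001bc0001b80001b40 = true := by
  decide +kernel

end EF18
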