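import Pool.Agent.Lib.MP_ef18bd_co.G5.P14

/-!
# Phase 14: roots
-/

namespace EF18

set_option linter.defProp false

def oGf14_0_0 : rGf14 0 25
  0xb0aca8a4a09c9894908c8884807c7874706c6864605c58544c504840443c3834302c28241c201810140c0804009112f0b8b4bcacb0a8a4a09c989490807c788c888474706c6860645c585440443c504c482c242838343010140c1c20180800048d9320b0aca8a4a09c9490988c8884807c7874706c6860645c585440443c504c482c282438343010140c1c20180800048ed2f0b0aca8a4a09c9490988c8884807c7874706c6860645c585440443c504c482c242838343010140c1c20180800049f12f0a4a09c9098948c8884807c7874706c6860645c585440443c504c482c242838343010140c1c20180800049012c0a4a09c9894908c8884807c7874706c6860645c585440443c504c482c282438343010140c1c2018080004a052c0b8bcb4acb0a8a4a09c9894908c8884807c7874706c6864605c58544c504844403c3830342c28241c201810140c0804008d9320b0aca8a4a09c9490988c8884807c7874706c6864605c58544c504844403c3830342c28241c201810140c0804009f12f0a4a09c9098948c8884807c7874706c6864605c58544c504844403c3830342c28241c201810140c0804009012c0b0aca8a4a09c9490988c8884807c7874706c6864605c58544c504844403c3834302c28241c201810140c0804008ed2f0a4a09c9894908c8884807c7874706c6864605c58544c504844403c3834302c28241c201810140c080400a052c07470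6c6860645c5854504c4844403c2c24283834300c1014201c180004089c920074706c6860645c5854504c4844403c3834302c242818201c10140c0400089c920074706c686064504c485c585444403c2c24283830340c101418201c0004089b520074706c6864605c5854504c4844403c3834302c282418201c0c10140400089b5200807c789890948c88842c24281c20183430380400080c1014545c58746c706468603c404448504c8d12909894908c8884807c78746c706864605c5854504c4844403c3834302c2428201c1814100c0804008d129074706c6860645c585440443c504c482c282438343010140c1c2018080004bd120074706c6864605c58544c504844403c3834302c28241c201810140c080400bd120074706c6860645c585444403c504c482c282438303410140c1c201808000494520074706c6864605c5854504c4844403c3834302c24281c201810140c08040094520080787c5c585468646074706c50484c1c20182c2428303438443c4008000410140cc45230807c7874706c5c5854686460504c48343830443c40181c202c2428140c10040800c4523080787c5c585474706c68646050484c2c28241c18203c444034303804000814100cc45230807c7874706c6864605c5854504c4844403c343038242c281c1820100c14080400c4523 = true := by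
  decide +kernel

def oGf14_0_1 : rGf14 25 3
  0xb8bcb4acb0a8a4a09c9894908c8884807c7874706c6864605c58544c504840443c3834302c28241c201810140c0804008e9320b0aca8a0a49c989490807c788c888474706c6860645c585440443c4c50482c282438343010140c1c20180800049192f0b0aca8a0a49c9894908c8884807c7874706c6864605c58544c504840443c3834302c28241c201810140c0804009192f = true := by
  decide +kernel

end EF18
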