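import Pool.Agent.Lib.MP_ef18bd_co.G5.C13
import Pool.Agent.Lib.MP_ef18bd_co.G5.P14x0
import Pool.Agent.Lib.MP_ef18bd_co.G5.P14j0
import Pool.Agent.Lib.MP_ef18bd_co.G5.P14r0
import Pool.Agent.Lib.MP_ef18bd_co.G5.P14k0

/-!
# Phase 14
-/

namespace EF18

theorem aGf14 : ∀ i < 786, Val (stD (dnL QGf13) SGf14) (prc BGf14 i) := by
  have j0 := ents_zeroF QGf13 SGf14 BGf14
  have j1 := ents_dnF (k := 100) j0 jGf14_0 rfl
  have j2 := ents_dnF (k := 200) j1 jGf14_1 rfl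
  have j3 := ents_dnF (k := 300) j2 jGf14_2 rfl
  have j4 := ents_dnF (k := 400) j3 jGf14_3 rfl
  have j5 := ents_dnF (k := 500) j4 jGf14_4 rfl
  have j6 := ents_dnF (k := 560) j5 jGf14_5 rfl
  have h0 := j6
  have h1 := wGf14_0_0 h0
  have h2 := wGf14_0_1 h1
  have h3 := wGf14_0_2 h2
  have h4 := wGf14_0_3 h3
  have h5 := wGf14_0_4 h4
  have h6 := wGf14_0_5 h5
  have h7 := wGf14_0_6 h6
  have h8 := wGf14_0_7 h7
  have h9 := wGf14_0_8 h8
  have h10 := wGf14_0_9 h9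
  exact h10

theorem bGf14 : RtI (ok5 (okB 1 true)) (stD (dnL QGf13) SGf14) RBGf14 28 := by
  have h0 := rtI_zero (ok5 (okB 1 true)) (stD (dnL QGf13) SGf14) RBGf14
  have h1 := uGf14 aGf14 h0 oGf14_0_0 (show 0 + 25 = 25 from rfl)
  have h2 := uGf14 aGf14 h1 oGf14_0_1 (show 25 + 3 = 28 from rfl)
  exact h2

theorem tGf14 : (TGf14.all okJ) = true := by decide +kernel

theorem pGf14_0 : CkP QGf13 (6, 0x19130c17100b251f06231c05201b03140f09)
    [6, 2, 0, 0, 0, 0, 0] 64 := by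
  have h0 := ckP_zero QGf13 (6, 0x19130c17100b251f06231c05201b03140f09)
    [6, 2, 0, 0, 0, 0, 0]
  have h1 := ckP_step (k := 47) h0 kGf14_0c0 rfl
  have h2 := ckP_step (k := 59) h1 kGf14_0c1 rfl
  have h3 := ckP_step (k := 62) h2 kGf14_0c2 rfl
  have h4 := ckP_step (k := 64) h3 kGf14_0c3 rfl
  exact h4

theorem pGf14_1 : CkP QGf13 (6, 0x19120d16110b251e07221d05211b03150f09)
    [4, 3, 2, 4, 3, 0, 0, 0] 128 := by
  have h0 := ckP_zero QGf13 (6, 0x19120d16110b251e07221d05211b03150f09)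
    [4, 3, 2, 4, 3, 0, 0, 0]
  have h1 := ckP_step (k := 48) h0 kGf14_1c0 rfl
  have h2 := ckP_step (k := 63) h1 kGf14_1c1 rfl
  have h3 := ckP_step (k := 64) h2 kGf14_1c2 rfl
  have h4 := ckP_step (k := 94) h3 kGf14_1c3 rfl
  have h5 := ckP_step (k := 95) h4 kGf14_1c4 rfl
  have h6 := ckP_step (k := 96) h5 kGf14_1c5 rfl
  have h7 := ckP_step (k := 111) h6 kGf14_1c6 rfl
  have h8 := ckP_step (k := 112) h7 kGf14_1c7 rfl
  have h9 := ckP_step (k := 119) h8 kGf14_1c8 rfl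
  have h10 := ckP_step (k := 120) h9 kGf14_1c9 rfl
  have h11 := ckP_step (k := 123) h10 kGf14_1c10 rfl
  have h12 := ckP_step (k := 124) h11 kGf14_1c11 rfl
  have h13 := ckP_step (k := 125) h12 kGf14_1c12 rfl
  have h14 := ckP_step (k := 126) h13 kGf14_1c13 rfl
  have h15 := ckP_step (k := 127) h14 kGf14_1c14 rfl
  have h16 := ckP_step (k := 128) h15 kGf14_1c15 rfl
  exact h16

theorem pGf14_2 : CkP QGf13 (6, 0x1010601130c01100b1d16051a1503200f09)
    [3, 3, 2, 1, 0] 16 := by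
  have h0 := ckP_zero QGf13 (6, 0x1010601130c01100b1d16051a1503200f09)
    [3, 3, 2, 1, 0]
  have h1 := ckP_step (k := 16) h0 kGf14_2c0 rfl
  exact h1

theorem pGf14_3 : CkP QGf13 (9, 0x12a24010107341712321d0c01231101290b261b042015022d0e08)
    [5, 4, 3, 2, 1, 0] 32 := by
  have h0 := ckP_zero QGf13 (9, 0x12a24010107341712321d0c01231101290b261b042015022d0e08)
    [5, 4, 3, 2, 1, 0]
  have h1 := ckP_step (k := 32) h0 kGf14_3c0 rfl
  exact h1

theorem pGf14_4 : CkP QGf13 (0xa, 0x1013638312b352412331e0c2e190a281710231d022c1a072620050f0914)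
    [4, 3, 2, 0, 0, 0, 0] 64 := by
  have h0 := ckP_zero QGf13 (0xa, 0x1013638312b352412331e0c2e190a281710231d022c1a072620050f0914)
    [4, 3, 2, 0, 0, 0, 0]
  have h1 := ckP_step (k := 47) h0 kGf14_4c0 rfl
  have h2 := ckP_step (k := 63) h1 kGf14_4c1 rfl
  have h3 := ckP_step (k := 64) h2 kGf14_4c2 rfl
  exact h3

theorem pGf14_5 : CkP QGf13 (0xe, 0x10149463c36514e4244302a4c1e164a2412401c0c3e100634190a3a2e0e23380232281a2c2005260914)
    [0, 0, 0, 0] 8 := by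
  have h0 := ckP_zero QGf13 (0xe, 0x10149463c36514e4244302a4c1e164a2412401c0c3e100634190a3a2e0e23380232281a2c2005260914)
    [0, 0, 0, 0]
  have h1 := ckP_step (k := 8) h0 kGf14_5c0 rfl
  exact h1

theorem pGf14_6 : CkP QGf13 (0xa, 0x136233a312b35241f330c062e39022d130801100b1d160528151a260f20)
    [7, 6, 5, 4, 3, 2, 1, 0] 128 := by
  have h0 := ckP_zero QGf13 (0xa, 0x136233a312b35241f330c062e39022d130801100b1d160528151a260f20)
    [7, 6, 5, 4, 3, 2, 1, 0]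
  have h1 := ckP_step (k := 128) h0 kGf14_6c0 rfl
  exact h1

theorem kGf14 : PpI QGf13 6 TGf14 CAGf CBGf 7 := by
  have h0 := ppI_zero QGf13 6 TGf14 CAGf CBGf
  have h1 := ppI_stepV (k' := 1) (q := (6, 0x19130c17100b251f06231c05201b03140f09)) h0 rfl kGf14_0r pGf14_0 kGf14_0m rfl
  have h2 := ppI_stepV (k' := 2) (q := (6, 0x19120d16110b251e07221d05211b03150f09)) h1 rfl kGf14_1r pGf14_1 kGf14_1m rfl
  have h3 := ppI_stepV (k' := 3) (q := (6, 0x1010601130c01100b1d16051a1503200f09)) h2 rfl kGf14_2r pGf14_2 kGf14_2m rfl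
  have h4 := ppI_stepV (k' := 4) (q := (9, 0x12a24010107341712321d0c01231101290b261b042015022d0e08)) h3 rfl kGf14_3r pGf14_3 kGf14_3m rfl
  have h5 := ppI_stepV (k' := 5) (q := (0xa, 0x1013638312b352412331e0c2e190a281710231d022c1a072620050f0914)) h4 rfl kGf14_4r pGf14_4 kGf14_4m rfl
  have h6 := ppI_stepV (k' := 6) (q := (0xe, 0x10149463c36514e4244302a4c1e164a2412401c0c3e100634190a3a2e0e23380232281a2c2005260914)) h5 rfl kGf14_5r pGf14_5 kGf14_5m rfl
  have h7 := ppI_stepV (k' := 7) (q := (0xa, 0x136233a312b35241f330c062e39022d130801100b1d160528151a260f20)) h6 rfl kGf14_6r pGf14_6 kGf14_6m rfl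
  exact h7

theorem zGf14 : (!false || allK QGf13 (fun _ => true) (nzq CBGf)
  0) = true := by decide +kernel

theorem mGf14A : (Nat.ble 2 1 || memI QGf13 9 1 257) = true := by decide +kernel

theorem mGf14B : (Nat.ble 1 1 || memI QGf13 0 1 1) = true := by decide +kernel

/-- **the phase 14** -/
theorem cGf14 : Dj5 CAGf CBGf PLGf (dnL QGf14) :=
  Dj5.rawP vokAGf vokBGf mclAGf mclBGf mkoGf wfpGf cGf13 mGf14A mGf14B (by norm_num) tGf14 kGf14 lenGf zGf14 bGf14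

end EF18
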