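import Pool.Agent.Lib.MP_ef18bd_co.G5.P15

/-!
# Phase 15: closed patterns
-/

namespace EF18

set_option linter.defProp false

def jGf15_0 : j0F QGf14 BGf15 4 0
  0x6c0000000091b09091ac9 = true := by
  decide +kernel

end EF18
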