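import Pool.Agent.Lib.MP_ef18bd_co.G5.P15

/-!
# Phase 15: roots
-/

namespace EF18

set_option linter.defProp false

def oGf15_0_0 : rGf15 0 3
  0xacb0a8a0a49c9894908c8884807c7874706c6864605c5854504c4844403c3830342c282420181c100c140400080152f0acb0a8a0a49c9894908c8488746c7080787c5c585468646050484c2c282420181c44403c383034040008100c140152f0acb0a8a0a49c98949080787c6860648c8488504c4874706c5c5458282c24100c1438303444403c00040820181c0152f = true := by
  decide +kernel

end EF18
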