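import Pool.Agent.Lib.MP_ef18bd_co.G5.P15

/-!
# Phase 15: entries
-/

namespace EF18

set_option linter.defProp false

def vGf15_0_0_0 : gGf15 [(0x28409,
  0x3070202070270dda330000570dda330000570dda3300005d001d001d001030702020702cc01cc01cc010307020207020307020207026ad193100005c8010f0702030702020702c40103c40b030307020307020307020207020c07020a4a09c909894b0aca8040008100c145c58546c707460686444403c38343050484c0092302840b0302840b0302840b03)] 4 = true := by decide +kernel

def vGf15_0_0_1 : gGf15 [(0x68,
  0xbcb8b4b0aca8a4a09c9894908c8884807c7874706c6864605c5854504c4844403c3834302c2824201c1814100c080400001320acb0a8a0a49c9894908c88845c585480787c50484c746c70bcb8b4201c1840443c242c280008043038340c101468646000d3202000b033a702830000502000b0301000b030b0aca89ca4a09894908c8884807c786864605c5854504c4840443c3834302c2824201c1814100c0804000052c)] 5 = true := by decide +kernel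

theorem wGf15_0_0 (h0 : ∀ i < 4, Val (stD (dnL QGf14) SGf15) (prc BGf15 i)) :
    ∀ i < 6, Val (stD (dnL QGf14) SGf15) (prc BGf15 i) := by
  have h1 := iGf15 (k := 5) h0 vGf15_0_0_0 rfl
  have h2 := iGf15 (k := 6) h1 vGf15_0_0_1 rfl
  exact h2

end EF18
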