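import Pool.Agent.Lib.MP_ef18bd_co.G5.C14
import Pool.Agent.Lib.MP_ef18bd_co.G5.P15x0
import Pool.Agent.Lib.MP_ef18bd_co.G5.P15j0
import Pool.Agent.Lib.MP_ef18bd_co.G5.P15r0
import Pool.Agent.Lib.MP_ef18bd_co.G5.P15k0

/-!
# Phase 15
-/

namespace EF18

theorem aGf15 : ∀ i < 6, Val (stD (dnL QGf14) SGf15) (prc BGf15 i) := by
  have j0 := ents_zeroF QGf14 SGf15 BGf15
  have j1 := ents_dnF (k := 4) j0 jGf15_0 rfl
  have h0 := j1
  have h1 := wGf15_0_0 h0
  exact h1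

theorem bGf15 : RtI (ok5 (okB 1 true)) (stD (dnL QGf14) SGf15) RBGf15 3 := by
  have h0 := rtI_zero (ok5 (okB 1 true)) (stD (dnL QGf14) SGf15) RBGf15
  have h1 := uGf15 aGf15 h0 oGf15_0_0 (show 0 + 3 = 3 from rfl)
  exact h1

theorem tGf15 : (TGf15.all okJ) = true := by decide +kernel

theorem pGf15_0 : CkP QGf14 (6, 0x19130c17100b251f06231c05201b03140f09)
    [6, 2, 0, 0, 0, 0, 0] 64 := by
  have h0 := ckP_zero QGf14 (6, 0x19130c17100b251f06231c05201b03140f09)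
    [6, 2, 0, 0, 0, 0, 0]
  have h1 := ckP_step (k := 47) h0 kGf15_0c0 rfl
  have h2 := ckP_step (k := 59) h1 kGf15_0c1 rfl
  have h3 := ckP_step (k := 62) h2 kGf15_0c2 rfl
  have h4 := ckP_step (k := 64) h3 kGf15_0c3 rfl
  exact h4

theorem pGf15_1 : CkP QGf14 (6, 0x19120d16110b251e07221d05211b03150f09)
    [4, 3, 2, 4, 3, 0, 0, 0] 128 := by
  have h0 := ckP_zero QGf14 (6, 0x19120d16110b251e07221d05211b03150f09)
    [4, 3, 2, 4, 3, 0, 0, 0]
  have h1 := ckP_step (k := 62) h0 kGf15_1c0 rfl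
  have h2 := ckP_step (k := 63) h1 kGf15_1c1 rfl
  have h3 := ckP_step (k := 64) h2 kGf15_1c2 rfl
  have h4 := ckP_step (k := 95) h3 kGf15_1c3 rfl
  have h5 := ckP_step (k := 96) h4 kGf15_1c4 rfl
  have h6 := ckP_step (k := 111) h5 kGf15_1c5 rfl
  have h7 := ckP_step (k := 112) h6 kGf15_1c6 rfl
  have h8 := ckP_step (k := 119) h7 kGf15_1c7 rfl
  have h9 := ckP_step (k := 120) h8 kGf15_1c8 rfl
  have h10 := ckP_step (k := 123) h9 kGf15_1c9 rfl
  have h11 := ckP_step (k := 124) h10 kGf15_1c10 rfl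
  have h12 := ckP_step (k := 125) h11 kGf15_1c11 rfl
  have h13 := ckP_step (k := 126) h12 kGf15_1c12 rfl
  have h14 := ckP_step (k := 127) h13 kGf15_1c13 rfl
  have h15 := ckP_step (k := 128) h14 kGf15_1c14 rfl
  exact h15

theorem pGf15_2 : CkP QGf14 (6, 0x1010601130c01100b1d16051a1503200f09)
    [3, 3, 2, 1, 0] 16 := by
  have h0 := ckP_zero QGf14 (6, 0x1010601130c01100b1d16051a1503200f09)
    [3, 3, 2, 1, 0]
  have h1 := ckP_step (k := 16) h0 kGf15_2c0 rfl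
  exact h1

theorem pGf15_3 : CkP QGf14 (9, 0x12a24010107341712321d0c01231101290b261b042015022d0e08)
    [5, 4, 3, 2, 1, 0] 32 := by
  have h0 := ckP_zero QGf14 (9, 0x12a24010107341712321d0c01231101290b261b042015022d0e08)
    [5, 4, 3, 2, 1, 0]
  have h1 := ckP_step (k := 32) h0 kGf15_3c0 rfl
  exact h1

theorem pGf15_4 : CkP QGf14 (0xa, 0x1013638312b352412331e0c2e190a281710231d022c1a072620050f0914)
    [4, 3, 2, 0, 0, 0, 0] 64 := by
  have h0 := ckP_zero QGf14 (0xa, 0x1013638312b352412331e0c2e190a281710231d022c1a072620050f0914)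
    [4, 3, 2, 0, 0, 0, 0]
  have h1 := ckP_step (k := 47) h0 kGf15_4c0 rfl
  have h2 := ckP_step (k := 63) h1 kGf15_4c1 rfl
  have h3 := ckP_step (k := 64) h2 kGf15_4c2 rfl
  exact h3

theorem pGf15_5 : CkP QGf14 (0xe, 0x10149463c36514e4244302a4c1e164a2412401c0c3e100634190a3a2e0e23380232281a2c2005260914)
    [0, 0, 0, 0] 8 := by
  have h0 := ckP_zero QGf14 (0xe, 0x10149463c36514e4244302a4c1e164a2412401c0c3e100634190a3a2e0e23380232281a2c2005260914)
    [0, 0, 0, 0]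
  have h1 := ckP_step (k := 8) h0 kGf15_5c0 rfl
  exact h1

theorem pGf15_6 : CkP QGf14 (0xa, 0x136233a312b35241f330c062e39022d130801100b1d160528151a260f20)
    [7, 6, 5, 4, 3, 2, 1, 0] 128 := by
  have h0 := ckP_zero QGf14 (0xa, 0x136233a312b35241f330c062e39022d130801100b1d160528151a260f20)
    [7, 6, 5, 4, 3, 2, 1, 0]
  have h1 := ckP_step (k := 128) h0 kGf15_6c0 rfl
  exact h1

theorem kGf15 : PpI QGf14 6 TGf15 CAGf CBGf 7 := by
  have h0 := ppI_zero QGf14 6 TGf15 CAGf CBGf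
  have h1 := ppI_stepV (k' := 1) (q := (6, 0x19130c17100b251f06231c05201b03140f09)) h0 rfl kGf15_0r pGf15_0 kGf15_0m rfl
  have h2 := ppI_stepV (k' := 2) (q := (6, 0x19120d16110b251e07221d05211b03150f09)) h1 rfl kGf15_1r pGf15_1 kGf15_1m rfl
  have h3 := ppI_stepV (k' := 3) (q := (6, 0x1010601130c01100b1d16051a1503200f09)) h2 rfl kGf15_2r pGf15_2 kGf15_2m rfl
  have h4 := ppI_stepV (k' := 4) (q := (9, 0x12a24010107341712321d0c01231101290b261b042015022d0e08)) h3 rfl kGf15_3r pGf15_3 kGf15_3m rfl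
  have h5 := ppI_stepV (k' := 5) (q := (0xa, 0x1013638312b352412331e0c2e190a281710231d022c1a072620050f0914)) h4 rfl kGf15_4r pGf15_4 kGf15_4m rfl
  have h6 := ppI_stepV (k' := 6) (q := (0xe, 0x10149463c36514e4244302a4c1e164a2412401c0c3e100634190a3a2e0e23380232281a2c2005260914)) h5 rfl kGf15_5r pGf15_5 kGf15_5m rfl
  have h7 := ppI_stepV (k' := 7) (q := (0xa, 0x136233a312b35241f330c062e39022d130801100b1d160528151a260f20)) h6 rfl kGf15_6r pGf15_6 kGf15_6m rfl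
  exact h7

theorem zGf15 : (!false || allK QGf14 (fun _ => true) (nzq CBGf)
  0) = true := by decide +kernel

theorem mGf15A : (Nat.ble 2 1 || memI QGf14 10 1 257) = true := by decide +kernel

theorem mGf15B : (Nat.ble 1 1 || memI QGf14 0 1 1) = true := by decide +kernel

/-- **the phase 15** -/
theorem cGf15 : Dj5 CAGf CBGf PLGf (dnL QGf15) :=
  Dj5.rawP vokAGf vokBGf mclAGf mclBGf mkoGf wfpGf cGf14 mGf15A mGf15B (by norm_num) tGf15 kGf15 lenGf zGf15 bGf15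

end EF18
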