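import Pool.Agent.Lib.MP_ef18bd_co.G5.P16

/-!
# Phase 16: closed patterns
-/

namespace EF18

set_option linter.defProp false

def jGf16_0 : j0F QGf15 BGf16 11 0
  0x10100390400328500ca4600bdc600ac49096dca08fe4a06fd8a00248c00030c = true := by
  decide +kernel

end EF18
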