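import Pool.Agent.Lib.MP_ef18bd_co.G5.C15
import Pool.Agent.Lib.MP_ef18bd_co.G5.P16x0
import Pool.Agent.Lib.MP_ef18bd_co.G5.P16x1
import Pool.Agent.Lib.MP_ef18bd_co.G5.P16x2
import Pool.Agent.Lib.MP_ef18bd_co.G5.P16x3
import Pool.Agent.Lib.MP_ef18bd_co.G5.P16x4
import Pool.Agent.Lib.MP_ef18bd_co.G5.P16x5
import Pool.Agent.Lib.MP_ef18bd_co.G5.P16j0
import Pool.Agent.Lib.MP_ef18bd_co.G5.P16r0
import Pool.Agent.Lib.MP_ef18bd_co.G5.P16k0

/-!
# Phase 16
-/

namespace EF18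

theorem aGf16 : ∀ i < 2286, Val (stD (dnL QGf15) SGf16) (prc BGf16 i) := by
  have j0 := ents_zeroF QGf15 SGf16 BGf16
  have j1 := ents_dnF (k := 11) j0 jGf16_0 rfl
  have h0 := j1
  have h1 := wGf16_0_0 h0
  have h2 := wGf16_0_1 h1
  have h3 := wGf16_0_2 h2
  have h4 := wGf16_0_3 h3
  have h5 := wGf16_0_4 h4
  have h6 := wGf16_0_5 h5
  have h7 := wGf16_0_6 h6
  have h8 := wGf16_0_7 h7
  have h9 := wGf16_0_8 h8
  have h10 := wGf16_0_9 h9
  have h11 := wGf16_0_10 h10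
  have h12 := wGf16_0_11 h11
  have h13 := wGf16_0_12 h12
  have h14 := wGf16_0_13 h13
  have h15 := wGf16_0_14 h14
  have h16 := wGf16_0_15 h15
  have h17 := wGf16_0_16 h16
  have h18 := wGf16_0_17 h17
  have h19 := wGf16_0_18 h18
  have h20 := wGf16_0_19 h19
  have h21 := wGf16_1_0 h20
  have h22 := wGf16_1_1 h21
  have h23 := wGf16_1_2 h22
  have h24 := wGf16_1_3 h23
  have h25 := wGf16_1_4 h24
  have h26 := wGf16_1_5 h25
  have h27 := wGf16_1_6 h26
  have h28 := wGf16_1_7 h27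
  have h29 := wGf16_1_8 h28
  have h30 := wGf16_1_9 h29
  have h31 := wGf16_1_10 h30
  have h32 := wGf16_1_11 h31
  have h33 := wGf16_1_12 h32
  have h34 := wGf16_1_13 h33
  have h35 := wGf16_1_14 h34
  have h36 := wGf16_1_15 h35
  have h37 := wGf16_1_16 h36
  have h38 := wGf16_1_17 h37
  have h39 := wGf16_1_18 h38
  have h40 := wGf16_1_19 h39
  have h41 := wGf16_1_20 h40
  have h42 := wGf16_1_21 h41
  have h43 := wGf16_1_22 h42
  have h44 := wGf16_2_0 h43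
  have h45 := wGf16_2_1 h44
  have h46 := wGf16_2_2 h45
  have h47 := wGf16_2_3 h46
  have h48 := wGf16_2_4 h47
  have h49 := wGf16_2_5 h48
  have h50 := wGf16_2_6 h49
  have h51 := wGf16_2_7 h50
  have h52 := wGf16_2_8 h51
  have h53 := wGf16_2_9 h52
  have h54 := wGf16_2_10 h53
  have h55 := wGf16_2_11 h54
  have h56 := wGf16_2_12 h55
  have h57 := wGf16_2_13 h56
  have h58 := wGf16_3_0 h57
  have h59 := wGf16_3_1 h58
  have h60 := wGf16_3_2 h59
  have h61 := wGf16_3_3 h60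
  have h62 := wGf16_3_4 h61
  have h63 := wGf16_3_5 h62
  have h64 := wGf16_3_6 h63
  have h65 := wGf16_3_7 h64
  have h66 := wGf16_3_8 h65
  have h67 := wGf16_3_9 h66
  have h68 := wGf16_3_10 h67
  have h69 := wGf16_3_11 h68
  have h70 := wGf16_4_0 h69
  have h71 := wGf16_4_1 h70
  have h72 := wGf16_4_2 h71
  have h73 := wGf16_4_3 h72
  have h74 := wGf16_4_4 h73
  have h75 := wGf16_4_5 h74
  have h76 := wGf16_4_6 h75
  have h77 := wGf16_4_7 h76
  have h78 := wGf16_4_8 h77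
  have h79 := wGf16_4_9 h78
  have h80 := wGf16_4_10 h79
  have h81 := wGf16_4_11 h80
  have h82 := wGf16_4_12 h81
  have h83 := wGf16_4_13 h82
  have h84 := wGf16_5_0 h83
  have h85 := wGf16_5_1 h84
  have h86 := wGf16_5_2 h85
  have h87 := wGf16_5_3 h86
  have h88 := wGf16_5_4 h87
  have h89 := wGf16_5_5 h88
  have h90 := wGf16_5_6 h89
  have h91 := wGf16_5_7 h90
  have h92 := wGf16_5_8 h91
  have h93 := wGf16_5_9 h92
  have h94 := wGf16_5_10 h93
  exact h94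

theorem bGf16 : RtI (ok5 (okB 1 true)) (stD (dnL QGf15) SGf16) RBGf16 138 := by
  have h0 := rtI_zero (ok5 (okB 1 true)) (stD (dnL QGf15) SGf16) RBGf16
  have h1 := uGf16 aGf16 h0 oGf16_0_0 (show 0 + 25 = 25 from rfl)
  have h2 := uGf16 aGf16 h1 oGf16_0_1 (show 25 + 25 = 50 from rfl)
  have h3 := uGf16 aGf16 h2 oGf16_0_2 (show 50 + 25 = 75 from rfl)
  have h4 := uGf16 aGf16 h3 oGf16_0_3 (show 75 + 25 = 100 from rfl)
  have h5 := uGf16 aGf16 h4 oGf16_0_4 (show 100 + 25 = 125 from rfl)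
  have h6 := uGf16 aGf16 h5 oGf16_0_5 (show 125 + 13 = 138 from rfl)
  exact h6

theorem tGf16 : (TGf16.all okJ) = true := by decide +kernel

theorem pGf16_0 : CkP QGf15 (6, 0x19130c17100b251f06231c05201b03140f09)
    [3, 2, 0, 0, 0, 0, 0] 64 := by
  have h0 := ckP_zero QGf15 (6, 0x19130c17100b251f06231c05201b03140f09)
    [3, 2, 0, 0, 0, 0, 0]
  have h1 := ckP_step (k := 47) h0 kGf16_0c0 rfl
  have h2 := ckP_step (k := 59) h1 kGf16_0c1 rfl
  have h3 := ckP_step (k := 62) h2 kGf16_0c2 rfl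
  have h4 := ckP_step (k := 63) h3 kGf16_0c3 rfl
  have h5 := ckP_step (k := 64) h4 kGf16_0c4 rfl
  exact h5

theorem pGf16_1 : CkP QGf15 (6, 0x19120d16110b251e07221d05211b03150f09)
    [4, 3, 2, 4, 3, 0, 0, 0] 128 := by
  have h0 := ckP_zero QGf15 (6, 0x19120d16110b251e07221d05211b03150f09)
    [4, 3, 2, 4, 3, 0, 0, 0]
  have h1 := ckP_step (k := 62) h0 kGf16_1c0 rfl
  have h2 := ckP_step (k := 63) h1 kGf16_1c1 rfl
  have h3 := ckP_step (k := 64) h2 kGf16_1c2 rfl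
  have h4 := ckP_step (k := 95) h3 kGf16_1c3 rfl
  have h5 := ckP_step (k := 96) h4 kGf16_1c4 rfl
  have h6 := ckP_step (k := 111) h5 kGf16_1c5 rfl
  have h7 := ckP_step (k := 112) h6 kGf16_1c6 rfl
  have h8 := ckP_step (k := 119) h7 kGf16_1c7 rfl
  have h9 := ckP_step (k := 120) h8 kGf16_1c8 rfl
  have h10 := ckP_step (k := 123) h9 kGf16_1c9 rfl
  have h11 := ckP_step (k := 124) h10 kGf16_1c10 rfl
  have h12 := ckP_step (k := 125) h11 kGf16_1c11 rfl
  have h13 := ckP_step (k := 126) h12 kGf16_1c12 rfl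
  have h14 := ckP_step (k := 127) h13 kGf16_1c13 rfl
  have h15 := ckP_step (k := 128) h14 kGf16_1c14 rfl
  exact h15

theorem pGf16_2 : CkP QGf15 (6, 0x1010601130c01100b1d16051a1503200f09)
    [3, 3, 2, 1, 0] 16 := by
  have h0 := ckP_zero QGf15 (6, 0x1010601130c01100b1d16051a1503200f09)
    [3, 3, 2, 1, 0]
  have h1 := ckP_step (k := 16) h0 kGf16_2c0 rfl
  exact h1

theorem pGf16_3 : CkP QGf15 (9, 0x12a24010107341712321d0c01231101290b261b042015022d0e08)
    [5, 4, 3, 2, 1, 0] 32 := by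
  have h0 := ckP_zero QGf15 (9, 0x12a24010107341712321d0c01231101290b261b042015022d0e08)
    [5, 4, 3, 2, 1, 0]
  have h1 := ckP_step (k := 32) h0 kGf16_3c0 rfl
  exact h1

theorem pGf16_4 : CkP QGf15 (0xa, 0x1013638312b352412331e0c2e190a281710231d022c1a072620050f0914)
    [4, 3, 2, 0, 0, 0, 0] 64 := by
  have h0 := ckP_zero QGf15 (0xa, 0x1013638312b352412331e0c2e190a281710231d022c1a072620050f0914)
    [4, 3, 2, 0, 0, 0, 0]
  have h1 := ckP_step (k := 47) h0 kGf16_4c0 rfl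
  have h2 := ckP_step (k := 63) h1 kGf16_4c1 rfl
  have h3 := ckP_step (k := 64) h2 kGf16_4c2 rfl
  exact h3

theorem pGf16_5 : CkP QGf15 (0xe, 0x10149463c36514e4244302a4c1e164a2412401c0c3e100634190a3a2e0e23380232281a2c2005260914)
    [0, 0, 0, 0] 8 := by
  have h0 := ckP_zero QGf15 (0xe, 0x10149463c36514e4244302a4c1e164a2412401c0c3e100634190a3a2e0e23380232281a2c2005260914)
    [0, 0, 0, 0]
  have h1 := ckP_step (k := 8) h0 kGf16_5c0 rfl
  exact h1

theorem pGf16_6 : CkP QGf15 (0xa, 0x136233a312b35241f330c062e39022d130801100b1d160528151a260f20)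
    [7, 6, 5, 4, 3, 2, 1, 0] 128 := by
  have h0 := ckP_zero QGf15 (0xa, 0x136233a312b35241f330c062e39022d130801100b1d160528151a260f20)
    [7, 6, 5, 4, 3, 2, 1, 0]
  have h1 := ckP_step (k := 128) h0 kGf16_6c0 rfl
  exact h1

theorem kGf16 : PpI QGf15 6 TGf16 CAGf CBGf 7 := by
  have h0 := ppI_zero QGf15 6 TGf16 CAGf CBGf
  have h1 := ppI_stepV (k' := 1) (q := (6, 0x19130c17100b251f06231c05201b03140f09)) h0 rfl kGf16_0r pGf16_0 kGf16_0m rfl
  have h2 := ppI_stepV (k' := 2) (q := (6, 0x19120d16110b251e07221d05211b03150f09)) h1 rfl kGf16_1r pGf16_1 kGf16_1m rfl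
  have h3 := ppI_stepV (k' := 3) (q := (6, 0x1010601130c01100b1d16051a1503200f09)) h2 rfl kGf16_2r pGf16_2 kGf16_2m rfl
  have h4 := ppI_stepV (k' := 4) (q := (9, 0x12a24010107341712321d0c01231101290b261b042015022d0e08)) h3 rfl kGf16_3r pGf16_3 kGf16_3m rfl
  have h5 := ppI_stepV (k' := 5) (q := (0xa, 0x1013638312b352412331e0c2e190a281710231d022c1a072620050f0914)) h4 rfl kGf16_4r pGf16_4 kGf16_4m rfl
  have h6 := ppI_stepV (k' := 6) (q := (0xe, 0x10149463c36514e4244302a4c1e164a2412401c0c3e100634190a3a2e0e23380232281a2c2005260914)) h5 rfl kGf16_5r pGf16_5 kGf16_5m rfl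
  have h7 := ppI_stepV (k' := 7) (q := (0xa, 0x136233a312b35241f330c062e39022d130801100b1d160528151a260f20)) h6 rfl kGf16_6r pGf16_6 kGf16_6m rfl
  exact h7

theorem zGf16 : (!false || allK QGf15 (fun _ => true) (nzq CBGf)
  0) = true := by decide +kernel

theorem mGf16A : (Nat.ble 2 1 || memI QGf15 11 1 257) = true := by decide +kernel

theorem mGf16B : (Nat.ble 1 1 || memI QGf15 0 1 1) = true := by decide +kernel

/-- **the phase 16** -/
theorem cGf16 : Dj5 CAGf CBGf PLGf (dnL QGf16) :=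
  Dj5.rawP vokAGf vokBGf mclAGf mclBGf mkoGf wfpGf cGf15 mGf16A mGf16B (by norm_num) tGf16 kGf16 lenGf zGf16 bGf16

end EF18
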