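import Pool.Agent.Lib.MP_ef18bd_co.G5.P17

/-!
# Phase 17: closed patterns
-/

namespace EF18

set_option linter.defProp false

def jGf17_0 : j0F QGf16 BGf17 28 0
  0x2200001ac30039050000c40001030032c600c94700be0700bdc700ad0700ac87005047004cc801284900ce0a00cbca009f4a00928a004f0a00094a00000a00420d0023cd00030d00004d00450e00000e00128f = true := by
  decide +kernel

end EF18
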