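import Pool.Agent.Lib.MP_ef18bd_co.G5.C16
import Pool.Agent.Lib.MP_ef18bd_co.G5.P17x0
import Pool.Agent.Lib.MP_ef18bd_co.G5.P17x1
import Pool.Agent.Lib.MP_ef18bd_co.G5.P17x2
import Pool.Agent.Lib.MP_ef18bd_co.G5.P17x3
import Pool.Agent.Lib.MP_ef18bd_co.G5.P17x4
import Pool.Agent.Lib.MP_ef18bd_co.G5.P17x5
import Pool.Agent.Lib.MP_ef18bd_co.G5.P17x6
import Pool.Agent.Lib.MP_ef18bd_co.G5.P17x7
import Pool.Agent.Lib.MP_ef18bd_co.G5.P17j0
import Pool.Agent.Lib.MP_ef18bd_co.G5.P17r0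
import Pool.Agent.Lib.MP_ef18bd_co.G5.P17k0

/-!
# Phase 17
-/

namespace EF18

theorem aGf17 : ∀ i < 3886, Val (stD (dnL QGf16) SGf17) (prc BGf17 i) := by
  have j0 := ents_zeroF QGf16 SGf17 BGf17
  have j1 := ents_dnF (k := 28) j0 jGf17_0 rfl
  have h0 := j1
  have h1 := wGf17_0_0 h0
  have h2 := wGf17_0_1 h1
  have h3 := wGf17_0_2 h2
  have h4 := wGf17_0_3 h3
  have h5 := wGf17_0_4 h4
  have h6 := wGf17_0_5 h5
  have h7 := wGf17_0_6 h6
  have h8 := wGf17_0_7 h7
  have h9 := wGf17_0_8 h8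
  have h10 := wGf17_0_9 h9
  have h11 := wGf17_0_10 h10
  have h12 := wGf17_0_11 h11
  have h13 := wGf17_0_12 h12
  have h14 := wGf17_0_13 h13
  have h15 := wGf17_0_14 h14
  have h16 := wGf17_0_15 h15
  have h17 := wGf17_0_16 h16
  have h18 := wGf17_0_17 h17
  have h19 := wGf17_0_18 h18
  have h20 := wGf17_0_19 h19
  have h21 := wGf17_1_0 h20
  have h22 := wGf17_1_1 h21
  have h23 := wGf17_1_2 h22
  have h24 := wGf17_1_3 h23
  have h25 := wGf17_1_4 h24
  have h26 := wGf17_1_5 h25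
  have h27 := wGf17_1_6 h26
  have h28 := wGf17_1_7 h27
  have h29 := wGf17_1_8 h28
  have h30 := wGf17_1_9 h29
  have h31 := wGf17_1_10 h30
  have h32 := wGf17_1_11 h31
  have h33 := wGf17_1_12 h32
  have h34 := wGf17_1_13 h33
  have h35 := wGf17_1_14 h34
  have h36 := wGf17_1_15 h35
  have h37 := wGf17_1_16 h36
  have h38 := wGf17_1_17 h37
  have h39 := wGf17_1_18 h38
  have h40 := wGf17_1_19 h39
  have h41 := wGf17_1_20 h40
  have h42 := wGf17_1_21 h41
  have h43 := wGf17_2_0 h42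
  have h44 := wGf17_2_1 h43
  have h45 := wGf17_2_2 h44
  have h46 := wGf17_2_3 h45
  have h47 := wGf17_2_4 h46
  have h48 := wGf17_2_5 h47
  have h49 := wGf17_2_6 h48
  have h50 := wGf17_2_7 h49
  have h51 := wGf17_2_8 h50
  have h52 := wGf17_2_9 h51
  have h53 := wGf17_2_10 h52
  have h54 := wGf17_2_11 h53
  have h55 := wGf17_2_12 h54
  have h56 := wGf17_2_13 h55
  have h57 := wGf17_2_14 h56
  have h58 := wGf17_2_15 h57
  have h59 := wGf17_2_16 h58
  have h60 := wGf17_2_17 h59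
  have h61 := wGf17_2_18 h60
  have h62 := wGf17_2_19 h61
  have h63 := wGf17_2_20 h62
  have h64 := wGf17_2_21 h63
  have h65 := wGf17_2_22 h64
  have h66 := wGf17_2_23 h65
  have h67 := wGf17_2_24 h66
  have h68 := wGf17_2_25 h67
  have h69 := wGf17_3_0 h68
  have h70 := wGf17_3_1 h69
  have h71 := wGf17_3_2 h70
  have h72 := wGf17_3_3 h71
  have h73 := wGf17_3_4 h72
  have h74 := wGf17_3_5 h73
  have h75 := wGf17_3_6 h74
  have h76 := wGf17_3_7 h75
  have h77 := wGf17_3_8 h76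
  have h78 := wGf17_3_9 h77
  have h79 := wGf17_3_10 h78
  have h80 := wGf17_3_11 h79
  have h81 := wGf17_3_12 h80
  have h82 := wGf17_3_13 h81
  have h83 := wGf17_3_14 h82
  have h84 := wGf17_3_15 h83
  have h85 := wGf17_3_16 h84
  have h86 := wGf17_3_17 h85
  have h87 := wGf17_3_18 h86
  have h88 := wGf17_3_19 h87
  have h89 := wGf17_4_0 h88
  have h90 := wGf17_4_1 h89
  have h91 := wGf17_4_2 h90
  have h92 := wGf17_4_3 h91
  have h93 := wGf17_4_4 h92
  have h94 := wGf17_4_5 h93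
  have h95 := wGf17_4_6 h94
  have h96 := wGf17_4_7 h95
  have h97 := wGf17_4_8 h96
  have h98 := wGf17_4_9 h97
  have h99 := wGf17_4_10 h98
  have h100 := wGf17_4_11 h99
  have h101 := wGf17_4_12 h100
  have h102 := wGf17_4_13 h101
  have h103 := wGf17_4_14 h102
  have h104 := wGf17_4_15 h103
  have h105 := wGf17_4_16 h104
  have h106 := wGf17_4_17 h105
  have h107 := wGf17_4_18 h106
  have h108 := wGf17_4_19 h107
  have h109 := wGf17_4_20 h108
  have h110 := wGf17_5_0 h109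
  have h111 := wGf17_5_1 h110
  have h112 := wGf17_5_2 h111
  have h113 := wGf17_5_3 h112
  have h114 := wGf17_5_4 h113
  have h115 := wGf17_5_5 h114
  have h116 := wGf17_5_6 h115
  have h117 := wGf17_5_7 h116
  have h118 := wGf17_5_8 h117
  have h119 := wGf17_5_9 h118
  have h120 := wGf17_5_10 h119
  have h121 := wGf17_5_11 h120
  have h122 := wGf17_5_12 h121
  have h123 := wGf17_5_13 h122
  have h124 := wGf17_5_14 h123
  have h125 := wGf17_5_15 h124
  have h126 := wGf17_5_16 h125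
  have h127 := wGf17_5_17 h126
  have h128 := wGf17_5_18 h127
  have h129 := wGf17_5_19 h128
  have h130 := wGf17_5_20 h129
  have h131 := wGf17_5_21 h130
  have h132 := wGf17_5_22 h131
  have h133 := wGf17_6_0 h132
  have h134 := wGf17_6_1 h133
  have h135 := wGf17_6_2 h134
  have h136 := wGf17_6_3 h135
  have h137 := wGf17_6_4 h136
  have h138 := wGf17_6_5 h137
  have h139 := wGf17_6_6 h138
  have h140 := wGf17_6_7 h139
  have h141 := wGf17_6_8 h140
  have h142 := wGf17_6_9 h141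
  have h143 := wGf17_6_10 h142
  have h144 := wGf17_6_11 h143
  have h145 := wGf17_6_12 h144
  have h146 := wGf17_6_13 h145
  have h147 := wGf17_6_14 h146
  have h148 := wGf17_6_15 h147
  have h149 := wGf17_6_16 h148
  have h150 := wGf17_6_17 h149
  have h151 := wGf17_6_18 h150
  have h152 := wGf17_6_19 h151
  have h153 := wGf17_6_20 h152
  have h154 := wGf17_7_0 h153
  have h155 := wGf17_7_1 h154
  have h156 := wGf17_7_2 h155
  have h157 := wGf17_7_3 h156
  have h158 := wGf17_7_4 h157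
  have h159 := wGf17_7_5 h158
  exact h159

theorem bGf17 : RtI (ok5 (okB 1 true)) (stD (dnL QGf16) SGf17) RBGf17 19 := by
  have h0 := rtI_zero (ok5 (okB 1 true)) (stD (dnL QGf16) SGf17) RBGf17
  have h1 := uGf17 aGf17 h0 oGf17_0_0 (show 0 + 19 = 19 from rfl)
  exact h1

theorem tGf17 : (TGf17.all okJ) = true := by decide +kernel

theorem pGf17_0 : CkP QGf16 (6, 0x19130c17100b251f06231c05201b03140f09)
    [3, 2, 0, 0, 0, 0, 0] 64 := by
  have h0 := ckP_zero QGf16 (6, 0x19130c17100b251f06231c05201b03140f09)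
    [3, 2, 0, 0, 0, 0, 0]
  have h1 := ckP_step (k := 47) h0 kGf17_0c0 rfl
  have h2 := ckP_step (k := 59) h1 kGf17_0c1 rfl
  have h3 := ckP_step (k := 62) h2 kGf17_0c2 rfl
  have h4 := ckP_step (k := 63) h3 kGf17_0c3 rfl
  have h5 := ckP_step (k := 64) h4 kGf17_0c4 rfl
  exact h5

theorem pGf17_1 : CkP QGf16 (6, 0x19120d16110b251e07221d05211b03150f09)
    [4, 3, 2, 4, 0, 0, 0, 0] 128 := by
  have h0 := ckP_zero QGf16 (6, 0x19120d16110b251e07221d05211b03150f09)
    [4, 3, 2, 4, 0, 0, 0, 0]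
  have h1 := ckP_step (k := 62) h0 kGf17_1c0 rfl
  have h2 := ckP_step (k := 63) h1 kGf17_1c1 rfl
  have h3 := ckP_step (k := 64) h2 kGf17_1c2 rfl
  have h4 := ckP_step (k := 95) h3 kGf17_1c3 rfl
  have h5 := ckP_step (k := 96) h4 kGf17_1c4 rfl
  have h6 := ckP_step (k := 111) h5 kGf17_1c5 rfl
  have h7 := ckP_step (k := 112) h6 kGf17_1c6 rfl
  have h8 := ckP_step (k := 119) h7 kGf17_1c7 rfl
  have h9 := ckP_step (k := 120) h8 kGf17_1c8 rfl
  have h10 := ckP_step (k := 123) h9 kGf17_1c9 rfl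
  have h11 := ckP_step (k := 124) h10 kGf17_1c10 rfl
  have h12 := ckP_step (k := 125) h11 kGf17_1c11 rfl
  have h13 := ckP_step (k := 126) h12 kGf17_1c12 rfl
  have h14 := ckP_step (k := 127) h13 kGf17_1c13 rfl
  have h15 := ckP_step (k := 128) h14 kGf17_1c14 rfl
  exact h15

theorem pGf17_2 : CkP QGf16 (6, 0x1010601130c01100b1d16051a1503200f09)
    [3, 3, 2, 1, 0] 16 := by
  have h0 := ckP_zero QGf16 (6, 0x1010601130c01100b1d16051a1503200f09)
    [3, 3, 2, 1, 0]
  have h1 := ckP_step (k := 16) h0 kGf17_2c0 rfl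
  exact h1

theorem pGf17_3 : CkP QGf16 (9, 0x12a24010107341712321d0c01231101290b261b042015022d0e08)
    [5, 4, 3, 2, 1, 0] 32 := by
  have h0 := ckP_zero QGf16 (9, 0x12a24010107341712321d0c01231101290b261b042015022d0e08)
    [5, 4, 3, 2, 1, 0]
  have h1 := ckP_step (k := 32) h0 kGf17_3c0 rfl
  exact h1

theorem pGf17_4 : CkP QGf16 (0xa, 0x1013638312b352412331e0c2e190a281710231d022c1a072620050f0914)
    [4, 3, 2, 0, 0, 0, 0] 64 := by
  have h0 := ckP_zero QGf16 (0xa, 0x1013638312b352412331e0c2e190a281710231d022c1a072620050f0914)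
    [4, 3, 2, 0, 0, 0, 0]
  have h1 := ckP_step (k := 47) h0 kGf17_4c0 rfl
  have h2 := ckP_step (k := 63) h1 kGf17_4c1 rfl
  have h3 := ckP_step (k := 64) h2 kGf17_4c2 rfl
  exact h3

theorem pGf17_5 : CkP QGf16 (0xe, 0x10149463c36514e4244302a4c1e164a2412401c0c3e100634190a3a2e0e23380232281a2c2005260914)
    [0, 0, 0, 0] 8 := by
  have h0 := ckP_zero QGf16 (0xe, 0x10149463c36514e4244302a4c1e164a2412401c0c3e100634190a3a2e0e23380232281a2c2005260914)
    [0, 0, 0, 0]
  have h1 := ckP_step (k := 8) h0 kGf17_5c0 rfl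
  exact h1

theorem pGf17_6 : CkP QGf16 (0xa, 0x136233a312b35241f330c062e39022d130801100b1d160528151a260f20)
    [7, 6, 5, 4, 0, 0, 0, 0] 128 := by
  have h0 := ckP_zero QGf16 (0xa, 0x136233a312b35241f330c062e39022d130801100b1d160528151a260f20)
    [7, 6, 5, 4, 0, 0, 0, 0]
  have h1 := ckP_step (k := 128) h0 kGf17_6c0 rfl
  exact h1

theorem kGf17 : PpI QGf16 6 TGf17 CAGf CBGf 7 := by
  have h0 := ppI_zero QGf16 6 TGf17 CAGf CBGf
  have h1 := ppI_stepV (k' := 1) (q := (6, 0x19130c17100b251f06231c05201b03140f09)) h0 rfl kGf17_0r pGf17_0 kGf17_0m rfl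
  have h2 := ppI_stepV (k' := 2) (q := (6, 0x19120d16110b251e07221d05211b03150f09)) h1 rfl kGf17_1r pGf17_1 kGf17_1m rfl
  have h3 := ppI_stepV (k' := 3) (q := (6, 0x1010601130c01100b1d16051a1503200f09)) h2 rfl kGf17_2r pGf17_2 kGf17_2m rfl
  have h4 := ppI_stepV (k' := 4) (q := (9, 0x12a24010107341712321d0c01231101290b261b042015022d0e08)) h3 rfl kGf17_3r pGf17_3 kGf17_3m rfl
  have h5 := ppI_stepV (k' := 5) (q := (0xa, 0x1013638312b352412331e0c2e190a281710231d022c1a072620050f0914)) h4 rfl kGf17_4r pGf17_4 kGf17_4m rfl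
  have h6 := ppI_stepV (k' := 6) (q := (0xe, 0x10149463c36514e4244302a4c1e164a2412401c0c3e100634190a3a2e0e23380232281a2c2005260914)) h5 rfl kGf17_5r pGf17_5 kGf17_5m rfl
  have h7 := ppI_stepV (k' := 7) (q := (0xa, 0x136233a312b35241f330c062e39022d130801100b1d160528151a260f20)) h6 rfl kGf17_6r pGf17_6 kGf17_6m rfl
  exact h7

theorem zGf17 : (!false || allK QGf16 (fun _ => true) (nzq CBGf)
  0) = true := by decide +kernel

theorem mGf17A : (Nat.ble 2 1 || memI QGf16 12 1 257) = true := by decide +kernel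

theorem mGf17B : (Nat.ble 1 1 || memI QGf16 0 1 1) = true := by decide +kernel

/-- **the phase 17** -/
theorem cGf17 : Dj5 CAGf CBGf PLGf (dnL QGf17) :=
  Dj5.rawP vokAGf vokBGf mclAGf mclBGf mkoGf wfpGf cGf16 mGf17A mGf17B (by norm_num) tGf17 kGf17 lenGf zGf17 bGf17

end EF18
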