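import Pool.Agent.Lib.MP_ef18bd_co.G5.P18

/-!
# Phase 18: roots
-/

namespace EF18

set_option linter.defProp false

def oGf18_0_0 : rGf18 0 12
  0x3450b0303440b0303430b0303420b0303440b0303420b0303430b0303450b0303410b0303810b0303800b0303800b03 = true := by
  decide +kernel

end EF18
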