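import Pool.Agent.Lib.MP_ef18bd_co.G5.C17
import Pool.Agent.Lib.MP_ef18bd_co.G5.P18r0
import Pool.Agent.Lib.MP_ef18bd_co.G5.P18k0

/-!
# Phase 18
-/

namespace EF18

theorem aGf18 : ∀ i < 0, Val (stD (dnL QGf17) SGf18) (prc BGf18 i) := by
  have j0 := ents_zeroF QGf17 SGf18 BGf18
  have h0 := j0
  exact h0

theorem bGf18 : RtI (ok5 (okB 1 true)) (stD (dnL QGf17) SGf18) RBGf18 12 := by
  have h0 := rtI_zero (ok5 (okB 1 true)) (stD (dnL QGf17) SGf18) RBGf18
  have h1 := uGf18 aGf18 h0 oGf18_0_0 (show 0 + 12 = 12 from rfl)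
  exact h1

theorem tGf18 : (TGf18.all okJ) = true := by decide +kernel

theorem pGf18_0 : CkP QGf17 (6, 0x19130c17100b251f06231c05201b03140f09)
    [3, 2, 0, 0, 0, 0, 0] 64 := by
  have h0 := ckP_zero QGf17 (6, 0x19130c17100b251f06231c05201b03140f09)
    [3, 2, 0, 0, 0, 0, 0]
  have h1 := ckP_step (k := 47) h0 kGf18_0c0 rfl
  have h2 := ckP_step (k := 59) h1 kGf18_0c1 rfl
  have h3 := ckP_step (k := 62) h2 kGf18_0c2 rfl
  have h4 := ckP_step (k := 63) h3 kGf18_0c3 rfl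
  have h5 := ckP_step (k := 64) h4 kGf18_0c4 rfl
  exact h5

theorem pGf18_1 : CkP QGf17 (6, 0x19120d16110b251e07221d05211b03150f09)
    [4, 3, 2, 0, 0, 0, 0, 0] 128 := by
  have h0 := ckP_zero QGf17 (6, 0x19120d16110b251e07221d05211b03150f09)
    [4, 3, 2, 0, 0, 0, 0, 0]
  have h1 := ckP_step (k := 62) h0 kGf18_1c0 rfl
  have h2 := ckP_step (k := 63) h1 kGf18_1c1 rfl
  have h3 := ckP_step (k := 64) h2 kGf18_1c2 rfl
  have h4 := ckP_step (k := 95) h3 kGf18_1c3 rfl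
  have h5 := ckP_step (k := 96) h4 kGf18_1c4 rfl
  have h6 := ckP_step (k := 111) h5 kGf18_1c5 rfl
  have h7 := ckP_step (k := 112) h6 kGf18_1c6 rfl
  have h8 := ckP_step (k := 119) h7 kGf18_1c7 rfl
  have h9 := ckP_step (k := 120) h8 kGf18_1c8 rfl
  have h10 := ckP_step (k := 123) h9 kGf18_1c9 rfl
  have h11 := ckP_step (k := 124) h10 kGf18_1c10 rfl
  have h12 := ckP_step (k := 125) h11 kGf18_1c11 rfl
  have h13 := ckP_step (k := 126) h12 kGf18_1c12 rfl
  have h14 := ckP_step (k := 127) h13 kGf18_1c13 rfl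
  have h15 := ckP_step (k := 128) h14 kGf18_1c14 rfl
  exact h15

theorem pGf18_2 : CkP QGf17 (6, 0x1010601130c01100b1d16051a1503200f09)
    [3, 3, 2, 1, 0] 16 := by
  have h0 := ckP_zero QGf17 (6, 0x1010601130c01100b1d16051a1503200f09)
    [3, 3, 2, 1, 0]
  have h1 := ckP_step (k := 16) h0 kGf18_2c0 rfl
  exact h1

theorem pGf18_3 : CkP QGf17 (9, 0x12a24010107341712321d0c01231101290b261b042015022d0e08)
    [5, 4, 3, 2, 0, 0] 32 := by
  have h0 := ckP_zero QGf17 (9, 0x12a24010107341712321d0c01231101290b261b042015022d0e08)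
    [5, 4, 3, 2, 0, 0]
  have h1 := ckP_step (k := 32) h0 kGf18_3c0 rfl
  exact h1

theorem pGf18_4 : CkP QGf17 (0xa, 0x1013638312b352412331e0c2e190a281710231d022c1a072620050f0914)
    [4, 3, 0, 0, 0, 0, 0] 64 := by
  have h0 := ckP_zero QGf17 (0xa, 0x1013638312b352412331e0c2e190a281710231d022c1a072620050f0914)
    [4, 3, 0, 0, 0, 0, 0]
  have h1 := ckP_step (k := 47) h0 kGf18_4c0 rfl
  have h2 := ckP_step (k := 63) h1 kGf18_4c1 rfl
  have h3 := ckP_step (k := 64) h2 kGf18_4c2 rfl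
  exact h3

theorem pGf18_5 : CkP QGf17 (0xe, 0x10149463c36514e4244302a4c1e164a2412401c0c3e100634190a3a2e0e23380232281a2c2005260914)
    [0, 0, 0, 0] 8 := by
  have h0 := ckP_zero QGf17 (0xe, 0x10149463c36514e4244302a4c1e164a2412401c0c3e100634190a3a2e0e23380232281a2c2005260914)
    [0, 0, 0, 0]
  have h1 := ckP_step (k := 8) h0 kGf18_5c0 rfl
  exact h1

theorem pGf18_6 : CkP QGf17 (0xa, 0x136233a312b35241f330c062e39022d130801100b1d160528151a260f20)
    [7, 6, 5, 4, 0, 0, 0, 0] 128 := by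
  have h0 := ckP_zero QGf17 (0xa, 0x136233a312b35241f330c062e39022d130801100b1d160528151a260f20)
    [7, 6, 5, 4, 0, 0, 0, 0]
  have h1 := ckP_step (k := 128) h0 kGf18_6c0 rfl
  exact h1

theorem kGf18 : PpI QGf17 6 TGf18 CAGf CBGf 7 := by
  have h0 := ppI_zero QGf17 6 TGf18 CAGf CBGf
  have h1 := ppI_stepV (k' := 1) (q := (6, 0x19130c17100b251f06231c05201b03140f09)) h0 rfl kGf18_0r pGf18_0 kGf18_0m rfl
  have h2 := ppI_stepV (k' := 2) (q := (6, 0x19120d16110b251e07221d05211b03150f09)) h1 rfl kGf18_1r pGf18_1 kGf18_1m rfl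
  have h3 := ppI_stepV (k' := 3) (q := (6, 0x1010601130c01100b1d16051a1503200f09)) h2 rfl kGf18_2r pGf18_2 kGf18_2m rfl
  have h4 := ppI_stepV (k' := 4) (q := (9, 0x12a24010107341712321d0c01231101290b261b042015022d0e08)) h3 rfl kGf18_3r pGf18_3 kGf18_3m rfl
  have h5 := ppI_stepV (k' := 5) (q := (0xa, 0x1013638312b352412331e0c2e190a281710231d022c1a072620050f0914)) h4 rfl kGf18_4r pGf18_4 kGf18_4m rfl
  have h6 := ppI_stepV (k' := 6) (q := (0xe, 0x10149463c36514e4244302a4c1e164a2412401c0c3e100634190a3a2e0e23380232281a2c2005260914)) h5 rfl kGf18_5r pGf18_5 kGf18_5m rfl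
  have h7 := ppI_stepV (k' := 7) (q := (0xa, 0x136233a312b35241f330c062e39022d130801100b1d160528151a260f20)) h6 rfl kGf18_6r pGf18_6 kGf18_6m rfl
  exact h7

theorem zGf18 : (!false || allK QGf17 (fun _ => true) (nzq CBGf)
  0) = true := by decide +kernel

theorem mGf18A : (Nat.ble 2 1 || memI QGf17 13 1 257) = true := by decide +kernel

theorem mGf18B : (Nat.ble 1 1 || memI QGf17 0 1 1) = true := by decide +kernel

/-- **the phase 18** -/
theorem cGf18 : Dj5 CAGf CBGf PLGf (dnL QGf18) :=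
  Dj5.rawP vokAGf vokBGf mclAGf mclBGf mkoGf wfpGf cGf17 mGf18A mGf18B (by norm_num) tGf18 kGf18 lenGf zGf18 bGf18

end EF18
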