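import Pool.Agent.Lib.MP_ef18bd_co.G5.P19

/-!
# Phase 19: closed patterns
-/

namespace EF18

set_option linter.defProp false

def jGf19_0 : j0F QGf18 BGf19 56 0
  0x4810004410002840039070003860032070000c60023c700230700170700030700000700014500010500000500268800264800c94900bdc900048a00ec8b00ec4b00eb8b00eb0b00a38b01090c00d48c09914d09218d090c0d0906cd09050d09034d09020d09008d09004d08ff8d070d8d06044d03b00d03a68d0004080127cd01274d00d68d000e0d000c8d00090d00058d00094c00054c00010d00010c00000c00468f00464f = true := by
  decide +kernel

end EF18
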