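import Pool.Agent.Lib.MP_ef18bd_co.G5.C18
import Pool.Agent.Lib.MP_ef18bd_co.G5.P19x0
import Pool.Agent.Lib.MP_ef18bd_co.G5.P19x1
import Pool.Agent.Lib.MP_ef18bd_co.G5.P19x2
import Pool.Agent.Lib.MP_ef18bd_co.G5.P19x3
import Pool.Agent.Lib.MP_ef18bd_co.G5.P19x4
import Pool.Agent.Lib.MP_ef18bd_co.G5.P19x5
import Pool.Agent.Lib.MP_ef18bd_co.G5.P19x6
import Pool.Agent.Lib.MP_ef18bd_co.G5.P19x7
import Pool.Agent.Lib.MP_ef18bd_co.G5.P19x8
import Pool.Agent.Lib.MP_ef18bd_co.G5.P19x9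
import Pool.Agent.Lib.MP_ef18bd_co.G5.P19x10
import Pool.Agent.Lib.MP_ef18bd_co.G5.P19x11
import Pool.Agent.Lib.MP_ef18bd_co.G5.P19j0
import Pool.Agent.Lib.MP_ef18bd_co.G5.P19r0
import Pool.Agent.Lib.MP_ef18bd_co.G5.P19k0

/-!
# Phase 19
-/

namespace EF18

theorem aGf19 : ∀ i < 4000, Val (stD (dnL QGf18) SGf19) (prc BGf19 i) := by
  have j0 := ents_zeroF QGf18 SGf19 BGf19
  have j1 := ents_dnF (k := 56) j0 jGf19_0 rfl
  have h0 := j1
  have h1 := wGf19_0_0 h0
  have h2 := wGf19_0_1 h1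
  have h3 := wGf19_0_2 h2
  have h4 := wGf19_0_3 h3
  have h5 := wGf19_0_4 h4
  have h6 := wGf19_0_5 h5
  have h7 := wGf19_0_6 h6
  have h8 := wGf19_0_7 h7
  have h9 := wGf19_0_8 h8
  have h10 := wGf19_0_9 h9
  have h11 := wGf19_0_10 h10
  have h12 := wGf19_0_11 h11
  have h13 := wGf19_0_12 h12
  have h14 := wGf19_0_13 h13
  have h15 := wGf19_0_14 h14
  have h16 := wGf19_0_15 h15
  have h17 := wGf19_0_16 h16
  have h18 := wGf19_1_0 h17
  have h19 := wGf19_1_1 h18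
  have h20 := wGf19_1_2 h19
  have h21 := wGf19_1_3 h20
  have h22 := wGf19_1_4 h21
  have h23 := wGf19_1_5 h22
  have h24 := wGf19_1_6 h23
  have h25 := wGf19_1_7 h24
  have h26 := wGf19_1_8 h25
  have h27 := wGf19_1_9 h26
  have h28 := wGf19_1_10 h27
  have h29 := wGf19_1_11 h28
  have h30 := wGf19_1_12 h29
  have h31 := wGf19_1_13 h30
  have h32 := wGf19_2_0 h31
  have h33 := wGf19_2_1 h32
  have h34 := wGf19_2_2 h33
  have h35 := wGf19_2_3 h34
  have h36 := wGf19_2_4 h35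
  have h37 := wGf19_2_5 h36
  have h38 := wGf19_2_6 h37
  have h39 := wGf19_2_7 h38
  have h40 := wGf19_2_8 h39
  have h41 := wGf19_3_0 h40
  have h42 := wGf19_3_1 h41
  have h43 := wGf19_3_2 h42
  have h44 := wGf19_3_3 h43
  have h45 := wGf19_3_4 h44
  have h46 := wGf19_3_5 h45
  have h47 := wGf19_3_6 h46
  have h48 := wGf19_3_7 h47
  have h49 := wGf19_3_8 h48
  have h50 := wGf19_3_9 h49
  have h51 := wGf19_3_10 h50
  have h52 := wGf19_3_11 h51
  have h53 := wGf19_4_0 h52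
  have h54 := wGf19_4_1 h53
  have h55 := wGf19_4_2 h54
  have h56 := wGf19_4_3 h55
  have h57 := wGf19_4_4 h56
  have h58 := wGf19_4_5 h57
  have h59 := wGf19_4_6 h58
  have h60 := wGf19_4_7 h59
  have h61 := wGf19_4_8 h60
  have h62 := wGf19_4_9 h61
  have h63 := wGf19_4_10 h62
  have h64 := wGf19_4_11 h63
  have h65 := wGf19_4_12 h64
  have h66 := wGf19_4_13 h65
  have h67 := wGf19_4_14 h66
  have h68 := wGf19_4_15 h67
  have h69 := wGf19_4_16 h68
  have h70 := wGf19_5_0 h69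
  have h71 := wGf19_5_1 h70
  have h72 := wGf19_5_2 h71
  have h73 := wGf19_5_3 h72
  have h74 := wGf19_5_4 h73
  have h75 := wGf19_5_5 h74
  have h76 := wGf19_5_6 h75
  have h77 := wGf19_5_7 h76
  have h78 := wGf19_5_8 h77
  have h79 := wGf19_5_9 h78
  have h80 := wGf19_5_10 h79
  have h81 := wGf19_5_11 h80
  have h82 := wGf19_5_12 h81
  have h83 := wGf19_6_0 h82
  have h84 := wGf19_6_1 h83
  have h85 := wGf19_6_2 h84
  have h86 := wGf19_6_3 h85
  have h87 := wGf19_6_4 h86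
  have h88 := wGf19_6_5 h87
  have h89 := wGf19_6_6 h88
  have h90 := wGf19_6_7 h89
  have h91 := wGf19_6_8 h90
  have h92 := wGf19_6_9 h91
  have h93 := wGf19_6_10 h92
  have h94 := wGf19_6_11 h93
  have h95 := wGf19_7_0 h94
  have h96 := wGf19_7_1 h95
  have h97 := wGf19_7_2 h96
  have h98 := wGf19_7_3 h97
  have h99 := wGf19_7_4 h98
  have h100 := wGf19_7_5 h99
  have h101 := wGf19_7_6 h100
  have h102 := wGf19_7_7 h101
  have h103 := wGf19_7_8 h102
  have h104 := wGf19_7_9 h103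
  have h105 := wGf19_7_10 h104
  have h106 := wGf19_7_11 h105
  have h107 := wGf19_7_12 h106
  have h108 := wGf19_7_13 h107
  have h109 := wGf19_7_14 h108
  have h110 := wGf19_7_15 h109
  have h111 := wGf19_7_16 h110
  have h112 := wGf19_8_0 h111
  have h113 := wGf19_8_1 h112
  have h114 := wGf19_8_2 h113
  have h115 := wGf19_8_3 h114
  have h116 := wGf19_8_4 h115
  have h117 := wGf19_8_5 h116
  have h118 := wGf19_8_6 h117
  have h119 := wGf19_8_7 h118
  have h120 := wGf19_8_8 h119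
  have h121 := wGf19_8_9 h120
  have h122 := wGf19_8_10 h121
  have h123 := wGf19_8_11 h122
  have h124 := wGf19_8_12 h123
  have h125 := wGf19_8_13 h124
  have h126 := wGf19_8_14 h125
  have h127 := wGf19_8_15 h126
  have h128 := wGf19_8_16 h127
  have h129 := wGf19_9_0 h128
  have h130 := wGf19_9_1 h129
  have h131 := wGf19_9_2 h130
  have h132 := wGf19_9_3 h131
  have h133 := wGf19_9_4 h132
  have h134 := wGf19_9_5 h133
  have h135 := wGf19_9_6 h134
  have h136 := wGf19_9_7 h135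
  have h137 := wGf19_9_8 h136
  have h138 := wGf19_9_9 h137
  have h139 := wGf19_9_10 h138
  have h140 := wGf19_9_11 h139
  have h141 := wGf19_9_12 h140
  have h142 := wGf19_9_13 h141
  have h143 := wGf19_9_14 h142
  have h144 := wGf19_9_15 h143
  have h145 := wGf19_9_16 h144
  have h146 := wGf19_9_17 h145
  have h147 := wGf19_9_18 h146
  have h148 := wGf19_10_0 h147
  have h149 := wGf19_10_1 h148
  have h150 := wGf19_10_2 h149
  have h151 := wGf19_10_3 h150
  have h152 := wGf19_10_4 h151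
  have h153 := wGf19_10_5 h152
  have h154 := wGf19_10_6 h153
  have h155 := wGf19_10_7 h154
  have h156 := wGf19_10_8 h155
  have h157 := wGf19_10_9 h156
  have h158 := wGf19_10_10 h157
  have h159 := wGf19_10_11 h158
  have h160 := wGf19_10_12 h159
  have h161 := wGf19_10_13 h160
  have h162 := wGf19_10_14 h161
  have h163 := wGf19_11_0 h162
  have h164 := wGf19_11_1 h163
  have h165 := wGf19_11_2 h164
  exact h165

theorem bGf19 : RtI (ok5 (okB 1 true)) (stD (dnL QGf18) SGf19) RBGf19 838 := by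
  have h0 := rtI_zero (ok5 (okB 1 true)) (stD (dnL QGf18) SGf19) RBGf19
  have h1 := uGf19 aGf19 h0 oGf19_0_0 (show 0 + 25 = 25 from rfl)
  have h2 := uGf19 aGf19 h1 oGf19_0_1 (show 25 + 25 = 50 from rfl)
  have h3 := uGf19 aGf19 h2 oGf19_0_2 (show 50 + 25 = 75 from rfl)
  have h4 := uGf19 aGf19 h3 oGf19_0_3 (show 75 + 25 = 100 from rfl)
  have h5 := uGf19 aGf19 h4 oGf19_0_4 (show 100 + 25 = 125 from rfl)
  have h6 := uGf19 aGf19 h5 oGf19_0_5 (show 125 + 25 = 150 from rfl)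
  have h7 := uGf19 aGf19 h6 oGf19_0_6 (show 150 + 25 = 175 from rfl)
  have h8 := uGf19 aGf19 h7 oGf19_0_7 (show 175 + 25 = 200 from rfl)
  have h9 := uGf19 aGf19 h8 oGf19_0_8 (show 200 + 25 = 225 from rfl)
  have h10 := uGf19 aGf19 h9 oGf19_0_9 (show 225 + 25 = 250 from rfl)
  have h11 := uGf19 aGf19 h10 oGf19_0_10 (show 250 + 25 = 275 from rfl)
  have h12 := uGf19 aGf19 h11 oGf19_0_11 (show 275 + 25 = 300 from rfl)
  have h13 := uGf19 aGf19 h12 oGf19_0_12 (show 300 + 25 = 325 from rfl)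
  have h14 := uGf19 aGf19 h13 oGf19_0_13 (show 325 + 25 = 350 from rfl)
  have h15 := uGf19 aGf19 h14 oGf19_0_14 (show 350 + 25 = 375 from rfl)
  have h16 := uGf19 aGf19 h15 oGf19_0_15 (show 375 + 25 = 400 from rfl)
  have h17 := uGf19 aGf19 h16 oGf19_0_16 (show 400 + 25 = 425 from rfl)
  have h18 := uGf19 aGf19 h17 oGf19_0_17 (show 425 + 25 = 450 from rfl)
  have h19 := uGf19 aGf19 h18 oGf19_0_18 (show 450 + 25 = 475 from rfl)
  have h20 := uGf19 aGf19 h19 oGf19_0_19 (show 475 + 25 = 500 from rfl)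
  have h21 := uGf19 aGf19 h20 oGf19_0_20 (show 500 + 25 = 525 from rfl)
  have h22 := uGf19 aGf19 h21 oGf19_0_21 (show 525 + 25 = 550 from rfl)
  have h23 := uGf19 aGf19 h22 oGf19_0_22 (show 550 + 25 = 575 from rfl)
  have h24 := uGf19 aGf19 h23 oGf19_0_23 (show 575 + 25 = 600 from rfl)
  have h25 := uGf19 aGf19 h24 oGf19_0_24 (show 600 + 25 = 625 from rfl)
  have h26 := uGf19 aGf19 h25 oGf19_0_25 (show 625 + 25 = 650 from rfl)
  have h27 := uGf19 aGf19 h26 oGf19_0_26 (show 650 + 25 = 675 from rfl)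
  have h28 := uGf19 aGf19 h27 oGf19_0_27 (show 675 + 25 = 700 from rfl)
  have h29 := uGf19 aGf19 h28 oGf19_0_28 (show 700 + 25 = 725 from rfl)
  have h30 := uGf19 aGf19 h29 oGf19_0_29 (show 725 + 25 = 750 from rfl)
  have h31 := uGf19 aGf19 h30 oGf19_0_30 (show 750 + 25 = 775 from rfl)
  have h32 := uGf19 aGf19 h31 oGf19_0_31 (show 775 + 25 = 800 from rfl)
  have h33 := uGf19 aGf19 h32 oGf19_0_32 (show 800 + 25 = 825 from rfl)
  have h34 := uGf19 aGf19 h33 oGf19_0_33 (show 825 + 13 = 838 from rfl)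
  exact h34

theorem tGf19 : (TGf19.all okJ) = true := by decide +kernel

theorem pGf19_0 : CkP QGf18 (6, 0x19130c17100b251f06231c05201b03140f09)
    [3, 2, 0, 0, 0, 0, 0] 64 := by
  have h0 := ckP_zero QGf18 (6, 0x19130c17100b251f06231c05201b03140f09)
    [3, 2, 0, 0, 0, 0, 0]
  have h1 := ckP_step (k := 47) h0 kGf19_0c0 rfl
  have h2 := ckP_step (k := 59) h1 kGf19_0c1 rfl
  have h3 := ckP_step (k := 62) h2 kGf19_0c2 rfl
  have h4 := ckP_step (k := 63) h3 kGf19_0c3 rfl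
  have h5 := ckP_step (k := 64) h4 kGf19_0c4 rfl
  exact h5

theorem pGf19_1 : CkP QGf18 (6, 0x19120d16110b251e07221d05211b03150f09)
    [4, 3, 2, 0, 0, 0, 0, 0] 128 := by
  have h0 := ckP_zero QGf18 (6, 0x19120d16110b251e07221d05211b03150f09)
    [4, 3, 2, 0, 0, 0, 0, 0]
  have h1 := ckP_step (k := 62) h0 kGf19_1c0 rfl
  have h2 := ckP_step (k := 63) h1 kGf19_1c1 rfl
  have h3 := ckP_step (k := 64) h2 kGf19_1c2 rfl
  have h4 := ckP_step (k := 95) h3 kGf19_1c3 rfl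
  have h5 := ckP_step (k := 96) h4 kGf19_1c4 rfl
  have h6 := ckP_step (k := 111) h5 kGf19_1c5 rfl
  have h7 := ckP_step (k := 112) h6 kGf19_1c6 rfl
  have h8 := ckP_step (k := 119) h7 kGf19_1c7 rfl
  have h9 := ckP_step (k := 120) h8 kGf19_1c8 rfl
  have h10 := ckP_step (k := 123) h9 kGf19_1c9 rfl
  have h11 := ckP_step (k := 124) h10 kGf19_1c10 rfl
  have h12 := ckP_step (k := 125) h11 kGf19_1c11 rfl
  have h13 := ckP_step (k := 126) h12 kGf19_1c12 rfl
  have h14 := ckP_step (k := 127) h13 kGf19_1c13 rfl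
  have h15 := ckP_step (k := 128) h14 kGf19_1c14 rfl
  exact h15

theorem pGf19_2 : CkP QGf18 (6, 0x1010601130c01100b1d16051a1503200f09)
    [3, 3, 2, 1, 0] 16 := by
  have h0 := ckP_zero QGf18 (6, 0x1010601130c01100b1d16051a1503200f09)
    [3, 3, 2, 1, 0]
  have h1 := ckP_step (k := 16) h0 kGf19_2c0 rfl
  exact h1

theorem pGf19_3 : CkP QGf18 (9, 0x12a24010107341712321d0c01231101290b261b042015022d0e08)
    [5, 4, 3, 2, 0, 0] 32 := by
  have h0 := ckP_zero QGf18 (9, 0x12a24010107341712321d0c01231101290b261b042015022d0e08)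
    [5, 4, 3, 2, 0, 0]
  have h1 := ckP_step (k := 32) h0 kGf19_3c0 rfl
  exact h1

theorem pGf19_4 : CkP QGf18 (0xa, 0x1013638312b352412331e0c2e190a281710231d022c1a072620050f0914)
    [4, 3, 0, 0, 0, 0, 0] 64 := by
  have h0 := ckP_zero QGf18 (0xa, 0x1013638312b352412331e0c2e190a281710231d022c1a072620050f0914)
    [4, 3, 0, 0, 0, 0, 0]
  have h1 := ckP_step (k := 47) h0 kGf19_4c0 rfl
  have h2 := ckP_step (k := 63) h1 kGf19_4c1 rfl
  have h3 := ckP_step (k := 64) h2 kGf19_4c2 rfl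
  exact h3

theorem pGf19_5 : CkP QGf18 (0xe, 0x10149463c36514e4244302a4c1e164a2412401c0c3e100634190a3a2e0e23380232281a2c2005260914)
    [0, 0, 0, 0] 8 := by
  have h0 := ckP_zero QGf18 (0xe, 0x10149463c36514e4244302a4c1e164a2412401c0c3e100634190a3a2e0e23380232281a2c2005260914)
    [0, 0, 0, 0]
  have h1 := ckP_step (k := 8) h0 kGf19_5c0 rfl
  exact h1

theorem pGf19_6 : CkP QGf18 (0xa, 0x136233a312b35241f330c062e39022d130801100b1d160528151a260f20)
    [7, 6, 5, 4, 0, 0, 0, 0] 128 := by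
  have h0 := ckP_zero QGf18 (0xa, 0x136233a312b35241f330c062e39022d130801100b1d160528151a260f20)
    [7, 6, 5, 4, 0, 0, 0, 0]
  have h1 := ckP_step (k := 128) h0 kGf19_6c0 rfl
  exact h1

theorem kGf19 : PpI QGf18 6 TGf19 CAGf CBGf 7 := by
  have h0 := ppI_zero QGf18 6 TGf19 CAGf CBGf
  have h1 := ppI_stepV (k' := 1) (q := (6, 0x19130c17100b251f06231c05201b03140f09)) h0 rfl kGf19_0r pGf19_0 kGf19_0m rfl
  have h2 := ppI_stepV (k' := 2) (q := (6, 0x19120d16110b251e07221d05211b03150f09)) h1 rfl kGf19_1r pGf19_1 kGf19_1m rfl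
  have h3 := ppI_stepV (k' := 3) (q := (6, 0x1010601130c01100b1d16051a1503200f09)) h2 rfl kGf19_2r pGf19_2 kGf19_2m rfl
  have h4 := ppI_stepV (k' := 4) (q := (9, 0x12a24010107341712321d0c01231101290b261b042015022d0e08)) h3 rfl kGf19_3r pGf19_3 kGf19_3m rfl
  have h5 := ppI_stepV (k' := 5) (q := (0xa, 0x1013638312b352412331e0c2e190a281710231d022c1a072620050f0914)) h4 rfl kGf19_4r pGf19_4 kGf19_4m rfl
  have h6 := ppI_stepV (k' := 6) (q := (0xe, 0x10149463c36514e4244302a4c1e164a2412401c0c3e100634190a3a2e0e23380232281a2c2005260914)) h5 rfl kGf19_5r pGf19_5 kGf19_5m rfl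
  have h7 := ppI_stepV (k' := 7) (q := (0xa, 0x136233a312b35241f330c062e39022d130801100b1d160528151a260f20)) h6 rfl kGf19_6r pGf19_6 kGf19_6m rfl
  exact h7

theorem zGf19 : (!false || allK QGf18 (fun _ => true) (nzq CBGf)
  0) = true := by decide +kernel

theorem mGf19A : (Nat.ble 2 1 || memI QGf18 14 1 257) = true := by decide +kernel

theorem mGf19B : (Nat.ble 1 1 || memI QGf18 0 1 1) = true := by decide +kernel

/-- **the phase 19** -/
theorem cGf19 : Dj5 CAGf CBGf PLGf (dnL QGf19) :=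
  Dj5.rawP vokAGf vokBGf mclAGf mclBGf mkoGf wfpGf cGf18 mGf19A mGf19B (by norm_num) tGf19 kGf19 lenGf zGf19 bGf19

end EF18
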