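import Pool.Agent.Lib.MP_ef18bd_co.G5.P2

/-!
# Phase 2: closed patterns
-/

namespace EF18

set_option linter.defProp false

def jGf2_0 : j0F QGf1 BGf2 100 0
  0x288000e3c100278000e28100e18100e14100270000e10100e0c100268000264000e08100258000250000248000d00100cf8100cf4100234000ce4100ce0100cd4100cc010020c0002080002000001fc0001f80001f00001e8000c801001d80001d4000a50100a4c100a48100a44100a401001d0000a3c1001cc000a381001c8000a341001c4000a301001c0000a2c100a281001bc0001b8000a20100a1c100a18100a14100a10100a0c100a08100a04100a001009fc1001b00009f81001ac0009f41009f01009ec1009e81001a80009e01009dc1009d81009d41009d01009cc1009c81001a40009c41009c01009bc1001a00009b81009b41009b010019c0001980001940001900009a81009a410018c0009a010018800099810099410018400018000099010098c10017c0 = true := by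
  decide +kernel

def jGf2_1 : j0F QGf1 BGf2 100 100
  0x4b40004ac00131010130c1004a80013001012fc1012f81012f41012f01004a40012e810049c0012d81012b81012a410129810128c10128410045800126010125c10044c00125010124c10042000124810041400122c1012241003e80012041003e40003dc0012001003d00003cc0003c80011f41011f01011d81003a800039400039000038c0011bc10037800036400035c00034c00117410034400116010034000033c00115810115410115010033800114010113c10113810033400113410033000113010112c10112810032c00032800112410112010111c10032400032000111010110c10110810110010031c000318000314000310000ec01002e40002d80002d4000e80100e7c100e781002bc000e701002b80002b00002a40002a0000e68100e64100e5c1002900 = true := by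
  decide +kernel

def jGf2_2 : j0F QGf1 BGf2 100 200
  0x17d41017d01017cc1017c81007000006f40017941017801006d00017281016c010068800166810166410166010165c10164010163c1006780016181016141016101016041015fc1015f81006680006640015e81006480015d81015d41015cc1015c81015c010064400063c0015a410062400157c10062000157810061c00157410157010156c10156810155c10155410155010154c1015381015301005fc0005f800152410152010151c1015181005d00015081014cc1014c410058c0005880005840005700014a41014a010149410149010148c1014881014681005540014581014481005480014181005380013e410051c0013d81013d01005100013bc10139c1004f400137810137410137010135810134810133c1013301004c80013241004c40013201004c00004bc0 = true := by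
  decide +kernel

def jGf2_3 : j0F QGf1 BGf2 72 300
  0x84000083c00083800083400082800081800081400022410021c101ab4101a74101a38101a24101a1c100810001a04101a001008040019fc1019e41019dc1007ec0007e80007dc0019c81019bc1019b01019ac1019a81007d00019901019841019801007c80007c40007b80007b40007b00007ac00079c00079800195410079000078800078000077800077400077000194010076800076400076000193010192c1019281019001007500018d010074c0018cc1018c81007480007440018b81018a41018a010074000184810183c10180410070c0007080 = true := by
  decide +kernel

end EF18
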