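import Pool.Agent.Lib.MP_ef18bd_co.G5.C1
import Pool.Agent.Lib.MP_ef18bd_co.G5.P2x0
import Pool.Agent.Lib.MP_ef18bd_co.G5.P2j0
import Pool.Agent.Lib.MP_ef18bd_co.G5.P2r0
import Pool.Agent.Lib.MP_ef18bd_co.G5.P2k0

/-!
# Phase 2
-/

namespace EF18

theorem aGf2 : ∀ i < 1382, Val (stD (dnL QGf1) SGf2) (prc BGf2 i) := by
  have j0 := ents_zeroF QGf1 SGf2 BGf2
  have j1 := ents_dnF (k := 100) j0 jGf2_0 rfl
  have j2 := ents_dnF (k := 200) j1 jGf2_1 rfl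
  have j3 := ents_dnF (k := 300) j2 jGf2_2 rfl
  have j4 := ents_dnF (k := 372) j3 jGf2_3 rfl
  have h0 := j4
  have h1 := wGf2_0_0 h0
  have h2 := wGf2_0_1 h1
  have h3 := wGf2_0_2 h2
  have h4 := wGf2_0_3 h3
  have h5 := wGf2_0_4 h4
  have h6 := wGf2_0_5 h5
  have h7 := wGf2_0_6 h6
  have h8 := wGf2_0_7 h7
  have h9 := wGf2_0_8 h8
  have h10 := wGf2_0_9 h9
  have h11 := wGf2_0_10 h10
  have h12 := wGf2_0_11 h11
  have h13 := wGf2_0_12 h12
  have h14 := wGf2_0_13 h13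
  have h15 := wGf2_0_14 h14
  have h16 := wGf2_0_15 h15
  have h17 := wGf2_0_16 h16
  have h18 := wGf2_0_17 h17
  have h19 := wGf2_0_18 h18
  have h20 := wGf2_0_19 h19
  have h21 := wGf2_0_20 h20
  have h22 := wGf2_0_21 h21
  have h23 := wGf2_0_22 h22
  have h24 := wGf2_0_23 h23
  have h25 := wGf2_0_24 h24
  have h26 := wGf2_0_25 h25
  have h27 := wGf2_0_26 h26
  have h28 := wGf2_0_27 h27
  have h29 := wGf2_0_28 h28
  have h30 := wGf2_0_29 h29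
  have h31 := wGf2_0_30 h30
  have h32 := wGf2_0_31 h31
  have h33 := wGf2_0_32 h32
  have h34 := wGf2_0_33 h33
  have h35 := wGf2_0_34 h34
  have h36 := wGf2_0_35 h35
  have h37 := wGf2_0_36 h36
  have h38 := wGf2_0_37 h37
  have h39 := wGf2_0_38 h38
  have h40 := wGf2_0_39 h39
  have h41 := wGf2_0_40 h40
  exact h41

theorem bGf2 : RtI (ok5 (okB 2 true)) (stD (dnL QGf1) SGf2) RBGf2 619 := by
  have h0 := rtI_zero (ok5 (okB 2 true)) (stD (dnL QGf1) SGf2) RBGf2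
  have h1 := uGf2 aGf2 h0 oGf2_0_0 (show 0 + 25 = 25 from rfl)
  have h2 := uGf2 aGf2 h1 oGf2_0_1 (show 25 + 25 = 50 from rfl)
  have h3 := uGf2 aGf2 h2 oGf2_0_2 (show 50 + 25 = 75 from rfl)
  have h4 := uGf2 aGf2 h3 oGf2_0_3 (show 75 + 25 = 100 from rfl)
  have h5 := uGf2 aGf2 h4 oGf2_0_4 (show 100 + 25 = 125 from rfl)
  have h6 := uGf2 aGf2 h5 oGf2_0_5 (show 125 + 25 = 150 from rfl)
  have h7 := uGf2 aGf2 h6 oGf2_0_6 (show 150 + 25 = 175 from rfl)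
  have h8 := uGf2 aGf2 h7 oGf2_0_7 (show 175 + 25 = 200 from rfl)
  have h9 := uGf2 aGf2 h8 oGf2_0_8 (show 200 + 25 = 225 from rfl)
  have h10 := uGf2 aGf2 h9 oGf2_0_9 (show 225 + 25 = 250 from rfl)
  have h11 := uGf2 aGf2 h10 oGf2_0_10 (show 250 + 25 = 275 from rfl)
  have h12 := uGf2 aGf2 h11 oGf2_0_11 (show 275 + 25 = 300 from rfl)
  have h13 := uGf2 aGf2 h12 oGf2_0_12 (show 300 + 25 = 325 from rfl)
  have h14 := uGf2 aGf2 h13 oGf2_0_13 (show 325 + 25 = 350 from rfl)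
  have h15 := uGf2 aGf2 h14 oGf2_0_14 (show 350 + 25 = 375 from rfl)
  have h16 := uGf2 aGf2 h15 oGf2_0_15 (show 375 + 25 = 400 from rfl)
  have h17 := uGf2 aGf2 h16 oGf2_0_16 (show 400 + 25 = 425 from rfl)
  have h18 := uGf2 aGf2 h17 oGf2_0_17 (show 425 + 25 = 450 from rfl)
  have h19 := uGf2 aGf2 h18 oGf2_0_18 (show 450 + 25 = 475 from rfl)
  have h20 := uGf2 aGf2 h19 oGf2_0_19 (show 475 + 25 = 500 from rfl)
  have h21 := uGf2 aGf2 h20 oGf2_0_20 (show 500 + 25 = 525 from rfl)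
  have h22 := uGf2 aGf2 h21 oGf2_0_21 (show 525 + 25 = 550 from rfl)
  have h23 := uGf2 aGf2 h22 oGf2_0_22 (show 550 + 25 = 575 from rfl)
  have h24 := uGf2 aGf2 h23 oGf2_0_23 (show 575 + 25 = 600 from rfl)
  have h25 := uGf2 aGf2 h24 oGf2_0_24 (show 600 + 19 = 619 from rfl)
  exact h25

theorem tGf2 : (TGf2.all okJ) = true := by decide +kernel

theorem pGf2_0 : CkP QGf1 (6, 0x19130c17100b251f06231c05201b03140f09)
    [6, 4, 3, 0, 2, 0, 0] 64 := by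
  have h0 := ckP_zero QGf1 (6, 0x19130c17100b251f06231c05201b03140f09)
    [6, 4, 3, 0, 2, 0, 0]
  have h1 := ckP_step (k := 47) h0 kGf2_0c0 rfl
  have h2 := ckP_step (k := 62) h1 kGf2_0c1 rfl
  have h3 := ckP_step (k := 64) h2 kGf2_0c2 rfl
  exact h3

theorem pGf2_1 : CkP QGf1 (6, 0x19120d16110b251e07221d05211b03150f09)
    [7, 6, 5, 4, 3, 0, 1, 0] 128 := by
  have h0 := ckP_zero QGf1 (6, 0x19120d16110b251e07221d05211b03150f09)
    [7, 6, 5, 4, 3, 0, 1, 0]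
  have h1 := ckP_step (k := 128) h0 kGf2_1c0 rfl
  exact h1

theorem pGf2_2 : CkP QGf1 (6, 0x1010601130c01100b1d16051a1503200f09)
    [4, 3, 2, 1, 0] 16 := by
  have h0 := ckP_zero QGf1 (6, 0x1010601130c01100b1d16051a1503200f09)
    [4, 3, 2, 1, 0]
  have h1 := ckP_step (k := 16) h0 kGf2_2c0 rfl
  exact h1

theorem pGf2_3 : CkP QGf1 (9, 0x12a24010107341712321d0c01231101290b261b042015022d0e08)
    [5, 4, 3, 2, 1, 0] 32 := by
  have h0 := ckP_zero QGf1 (9, 0x12a24010107341712321d0c01231101290b261b042015022d0e08)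
    [5, 4, 3, 2, 1, 0]
  have h1 := ckP_step (k := 32) h0 kGf2_3c0 rfl
  exact h1

theorem pGf2_4 : CkP QGf1 (0xa, 0x1013638312b352412331e0c2e190a281710231d022c1a072620050f0914)
    [6, 5, 4, 3, 2, 0, 0] 64 := by
  have h0 := ckP_zero QGf1 (0xa, 0x1013638312b352412331e0c2e190a281710231d022c1a072620050f0914)
    [6, 5, 4, 3, 2, 0, 0]
  have h1 := ckP_step (k := 64) h0 kGf2_4c0 rfl
  exact h1

theorem pGf2_5 : CkP QGf1 (0xe, 0x10149463c36514e4244302a4c1e164a2412401c0c3e100634190a3a2e0e23380232281a2c2005260914)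
    [3, 2, 1, 0] 8 := by
  have h0 := ckP_zero QGf1 (0xe, 0x10149463c36514e4244302a4c1e164a2412401c0c3e100634190a3a2e0e23380232281a2c2005260914)
    [3, 2, 1, 0]
  have h1 := ckP_step (k := 8) h0 kGf2_5c0 rfl
  exact h1

theorem pGf2_6 : CkP QGf1 (0xa, 0x136233a312b35241f330c062e39022d130801100b1d160528151a260f20)
    [7, 6, 5, 4, 3, 2, 1, 0] 128 := by
  have h0 := ckP_zero QGf1 (0xa, 0x136233a312b35241f330c062e39022d130801100b1d160528151a260f20)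
    [7, 6, 5, 4, 3, 2, 1, 0]
  have h1 := ckP_step (k := 128) h0 kGf2_6c0 rfl
  exact h1

theorem kGf2 : PpI QGf1 6 TGf2 CAGf CBGf 7 := by
  have h0 := ppI_zero QGf1 6 TGf2 CAGf CBGf
  have h1 := ppI_stepV (k' := 1) (q := (6, 0x19130c17100b251f06231c05201b03140f09)) h0 rfl kGf2_0r pGf2_0 kGf2_0m rfl
  have h2 := ppI_stepV (k' := 2) (q := (6, 0x19120d16110b251e07221d05211b03150f09)) h1 rfl kGf2_1r pGf2_1 kGf2_1m rfl
  have h3 := ppI_stepV (k' := 3) (q := (6, 0x1010601130c01100b1d16051a1503200f09)) h2 rfl kGf2_2r pGf2_2 kGf2_2m rfl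
  have h4 := ppI_stepV (k' := 4) (q := (9, 0x12a24010107341712321d0c01231101290b261b042015022d0e08)) h3 rfl kGf2_3r pGf2_3 kGf2_3m rfl
  have h5 := ppI_stepV (k' := 5) (q := (0xa, 0x1013638312b352412331e0c2e190a281710231d022c1a072620050f0914)) h4 rfl kGf2_4r pGf2_4 kGf2_4m rfl
  have h6 := ppI_stepV (k' := 6) (q := (0xe, 0x10149463c36514e4244302a4c1e164a2412401c0c3e100634190a3a2e0e23380232281a2c2005260914)) h5 rfl kGf2_5r pGf2_5 kGf2_5m rfl
  have h7 := ppI_stepV (k' := 7) (q := (0xa, 0x136233a312b35241f330c062e39022d130801100b1d160528151a260f20)) h6 rfl kGf2_6r pGf2_6 kGf2_6m rfl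
  exact h7

theorem zGf2 : (!false || allK QGf1 (fun _ => true) (nzq CBGf)
  0) = true := by decide +kernel

theorem mGf2A : (Nat.ble 2 2 || memI QGf1 0 1 257) = true := by decide +kernel

theorem mGf2B : (Nat.ble 1 2 || memI QGf1 0 1 1) = true := by decide +kernel

/-- **the phase 2** -/
theorem cGf2 : Dj5 CAGf CBGf PLGf (dnL QGf2) :=
  Dj5.rawP vokAGf vokBGf mclAGf mclBGf mkoGf wfpGf cGf1 mGf2A mGf2B (by norm_num) tGf2 kGf2 lenGf zGf2 bGf2

end EF18
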