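import Pool.Agent.Lib.MP_ef18bd_co.G5.P20

/-!
# Phase 20: closed patterns
-/

namespace EF18

set_option linter.defProp false

def jGf20_0 : j0F QGf19 BGf20 100 0
  0x994000c9400098c000c8c00097800097000096c000c7c00096000095c00095800095400094c000918000c60000c5c0008f00008a4000c50000c4c0008280008000007d000077400075000073c000308000c2c000204000c24000c20000c1c000c18000c14000c10000c0c000c08000c04000c00000bfc000bf8000bf4000bf0000bec000be8000be4000be0000bdc000bd8000bd4000bd0000bcc000bc8000bc4000bc0000bbc000bb8000bb4000bb0000bac000ba8000ba4000ba0000b9c000b98000b94000b90000b8c000b88000b84000b80000b7c000b78000b74000b70000b6c000b68000b64000b60000b5c000b58000b54000b50000b4c0000e0000b44000b400000cc0000c40000b00000a80002243000005003908002bc80023c800bdca0942ce091a0e03ad8e = true := by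
  decide +kernel

def jGf20_1 : j0F QGf19 BGf20 31 100
  0xd14000b20000d0c000b10000d04000d00000cfc000cf8000cf4000aec000cec000ae8000ce4000ae4000ae0000cd8000adc000ad8000ccc000cc8000cc4000cc0000cbc000a6c000a4c000a04000cac0009d80009b40009ac00099c0 = true := by
  decide +kernel

end EF18
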