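import Pool.Agent.Lib.MP_ef18bd_co.G5.C19
import Pool.Agent.Lib.MP_ef18bd_co.G5.P20x0
import Pool.Agent.Lib.MP_ef18bd_co.G5.P20x1
import Pool.Agent.Lib.MP_ef18bd_co.G5.P20x2
import Pool.Agent.Lib.MP_ef18bd_co.G5.P20j0
import Pool.Agent.Lib.MP_ef18bd_co.G5.P20r0
import Pool.Agent.Lib.MP_ef18bd_co.G5.P20k0

/-!
# Phase 20
-/

namespace EF18

theorem aGf20 : ∀ i < 971, Val (stD (dnL QGf19) SGf20) (prc BGf20 i) := by
  have j0 := ents_zeroF QGf19 SGf20 BGf20
  have j1 := ents_dnF (k := 100) j0 jGf20_0 rfl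
  have j2 := ents_dnF (k := 131) j1 jGf20_1 rfl
  have h0 := j2
  have h1 := wGf20_0_0 h0
  have h2 := wGf20_0_1 h1
  have h3 := wGf20_0_2 h2
  have h4 := wGf20_0_3 h3
  have h5 := wGf20_0_4 h4
  have h6 := wGf20_0_5 h5
  have h7 := wGf20_0_6 h6
  have h8 := wGf20_0_7 h7
  have h9 := wGf20_0_8 h8
  have h10 := wGf20_0_9 h9
  have h11 := wGf20_0_10 h10
  have h12 := wGf20_0_11 h11
  have h13 := wGf20_0_12 h12
  have h14 := wGf20_0_13 h13
  have h15 := wGf20_1_0 h14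
  have h16 := wGf20_1_1 h15
  have h17 := wGf20_1_2 h16
  have h18 := wGf20_1_3 h17
  have h19 := wGf20_1_4 h18
  have h20 := wGf20_1_5 h19
  have h21 := wGf20_1_6 h20
  have h22 := wGf20_1_7 h21
  have h23 := wGf20_1_8 h22
  have h24 := wGf20_1_9 h23
  have h25 := wGf20_1_10 h24
  have h26 := wGf20_1_11 h25
  have h27 := wGf20_1_12 h26
  have h28 := wGf20_1_13 h27
  have h29 := wGf20_1_14 h28
  have h30 := wGf20_2_0 h29
  have h31 := wGf20_2_1 h30
  have h32 := wGf20_2_2 h31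
  have h33 := wGf20_2_3 h32
  have h34 := wGf20_2_4 h33
  have h35 := wGf20_2_5 h34
  exact h35

theorem bGf20 : RtI (ok5 (okB 1 true)) (stD (dnL QGf19) SGf20) RBGf20 417 := by
  have h0 := rtI_zero (ok5 (okB 1 true)) (stD (dnL QGf19) SGf20) RBGf20
  have h1 := uGf20 aGf20 h0 oGf20_0_0 (show 0 + 25 = 25 from rfl)
  have h2 := uGf20 aGf20 h1 oGf20_0_1 (show 25 + 25 = 50 from rfl)
  have h3 := uGf20 aGf20 h2 oGf20_0_2 (show 50 + 25 = 75 from rfl)
  have h4 := uGf20 aGf20 h3 oGf20_0_3 (show 75 + 25 = 100 from rfl)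
  have h5 := uGf20 aGf20 h4 oGf20_0_4 (show 100 + 25 = 125 from rfl)
  have h6 := uGf20 aGf20 h5 oGf20_0_5 (show 125 + 25 = 150 from rfl)
  have h7 := uGf20 aGf20 h6 oGf20_0_6 (show 150 + 25 = 175 from rfl)
  have h8 := uGf20 aGf20 h7 oGf20_0_7 (show 175 + 25 = 200 from rfl)
  have h9 := uGf20 aGf20 h8 oGf20_0_8 (show 200 + 25 = 225 from rfl)
  have h10 := uGf20 aGf20 h9 oGf20_0_9 (show 225 + 25 = 250 from rfl)
  have h11 := uGf20 aGf20 h10 oGf20_0_10 (show 250 + 25 = 275 from rfl)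
  have h12 := uGf20 aGf20 h11 oGf20_0_11 (show 275 + 25 = 300 from rfl)
  have h13 := uGf20 aGf20 h12 oGf20_0_12 (show 300 + 25 = 325 from rfl)
  have h14 := uGf20 aGf20 h13 oGf20_0_13 (show 325 + 25 = 350 from rfl)
  have h15 := uGf20 aGf20 h14 oGf20_0_14 (show 350 + 25 = 375 from rfl)
  have h16 := uGf20 aGf20 h15 oGf20_0_15 (show 375 + 25 = 400 from rfl)
  have h17 := uGf20 aGf20 h16 oGf20_0_16 (show 400 + 17 = 417 from rfl)
  exact h17

theorem tGf20 : (TGf20.all okJ) = true := by decide +kernel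

theorem pGf20_0 : CkP QGf19 (6, 0x19130c17100b251f06231c05201b03140f09)
    [3, 2, 0, 0, 0, 0, 0] 64 := by
  have h0 := ckP_zero QGf19 (6, 0x19130c17100b251f06231c05201b03140f09)
    [3, 2, 0, 0, 0, 0, 0]
  have h1 := ckP_step (k := 63) h0 kGf20_0c0 rfl
  have h2 := ckP_step (k := 64) h1 kGf20_0c1 rfl
  exact h2

theorem pGf20_1 : CkP QGf19 (6, 0x19120d16110b251e07221d05211b03150f09)
    [4, 3, 2, 0, 0, 0, 0, 0] 128 := by
  have h0 := ckP_zero QGf19 (6, 0x19120d16110b251e07221d05211b03150f09)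
    [4, 3, 2, 0, 0, 0, 0, 0]
  have h1 := ckP_step (k := 63) h0 kGf20_1c0 rfl
  have h2 := ckP_step (k := 64) h1 kGf20_1c1 rfl
  have h3 := ckP_step (k := 95) h2 kGf20_1c2 rfl
  have h4 := ckP_step (k := 96) h3 kGf20_1c3 rfl
  have h5 := ckP_step (k := 111) h4 kGf20_1c4 rfl
  have h6 := ckP_step (k := 112) h5 kGf20_1c5 rfl
  have h7 := ckP_step (k := 119) h6 kGf20_1c6 rfl
  have h8 := ckP_step (k := 120) h7 kGf20_1c7 rfl
  have h9 := ckP_step (k := 123) h8 kGf20_1c8 rfl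
  have h10 := ckP_step (k := 124) h9 kGf20_1c9 rfl
  have h11 := ckP_step (k := 125) h10 kGf20_1c10 rfl
  have h12 := ckP_step (k := 126) h11 kGf20_1c11 rfl
  have h13 := ckP_step (k := 127) h12 kGf20_1c12 rfl
  have h14 := ckP_step (k := 128) h13 kGf20_1c13 rfl
  exact h14

theorem pGf20_2 : CkP QGf19 (6, 0x1010601130c01100b1d16051a1503200f09)
    [3, 3, 2, 1, 0] 16 := by
  have h0 := ckP_zero QGf19 (6, 0x1010601130c01100b1d16051a1503200f09)
    [3, 3, 2, 1, 0]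
  have h1 := ckP_step (k := 16) h0 kGf20_2c0 rfl
  exact h1

theorem pGf20_3 : CkP QGf19 (9, 0x12a24010107341712321d0c01231101290b261b042015022d0e08)
    [5, 4, 3, 2, 0, 0] 32 := by
  have h0 := ckP_zero QGf19 (9, 0x12a24010107341712321d0c01231101290b261b042015022d0e08)
    [5, 4, 3, 2, 0, 0]
  have h1 := ckP_step (k := 32) h0 kGf20_3c0 rfl
  exact h1

theorem pGf20_4 : CkP QGf19 (0xa, 0x1013638312b352412331e0c2e190a281710231d022c1a072620050f0914)
    [4, 3, 0, 0, 0, 0, 0] 64 := by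
  have h0 := ckP_zero QGf19 (0xa, 0x1013638312b352412331e0c2e190a281710231d022c1a072620050f0914)
    [4, 3, 0, 0, 0, 0, 0]
  have h1 := ckP_step (k := 47) h0 kGf20_4c0 rfl
  have h2 := ckP_step (k := 63) h1 kGf20_4c1 rfl
  have h3 := ckP_step (k := 64) h2 kGf20_4c2 rfl
  exact h3

theorem pGf20_5 : CkP QGf19 (0xe, 0x10149463c36514e4244302a4c1e164a2412401c0c3e100634190a3a2e0e23380232281a2c2005260914)
    [0, 0, 0, 0] 8 := by
  have h0 := ckP_zero QGf19 (0xe, 0x10149463c36514e4244302a4c1e164a2412401c0c3e100634190a3a2e0e23380232281a2c2005260914)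
    [0, 0, 0, 0]
  have h1 := ckP_step (k := 8) h0 kGf20_5c0 rfl
  exact h1

theorem pGf20_6 : CkP QGf19 (0xa, 0x136233a312b35241f330c062e39022d130801100b1d160528151a260f20)
    [7, 6, 5, 4, 0, 0, 0, 0] 128 := by
  have h0 := ckP_zero QGf19 (0xa, 0x136233a312b35241f330c062e39022d130801100b1d160528151a260f20)
    [7, 6, 5, 4, 0, 0, 0, 0]
  have h1 := ckP_step (k := 128) h0 kGf20_6c0 rfl
  exact h1

theorem kGf20 : PpI QGf19 6 TGf20 CAGf CBGf 7 := by
  have h0 := ppI_zero QGf19 6 TGf20 CAGf CBGf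
  have h1 := ppI_stepV (k' := 1) (q := (6, 0x19130c17100b251f06231c05201b03140f09)) h0 rfl kGf20_0r pGf20_0 kGf20_0m rfl
  have h2 := ppI_stepV (k' := 2) (q := (6, 0x19120d16110b251e07221d05211b03150f09)) h1 rfl kGf20_1r pGf20_1 kGf20_1m rfl
  have h3 := ppI_stepV (k' := 3) (q := (6, 0x1010601130c01100b1d16051a1503200f09)) h2 rfl kGf20_2r pGf20_2 kGf20_2m rfl
  have h4 := ppI_stepV (k' := 4) (q := (9, 0x12a24010107341712321d0c01231101290b261b042015022d0e08)) h3 rfl kGf20_3r pGf20_3 kGf20_3m rfl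
  have h5 := ppI_stepV (k' := 5) (q := (0xa, 0x1013638312b352412331e0c2e190a281710231d022c1a072620050f0914)) h4 rfl kGf20_4r pGf20_4 kGf20_4m rfl
  have h6 := ppI_stepV (k' := 6) (q := (0xe, 0x10149463c36514e4244302a4c1e164a2412401c0c3e100634190a3a2e0e23380232281a2c2005260914)) h5 rfl kGf20_5r pGf20_5 kGf20_5m rfl
  have h7 := ppI_stepV (k' := 7) (q := (0xa, 0x136233a312b35241f330c062e39022d130801100b1d160528151a260f20)) h6 rfl kGf20_6r pGf20_6 kGf20_6m rfl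
  exact h7

theorem zGf20 : (!false || allK QGf19 (fun _ => true) (nzq CBGf)
  0) = true := by decide +kernel

theorem mGf20A : (Nat.ble 2 1 || memI QGf19 15 1 257) = true := by decide +kernel

theorem mGf20B : (Nat.ble 1 1 || memI QGf19 0 1 1) = true := by decide +kernel

/-- **the phase 20** -/
theorem cGf20 : Dj5 CAGf CBGf PLGf (dnL QGf20) :=
  Dj5.rawP vokAGf vokBGf mclAGf mclBGf mkoGf wfpGf cGf19 mGf20A mGf20B (by norm_num) tGf20 kGf20 lenGf zGf20 bGf20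

end EF18
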