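import Pool.Agent.Lib.MP_ef18bd_co.G5.P21

/-!
# Phase 21: roots
-/

namespace EF18

set_option linter.defProp false

def oGf21_0_0 : rGf21 0 4
  0xbcb8b4b0aca8a4a09c9894908c8884807c7874706c6860645c585444403c504c482c282438343014100c201c1808000551d320bcb8b4b0aca8a4a09c9894908c8884807c7874706c6864605c5854504c4844403c3834302c2824201c1814100c08040151d3208c8884989490807c7870746c5c5854686460504c4844403c2c242838343010140c1c2018080005c3d2909894908c8884807c7874706c6864605c5854504c4844403c3834302c2428201c1814100c080401c3d29 = true := by
  decide +kernel

end EF18
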