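import Pool.Agent.Lib.MP_ef18bd_co.G5.C20
import Pool.Agent.Lib.MP_ef18bd_co.G5.P21x0
import Pool.Agent.Lib.MP_ef18bd_co.G5.P21x1
import Pool.Agent.Lib.MP_ef18bd_co.G5.P21x2
import Pool.Agent.Lib.MP_ef18bd_co.G5.P21j0
import Pool.Agent.Lib.MP_ef18bd_co.G5.P21r0
import Pool.Agent.Lib.MP_ef18bd_co.G5.P21k0

/-!
# Phase 21
-/

namespace EF18

theorem aGf21 : ∀ i < 1808, Val (stD (dnL QGf20) SGf21) (prc BGf21 i) := by
  have j0 := ents_zeroF QGf20 SGf21 BGf21
  have j1 := ents_dnF (k := 100) j0 jGf21_0 rfl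
  have j2 := ents_dnF (k := 200) j1 jGf21_1 rfl
  have j3 := ents_dnF (k := 300) j2 jGf21_2 rfl
  have j4 := ents_dnF (k := 400) j3 jGf21_3 rfl
  have j5 := ents_dnF (k := 500) j4 jGf21_4 rfl
  have j6 := ents_dnF (k := 600) j5 jGf21_5 rfl
  have j7 := ents_dnF (k := 700) j6 jGf21_6 rfl
  have j8 := ents_dnF (k := 800) j7 jGf21_7 rfl
  have j9 := ents_dnF (k := 900) j8 jGf21_8 rfl
  have j10 := ents_dnF (k := 1000) j9 jGf21_9 rfl
  have j11 := ents_dnF (k := 1100) j10 jGf21_10 rfl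
  have j12 := ents_dnF (k := 1102) j11 jGf21_11 rfl
  have h0 := j12
  have h1 := wGf21_0_0 h0
  have h2 := wGf21_0_1 h1
  have h3 := wGf21_0_2 h2
  have h4 := wGf21_0_3 h3
  have h5 := wGf21_0_4 h4
  have h6 := wGf21_0_5 h5
  have h7 := wGf21_0_6 h6
  have h8 := wGf21_0_7 h7
  have h9 := wGf21_0_8 h8
  have h10 := wGf21_0_9 h9
  have h11 := wGf21_0_10 h10
  have h12 := wGf21_0_11 h11
  have h13 := wGf21_0_12 h12
  have h14 := wGf21_0_13 h13
  have h15 := wGf21_0_14 h14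
  have h16 := wGf21_0_15 h15
  have h17 := wGf21_0_16 h16
  have h18 := wGf21_1_0 h17
  have h19 := wGf21_1_1 h18
  have h20 := wGf21_1_2 h19
  have h21 := wGf21_1_3 h20
  have h22 := wGf21_1_4 h21
  have h23 := wGf21_1_5 h22
  have h24 := wGf21_1_6 h23
  have h25 := wGf21_1_7 h24
  have h26 := wGf21_1_8 h25
  have h27 := wGf21_1_9 h26
  have h28 := wGf21_1_10 h27
  have h29 := wGf21_2_0 h28
  have h30 := wGf21_2_1 h29
  exact h30

theorem bGf21 : RtI (ok5 (okB 1 true)) (stD (dnL QGf20) SGf21) RBGf21 4 := by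
  have h0 := rtI_zero (ok5 (okB 1 true)) (stD (dnL QGf20) SGf21) RBGf21
  have h1 := uGf21 aGf21 h0 oGf21_0_0 (show 0 + 4 = 4 from rfl)
  exact h1

theorem tGf21 : (TGf21.all okJ) = true := by decide +kernel

theorem pGf21_0 : CkP QGf20 (6, 0x19130c17100b251f06231c05201b03140f09)
    [3, 0, 0, 0, 0, 0, 0] 64 := by
  have h0 := ckP_zero QGf20 (6, 0x19130c17100b251f06231c05201b03140f09)
    [3, 0, 0, 0, 0, 0, 0]
  have h1 := ckP_step (k := 63) h0 kGf21_0c0 rfl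
  have h2 := ckP_step (k := 64) h1 kGf21_0c1 rfl
  exact h2

theorem pGf21_1 : CkP QGf20 (6, 0x19120d16110b251e07221d05211b03150f09)
    [4, 3, 2, 0, 0, 0, 0, 0] 128 := by
  have h0 := ckP_zero QGf20 (6, 0x19120d16110b251e07221d05211b03150f09)
    [4, 3, 2, 0, 0, 0, 0, 0]
  have h1 := ckP_step (k := 63) h0 kGf21_1c0 rfl
  have h2 := ckP_step (k := 64) h1 kGf21_1c1 rfl
  have h3 := ckP_step (k := 95) h2 kGf21_1c2 rfl
  have h4 := ckP_step (k := 96) h3 kGf21_1c3 rfl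
  have h5 := ckP_step (k := 111) h4 kGf21_1c4 rfl
  have h6 := ckP_step (k := 112) h5 kGf21_1c5 rfl
  have h7 := ckP_step (k := 119) h6 kGf21_1c6 rfl
  have h8 := ckP_step (k := 120) h7 kGf21_1c7 rfl
  have h9 := ckP_step (k := 123) h8 kGf21_1c8 rfl
  have h10 := ckP_step (k := 124) h9 kGf21_1c9 rfl
  have h11 := ckP_step (k := 125) h10 kGf21_1c10 rfl
  have h12 := ckP_step (k := 126) h11 kGf21_1c11 rfl
  have h13 := ckP_step (k := 127) h12 kGf21_1c12 rfl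
  have h14 := ckP_step (k := 128) h13 kGf21_1c13 rfl
  exact h14

theorem pGf21_2 : CkP QGf20 (6, 0x1010601130c01100b1d16051a1503200f09)
    [3, 3, 2, 1, 0] 16 := by
  have h0 := ckP_zero QGf20 (6, 0x1010601130c01100b1d16051a1503200f09)
    [3, 3, 2, 1, 0]
  have h1 := ckP_step (k := 16) h0 kGf21_2c0 rfl
  exact h1

theorem pGf21_3 : CkP QGf20 (9, 0x12a24010107341712321d0c01231101290b261b042015022d0e08)
    [4, 3, 3, 2, 0, 0] 32 := by
  have h0 := ckP_zero QGf20 (9, 0x12a24010107341712321d0c01231101290b261b042015022d0e08)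
    [4, 3, 3, 2, 0, 0]
  have h1 := ckP_step (k := 32) h0 kGf21_3c0 rfl
  exact h1

theorem pGf21_4 : CkP QGf20 (0xa, 0x1013638312b352412331e0c2e190a281710231d022c1a072620050f0914)
    [4, 3, 0, 0, 0, 0, 0] 64 := by
  have h0 := ckP_zero QGf20 (0xa, 0x1013638312b352412331e0c2e190a281710231d022c1a072620050f0914)
    [4, 3, 0, 0, 0, 0, 0]
  have h1 := ckP_step (k := 47) h0 kGf21_4c0 rfl
  have h2 := ckP_step (k := 63) h1 kGf21_4c1 rfl
  have h3 := ckP_step (k := 64) h2 kGf21_4c2 rfl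
  exact h3

theorem pGf21_5 : CkP QGf20 (0xe, 0x10149463c36514e4244302a4c1e164a2412401c0c3e100634190a3a2e0e23380232281a2c2005260914)
    [0, 0, 0, 0] 8 := by
  have h0 := ckP_zero QGf20 (0xe, 0x10149463c36514e4244302a4c1e164a2412401c0c3e100634190a3a2e0e23380232281a2c2005260914)
    [0, 0, 0, 0]
  have h1 := ckP_step (k := 8) h0 kGf21_5c0 rfl
  exact h1

theorem pGf21_6 : CkP QGf20 (0xa, 0x136233a312b35241f330c062e39022d130801100b1d160528151a260f20)
    [7, 6, 5, 4, 0, 0, 0, 0] 128 := by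
  have h0 := ckP_zero QGf20 (0xa, 0x136233a312b35241f330c062e39022d130801100b1d160528151a260f20)
    [7, 6, 5, 4, 0, 0, 0, 0]
  have h1 := ckP_step (k := 128) h0 kGf21_6c0 rfl
  exact h1

theorem kGf21 : PpI QGf20 6 TGf21 CAGf CBGf 7 := by
  have h0 := ppI_zero QGf20 6 TGf21 CAGf CBGf
  have h1 := ppI_stepV (k' := 1) (q := (6, 0x19130c17100b251f06231c05201b03140f09)) h0 rfl kGf21_0r pGf21_0 kGf21_0m rfl
  have h2 := ppI_stepV (k' := 2) (q := (6, 0x19120d16110b251e07221d05211b03150f09)) h1 rfl kGf21_1r pGf21_1 kGf21_1m rfl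
  have h3 := ppI_stepV (k' := 3) (q := (6, 0x1010601130c01100b1d16051a1503200f09)) h2 rfl kGf21_2r pGf21_2 kGf21_2m rfl
  have h4 := ppI_stepV (k' := 4) (q := (9, 0x12a24010107341712321d0c01231101290b261b042015022d0e08)) h3 rfl kGf21_3r pGf21_3 kGf21_3m rfl
  have h5 := ppI_stepV (k' := 5) (q := (0xa, 0x1013638312b352412331e0c2e190a281710231d022c1a072620050f0914)) h4 rfl kGf21_4r pGf21_4 kGf21_4m rfl
  have h6 := ppI_stepV (k' := 6) (q := (0xe, 0x10149463c36514e4244302a4c1e164a2412401c0c3e100634190a3a2e0e23380232281a2c2005260914)) h5 rfl kGf21_5r pGf21_5 kGf21_5m rfl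
  have h7 := ppI_stepV (k' := 7) (q := (0xa, 0x136233a312b35241f330c062e39022d130801100b1d160528151a260f20)) h6 rfl kGf21_6r pGf21_6 kGf21_6m rfl
  exact h7

theorem zGf21 : (!false || allK QGf20 (fun _ => true) (nzq CBGf)
  0) = true := by decide +kernel

theorem mGf21A : (Nat.ble 2 1 || memI QGf20 16 1 257) = true := by decide +kernel

theorem mGf21B : (Nat.ble 1 1 || memI QGf20 0 1 1) = true := by decide +kernel

/-- **the phase 21** -/
theorem cGf21 : Dj5 CAGf CBGf PLGf (dnL QGf21) :=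
  Dj5.rawP vokAGf vokBGf mclAGf mclBGf mkoGf wfpGf cGf20 mGf21A mGf21B (by norm_num) tGf21 kGf21 lenGf zGf21 bGf21

end EF18
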