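import Pool.Agent.Lib.MP_ef18bd_co.G5.P22

/-!
# Phase 22: closed patterns
-/

namespace EF18

set_option linter.defProp false

def jGf22_0 : j0F QGf21 BGf22 14 0
  0x48810091820033c2003082002042001d82001942000dc2000cc2000c82000c02000a8200390a00bdcc = true := by
  decide +kernel

end EF18
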