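import Pool.Agent.Lib.MP_ef18bd_co.G5.C21
import Pool.Agent.Lib.MP_ef18bd_co.G5.P22x0
import Pool.Agent.Lib.MP_ef18bd_co.G5.P22x1
import Pool.Agent.Lib.MP_ef18bd_co.G5.P22x2
import Pool.Agent.Lib.MP_ef18bd_co.G5.P22x3
import Pool.Agent.Lib.MP_ef18bd_co.G5.P22x4
import Pool.Agent.Lib.MP_ef18bd_co.G5.P22x5
import Pool.Agent.Lib.MP_ef18bd_co.G5.P22x6
import Pool.Agent.Lib.MP_ef18bd_co.G5.P22x7
import Pool.Agent.Lib.MP_ef18bd_co.G5.P22j0
import Pool.Agent.Lib.MP_ef18bd_co.G5.P22r0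
import Pool.Agent.Lib.MP_ef18bd_co.G5.P22k0

/-!
# Phase 22
-/

namespace EF18

theorem aGf22 : ∀ i < 2892, Val (stD (dnL QGf21) SGf22) (prc BGf22 i) := by
  have j0 := ents_zeroF QGf21 SGf22 BGf22
  have j1 := ents_dnF (k := 14) j0 jGf22_0 rfl
  have h0 := j1
  have h1 := wGf22_0_0 h0
  have h2 := wGf22_0_1 h1
  have h3 := wGf22_0_2 h2
  have h4 := wGf22_0_3 h3
  have h5 := wGf22_0_4 h4
  have h6 := wGf22_0_5 h5
  have h7 := wGf22_0_6 h6
  have h8 := wGf22_0_7 h7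
  have h9 := wGf22_0_8 h8
  have h10 := wGf22_0_9 h9
  have h11 := wGf22_0_10 h10
  have h12 := wGf22_0_11 h11
  have h13 := wGf22_0_12 h12
  have h14 := wGf22_0_13 h13
  have h15 := wGf22_0_14 h14
  have h16 := wGf22_0_15 h15
  have h17 := wGf22_0_16 h16
  have h18 := wGf22_0_17 h17
  have h19 := wGf22_0_18 h18
  have h20 := wGf22_0_19 h19
  have h21 := wGf22_1_0 h20
  have h22 := wGf22_1_1 h21
  have h23 := wGf22_1_2 h22
  have h24 := wGf22_1_3 h23
  have h25 := wGf22_1_4 h24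
  have h26 := wGf22_1_5 h25
  have h27 := wGf22_1_6 h26
  have h28 := wGf22_1_7 h27
  have h29 := wGf22_1_8 h28
  have h30 := wGf22_1_9 h29
  have h31 := wGf22_1_10 h30
  have h32 := wGf22_1_11 h31
  have h33 := wGf22_1_12 h32
  have h34 := wGf22_1_13 h33
  have h35 := wGf22_1_14 h34
  have h36 := wGf22_1_15 h35
  have h37 := wGf22_1_16 h36
  have h38 := wGf22_1_17 h37
  have h39 := wGf22_1_18 h38
  have h40 := wGf22_1_19 h39
  have h41 := wGf22_1_20 h40
  have h42 := wGf22_1_21 h41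
  have h43 := wGf22_2_0 h42
  have h44 := wGf22_2_1 h43
  have h45 := wGf22_2_2 h44
  have h46 := wGf22_2_3 h45
  have h47 := wGf22_2_4 h46
  have h48 := wGf22_2_5 h47
  have h49 := wGf22_2_6 h48
  have h50 := wGf22_2_7 h49
  have h51 := wGf22_2_8 h50
  have h52 := wGf22_2_9 h51
  have h53 := wGf22_2_10 h52
  have h54 := wGf22_2_11 h53
  have h55 := wGf22_2_12 h54
  have h56 := wGf22_2_13 h55
  have h57 := wGf22_2_14 h56
  have h58 := wGf22_2_15 h57
  have h59 := wGf22_2_16 h58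
  have h60 := wGf22_2_17 h59
  have h61 := wGf22_2_18 h60
  have h62 := wGf22_2_19 h61
  have h63 := wGf22_3_0 h62
  have h64 := wGf22_3_1 h63
  have h65 := wGf22_3_2 h64
  have h66 := wGf22_3_3 h65
  have h67 := wGf22_3_4 h66
  have h68 := wGf22_3_5 h67
  have h69 := wGf22_3_6 h68
  have h70 := wGf22_3_7 h69
  have h71 := wGf22_3_8 h70
  have h72 := wGf22_4_0 h71
  have h73 := wGf22_4_1 h72
  have h74 := wGf22_4_2 h73
  have h75 := wGf22_4_3 h74
  have h76 := wGf22_4_4 h75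
  have h77 := wGf22_4_5 h76
  have h78 := wGf22_4_6 h77
  have h79 := wGf22_4_7 h78
  have h80 := wGf22_4_8 h79
  have h81 := wGf22_4_9 h80
  have h82 := wGf22_4_10 h81
  have h83 := wGf22_5_0 h82
  have h84 := wGf22_5_1 h83
  have h85 := wGf22_5_2 h84
  have h86 := wGf22_5_3 h85
  have h87 := wGf22_5_4 h86
  have h88 := wGf22_5_5 h87
  have h89 := wGf22_5_6 h88
  have h90 := wGf22_5_7 h89
  have h91 := wGf22_5_8 h90
  have h92 := wGf22_5_9 h91
  have h93 := wGf22_5_10 h92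
  have h94 := wGf22_5_11 h93
  have h95 := wGf22_5_12 h94
  have h96 := wGf22_5_13 h95
  have h97 := wGf22_6_0 h96
  have h98 := wGf22_6_1 h97
  have h99 := wGf22_6_2 h98
  have h100 := wGf22_6_3 h99
  have h101 := wGf22_6_4 h100
  have h102 := wGf22_6_5 h101
  have h103 := wGf22_6_6 h102
  have h104 := wGf22_6_7 h103
  have h105 := wGf22_6_8 h104
  have h106 := wGf22_6_9 h105
  have h107 := wGf22_6_10 h106
  have h108 := wGf22_6_11 h107
  have h109 := wGf22_6_12 h108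
  have h110 := wGf22_6_13 h109
  have h111 := wGf22_7_0 h110
  have h112 := wGf22_7_1 h111
  have h113 := wGf22_7_2 h112
  have h114 := wGf22_7_3 h113
  have h115 := wGf22_7_4 h114
  have h116 := wGf22_7_5 h115
  have h117 := wGf22_7_6 h116
  have h118 := wGf22_7_7 h117
  have h119 := wGf22_7_8 h118
  have h120 := wGf22_7_9 h119
  exact h120

theorem bGf22 : RtI (ok5 (okB 1 true)) (stD (dnL QGf21) SGf22) RBGf22 2 := by
  have h0 := rtI_zero (ok5 (okB 1 true)) (stD (dnL QGf21) SGf22) RBGf22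
  have h1 := uGf22 aGf22 h0 oGf22_0_0 (show 0 + 2 = 2 from rfl)
  exact h1

theorem tGf22 : (TGf22.all okJ) = true := by decide +kernel

theorem pGf22_0 : CkP QGf21 (6, 0x19130c17100b251f06231c05201b03140f09)
    [3, 0, 0, 0, 0, 0, 0] 64 := by
  have h0 := ckP_zero QGf21 (6, 0x19130c17100b251f06231c05201b03140f09)
    [3, 0, 0, 0, 0, 0, 0]
  have h1 := ckP_step (k := 63) h0 kGf22_0c0 rfl
  have h2 := ckP_step (k := 64) h1 kGf22_0c1 rfl
  exact h2

theorem pGf22_1 : CkP QGf21 (6, 0x19120d16110b251e07221d05211b03150f09)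
    [4, 3, 2, 0, 0, 0, 0, 0] 128 := by
  have h0 := ckP_zero QGf21 (6, 0x19120d16110b251e07221d05211b03150f09)
    [4, 3, 2, 0, 0, 0, 0, 0]
  have h1 := ckP_step (k := 63) h0 kGf22_1c0 rfl
  have h2 := ckP_step (k := 64) h1 kGf22_1c1 rfl
  have h3 := ckP_step (k := 95) h2 kGf22_1c2 rfl
  have h4 := ckP_step (k := 96) h3 kGf22_1c3 rfl
  have h5 := ckP_step (k := 111) h4 kGf22_1c4 rfl
  have h6 := ckP_step (k := 112) h5 kGf22_1c5 rfl
  have h7 := ckP_step (k := 119) h6 kGf22_1c6 rfl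
  have h8 := ckP_step (k := 120) h7 kGf22_1c7 rfl
  have h9 := ckP_step (k := 123) h8 kGf22_1c8 rfl
  have h10 := ckP_step (k := 124) h9 kGf22_1c9 rfl
  have h11 := ckP_step (k := 125) h10 kGf22_1c10 rfl
  have h12 := ckP_step (k := 126) h11 kGf22_1c11 rfl
  have h13 := ckP_step (k := 127) h12 kGf22_1c12 rfl
  have h14 := ckP_step (k := 128) h13 kGf22_1c13 rfl
  exact h14

theorem pGf22_2 : CkP QGf21 (6, 0x1010601130c01100b1d16051a1503200f09)
    [3, 2, 2, 1, 0] 16 := by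
  have h0 := ckP_zero QGf21 (6, 0x1010601130c01100b1d16051a1503200f09)
    [3, 2, 2, 1, 0]
  have h1 := ckP_step (k := 16) h0 kGf22_2c0 rfl
  exact h1

theorem pGf22_3 : CkP QGf21 (9, 0x12a24010107341712321d0c01231101290b261b042015022d0e08)
    [4, 3, 2, 2, 0, 0] 32 := by
  have h0 := ckP_zero QGf21 (9, 0x12a24010107341712321d0c01231101290b261b042015022d0e08)
    [4, 3, 2, 2, 0, 0]
  have h1 := ckP_step (k := 31) h0 kGf22_3c0 rfl
  have h2 := ckP_step (k := 32) h1 kGf22_3c1 rfl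
  exact h2

theorem pGf22_4 : CkP QGf21 (0xa, 0x1013638312b352412331e0c2e190a281710231d022c1a072620050f0914)
    [4, 3, 0, 0, 0, 0, 0] 64 := by
  have h0 := ckP_zero QGf21 (0xa, 0x1013638312b352412331e0c2e190a281710231d022c1a072620050f0914)
    [4, 3, 0, 0, 0, 0, 0]
  have h1 := ckP_step (k := 47) h0 kGf22_4c0 rfl
  have h2 := ckP_step (k := 63) h1 kGf22_4c1 rfl
  have h3 := ckP_step (k := 64) h2 kGf22_4c2 rfl
  exact h3

theorem pGf22_5 : CkP QGf21 (0xe, 0x10149463c36514e4244302a4c1e164a2412401c0c3e100634190a3a2e0e23380232281a2c2005260914)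
    [0, 0, 0, 0] 8 := by
  have h0 := ckP_zero QGf21 (0xe, 0x10149463c36514e4244302a4c1e164a2412401c0c3e100634190a3a2e0e23380232281a2c2005260914)
    [0, 0, 0, 0]
  have h1 := ckP_step (k := 8) h0 kGf22_5c0 rfl
  exact h1

theorem pGf22_6 : CkP QGf21 (0xa, 0x136233a312b35241f330c062e39022d130801100b1d160528151a260f20)
    [7, 6, 5, 4, 0, 0, 0, 0] 128 := by
  have h0 := ckP_zero QGf21 (0xa, 0x136233a312b35241f330c062e39022d130801100b1d160528151a260f20)
    [7, 6, 5, 4, 0, 0, 0, 0]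
  have h1 := ckP_step (k := 128) h0 kGf22_6c0 rfl
  exact h1

theorem kGf22 : PpI QGf21 6 TGf22 CAGf CBGf 7 := by
  have h0 := ppI_zero QGf21 6 TGf22 CAGf CBGf
  have h1 := ppI_stepV (k' := 1) (q := (6, 0x19130c17100b251f06231c05201b03140f09)) h0 rfl kGf22_0r pGf22_0 kGf22_0m rfl
  have h2 := ppI_stepV (k' := 2) (q := (6, 0x19120d16110b251e07221d05211b03150f09)) h1 rfl kGf22_1r pGf22_1 kGf22_1m rfl
  have h3 := ppI_stepV (k' := 3) (q := (6, 0x1010601130c01100b1d16051a1503200f09)) h2 rfl kGf22_2r pGf22_2 kGf22_2m rfl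
  have h4 := ppI_stepV (k' := 4) (q := (9, 0x12a24010107341712321d0c01231101290b261b042015022d0e08)) h3 rfl kGf22_3r pGf22_3 kGf22_3m rfl
  have h5 := ppI_stepV (k' := 5) (q := (0xa, 0x1013638312b352412331e0c2e190a281710231d022c1a072620050f0914)) h4 rfl kGf22_4r pGf22_4 kGf22_4m rfl
  have h6 := ppI_stepV (k' := 6) (q := (0xe, 0x10149463c36514e4244302a4c1e164a2412401c0c3e100634190a3a2e0e23380232281a2c2005260914)) h5 rfl kGf22_5r pGf22_5 kGf22_5m rfl
  have h7 := ppI_stepV (k' := 7) (q := (0xa, 0x136233a312b35241f330c062e39022d130801100b1d160528151a260f20)) h6 rfl kGf22_6r pGf22_6 kGf22_6m rfl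
  exact h7

theorem zGf22 : (!false || allK QGf21 (fun _ => true) (nzq CBGf)
  0) = true := by decide +kernel

theorem mGf22A : (Nat.ble 2 1 || memI QGf21 17 1 257) = true := by decide +kernel

theorem mGf22B : (Nat.ble 1 1 || memI QGf21 0 1 1) = true := by decide +kernel

/-- **the phase 22** -/
theorem cGf22 : Dj5 CAGf CBGf PLGf (dnL QGf22) :=
  Dj5.rawP vokAGf vokBGf mclAGf mclBGf mkoGf wfpGf cGf21 mGf22A mGf22B (by norm_num) tGf22 kGf22 lenGf zGf22 bGf22

end EF18
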