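import Pool.Agent.Lib.MP_ef18bd_co.G5.P23

/-!
# Phase 23: closed patterns
-/

namespace EF18

set_option linter.defProp false

def jGf23_0 : j0F QGf22 BGf23 21 0
  0x3083001d83000dc3000d03000ac3000a8300000700000800390b0038cb000009002e0c00e60d00c94d00bdcd0093d0009390096dd108fdd108fd9100cbd1 = true := by
  decide +kernel

end EF18
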