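import Pool.Agent.Lib.MP_ef18bd_co.G5.C22
import Pool.Agent.Lib.MP_ef18bd_co.G5.P23x0
import Pool.Agent.Lib.MP_ef18bd_co.G5.P23x1
import Pool.Agent.Lib.MP_ef18bd_co.G5.P23x2
import Pool.Agent.Lib.MP_ef18bd_co.G5.P23j0
import Pool.Agent.Lib.MP_ef18bd_co.G5.P23r0
import Pool.Agent.Lib.MP_ef18bd_co.G5.P23k0

/-!
# Phase 23
-/

namespace EF18

theorem aGf23 : ∀ i < 1628, Val (stD (dnL QGf22) SGf23) (prc BGf23 i) := by
  have j0 := ents_zeroF QGf22 SGf23 BGf23
  have j1 := ents_dnF (k := 21) j0 jGf23_0 rfl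
  have h0 := j1
  have h1 := wGf23_0_0 h0
  have h2 := wGf23_0_1 h1
  have h3 := wGf23_0_2 h2
  have h4 := wGf23_0_3 h3
  have h5 := wGf23_0_4 h4
  have h6 := wGf23_0_5 h5
  have h7 := wGf23_0_6 h6
  have h8 := wGf23_0_7 h7
  have h9 := wGf23_0_8 h8
  have h10 := wGf23_0_9 h9
  have h11 := wGf23_0_10 h10
  have h12 := wGf23_0_11 h11
  have h13 := wGf23_0_12 h12
  have h14 := wGf23_0_13 h13
  have h15 := wGf23_0_14 h14
  have h16 := wGf23_0_15 h15
  have h17 := wGf23_0_16 h16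
  have h18 := wGf23_0_17 h17
  have h19 := wGf23_0_18 h18
  have h20 := wGf23_0_19 h19
  have h21 := wGf23_0_20 h20
  have h22 := wGf23_0_21 h21
  have h23 := wGf23_0_22 h22
  have h24 := wGf23_0_23 h23
  have h25 := wGf23_0_24 h24
  have h26 := wGf23_1_0 h25
  have h27 := wGf23_1_1 h26
  have h28 := wGf23_1_2 h27
  have h29 := wGf23_1_3 h28
  have h30 := wGf23_1_4 h29
  have h31 := wGf23_1_5 h30
  have h32 := wGf23_1_6 h31
  have h33 := wGf23_1_7 h32
  have h34 := wGf23_1_8 h33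
  have h35 := wGf23_1_9 h34
  have h36 := wGf23_1_10 h35
  have h37 := wGf23_1_11 h36
  have h38 := wGf23_1_12 h37
  have h39 := wGf23_1_13 h38
  have h40 := wGf23_1_14 h39
  have h41 := wGf23_1_15 h40
  have h42 := wGf23_1_16 h41
  have h43 := wGf23_1_17 h42
  have h44 := wGf23_1_18 h43
  have h45 := wGf23_1_19 h44
  have h46 := wGf23_1_20 h45
  have h47 := wGf23_1_21 h46
  have h48 := wGf23_1_22 h47
  have h49 := wGf23_1_23 h48
  have h50 := wGf23_1_24 h49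
  have h51 := wGf23_2_0 h50
  have h52 := wGf23_2_1 h51
  have h53 := wGf23_2_2 h52
  have h54 := wGf23_2_3 h53
  have h55 := wGf23_2_4 h54
  have h56 := wGf23_2_5 h55
  have h57 := wGf23_2_6 h56
  have h58 := wGf23_2_7 h57
  have h59 := wGf23_2_8 h58
  have h60 := wGf23_2_9 h59
  have h61 := wGf23_2_10 h60
  have h62 := wGf23_2_11 h61
  have h63 := wGf23_2_12 h62
  have h64 := wGf23_2_13 h63
  have h65 := wGf23_2_14 h64
  have h66 := wGf23_2_15 h65
  exact h66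

theorem bGf23 : RtI (ok5 (okB 1 true)) (stD (dnL QGf22) SGf23) RBGf23 174 := by
  have h0 := rtI_zero (ok5 (okB 1 true)) (stD (dnL QGf22) SGf23) RBGf23
  have h1 := uGf23 aGf23 h0 oGf23_0_0 (show 0 + 25 = 25 from rfl)
  have h2 := uGf23 aGf23 h1 oGf23_0_1 (show 25 + 25 = 50 from rfl)
  have h3 := uGf23 aGf23 h2 oGf23_0_2 (show 50 + 25 = 75 from rfl)
  have h4 := uGf23 aGf23 h3 oGf23_0_3 (show 75 + 25 = 100 from rfl)
  have h5 := uGf23 aGf23 h4 oGf23_0_4 (show 100 + 25 = 125 from rfl)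
  have h6 := uGf23 aGf23 h5 oGf23_0_5 (show 125 + 25 = 150 from rfl)
  have h7 := uGf23 aGf23 h6 oGf23_0_6 (show 150 + 24 = 174 from rfl)
  exact h7

theorem tGf23 : (TGf23.all okJ) = true := by decide +kernel

theorem pGf23_0 : CkP QGf22 (6, 0x19130c17100b251f06231c05201b03140f09)
    [3, 0, 0, 0, 0, 0, 0] 64 := by
  have h0 := ckP_zero QGf22 (6, 0x19130c17100b251f06231c05201b03140f09)
    [3, 0, 0, 0, 0, 0, 0]
  have h1 := ckP_step (k := 63) h0 kGf23_0c0 rfl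
  have h2 := ckP_step (k := 64) h1 kGf23_0c1 rfl
  exact h2

theorem pGf23_1 : CkP QGf22 (6, 0x19120d16110b251e07221d05211b03150f09)
    [4, 3, 2, 0, 0, 0, 0, 0] 128 := by
  have h0 := ckP_zero QGf22 (6, 0x19120d16110b251e07221d05211b03150f09)
    [4, 3, 2, 0, 0, 0, 0, 0]
  have h1 := ckP_step (k := 63) h0 kGf23_1c0 rfl
  have h2 := ckP_step (k := 64) h1 kGf23_1c1 rfl
  have h3 := ckP_step (k := 95) h2 kGf23_1c2 rfl
  have h4 := ckP_step (k := 96) h3 kGf23_1c3 rfl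
  have h5 := ckP_step (k := 111) h4 kGf23_1c4 rfl
  have h6 := ckP_step (k := 112) h5 kGf23_1c5 rfl
  have h7 := ckP_step (k := 119) h6 kGf23_1c6 rfl
  have h8 := ckP_step (k := 120) h7 kGf23_1c7 rfl
  have h9 := ckP_step (k := 123) h8 kGf23_1c8 rfl
  have h10 := ckP_step (k := 124) h9 kGf23_1c9 rfl
  have h11 := ckP_step (k := 125) h10 kGf23_1c10 rfl
  have h12 := ckP_step (k := 126) h11 kGf23_1c11 rfl
  have h13 := ckP_step (k := 127) h12 kGf23_1c12 rfl
  have h14 := ckP_step (k := 128) h13 kGf23_1c13 rfl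
  exact h14

theorem pGf23_2 : CkP QGf22 (6, 0x1010601130c01100b1d16051a1503200f09)
    [3, 2, 2, 1, 0] 16 := by
  have h0 := ckP_zero QGf22 (6, 0x1010601130c01100b1d16051a1503200f09)
    [3, 2, 2, 1, 0]
  have h1 := ckP_step (k := 16) h0 kGf23_2c0 rfl
  exact h1

theorem pGf23_3 : CkP QGf22 (9, 0x12a24010107341712321d0c01231101290b261b042015022d0e08)
    [4, 3, 2, 2, 0, 0] 32 := by
  have h0 := ckP_zero QGf22 (9, 0x12a24010107341712321d0c01231101290b261b042015022d0e08)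
    [4, 3, 2, 2, 0, 0]
  have h1 := ckP_step (k := 31) h0 kGf23_3c0 rfl
  have h2 := ckP_step (k := 32) h1 kGf23_3c1 rfl
  exact h2

theorem pGf23_4 : CkP QGf22 (0xa, 0x1013638312b352412331e0c2e190a281710231d022c1a072620050f0914)
    [4, 3, 0, 0, 0, 0, 0] 64 := by
  have h0 := ckP_zero QGf22 (0xa, 0x1013638312b352412331e0c2e190a281710231d022c1a072620050f0914)
    [4, 3, 0, 0, 0, 0, 0]
  have h1 := ckP_step (k := 47) h0 kGf23_4c0 rfl
  have h2 := ckP_step (k := 63) h1 kGf23_4c1 rfl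
  have h3 := ckP_step (k := 64) h2 kGf23_4c2 rfl
  exact h3

theorem pGf23_5 : CkP QGf22 (0xe, 0x10149463c36514e4244302a4c1e164a2412401c0c3e100634190a3a2e0e23380232281a2c2005260914)
    [0, 0, 0, 0] 8 := by
  have h0 := ckP_zero QGf22 (0xe, 0x10149463c36514e4244302a4c1e164a2412401c0c3e100634190a3a2e0e23380232281a2c2005260914)
    [0, 0, 0, 0]
  have h1 := ckP_step (k := 8) h0 kGf23_5c0 rfl
  exact h1

theorem pGf23_6 : CkP QGf22 (0xa, 0x136233a312b35241f330c062e39022d130801100b1d160528151a260f20)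
    [7, 6, 5, 4, 0, 0, 0, 0] 128 := by
  have h0 := ckP_zero QGf22 (0xa, 0x136233a312b35241f330c062e39022d130801100b1d160528151a260f20)
    [7, 6, 5, 4, 0, 0, 0, 0]
  have h1 := ckP_step (k := 128) h0 kGf23_6c0 rfl
  exact h1

theorem kGf23 : PpI QGf22 6 TGf23 CAGf CBGf 7 := by
  have h0 := ppI_zero QGf22 6 TGf23 CAGf CBGf
  have h1 := ppI_stepV (k' := 1) (q := (6, 0x19130c17100b251f06231c05201b03140f09)) h0 rfl kGf23_0r pGf23_0 kGf23_0m rfl
  have h2 := ppI_stepV (k' := 2) (q := (6, 0x19120d16110b251e07221d05211b03150f09)) h1 rfl kGf23_1r pGf23_1 kGf23_1m rfl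
  have h3 := ppI_stepV (k' := 3) (q := (6, 0x1010601130c01100b1d16051a1503200f09)) h2 rfl kGf23_2r pGf23_2 kGf23_2m rfl
  have h4 := ppI_stepV (k' := 4) (q := (9, 0x12a24010107341712321d0c01231101290b261b042015022d0e08)) h3 rfl kGf23_3r pGf23_3 kGf23_3m rfl
  have h5 := ppI_stepV (k' := 5) (q := (0xa, 0x1013638312b352412331e0c2e190a281710231d022c1a072620050f0914)) h4 rfl kGf23_4r pGf23_4 kGf23_4m rfl
  have h6 := ppI_stepV (k' := 6) (q := (0xe, 0x10149463c36514e4244302a4c1e164a2412401c0c3e100634190a3a2e0e23380232281a2c2005260914)) h5 rfl kGf23_5r pGf23_5 kGf23_5m rfl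
  have h7 := ppI_stepV (k' := 7) (q := (0xa, 0x136233a312b35241f330c062e39022d130801100b1d160528151a260f20)) h6 rfl kGf23_6r pGf23_6 kGf23_6m rfl
  exact h7

theorem zGf23 : (!false || allK QGf22 (fun _ => true) (nzq CBGf)
  0) = true := by decide +kernel

theorem mGf23A : (Nat.ble 2 1 || memI QGf22 18 1 257) = true := by decide +kernel

theorem mGf23B : (Nat.ble 1 1 || memI QGf22 0 1 1) = true := by decide +kernel

/-- **the phase 23** -/
theorem cGf23 : Dj5 CAGf CBGf PLGf (dnL QGf23) :=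
  Dj5.rawP vokAGf vokBGf mclAGf mclBGf mkoGf wfpGf cGf22 mGf23A mGf23B (by norm_num) tGf23 kGf23 lenGf zGf23 bGf23

end EF18
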