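import Pool.Agent.Lib.MP_ef18bd_co.G5.P24

/-!
# Phase 24: closed patterns
-/

namespace EF18

set_option linter.defProp false

def jGf24_0 : j0F QGf23 BGf24 14 0
  0xd80003084002684002044001d84000dc4000cc4000c04000ac4000a8400390c00ca4e00bdce00ac51 = true := by
  decide +kernel

end EF18
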