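import Pool.Agent.Lib.MP_ef18bd_co.G5.P24

/-!
# Phase 24: roots
-/

namespace EF18

set_option linter.defProp false

def oGf24_0_0 : rGf24 0 6
  0xa4a09cb0aca8bcb8b4909498504c485c5854686064746c70807c788c88840c101418201c00040830383440443c282c24bf1320a4a09cbcb8b4b0aca89098945c5854504c48746c706860648c8884807c7818201c0c101404000840443c3038342c2824bf1320bcb8b4a4a09cb0aca898909468606480787c504c488c84885c545874706c100c14282c2430383400040844403c18201cbf1320bcb8b4a4a09cb0aca8989094746c708c84885c585480787c50484c68646020181c2c282440443c0400083830340c1014bf1320bcb8b4a4a09cb0aca8989094807c788c888468646074706c504c485c585438303444403c282c24100c1420181c000408bf1320bcb8b4b0aca8a4a09c9894908c8884807c7874706c6864605c5854504c4844403c3830342c282420181c100c14040008bf132 = true := by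
  decide +kernel

end EF18
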