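import Pool.Agent.Lib.MP_ef18bd_co.G5.C23
import Pool.Agent.Lib.MP_ef18bd_co.G5.P24x0
import Pool.Agent.Lib.MP_ef18bd_co.G5.P24x1
import Pool.Agent.Lib.MP_ef18bd_co.G5.P24j0
import Pool.Agent.Lib.MP_ef18bd_co.G5.P24r0
import Pool.Agent.Lib.MP_ef18bd_co.G5.P24k0

/-!
# Phase 24
-/

namespace EF18

theorem aGf24 : ∀ i < 765, Val (stD (dnL QGf23) SGf24) (prc BGf24 i) := by
  have j0 := ents_zeroF QGf23 SGf24 BGf24
  have j1 := ents_dnF (k := 14) j0 jGf24_0 rfl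
  have h0 := j1
  have h1 := wGf24_0_0 h0
  have h2 := wGf24_0_1 h1
  have h3 := wGf24_0_2 h2
  have h4 := wGf24_0_3 h3
  have h5 := wGf24_0_4 h4
  have h6 := wGf24_0_5 h5
  have h7 := wGf24_0_6 h6
  have h8 := wGf24_0_7 h7
  have h9 := wGf24_0_8 h8
  have h10 := wGf24_0_9 h9
  have h11 := wGf24_0_10 h10
  have h12 := wGf24_0_11 h11
  have h13 := wGf24_0_12 h12
  have h14 := wGf24_0_13 h13
  have h15 := wGf24_0_14 h14
  have h16 := wGf24_0_15 h15
  have h17 := wGf24_0_16 h16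
  have h18 := wGf24_1_0 h17
  have h19 := wGf24_1_1 h18
  have h20 := wGf24_1_2 h19
  have h21 := wGf24_1_3 h20
  have h22 := wGf24_1_4 h21
  have h23 := wGf24_1_5 h22
  have h24 := wGf24_1_6 h23
  have h25 := wGf24_1_7 h24
  have h26 := wGf24_1_8 h25
  have h27 := wGf24_1_9 h26
  have h28 := wGf24_1_10 h27
  have h29 := wGf24_1_11 h28
  have h30 := wGf24_1_12 h29
  have h31 := wGf24_1_13 h30
  exact h31

theorem bGf24 : RtI (ok5 (okB 1 true)) (stD (dnL QGf23) SGf24) RBGf24 6 := by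
  have h0 := rtI_zero (ok5 (okB 1 true)) (stD (dnL QGf23) SGf24) RBGf24
  have h1 := uGf24 aGf24 h0 oGf24_0_0 (show 0 + 6 = 6 from rfl)
  exact h1

theorem tGf24 : (TGf24.all okJ) = true := by decide +kernel

theorem pGf24_0 : CkP QGf23 (6, 0x19130c17100b251f06231c05201b03140f09)
    [3, 0, 0, 0, 0, 0, 0] 64 := by
  have h0 := ckP_zero QGf23 (6, 0x19130c17100b251f06231c05201b03140f09)
    [3, 0, 0, 0, 0, 0, 0]
  have h1 := ckP_step (k := 63) h0 kGf24_0c0 rfl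
  have h2 := ckP_step (k := 64) h1 kGf24_0c1 rfl
  exact h2

theorem pGf24_1 : CkP QGf23 (6, 0x19120d16110b251e07221d05211b03150f09)
    [4, 3, 2, 0, 0, 0, 0, 0] 128 := by
  have h0 := ckP_zero QGf23 (6, 0x19120d16110b251e07221d05211b03150f09)
    [4, 3, 2, 0, 0, 0, 0, 0]
  have h1 := ckP_step (k := 63) h0 kGf24_1c0 rfl
  have h2 := ckP_step (k := 64) h1 kGf24_1c1 rfl
  have h3 := ckP_step (k := 95) h2 kGf24_1c2 rfl
  have h4 := ckP_step (k := 96) h3 kGf24_1c3 rfl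
  have h5 := ckP_step (k := 111) h4 kGf24_1c4 rfl
  have h6 := ckP_step (k := 112) h5 kGf24_1c5 rfl
  have h7 := ckP_step (k := 119) h6 kGf24_1c6 rfl
  have h8 := ckP_step (k := 120) h7 kGf24_1c7 rfl
  have h9 := ckP_step (k := 123) h8 kGf24_1c8 rfl
  have h10 := ckP_step (k := 124) h9 kGf24_1c9 rfl
  have h11 := ckP_step (k := 125) h10 kGf24_1c10 rfl
  have h12 := ckP_step (k := 126) h11 kGf24_1c11 rfl
  have h13 := ckP_step (k := 127) h12 kGf24_1c12 rfl
  have h14 := ckP_step (k := 128) h13 kGf24_1c13 rfl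
  exact h14

theorem pGf24_2 : CkP QGf23 (6, 0x1010601130c01100b1d16051a1503200f09)
    [3, 2, 2, 1, 0] 16 := by
  have h0 := ckP_zero QGf23 (6, 0x1010601130c01100b1d16051a1503200f09)
    [3, 2, 2, 1, 0]
  have h1 := ckP_step (k := 16) h0 kGf24_2c0 rfl
  exact h1

theorem pGf24_3 : CkP QGf23 (9, 0x12a24010107341712321d0c01231101290b261b042015022d0e08)
    [4, 3, 2, 2, 0, 0] 32 := by
  have h0 := ckP_zero QGf23 (9, 0x12a24010107341712321d0c01231101290b261b042015022d0e08)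
    [4, 3, 2, 2, 0, 0]
  have h1 := ckP_step (k := 31) h0 kGf24_3c0 rfl
  have h2 := ckP_step (k := 32) h1 kGf24_3c1 rfl
  exact h2

theorem pGf24_4 : CkP QGf23 (0xa, 0x1013638312b352412331e0c2e190a281710231d022c1a072620050f0914)
    [4, 3, 0, 0, 0, 0, 0] 64 := by
  have h0 := ckP_zero QGf23 (0xa, 0x1013638312b352412331e0c2e190a281710231d022c1a072620050f0914)
    [4, 3, 0, 0, 0, 0, 0]
  have h1 := ckP_step (k := 47) h0 kGf24_4c0 rfl
  have h2 := ckP_step (k := 63) h1 kGf24_4c1 rfl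
  have h3 := ckP_step (k := 64) h2 kGf24_4c2 rfl
  exact h3

theorem pGf24_5 : CkP QGf23 (0xe, 0x10149463c36514e4244302a4c1e164a2412401c0c3e100634190a3a2e0e23380232281a2c2005260914)
    [0, 0, 0, 0] 8 := by
  have h0 := ckP_zero QGf23 (0xe, 0x10149463c36514e4244302a4c1e164a2412401c0c3e100634190a3a2e0e23380232281a2c2005260914)
    [0, 0, 0, 0]
  have h1 := ckP_step (k := 8) h0 kGf24_5c0 rfl
  exact h1

theorem pGf24_6 : CkP QGf23 (0xa, 0x136233a312b35241f330c062e39022d130801100b1d160528151a260f20)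
    [7, 6, 5, 4, 0, 0, 0, 0] 128 := by
  have h0 := ckP_zero QGf23 (0xa, 0x136233a312b35241f330c062e39022d130801100b1d160528151a260f20)
    [7, 6, 5, 4, 0, 0, 0, 0]
  have h1 := ckP_step (k := 128) h0 kGf24_6c0 rfl
  exact h1

theorem kGf24 : PpI QGf23 6 TGf24 CAGf CBGf 7 := by
  have h0 := ppI_zero QGf23 6 TGf24 CAGf CBGf
  have h1 := ppI_stepV (k' := 1) (q := (6, 0x19130c17100b251f06231c05201b03140f09)) h0 rfl kGf24_0r pGf24_0 kGf24_0m rfl
  have h2 := ppI_stepV (k' := 2) (q := (6, 0x19120d16110b251e07221d05211b03150f09)) h1 rfl kGf24_1r pGf24_1 kGf24_1m rfl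
  have h3 := ppI_stepV (k' := 3) (q := (6, 0x1010601130c01100b1d16051a1503200f09)) h2 rfl kGf24_2r pGf24_2 kGf24_2m rfl
  have h4 := ppI_stepV (k' := 4) (q := (9, 0x12a24010107341712321d0c01231101290b261b042015022d0e08)) h3 rfl kGf24_3r pGf24_3 kGf24_3m rfl
  have h5 := ppI_stepV (k' := 5) (q := (0xa, 0x1013638312b352412331e0c2e190a281710231d022c1a072620050f0914)) h4 rfl kGf24_4r pGf24_4 kGf24_4m rfl
  have h6 := ppI_stepV (k' := 6) (q := (0xe, 0x10149463c36514e4244302a4c1e164a2412401c0c3e100634190a3a2e0e23380232281a2c2005260914)) h5 rfl kGf24_5r pGf24_5 kGf24_5m rfl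
  have h7 := ppI_stepV (k' := 7) (q := (0xa, 0x136233a312b35241f330c062e39022d130801100b1d160528151a260f20)) h6 rfl kGf24_6r pGf24_6 kGf24_6m rfl
  exact h7

theorem zGf24 : (!false || allK QGf23 (fun _ => true) (nzq CBGf)
  0) = true := by decide +kernel

theorem mGf24A : (Nat.ble 2 1 || memI QGf23 19 1 257) = true := by decide +kernel

theorem mGf24B : (Nat.ble 1 1 || memI QGf23 0 1 1) = true := by decide +kernel

/-- **the phase 24** -/
theorem cGf24 : Dj5 CAGf CBGf PLGf (dnL QGf24) :=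
  Dj5.rawP vokAGf vokBGf mclAGf mclBGf mkoGf wfpGf cGf23 mGf24A mGf24B (by norm_num) tGf24 kGf24 lenGf zGf24 bGf24

end EF18
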