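import Pool.Agent.Lib.MP_ef18bd_co.G5.P25

/-!
# Phase 25: closed patterns
-/

namespace EF18

set_option linter.defProp false

def jGf25_0 : j0F QGf24 BGf25 29 0
  0xd81000002000003004884009fc50033c5003085002045001dc5001d85001945000dc5000d45000cc5000c85000c05000b45000ac5000a85000a050007c500000600048a001b0b00390d00c94f00bdcf00ac52 = true := by
  decide +kernel

end EF18
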