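import Pool.Agent.Lib.MP_ef18bd_co.G5.P25

/-!
# Phase 25: roots
-/

namespace EF18

set_option linter.defProp false

def oGf25_0_0 : rGf25 0 25
  0xc8c4c0bcb8b4b0aca8a4a09c9894908c8884807c7874706c6864605c5854504c4844403c3834302c2824201c1814100c0804013ed350b0aca8a4a09c9894908c8884807c7874706c6864605c5854504c4844403c3834302c2824201c1814100c080400f6d2f0807c7874706c6864605c5854504c4844403c3834302c2824201c1814100c080400d29230807c7874706c6864605c5854504c4844403c3834302c2824201c1814100c080400d252308c8884807c7874706c6864605c5854504c4844403c3834302c2824201c1814100c080400b0d2606864605c5854504c4844403c3834302c2824201c1814100c080400b051d05c5854504c4844403c3834302c2824201c1814100c080400b011a09894908c8884807c7874706c6864605c5854504c4844403c3834302c2824201c1814100c0804008652909894908c8884807c7874706c6864605c5854504c4844403c3834302c2824201c1814100c080400705290b0aca8a4a09c9894908c8884807c7874706c6864605c5854504c4844403c3834302c2824201c1814100c0804007012f09894908c8884807c7874706c6864605c5854504c4844403c3834302c2824201c1814100c0804000fd2909894908c8884807c7874706c6864605c5854504c4844403c3834302c2824201c1814100c0804000f9290bcb8b4b0aca8a4a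09c9894908c8884807c7874706c6864605c5854504c4844403c3834302c2824201c1814100c0804000c1320a4a09cb0aca8bcb8b4909498504c485c5854686064746c70807c788c88840c101418201c00040830383440443c282c27605320a4a09cbcb8b4b0aca89098945c5854504c48746c706860648c8884807c7818201c0c101404000840443c3038342c2827605320a4a09cb0aca8bcb8b490949850484c6864605c5458807c78746c708c84880004083038340c101418201c282c2440443f605320a4a09cbcb8b4b0aca890989468646050484c807c785c54588c8488746c70303834000408100c14282c2418201c44403f605320bcb8b4a4a09cb0aca8989094746c708c84885c585480787c50484c68646020181c2c282440443c0400083830340c1017605320bcb8b4a4a09cb0aca8989094807c788c888468646074706c504c485c585438303444403c282c24100c1420181c00040b605320b0aca8a4a09cbcb8b49490985c545874706c50484c8c888468606480787c04000840443c18201c0c10142c2824303837605320bcb8b4a4a09cb0aca898909468606480787c504c488c84885c545874706c100c14282c2430383400040844403c18201f605320a4a09cbcb8b4b0aca890989474706c5c54588c888450484c80787c68606440443c04000820181c2c28240c1014383037605320bcb8b4b0aca8a4a09c9894908c8884807c7874706c6864605c5854504c4844403c3830342c282420181c100c1404000b605320b0aca8bcb8b4a4a09c94989080787c6860648c8488504c4874706c5c5458282c24100c1438303444403c00040820181f605320bcb8b4b0aca8a4a09c9894908c8488746c7080787c5c585468646050484c2c282420181c44403c383034040008100c1760532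 = true := by
  decide +kernel

def oGf25_0_1 : rGf25 25 12
  0x9894908c8884807c7874706c6864605c5854504c4844403c3834302c2824201c1814100c080402c192909894908c8884807c7874706c6864605c5854504c4844403c3834302c2824201c1814100c080402a99290807c7874706c6864605c5854504c4844403c3834302c2824201c1814100c080402a89230807c7874706c6864605c5854504c4844403c3834302c2824201c1814100c080402a81230a4a09c9894908c8884807c7874706c6864605c5854504c4844403c3834302c2824201c1814100c0804028852c08c8884807c7874706c6864605c5854504c4844403c3834302c2824201c1814100c080402371260d4d0ccc8c4c0bcb8b4b0aca8a4a09c9894908c8884807c7874706c6864605c5854504c4844403c3834302c2824201c1814100c080401f11380bcb8b4b0aca8a4a09c9894908c8884807c7874706c6864605c5854504c4844403c3834302c2824201c1814100c080401ecd320bcb8b4b0aca8a4a09c9894908c8884807c7874706c6864605c5854504c4844403c3834302c2824201c1814100c080401ec9320bcb8b4b0aca8a4a09c9894908c8884807c7874706c6864605c5854504c4844403c3834302c2824201c1814100c080401ec5320b0aca8a4a09c9894908c8884807c7874706c6864605c5854504c4844403c3834302c2824201c1814100c080401be92f0c8c4c0bcb8b4b0aca8a4a09c9894908c8884807c7874706c6864605c5854504c4844403c3834302c2824201c1814100c080401a8d35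 = true := by
  decide +kernel

end EF18
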