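import Pool.Agent.Lib.MP_ef18bd_co.G5.C24
import Pool.Agent.Lib.MP_ef18bd_co.G5.P25x0
import Pool.Agent.Lib.MP_ef18bd_co.G5.P25x1
import Pool.Agent.Lib.MP_ef18bd_co.G5.P25x2
import Pool.Agent.Lib.MP_ef18bd_co.G5.P25x3
import Pool.Agent.Lib.MP_ef18bd_co.G5.P25x4
import Pool.Agent.Lib.MP_ef18bd_co.G5.P25x5
import Pool.Agent.Lib.MP_ef18bd_co.G5.P25x6
import Pool.Agent.Lib.MP_ef18bd_co.G5.P25x7
import Pool.Agent.Lib.MP_ef18bd_co.G5.P25x8
import Pool.Agent.Lib.MP_ef18bd_co.G5.P25x9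
import Pool.Agent.Lib.MP_ef18bd_co.G5.P25j0
import Pool.Agent.Lib.MP_ef18bd_co.G5.P25r0
import Pool.Agent.Lib.MP_ef18bd_co.G5.P25k0

/-!
# Phase 25
-/

namespace EF18

theorem aGf25 : ∀ i < 3458, Val (stD (dnL QGf24) SGf25) (prc BGf25 i) := by
  have j0 := ents_zeroF QGf24 SGf25 BGf25
  have j1 := ents_dnF (k := 29) j0 jGf25_0 rfl
  have h0 := j1
  have h1 := wGf25_0_0 h0
  have h2 := wGf25_0_1 h1
  have h3 := wGf25_0_2 h2
  have h4 := wGf25_0_3 h3
  have h5 := wGf25_0_4 h4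
  have h6 := wGf25_0_5 h5
  have h7 := wGf25_0_6 h6
  have h8 := wGf25_0_7 h7
  have h9 := wGf25_0_8 h8
  have h10 := wGf25_0_9 h9
  have h11 := wGf25_0_10 h10
  have h12 := wGf25_0_11 h11
  have h13 := wGf25_0_12 h12
  have h14 := wGf25_1_0 h13
  have h15 := wGf25_1_1 h14
  have h16 := wGf25_1_2 h15
  have h17 := wGf25_1_3 h16
  have h18 := wGf25_1_4 h17
  have h19 := wGf25_1_5 h18
  have h20 := wGf25_1_6 h19
  have h21 := wGf25_1_7 h20
  have h22 := wGf25_1_8 h21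
  have h23 := wGf25_1_9 h22
  have h24 := wGf25_1_10 h23
  have h25 := wGf25_1_11 h24
  have h26 := wGf25_1_12 h25
  have h27 := wGf25_1_13 h26
  have h28 := wGf25_1_14 h27
  have h29 := wGf25_1_15 h28
  have h30 := wGf25_1_16 h29
  have h31 := wGf25_2_0 h30
  have h32 := wGf25_2_1 h31
  have h33 := wGf25_2_2 h32
  have h34 := wGf25_2_3 h33
  have h35 := wGf25_2_4 h34
  have h36 := wGf25_2_5 h35
  have h37 := wGf25_2_6 h36
  have h38 := wGf25_2_7 h37
  have h39 := wGf25_2_8 h38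
  have h40 := wGf25_2_9 h39
  have h41 := wGf25_2_10 h40
  have h42 := wGf25_2_11 h41
  have h43 := wGf25_2_12 h42
  have h44 := wGf25_2_13 h43
  have h45 := wGf25_2_14 h44
  have h46 := wGf25_2_15 h45
  have h47 := wGf25_2_16 h46
  have h48 := wGf25_2_17 h47
  have h49 := wGf25_3_0 h48
  have h50 := wGf25_3_1 h49
  have h51 := wGf25_3_2 h50
  have h52 := wGf25_3_3 h51
  have h53 := wGf25_3_4 h52
  have h54 := wGf25_3_5 h53
  have h55 := wGf25_3_6 h54
  have h56 := wGf25_3_7 h55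
  have h57 := wGf25_3_8 h56
  have h58 := wGf25_3_9 h57
  have h59 := wGf25_3_10 h58
  have h60 := wGf25_3_11 h59
  have h61 := wGf25_3_12 h60
  have h62 := wGf25_3_13 h61
  have h63 := wGf25_3_14 h62
  have h64 := wGf25_3_15 h63
  have h65 := wGf25_3_16 h64
  have h66 := wGf25_4_0 h65
  have h67 := wGf25_4_1 h66
  have h68 := wGf25_4_2 h67
  have h69 := wGf25_4_3 h68
  have h70 := wGf25_4_4 h69
  have h71 := wGf25_4_5 h70
  have h72 := wGf25_4_6 h71
  have h73 := wGf25_4_7 h72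
  have h74 := wGf25_4_8 h73
  have h75 := wGf25_4_9 h74
  have h76 := wGf25_4_10 h75
  have h77 := wGf25_4_11 h76
  have h78 := wGf25_4_12 h77
  have h79 := wGf25_4_13 h78
  have h80 := wGf25_5_0 h79
  have h81 := wGf25_5_1 h80
  have h82 := wGf25_5_2 h81
  have h83 := wGf25_5_3 h82
  have h84 := wGf25_5_4 h83
  have h85 := wGf25_5_5 h84
  have h86 := wGf25_5_6 h85
  have h87 := wGf25_5_7 h86
  have h88 := wGf25_5_8 h87
  have h89 := wGf25_5_9 h88
  have h90 := wGf25_5_10 h89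
  have h91 := wGf25_5_11 h90
  have h92 := wGf25_5_12 h91
  have h93 := wGf25_5_13 h92
  have h94 := wGf25_6_0 h93
  have h95 := wGf25_6_1 h94
  have h96 := wGf25_6_2 h95
  have h97 := wGf25_6_3 h96
  have h98 := wGf25_6_4 h97
  have h99 := wGf25_6_5 h98
  have h100 := wGf25_6_6 h99
  have h101 := wGf25_6_7 h100
  have h102 := wGf25_6_8 h101
  have h103 := wGf25_6_9 h102
  have h104 := wGf25_6_10 h103
  have h105 := wGf25_6_11 h104
  have h106 := wGf25_6_12 h105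
  have h107 := wGf25_6_13 h106
  have h108 := wGf25_7_0 h107
  have h109 := wGf25_7_1 h108
  have h110 := wGf25_7_2 h109
  have h111 := wGf25_7_3 h110
  have h112 := wGf25_7_4 h111
  have h113 := wGf25_7_5 h112
  have h114 := wGf25_7_6 h113
  have h115 := wGf25_7_7 h114
  have h116 := wGf25_7_8 h115
  have h117 := wGf25_7_9 h116
  have h118 := wGf25_7_10 h117
  have h119 := wGf25_7_11 h118
  have h120 := wGf25_8_0 h119
  have h121 := wGf25_8_1 h120
  have h122 := wGf25_8_2 h121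
  have h123 := wGf25_8_3 h122
  have h124 := wGf25_8_4 h123
  have h125 := wGf25_8_5 h124
  have h126 := wGf25_8_6 h125
  have h127 := wGf25_8_7 h126
  have h128 := wGf25_8_8 h127
  have h129 := wGf25_8_9 h128
  have h130 := wGf25_8_10 h129
  have h131 := wGf25_8_11 h130
  have h132 := wGf25_8_12 h131
  have h133 := wGf25_9_0 h132
  have h134 := wGf25_9_1 h133
  have h135 := wGf25_9_2 h134
  have h136 := wGf25_9_3 h135
  have h137 := wGf25_9_4 h136
  have h138 := wGf25_9_5 h137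
  have h139 := wGf25_9_6 h138
  have h140 := wGf25_9_7 h139
  have h141 := wGf25_9_8 h140
  have h142 := wGf25_9_9 h141
  exact h142

theorem bGf25 : RtI (ok5 (okB 1 true)) (stD (dnL QGf24) SGf25) RBGf25 37 := by
  have h0 := rtI_zero (ok5 (okB 1 true)) (stD (dnL QGf24) SGf25) RBGf25
  have h1 := uGf25 aGf25 h0 oGf25_0_0 (show 0 + 25 = 25 from rfl)
  have h2 := uGf25 aGf25 h1 oGf25_0_1 (show 25 + 12 = 37 from rfl)
  exact h2

theorem tGf25 : (TGf25.all okJ) = true := by decide +kernel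

theorem pGf25_0 : CkP QGf24 (6, 0x19130c17100b251f06231c05201b03140f09)
    [3, 0, 0, 0, 0, 0, 0] 64 := by
  have h0 := ckP_zero QGf24 (6, 0x19130c17100b251f06231c05201b03140f09)
    [3, 0, 0, 0, 0, 0, 0]
  have h1 := ckP_step (k := 63) h0 kGf25_0c0 rfl
  have h2 := ckP_step (k := 64) h1 kGf25_0c1 rfl
  exact h2

theorem pGf25_1 : CkP QGf24 (6, 0x19120d16110b251e07221d05211b03150f09)
    [4, 3, 2, 0, 0, 0, 0, 0] 128 := by
  have h0 := ckP_zero QGf24 (6, 0x19120d16110b251e07221d05211b03150f09)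
    [4, 3, 2, 0, 0, 0, 0, 0]
  have h1 := ckP_step (k := 63) h0 kGf25_1c0 rfl
  have h2 := ckP_step (k := 64) h1 kGf25_1c1 rfl
  have h3 := ckP_step (k := 95) h2 kGf25_1c2 rfl
  have h4 := ckP_step (k := 96) h3 kGf25_1c3 rfl
  have h5 := ckP_step (k := 111) h4 kGf25_1c4 rfl
  have h6 := ckP_step (k := 112) h5 kGf25_1c5 rfl
  have h7 := ckP_step (k := 119) h6 kGf25_1c6 rfl
  have h8 := ckP_step (k := 120) h7 kGf25_1c7 rfl
  have h9 := ckP_step (k := 123) h8 kGf25_1c8 rfl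
  have h10 := ckP_step (k := 124) h9 kGf25_1c9 rfl
  have h11 := ckP_step (k := 125) h10 kGf25_1c10 rfl
  have h12 := ckP_step (k := 126) h11 kGf25_1c11 rfl
  have h13 := ckP_step (k := 127) h12 kGf25_1c12 rfl
  have h14 := ckP_step (k := 128) h13 kGf25_1c13 rfl
  exact h14

theorem pGf25_2 : CkP QGf24 (6, 0x1010601130c01100b1d16051a1503200f09)
    [3, 2, 2, 1, 0] 16 := by
  have h0 := ckP_zero QGf24 (6, 0x1010601130c01100b1d16051a1503200f09)
    [3, 2, 2, 1, 0]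
  have h1 := ckP_step (k := 16) h0 kGf25_2c0 rfl
  exact h1

theorem pGf25_3 : CkP QGf24 (9, 0x12a24010107341712321d0c01231101290b261b042015022d0e08)
    [4, 3, 2, 2, 0, 0] 32 := by
  have h0 := ckP_zero QGf24 (9, 0x12a24010107341712321d0c01231101290b261b042015022d0e08)
    [4, 3, 2, 2, 0, 0]
  have h1 := ckP_step (k := 31) h0 kGf25_3c0 rfl
  have h2 := ckP_step (k := 32) h1 kGf25_3c1 rfl
  exact h2

theorem pGf25_4 : CkP QGf24 (0xa, 0x1013638312b352412331e0c2e190a281710231d022c1a072620050f0914)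
    [4, 3, 0, 0, 0, 0, 0] 64 := by
  have h0 := ckP_zero QGf24 (0xa, 0x1013638312b352412331e0c2e190a281710231d022c1a072620050f0914)
    [4, 3, 0, 0, 0, 0, 0]
  have h1 := ckP_step (k := 47) h0 kGf25_4c0 rfl
  have h2 := ckP_step (k := 63) h1 kGf25_4c1 rfl
  have h3 := ckP_step (k := 64) h2 kGf25_4c2 rfl
  exact h3

theorem pGf25_5 : CkP QGf24 (0xe, 0x10149463c36514e4244302a4c1e164a2412401c0c3e100634190a3a2e0e23380232281a2c2005260914)
    [0, 0, 0, 0] 8 := by
  have h0 := ckP_zero QGf24 (0xe, 0x10149463c36514e4244302a4c1e164a2412401c0c3e100634190a3a2e0e23380232281a2c2005260914)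
    [0, 0, 0, 0]
  have h1 := ckP_step (k := 8) h0 kGf25_5c0 rfl
  exact h1

theorem pGf25_6 : CkP QGf24 (0xa, 0x136233a312b35241f330c062e39022d130801100b1d160528151a260f20)
    [7, 6, 5, 4, 0, 0, 0, 0] 128 := by
  have h0 := ckP_zero QGf24 (0xa, 0x136233a312b35241f330c062e39022d130801100b1d160528151a260f20)
    [7, 6, 5, 4, 0, 0, 0, 0]
  have h1 := ckP_step (k := 128) h0 kGf25_6c0 rfl
  exact h1

theorem kGf25 : PpI QGf24 6 TGf25 CAGf CBGf 7 := by
  have h0 := ppI_zero QGf24 6 TGf25 CAGf CBGf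
  have h1 := ppI_stepV (k' := 1) (q := (6, 0x19130c17100b251f06231c05201b03140f09)) h0 rfl kGf25_0r pGf25_0 kGf25_0m rfl
  have h2 := ppI_stepV (k' := 2) (q := (6, 0x19120d16110b251e07221d05211b03150f09)) h1 rfl kGf25_1r pGf25_1 kGf25_1m rfl
  have h3 := ppI_stepV (k' := 3) (q := (6, 0x1010601130c01100b1d16051a1503200f09)) h2 rfl kGf25_2r pGf25_2 kGf25_2m rfl
  have h4 := ppI_stepV (k' := 4) (q := (9, 0x12a24010107341712321d0c01231101290b261b042015022d0e08)) h3 rfl kGf25_3r pGf25_3 kGf25_3m rfl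
  have h5 := ppI_stepV (k' := 5) (q := (0xa, 0x1013638312b352412331e0c2e190a281710231d022c1a072620050f0914)) h4 rfl kGf25_4r pGf25_4 kGf25_4m rfl
  have h6 := ppI_stepV (k' := 6) (q := (0xe, 0x10149463c36514e4244302a4c1e164a2412401c0c3e100634190a3a2e0e23380232281a2c2005260914)) h5 rfl kGf25_5r pGf25_5 kGf25_5m rfl
  have h7 := ppI_stepV (k' := 7) (q := (0xa, 0x136233a312b35241f330c062e39022d130801100b1d160528151a260f20)) h6 rfl kGf25_6r pGf25_6 kGf25_6m rfl
  exact h7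

theorem zGf25 : (!false || allK QGf24 (fun _ => true) (nzq CBGf)
  0) = true := by decide +kernel

theorem mGf25A : (Nat.ble 2 1 || memI QGf24 20 1 257) = true := by decide +kernel

theorem mGf25B : (Nat.ble 1 1 || memI QGf24 0 1 1) = true := by decide +kernel

/-- **the phase 25** -/
theorem cGf25 : Dj5 CAGf CBGf PLGf (dnL QGf25) :=
  Dj5.rawP vokAGf vokBGf mclAGf mclBGf mkoGf wfpGf cGf24 mGf25A mGf25B (by norm_num) tGf25 kGf25 lenGf zGf25 bGf25

end EF18
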