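import Pool.Agent.Lib.MP_ef18bd_co.G5.P26

/-!
# Phase 26: closed patterns
-/

namespace EF18

set_option linter.defProp false

def jGf26_0 : j0F QGf25 BGf26 39 0
  0x800000780000400000380000340000084000004004586003546003086002406000dc6000c86000bc6000b86000b46000a8600074600040800000800220900018b001b0c00390e00010d001b0e00014c00000c010e1000f41000c95000bdd0006b51096dd403899400070f0386540009d3000316 = true := by
  decide +kernel

end EF18
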