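import Pool.Agent.Lib.MP_ef18bd_co.G5.P26

/-!
# Phase 26: roots
-/

namespace EF18

set_option linter.defProp false

def oGf26_0_0 : rGf26 0 25
  0x8c8884807c7874706c6864605c5854504c4844403c3834302c2824201c1814100c080401fe9260a4a09c9894908c8884807c7874706c6864605c5854504c4844403c3834302c2824201c1814100c080401fa92c08c8884807c7874706c6864605c5854504c4844403c3834302c2824201c1814100c080401fa5260807c7874706c6864605c5854504c4844403c3834302c2824201c1814100c080401f9d230a4a09c9894908c8884807c7874706c6864605c5854504c4844403c3834302c2824201c1814100c080401e712c0807c7874706c6864605c5854504c4844403c3834302c2824201c1814100c080401e6d230807c7874706c6864605c5854504c4844403c3834302c2824201c1814100c080401e45230b0aca8a4a09c9894908c8884807c7874706c6864605c5854504c4844403c3834302c2824201c1814100c080401db92f09894908c8884807c7874706c6864605c5854504c4844403c3834302c2824201c1814100c080401c912909894908c8884807c7874706c6864605c5854504c4844403c3834302c2824201c1814100c080401c092909894908c8884807c7874706c6864605c5854504c4844403c3834302c2824201c1814100c080401b512908c8884807c7874706c6864605c5854504c4844403c3834302c2824201c1814100c080401a912606864605c5854504c4844403c3834302c2824201c1814100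c0804010e91d074706c6864605c5854504c4844403c3834302c2824201c1814100c0804010e520074706c6864605c5854504c4844403c3834302c2824201c1814100c0804010e12008c8884807c7874706c6864605c5854504c4844403c3834302c2824201c1814100c0804010b52608c8884807c7874706c6864605c5854504c4844403c3834302c2824201c1814100c0804010b1260a4a09c9894908c8884807c7874706c6864605c5854504c4844403c3834302c2824201c1814100c080400f112c0a4a09c9894908c8884807c7874706c6864605c5854504c4844403c3834302c2824201c1814100c080400f0d2c0bcb8b4b0aca8a4a09c9894908c8884807c7874706c6864605c5854504c4844403c3834302c2824201c1814100c080400d31320bcb8b4b0aca8a4a09c9894908c8884807c7874706c6864605c5854504c4844403c3834302c2824201c1814100c080400d19320bcb8b4b0aca8a4a09c9894908c8884807c7874706c6864605c5854504c4844403c3834302c2824201c1814100c080400c01320c8c4c0bcb8b4b0aca8a4a09c9894908c8884807c7874706c6864605c5854504c4844403c3834302c2824201c1814100c080400ac135074706c807c786864605c5854504c48343830443c401c2018282c2410140c0408021d5230807c7874706c6864605c5854504c4844403c3430382c2824201c1814100c0804021d523 = true := by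
  decide +kernel

def oGf26_0_1 : rGf26 25 23
  0x5c5854504c4844403c3834302c2824201c1814100c0804021651a0504c4844403c3834302c2824201c1814100c080402139170504c4844403c3834302c2824201c1814100c080402135170504c4844403c3834302c2824201c1814100c0804021311709894908c8884807c7874706c6864605c5854504c4844403c3834302c2824201c1814100c080402129290807c7874706c6864605c5854504c4844403c3834302c2824201c1814100c08040211d230807c7874706c6864605c5854504c4844403c3834302c2824201c1814100c0804021152305c5854504c4844403c3834302c2824201c1814100c08040210d1a09894908c8884807c7874706c6864605c5854504c4844403c3834302c2824201c1814100c0804020f9290807c7874706c6864605c5854504c4844403c3834302c2824201c1814100c0804020c9230d4d0ccc8c4c0bcb8b4b0aca8a4a09c9894908c8884807c7874706c6864605c5854504c4844403c3834302c2824201c1814100c0804020b13809894908c8884807c7874706c6864605c5854504c4844403c3834302c2824201c1814100c0804020992909894908c8884807c7874706c6864605c5854504c4844403c3834302c2824201c1814100c0804020952909894908c8884807c7874706c6864605c5854504c4844403c3834302c2824201c1814100c0804020852908c8884807c7874706c6864605c5854504c4844403c3834302c2824201c1814100c08040207d2609894908c8884807c7874706c6864605c5854504c484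4403c3834302c2824201c1814100c0804020712908c8884807c7874706c6864605c5854504c4844403c3834302c2824201c1814100c08040206d260b0aca8a4a09c9894908c8884807c7874706c6864605c5854504c4844403c3834302c2824201c1814100c08040203d2f074706c6864605c5854504c4844403c3834302c2824201c1814100c080402039200807c7874706c6864605c5854504c4844403c3834302c2824201c1814100c080402035230b0aca8a4a09c9894908c8884807c7874706c6864605c5854504c4844403c3834302c2824201c1814100c0804020252f0807c7874706c6864605c5854504c4844403c3834302c2824201c1814100c080402021230a4a09c9894908c8884807c7874706c6864605c5854504c4844403c3834302c2824201c1814100c08040201d2c = true := by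
  decide +kernel

end EF18
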