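import Pool.Agent.Lib.MP_ef18bd_co.G5.C25
import Pool.Agent.Lib.MP_ef18bd_co.G5.P26x0
import Pool.Agent.Lib.MP_ef18bd_co.G5.P26x1
import Pool.Agent.Lib.MP_ef18bd_co.G5.P26x2
import Pool.Agent.Lib.MP_ef18bd_co.G5.P26x3
import Pool.Agent.Lib.MP_ef18bd_co.G5.P26x4
import Pool.Agent.Lib.MP_ef18bd_co.G5.P26x5
import Pool.Agent.Lib.MP_ef18bd_co.G5.P26j0
import Pool.Agent.Lib.MP_ef18bd_co.G5.P26r0
import Pool.Agent.Lib.MP_ef18bd_co.G5.P26k0

/-!
# Phase 26
-/

namespace EF18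

theorem aGf26 : ∀ i < 2166, Val (stD (dnL QGf25) SGf26) (prc BGf26 i) := by
  have j0 := ents_zeroF QGf25 SGf26 BGf26
  have j1 := ents_dnF (k := 39) j0 jGf26_0 rfl
  have h0 := j1
  have h1 := wGf26_0_0 h0
  have h2 := wGf26_0_1 h1
  have h3 := wGf26_0_2 h2
  have h4 := wGf26_0_3 h3
  have h5 := wGf26_0_4 h4
  have h6 := wGf26_0_5 h5
  have h7 := wGf26_0_6 h6
  have h8 := wGf26_0_7 h7
  have h9 := wGf26_0_8 h8
  have h10 := wGf26_0_9 h9
  have h11 := wGf26_0_10 h10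
  have h12 := wGf26_0_11 h11
  have h13 := wGf26_0_12 h12
  have h14 := wGf26_0_13 h13
  have h15 := wGf26_0_14 h14
  have h16 := wGf26_0_15 h15
  have h17 := wGf26_0_16 h16
  have h18 := wGf26_0_17 h17
  have h19 := wGf26_0_18 h18
  have h20 := wGf26_0_19 h19
  have h21 := wGf26_0_20 h20
  have h22 := wGf26_0_21 h21
  have h23 := wGf26_1_0 h22
  have h24 := wGf26_1_1 h23
  have h25 := wGf26_1_2 h24
  have h26 := wGf26_1_3 h25
  have h27 := wGf26_1_4 h26
  have h28 := wGf26_1_5 h27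
  have h29 := wGf26_1_6 h28
  have h30 := wGf26_1_7 h29
  have h31 := wGf26_1_8 h30
  have h32 := wGf26_1_9 h31
  have h33 := wGf26_1_10 h32
  have h34 := wGf26_1_11 h33
  have h35 := wGf26_2_0 h34
  have h36 := wGf26_2_1 h35
  have h37 := wGf26_2_2 h36
  have h38 := wGf26_2_3 h37
  have h39 := wGf26_2_4 h38
  have h40 := wGf26_2_5 h39
  have h41 := wGf26_2_6 h40
  have h42 := wGf26_2_7 h41
  have h43 := wGf26_2_8 h42
  have h44 := wGf26_2_9 h43
  have h45 := wGf26_2_10 h44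
  have h46 := wGf26_2_11 h45
  have h47 := wGf26_2_12 h46
  have h48 := wGf26_2_13 h47
  have h49 := wGf26_2_14 h48
  have h50 := wGf26_2_15 h49
  have h51 := wGf26_2_16 h50
  have h52 := wGf26_3_0 h51
  have h53 := wGf26_3_1 h52
  have h54 := wGf26_3_2 h53
  have h55 := wGf26_3_3 h54
  have h56 := wGf26_3_4 h55
  have h57 := wGf26_3_5 h56
  have h58 := wGf26_3_6 h57
  have h59 := wGf26_3_7 h58
  have h60 := wGf26_3_8 h59
  have h61 := wGf26_3_9 h60
  have h62 := wGf26_3_10 h61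
  have h63 := wGf26_3_11 h62
  have h64 := wGf26_3_12 h63
  have h65 := wGf26_3_13 h64
  have h66 := wGf26_3_14 h65
  have h67 := wGf26_3_15 h66
  have h68 := wGf26_3_16 h67
  have h69 := wGf26_4_0 h68
  have h70 := wGf26_4_1 h69
  have h71 := wGf26_4_2 h70
  have h72 := wGf26_4_3 h71
  have h73 := wGf26_4_4 h72
  have h74 := wGf26_4_5 h73
  have h75 := wGf26_4_6 h74
  have h76 := wGf26_4_7 h75
  have h77 := wGf26_4_8 h76
  have h78 := wGf26_4_9 h77
  have h79 := wGf26_4_10 h78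
  have h80 := wGf26_4_11 h79
  have h81 := wGf26_4_12 h80
  have h82 := wGf26_4_13 h81
  have h83 := wGf26_4_14 h82
  have h84 := wGf26_4_15 h83
  have h85 := wGf26_4_16 h84
  have h86 := wGf26_5_0 h85
  have h87 := wGf26_5_1 h86
  have h88 := wGf26_5_2 h87
  have h89 := wGf26_5_3 h88
  exact h89

theorem bGf26 : RtI (ok5 (okB 1 true)) (stD (dnL QGf25) SGf26) RBGf26 48 := by
  have h0 := rtI_zero (ok5 (okB 1 true)) (stD (dnL QGf25) SGf26) RBGf26
  have h1 := uGf26 aGf26 h0 oGf26_0_0 (show 0 + 25 = 25 from rfl)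
  have h2 := uGf26 aGf26 h1 oGf26_0_1 (show 25 + 23 = 48 from rfl)
  exact h2

theorem tGf26 : (TGf26.all okJ) = true := by decide +kernel

theorem pGf26_0 : CkP QGf25 (6, 0x19130c17100b251f06231c05201b03140f09)
    [2, 0, 0, 0, 0, 0, 0] 64 := by
  have h0 := ckP_zero QGf25 (6, 0x19130c17100b251f06231c05201b03140f09)
    [2, 0, 0, 0, 0, 0, 0]
  have h1 := ckP_step (k := 63) h0 kGf26_0c0 rfl
  have h2 := ckP_step (k := 64) h1 kGf26_0c1 rfl
  exact h2

theorem pGf26_1 : CkP QGf25 (6, 0x19120d16110b251e07221d05211b03150f09)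
    [4, 3, 2, 0, 0, 0, 0, 0] 128 := by
  have h0 := ckP_zero QGf25 (6, 0x19120d16110b251e07221d05211b03150f09)
    [4, 3, 2, 0, 0, 0, 0, 0]
  have h1 := ckP_step (k := 63) h0 kGf26_1c0 rfl
  have h2 := ckP_step (k := 64) h1 kGf26_1c1 rfl
  have h3 := ckP_step (k := 95) h2 kGf26_1c2 rfl
  have h4 := ckP_step (k := 96) h3 kGf26_1c3 rfl
  have h5 := ckP_step (k := 111) h4 kGf26_1c4 rfl
  have h6 := ckP_step (k := 112) h5 kGf26_1c5 rfl
  have h7 := ckP_step (k := 119) h6 kGf26_1c6 rfl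
  have h8 := ckP_step (k := 120) h7 kGf26_1c7 rfl
  have h9 := ckP_step (k := 123) h8 kGf26_1c8 rfl
  have h10 := ckP_step (k := 124) h9 kGf26_1c9 rfl
  have h11 := ckP_step (k := 125) h10 kGf26_1c10 rfl
  have h12 := ckP_step (k := 126) h11 kGf26_1c11 rfl
  have h13 := ckP_step (k := 127) h12 kGf26_1c12 rfl
  have h14 := ckP_step (k := 128) h13 kGf26_1c13 rfl
  exact h14

theorem pGf26_2 : CkP QGf25 (6, 0x1010601130c01100b1d16051a1503200f09)
    [3, 2, 2, 1, 0] 16 := by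
  have h0 := ckP_zero QGf25 (6, 0x1010601130c01100b1d16051a1503200f09)
    [3, 2, 2, 1, 0]
  have h1 := ckP_step (k := 16) h0 kGf26_2c0 rfl
  exact h1

theorem pGf26_3 : CkP QGf25 (9, 0x12a24010107341712321d0c01231101290b261b042015022d0e08)
    [4, 3, 2, 2, 0, 0] 32 := by
  have h0 := ckP_zero QGf25 (9, 0x12a24010107341712321d0c01231101290b261b042015022d0e08)
    [4, 3, 2, 2, 0, 0]
  have h1 := ckP_step (k := 31) h0 kGf26_3c0 rfl
  have h2 := ckP_step (k := 32) h1 kGf26_3c1 rfl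
  exact h2

theorem pGf26_4 : CkP QGf25 (0xa, 0x1013638312b352412331e0c2e190a281710231d022c1a072620050f0914)
    [4, 3, 0, 0, 0, 0, 0] 64 := by
  have h0 := ckP_zero QGf25 (0xa, 0x1013638312b352412331e0c2e190a281710231d022c1a072620050f0914)
    [4, 3, 0, 0, 0, 0, 0]
  have h1 := ckP_step (k := 47) h0 kGf26_4c0 rfl
  have h2 := ckP_step (k := 63) h1 kGf26_4c1 rfl
  have h3 := ckP_step (k := 64) h2 kGf26_4c2 rfl
  exact h3

theorem pGf26_5 : CkP QGf25 (0xe, 0x10149463c36514e4244302a4c1e164a2412401c0c3e100634190a3a2e0e23380232281a2c2005260914)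
    [0, 0, 0, 0] 8 := by
  have h0 := ckP_zero QGf25 (0xe, 0x10149463c36514e4244302a4c1e164a2412401c0c3e100634190a3a2e0e23380232281a2c2005260914)
    [0, 0, 0, 0]
  have h1 := ckP_step (k := 8) h0 kGf26_5c0 rfl
  exact h1

theorem pGf26_6 : CkP QGf25 (0xa, 0x136233a312b35241f330c062e39022d130801100b1d160528151a260f20)
    [7, 6, 5, 4, 0, 0, 0, 0] 128 := by
  have h0 := ckP_zero QGf25 (0xa, 0x136233a312b35241f330c062e39022d130801100b1d160528151a260f20)
    [7, 6, 5, 4, 0, 0, 0, 0]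
  have h1 := ckP_step (k := 128) h0 kGf26_6c0 rfl
  exact h1

theorem kGf26 : PpI QGf25 6 TGf26 CAGf CBGf 7 := by
  have h0 := ppI_zero QGf25 6 TGf26 CAGf CBGf
  have h1 := ppI_stepV (k' := 1) (q := (6, 0x19130c17100b251f06231c05201b03140f09)) h0 rfl kGf26_0r pGf26_0 kGf26_0m rfl
  have h2 := ppI_stepV (k' := 2) (q := (6, 0x19120d16110b251e07221d05211b03150f09)) h1 rfl kGf26_1r pGf26_1 kGf26_1m rfl
  have h3 := ppI_stepV (k' := 3) (q := (6, 0x1010601130c01100b1d16051a1503200f09)) h2 rfl kGf26_2r pGf26_2 kGf26_2m rfl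
  have h4 := ppI_stepV (k' := 4) (q := (9, 0x12a24010107341712321d0c01231101290b261b042015022d0e08)) h3 rfl kGf26_3r pGf26_3 kGf26_3m rfl
  have h5 := ppI_stepV (k' := 5) (q := (0xa, 0x1013638312b352412331e0c2e190a281710231d022c1a072620050f0914)) h4 rfl kGf26_4r pGf26_4 kGf26_4m rfl
  have h6 := ppI_stepV (k' := 6) (q := (0xe, 0x10149463c36514e4244302a4c1e164a2412401c0c3e100634190a3a2e0e23380232281a2c2005260914)) h5 rfl kGf26_5r pGf26_5 kGf26_5m rfl
  have h7 := ppI_stepV (k' := 7) (q := (0xa, 0x136233a312b35241f330c062e39022d130801100b1d160528151a260f20)) h6 rfl kGf26_6r pGf26_6 kGf26_6m rfl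
  exact h7

theorem zGf26 : (!false || allK QGf25 (fun _ => true) (nzq CBGf)
  0) = true := by decide +kernel

theorem mGf26A : (Nat.ble 2 1 || memI QGf25 21 1 257) = true := by decide +kernel

theorem mGf26B : (Nat.ble 1 1 || memI QGf25 0 1 1) = true := by decide +kernel

/-- **the phase 26** -/
theorem cGf26 : Dj5 CAGf CBGf PLGf (dnL QGf26) :=
  Dj5.rawP vokAGf vokBGf mclAGf mclBGf mkoGf wfpGf cGf25 mGf26A mGf26B (by norm_num) tGf26 kGf26 lenGf zGf26 bGf26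

end EF18
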