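import Pool.Agent.Lib.MP_ef18bd_co.G5.C26
import Pool.Agent.Lib.MP_ef18bd_co.G5.P27x0
import Pool.Agent.Lib.MP_ef18bd_co.G5.P27x1
import Pool.Agent.Lib.MP_ef18bd_co.G5.P27x2
import Pool.Agent.Lib.MP_ef18bd_co.G5.P27x3
import Pool.Agent.Lib.MP_ef18bd_co.G5.P27x4
import Pool.Agent.Lib.MP_ef18bd_co.G5.P27x5
import Pool.Agent.Lib.MP_ef18bd_co.G5.P27x6
import Pool.Agent.Lib.MP_ef18bd_co.G5.P27x7
import Pool.Agent.Lib.MP_ef18bd_co.G5.P27x8
import Pool.Agent.Lib.MP_ef18bd_co.G5.P27j0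
import Pool.Agent.Lib.MP_ef18bd_co.G5.P27r0
import Pool.Agent.Lib.MP_ef18bd_co.G5.P27k0

/-!
# Phase 27
-/

namespace EF18

theorem aGf27 : ∀ i < 4000, Val (stD (dnL QGf26) SGf27) (prc BGf27 i) := by
  have j0 := ents_zeroF QGf26 SGf27 BGf27
  have j1 := ents_dnF (k := 49) j0 jGf27_0 rfl
  have h0 := j1
  have h1 := wGf27_0_0 h0
  have h2 := wGf27_0_1 h1
  have h3 := wGf27_0_2 h2
  have h4 := wGf27_0_3 h3
  have h5 := wGf27_0_4 h4
  have h6 := wGf27_0_5 h5
  have h7 := wGf27_0_6 h6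
  have h8 := wGf27_0_7 h7
  have h9 := wGf27_0_8 h8
  have h10 := wGf27_0_9 h9
  have h11 := wGf27_0_10 h10
  have h12 := wGf27_0_11 h11
  have h13 := wGf27_0_12 h12
  have h14 := wGf27_0_13 h13
  have h15 := wGf27_0_14 h14
  have h16 := wGf27_0_15 h15
  have h17 := wGf27_0_16 h16
  have h18 := wGf27_0_17 h17
  have h19 := wGf27_1_0 h18
  have h20 := wGf27_1_1 h19
  have h21 := wGf27_1_2 h20
  have h22 := wGf27_1_3 h21
  have h23 := wGf27_1_4 h22
  have h24 := wGf27_1_5 h23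
  have h25 := wGf27_1_6 h24
  have h26 := wGf27_1_7 h25
  have h27 := wGf27_1_8 h26
  have h28 := wGf27_1_9 h27
  have h29 := wGf27_1_10 h28
  have h30 := wGf27_1_11 h29
  have h31 := wGf27_1_12 h30
  have h32 := wGf27_1_13 h31
  have h33 := wGf27_1_14 h32
  have h34 := wGf27_1_15 h33
  have h35 := wGf27_1_16 h34
  have h36 := wGf27_2_0 h35
  have h37 := wGf27_2_1 h36
  have h38 := wGf27_2_2 h37
  have h39 := wGf27_2_3 h38
  have h40 := wGf27_2_4 h39
  have h41 := wGf27_2_5 h40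
  have h42 := wGf27_2_6 h41
  have h43 := wGf27_2_7 h42
  have h44 := wGf27_2_8 h43
  have h45 := wGf27_2_9 h44
  have h46 := wGf27_2_10 h45
  have h47 := wGf27_2_11 h46
  have h48 := wGf27_2_12 h47
  have h49 := wGf27_2_13 h48
  have h50 := wGf27_2_14 h49
  have h51 := wGf27_2_15 h50
  have h52 := wGf27_2_16 h51
  have h53 := wGf27_2_17 h52
  have h54 := wGf27_3_0 h53
  have h55 := wGf27_3_1 h54
  have h56 := wGf27_3_2 h55
  have h57 := wGf27_3_3 h56
  have h58 := wGf27_3_4 h57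
  have h59 := wGf27_3_5 h58
  have h60 := wGf27_3_6 h59
  have h61 := wGf27_3_7 h60
  have h62 := wGf27_3_8 h61
  have h63 := wGf27_3_9 h62
  have h64 := wGf27_3_10 h63
  have h65 := wGf27_3_11 h64
  have h66 := wGf27_3_12 h65
  have h67 := wGf27_3_13 h66
  have h68 := wGf27_3_14 h67
  have h69 := wGf27_3_15 h68
  have h70 := wGf27_3_16 h69
  have h71 := wGf27_3_17 h70
  have h72 := wGf27_3_18 h71
  have h73 := wGf27_3_19 h72
  have h74 := wGf27_3_20 h73
  have h75 := wGf27_3_21 h74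
  have h76 := wGf27_3_22 h75
  have h77 := wGf27_4_0 h76
  have h78 := wGf27_4_1 h77
  have h79 := wGf27_4_2 h78
  have h80 := wGf27_4_3 h79
  have h81 := wGf27_4_4 h80
  have h82 := wGf27_4_5 h81
  have h83 := wGf27_4_6 h82
  have h84 := wGf27_4_7 h83
  have h85 := wGf27_4_8 h84
  have h86 := wGf27_4_9 h85
  have h87 := wGf27_4_10 h86
  have h88 := wGf27_4_11 h87
  have h89 := wGf27_4_12 h88
  have h90 := wGf27_4_13 h89
  have h91 := wGf27_4_14 h90
  have h92 := wGf27_4_15 h91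
  have h93 := wGf27_4_16 h92
  have h94 := wGf27_4_17 h93
  have h95 := wGf27_4_18 h94
  have h96 := wGf27_4_19 h95
  have h97 := wGf27_4_20 h96
  have h98 := wGf27_4_21 h97
  have h99 := wGf27_4_22 h98
  have h100 := wGf27_4_23 h99
  have h101 := wGf27_4_24 h100
  have h102 := wGf27_4_25 h101
  have h103 := wGf27_5_0 h102
  have h104 := wGf27_5_1 h103
  have h105 := wGf27_5_2 h104
  have h106 := wGf27_5_3 h105
  have h107 := wGf27_5_4 h106
  have h108 := wGf27_5_5 h107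
  have h109 := wGf27_5_6 h108
  have h110 := wGf27_5_7 h109
  have h111 := wGf27_5_8 h110
  have h112 := wGf27_5_9 h111
  have h113 := wGf27_5_10 h112
  have h114 := wGf27_5_11 h113
  have h115 := wGf27_5_12 h114
  have h116 := wGf27_5_13 h115
  have h117 := wGf27_5_14 h116
  have h118 := wGf27_5_15 h117
  have h119 := wGf27_5_16 h118
  have h120 := wGf27_5_17 h119
  have h121 := wGf27_5_18 h120
  have h122 := wGf27_5_19 h121
  have h123 := wGf27_5_20 h122
  have h124 := wGf27_5_21 h123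
  have h125 := wGf27_5_22 h124
  have h126 := wGf27_6_0 h125
  have h127 := wGf27_6_1 h126
  have h128 := wGf27_6_2 h127
  have h129 := wGf27_6_3 h128
  have h130 := wGf27_6_4 h129
  have h131 := wGf27_6_5 h130
  have h132 := wGf27_6_6 h131
  have h133 := wGf27_6_7 h132
  have h134 := wGf27_6_8 h133
  have h135 := wGf27_6_9 h134
  have h136 := wGf27_6_10 h135
  have h137 := wGf27_6_11 h136
  have h138 := wGf27_6_12 h137
  have h139 := wGf27_6_13 h138
  have h140 := wGf27_6_14 h139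
  have h141 := wGf27_7_0 h140
  have h142 := wGf27_7_1 h141
  have h143 := wGf27_7_2 h142
  have h144 := wGf27_7_3 h143
  have h145 := wGf27_7_4 h144
  have h146 := wGf27_7_5 h145
  have h147 := wGf27_7_6 h146
  have h148 := wGf27_7_7 h147
  have h149 := wGf27_7_8 h148
  have h150 := wGf27_7_9 h149
  have h151 := wGf27_7_10 h150
  have h152 := wGf27_7_11 h151
  have h153 := wGf27_7_12 h152
  have h154 := wGf27_7_13 h153
  have h155 := wGf27_7_14 h154
  have h156 := wGf27_8_0 h155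
  have h157 := wGf27_8_1 h156
  have h158 := wGf27_8_2 h157
  have h159 := wGf27_8_3 h158
  have h160 := wGf27_8_4 h159
  have h161 := wGf27_8_5 h160
  have h162 := wGf27_8_6 h161
  exact h162

theorem bGf27 : RtI (ok5 (okB 1 true)) (stD (dnL QGf26) SGf27) RBGf27 2031 := by
  have h0 := rtI_zero (ok5 (okB 1 true)) (stD (dnL QGf26) SGf27) RBGf27
  have h1 := uGf27 aGf27 h0 oGf27_0_0 (show 0 + 25 = 25 from rfl)
  have h2 := uGf27 aGf27 h1 oGf27_0_1 (show 25 + 25 = 50 from rfl)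
  have h3 := uGf27 aGf27 h2 oGf27_0_2 (show 50 + 25 = 75 from rfl)
  have h4 := uGf27 aGf27 h3 oGf27_0_3 (show 75 + 25 = 100 from rfl)
  have h5 := uGf27 aGf27 h4 oGf27_0_4 (show 100 + 25 = 125 from rfl)
  have h6 := uGf27 aGf27 h5 oGf27_0_5 (show 125 + 25 = 150 from rfl)
  have h7 := uGf27 aGf27 h6 oGf27_0_6 (show 150 + 25 = 175 from rfl)
  have h8 := uGf27 aGf27 h7 oGf27_0_7 (show 175 + 25 = 200 from rfl)
  have h9 := uGf27 aGf27 h8 oGf27_0_8 (show 200 + 25 = 225 from rfl)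
  have h10 := uGf27 aGf27 h9 oGf27_0_9 (show 225 + 25 = 250 from rfl)
  have h11 := uGf27 aGf27 h10 oGf27_0_10 (show 250 + 25 = 275 from rfl)
  have h12 := uGf27 aGf27 h11 oGf27_0_11 (show 275 + 25 = 300 from rfl)
  have h13 := uGf27 aGf27 h12 oGf27_0_12 (show 300 + 25 = 325 from rfl)
  have h14 := uGf27 aGf27 h13 oGf27_0_13 (show 325 + 25 = 350 from rfl)
  have h15 := uGf27 aGf27 h14 oGf27_0_14 (show 350 + 25 = 375 from rfl)
  have h16 := uGf27 aGf27 h15 oGf27_0_15 (show 375 + 25 = 400 from rfl)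
  have h17 := uGf27 aGf27 h16 oGf27_0_16 (show 400 + 25 = 425 from rfl)
  have h18 := uGf27 aGf27 h17 oGf27_0_17 (show 425 + 25 = 450 from rfl)
  have h19 := uGf27 aGf27 h18 oGf27_0_18 (show 450 + 25 = 475 from rfl)
  have h20 := uGf27 aGf27 h19 oGf27_0_19 (show 475 + 25 = 500 from rfl)
  have h21 := uGf27 aGf27 h20 oGf27_0_20 (show 500 + 25 = 525 from rfl)
  have h22 := uGf27 aGf27 h21 oGf27_0_21 (show 525 + 25 = 550 from rfl)
  have h23 := uGf27 aGf27 h22 oGf27_0_22 (show 550 + 25 = 575 from rfl)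
  have h24 := uGf27 aGf27 h23 oGf27_0_23 (show 575 + 25 = 600 from rfl)
  have h25 := uGf27 aGf27 h24 oGf27_0_24 (show 600 + 25 = 625 from rfl)
  have h26 := uGf27 aGf27 h25 oGf27_0_25 (show 625 + 25 = 650 from rfl)
  have h27 := uGf27 aGf27 h26 oGf27_0_26 (show 650 + 25 = 675 from rfl)
  have h28 := uGf27 aGf27 h27 oGf27_0_27 (show 675 + 25 = 700 from rfl)
  have h29 := uGf27 aGf27 h28 oGf27_0_28 (show 700 + 25 = 725 from rfl)
  have h30 := uGf27 aGf27 h29 oGf27_0_29 (show 725 + 25 = 750 from rfl)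
  have h31 := uGf27 aGf27 h30 oGf27_0_30 (show 750 + 25 = 775 from rfl)
  have h32 := uGf27 aGf27 h31 oGf27_0_31 (show 775 + 25 = 800 from rfl)
  have h33 := uGf27 aGf27 h32 oGf27_0_32 (show 800 + 25 = 825 from rfl)
  have h34 := uGf27 aGf27 h33 oGf27_0_33 (show 825 + 25 = 850 from rfl)
  have h35 := uGf27 aGf27 h34 oGf27_0_34 (show 850 + 25 = 875 from rfl)
  have h36 := uGf27 aGf27 h35 oGf27_0_35 (show 875 + 25 = 900 from rfl)
  have h37 := uGf27 aGf27 h36 oGf27_0_36 (show 900 + 25 = 925 from rfl)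
  have h38 := uGf27 aGf27 h37 oGf27_0_37 (show 925 + 25 = 950 from rfl)
  have h39 := uGf27 aGf27 h38 oGf27_0_38 (show 950 + 25 = 975 from rfl)
  have h40 := uGf27 aGf27 h39 oGf27_0_39 (show 975 + 25 = 1000 from rfl)
  have h41 := uGf27 aGf27 h40 oGf27_0_40 (show 1000 + 25 = 1025 from rfl)
  have h42 := uGf27 aGf27 h41 oGf27_0_41 (show 1025 + 25 = 1050 from rfl)
  have h43 := uGf27 aGf27 h42 oGf27_0_42 (show 1050 + 25 = 1075 from rfl)
  have h44 := uGf27 aGf27 h43 oGf27_0_43 (show 1075 + 25 = 1100 from rfl)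
  have h45 := uGf27 aGf27 h44 oGf27_0_44 (show 1100 + 25 = 1125 from rfl)
  have h46 := uGf27 aGf27 h45 oGf27_0_45 (show 1125 + 25 = 1150 from rfl)
  have h47 := uGf27 aGf27 h46 oGf27_0_46 (show 1150 + 25 = 1175 from rfl)
  have h48 := uGf27 aGf27 h47 oGf27_0_47 (show 1175 + 25 = 1200 from rfl)
  have h49 := uGf27 aGf27 h48 oGf27_0_48 (show 1200 + 25 = 1225 from rfl)
  have h50 := uGf27 aGf27 h49 oGf27_0_49 (show 1225 + 25 = 1250 from rfl)
  have h51 := uGf27 aGf27 h50 oGf27_0_50 (show 1250 + 25 = 1275 from rfl)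
  have h52 := uGf27 aGf27 h51 oGf27_0_51 (show 1275 + 25 = 1300 from rfl)
  have h53 := uGf27 aGf27 h52 oGf27_0_52 (show 1300 + 25 = 1325 from rfl)
  have h54 := uGf27 aGf27 h53 oGf27_0_53 (show 1325 + 25 = 1350 from rfl)
  have h55 := uGf27 aGf27 h54 oGf27_0_54 (show 1350 + 25 = 1375 from rfl)
  have h56 := uGf27 aGf27 h55 oGf27_0_55 (show 1375 + 25 = 1400 from rfl)
  have h57 := uGf27 aGf27 h56 oGf27_0_56 (show 1400 + 25 = 1425 from rfl)
  have h58 := uGf27 aGf27 h57 oGf27_0_57 (show 1425 + 25 = 1450 from rfl)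
  have h59 := uGf27 aGf27 h58 oGf27_0_58 (show 1450 + 25 = 1475 from rfl)
  have h60 := uGf27 aGf27 h59 oGf27_0_59 (show 1475 + 25 = 1500 from rfl)
  have h61 := uGf27 aGf27 h60 oGf27_0_60 (show 1500 + 25 = 1525 from rfl)
  have h62 := uGf27 aGf27 h61 oGf27_0_61 (show 1525 + 25 = 1550 from rfl)
  have h63 := uGf27 aGf27 h62 oGf27_0_62 (show 1550 + 25 = 1575 from rfl)
  have h64 := uGf27 aGf27 h63 oGf27_0_63 (show 1575 + 25 = 1600 from rfl)
  have h65 := uGf27 aGf27 h64 oGf27_0_64 (show 1600 + 25 = 1625 from rfl)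
  have h66 := uGf27 aGf27 h65 oGf27_0_65 (show 1625 + 25 = 1650 from rfl)
  have h67 := uGf27 aGf27 h66 oGf27_0_66 (show 1650 + 25 = 1675 from rfl)
  have h68 := uGf27 aGf27 h67 oGf27_0_67 (show 1675 + 25 = 1700 from rfl)
  have h69 := uGf27 aGf27 h68 oGf27_0_68 (show 1700 + 25 = 1725 from rfl)
  have h70 := uGf27 aGf27 h69 oGf27_0_69 (show 1725 + 25 = 1750 from rfl)
  have h71 := uGf27 aGf27 h70 oGf27_0_70 (show 1750 + 25 = 1775 from rfl)
  have h72 := uGf27 aGf27 h71 oGf27_0_71 (show 1775 + 25 = 1800 from rfl)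
  have h73 := uGf27 aGf27 h72 oGf27_0_72 (show 1800 + 25 = 1825 from rfl)
  have h74 := uGf27 aGf27 h73 oGf27_0_73 (show 1825 + 25 = 1850 from rfl)
  have h75 := uGf27 aGf27 h74 oGf27_0_74 (show 1850 + 25 = 1875 from rfl)
  have h76 := uGf27 aGf27 h75 oGf27_0_75 (show 1875 + 25 = 1900 from rfl)
  have h77 := uGf27 aGf27 h76 oGf27_0_76 (show 1900 + 25 = 1925 from rfl)
  have h78 := uGf27 aGf27 h77 oGf27_0_77 (show 1925 + 25 = 1950 from rfl)
  have h79 := uGf27 aGf27 h78 oGf27_0_78 (show 1950 + 25 = 1975 from rfl)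
  have h80 := uGf27 aGf27 h79 oGf27_0_79 (show 1975 + 25 = 2000 from rfl)
  have h81 := uGf27 aGf27 h80 oGf27_0_80 (show 2000 + 25 = 2025 from rfl)
  have h82 := uGf27 aGf27 h81 oGf27_0_81 (show 2025 + 6 = 2031 from rfl)
  exact h82

theorem tGf27 : (TGf27.all okJ) = true := by decide +kernel

theorem pGf27_0 : CkP QGf26 (6, 0x19130c17100b251f06231c05201b03140f09)
    [2, 0, 0, 0, 0, 0, 0] 64 := by
  have h0 := ckP_zero QGf26 (6, 0x19130c17100b251f06231c05201b03140f09)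
    [2, 0, 0, 0, 0, 0, 0]
  have h1 := ckP_step (k := 63) h0 kGf27_0c0 rfl
  have h2 := ckP_step (k := 64) h1 kGf27_0c1 rfl
  exact h2

theorem pGf27_1 : CkP QGf26 (6, 0x19120d16110b251e07221d05211b03150f09)
    [4, 3, 0, 0, 0, 0, 0, 0] 128 := by
  have h0 := ckP_zero QGf26 (6, 0x19120d16110b251e07221d05211b03150f09)
    [4, 3, 0, 0, 0, 0, 0, 0]
  have h1 := ckP_step (k := 63) h0 kGf27_1c0 rfl
  have h2 := ckP_step (k := 64) h1 kGf27_1c1 rfl
  have h3 := ckP_step (k := 95) h2 kGf27_1c2 rfl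
  have h4 := ckP_step (k := 96) h3 kGf27_1c3 rfl
  have h5 := ckP_step (k := 111) h4 kGf27_1c4 rfl
  have h6 := ckP_step (k := 112) h5 kGf27_1c5 rfl
  have h7 := ckP_step (k := 119) h6 kGf27_1c6 rfl
  have h8 := ckP_step (k := 120) h7 kGf27_1c7 rfl
  have h9 := ckP_step (k := 123) h8 kGf27_1c8 rfl
  have h10 := ckP_step (k := 124) h9 kGf27_1c9 rfl
  have h11 := ckP_step (k := 125) h10 kGf27_1c10 rfl
  have h12 := ckP_step (k := 126) h11 kGf27_1c11 rfl
  have h13 := ckP_step (k := 127) h12 kGf27_1c12 rfl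
  have h14 := ckP_step (k := 128) h13 kGf27_1c13 rfl
  exact h14

theorem pGf27_2 : CkP QGf26 (6, 0x1010601130c01100b1d16051a1503200f09)
    [3, 2, 2, 1, 0] 16 := by
  have h0 := ckP_zero QGf26 (6, 0x1010601130c01100b1d16051a1503200f09)
    [3, 2, 2, 1, 0]
  have h1 := ckP_step (k := 16) h0 kGf27_2c0 rfl
  exact h1

theorem pGf27_3 : CkP QGf26 (9, 0x12a24010107341712321d0c01231101290b261b042015022d0e08)
    [4, 3, 2, 2, 0, 0] 32 := by
  have h0 := ckP_zero QGf26 (9, 0x12a24010107341712321d0c01231101290b261b042015022d0e08)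
    [4, 3, 2, 2, 0, 0]
  have h1 := ckP_step (k := 31) h0 kGf27_3c0 rfl
  have h2 := ckP_step (k := 32) h1 kGf27_3c1 rfl
  exact h2

theorem pGf27_4 : CkP QGf26 (0xa, 0x1013638312b352412331e0c2e190a281710231d022c1a072620050f0914)
    [4, 3, 0, 0, 0, 0, 0] 64 := by
  have h0 := ckP_zero QGf26 (0xa, 0x1013638312b352412331e0c2e190a281710231d022c1a072620050f0914)
    [4, 3, 0, 0, 0, 0, 0]
  have h1 := ckP_step (k := 47) h0 kGf27_4c0 rfl
  have h2 := ckP_step (k := 63) h1 kGf27_4c1 rfl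
  have h3 := ckP_step (k := 64) h2 kGf27_4c2 rfl
  exact h3

theorem pGf27_5 : CkP QGf26 (0xe, 0x10149463c36514e4244302a4c1e164a2412401c0c3e100634190a3a2e0e23380232281a2c2005260914)
    [0, 0, 0, 0] 8 := by
  have h0 := ckP_zero QGf26 (0xe, 0x10149463c36514e4244302a4c1e164a2412401c0c3e100634190a3a2e0e23380232281a2c2005260914)
    [0, 0, 0, 0]
  have h1 := ckP_step (k := 8) h0 kGf27_5c0 rfl
  exact h1

theorem pGf27_6 : CkP QGf26 (0xa, 0x136233a312b35241f330c062e39022d130801100b1d160528151a260f20)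
    [7, 6, 5, 4, 0, 0, 0, 0] 128 := by
  have h0 := ckP_zero QGf26 (0xa, 0x136233a312b35241f330c062e39022d130801100b1d160528151a260f20)
    [7, 6, 5, 4, 0, 0, 0, 0]
  have h1 := ckP_step (k := 128) h0 kGf27_6c0 rfl
  exact h1

theorem kGf27 : PpI QGf26 6 TGf27 CAGf CBGf 7 := by
  have h0 := ppI_zero QGf26 6 TGf27 CAGf CBGf
  have h1 := ppI_stepV (k' := 1) (q := (6, 0x19130c17100b251f06231c05201b03140f09)) h0 rfl kGf27_0r pGf27_0 kGf27_0m rfl
  have h2 := ppI_stepV (k' := 2) (q := (6, 0x19120d16110b251e07221d05211b03150f09)) h1 rfl kGf27_1r pGf27_1 kGf27_1m rfl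
  have h3 := ppI_stepV (k' := 3) (q := (6, 0x1010601130c01100b1d16051a1503200f09)) h2 rfl kGf27_2r pGf27_2 kGf27_2m rfl
  have h4 := ppI_stepV (k' := 4) (q := (9, 0x12a24010107341712321d0c01231101290b261b042015022d0e08)) h3 rfl kGf27_3r pGf27_3 kGf27_3m rfl
  have h5 := ppI_stepV (k' := 5) (q := (0xa, 0x1013638312b352412331e0c2e190a281710231d022c1a072620050f0914)) h4 rfl kGf27_4r pGf27_4 kGf27_4m rfl
  have h6 := ppI_stepV (k' := 6) (q := (0xe, 0x10149463c36514e4244302a4c1e164a2412401c0c3e100634190a3a2e0e23380232281a2c2005260914)) h5 rfl kGf27_5r pGf27_5 kGf27_5m rfl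
  have h7 := ppI_stepV (k' := 7) (q := (0xa, 0x136233a312b35241f330c062e39022d130801100b1d160528151a260f20)) h6 rfl kGf27_6r pGf27_6 kGf27_6m rfl
  exact h7

theorem zGf27 : (!false || allK QGf26 (fun _ => true) (nzq CBGf)
  0) = true := by decide +kernel

theorem mGf27A : (Nat.ble 2 1 || memI QGf26 22 1 257) = true := by decide +kernel

theorem mGf27B : (Nat.ble 1 1 || memI QGf26 0 1 1) = true := by decide +kernel

/-- **the phase 27** -/
theorem cGf27 : Dj5 CAGf CBGf PLGf (dnL QGf27) :=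
  Dj5.rawP vokAGf vokBGf mclAGf mclBGf mkoGf wfpGf cGf26 mGf27A mGf27B (by norm_num) tGf27 kGf27 lenGf zGf27 bGf27

end EF18
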