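import Pool.Agent.Lib.MP_ef18bd_co.G5.P28

/-!
# Phase 28: roots
-/

namespace EF18

set_option linter.defProp false

def oGf28_0_0 : rGf28 0 5
  0x504c4844403c3834302c2824201c180c101400040b2891740008100c14545c5874706c64686044403c4c504b289160504c4844403c3834302c2824201c180c101400040b289170504c4844403c2c242838303410140c1c2018080007289170504c4844403c3834302c2824201c1814100c08040328917 = true := by
  decide +kernel

end EF18
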