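import Pool.Agent.Lib.MP_ef18bd_co.G5.C27
import Pool.Agent.Lib.MP_ef18bd_co.G5.P28x0
import Pool.Agent.Lib.MP_ef18bd_co.G5.P28x1
import Pool.Agent.Lib.MP_ef18bd_co.G5.P28x2
import Pool.Agent.Lib.MP_ef18bd_co.G5.P28x3
import Pool.Agent.Lib.MP_ef18bd_co.G5.P28j0
import Pool.Agent.Lib.MP_ef18bd_co.G5.P28r0
import Pool.Agent.Lib.MP_ef18bd_co.G5.P28k0

/-!
# Phase 28
-/

namespace EF18

theorem aGf28 : ∀ i < 3235, Val (stD (dnL QGf27) SGf28) (prc BGf28 i) := by
  have j0 := ents_zeroF QGf27 SGf28 BGf28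
  have j1 := ents_dnF (k := 100) j0 jGf28_0 rfl
  have j2 := ents_dnF (k := 200) j1 jGf28_1 rfl
  have j3 := ents_dnF (k := 300) j2 jGf28_2 rfl
  have j4 := ents_dnF (k := 400) j3 jGf28_3 rfl
  have j5 := ents_dnF (k := 500) j4 jGf28_4 rfl
  have j6 := ents_dnF (k := 600) j5 jGf28_5 rfl
  have j7 := ents_dnF (k := 700) j6 jGf28_6 rfl
  have j8 := ents_dnF (k := 800) j7 jGf28_7 rfl
  have j9 := ents_dnF (k := 900) j8 jGf28_8 rfl
  have j10 := ents_dnF (k := 1000) j9 jGf28_9 rfl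
  have j11 := ents_dnF (k := 1100) j10 jGf28_10 rfl
  have j12 := ents_dnF (k := 1200) j11 jGf28_11 rfl
  have j13 := ents_dnF (k := 1300) j12 jGf28_12 rfl
  have j14 := ents_dnF (k := 1400) j13 jGf28_13 rfl
  have j15 := ents_dnF (k := 1500) j14 jGf28_14 rfl
  have j16 := ents_dnF (k := 1600) j15 jGf28_15 rfl
  have j17 := ents_dnF (k := 1700) j16 jGf28_16 rfl
  have j18 := ents_dnF (k := 1800) j17 jGf28_17 rfl
  have j19 := ents_dnF (k := 1900) j18 jGf28_18 rfl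
  have j20 := ents_dnF (k := 2000) j19 jGf28_19 rfl
  have j21 := ents_dnF (k := 2043) j20 jGf28_20 rfl
  have h0 := j21
  have h1 := wGf28_0_0 h0
  have h2 := wGf28_0_1 h1
  have h3 := wGf28_0_2 h2
  have h4 := wGf28_0_3 h3
  have h5 := wGf28_0_4 h4
  have h6 := wGf28_0_5 h5
  have h7 := wGf28_0_6 h6
  have h8 := wGf28_0_7 h7
  have h9 := wGf28_0_8 h8
  have h10 := wGf28_0_9 h9
  have h11 := wGf28_0_10 h10
  have h12 := wGf28_0_11 h11
  have h13 := wGf28_0_12 h12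
  have h14 := wGf28_0_13 h13
  have h15 := wGf28_0_14 h14
  have h16 := wGf28_0_15 h15
  have h17 := wGf28_0_16 h16
  have h18 := wGf28_1_0 h17
  have h19 := wGf28_1_1 h18
  have h20 := wGf28_1_2 h19
  have h21 := wGf28_1_3 h20
  have h22 := wGf28_1_4 h21
  have h23 := wGf28_1_5 h22
  have h24 := wGf28_1_6 h23
  have h25 := wGf28_1_7 h24
  have h26 := wGf28_1_8 h25
  have h27 := wGf28_1_9 h26
  have h28 := wGf28_1_10 h27
  have h29 := wGf28_1_11 h28
  have h30 := wGf28_1_12 h29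
  have h31 := wGf28_1_13 h30
  have h32 := wGf28_1_14 h31
  have h33 := wGf28_1_15 h32
  have h34 := wGf28_1_16 h33
  have h35 := wGf28_2_0 h34
  have h36 := wGf28_2_1 h35
  have h37 := wGf28_2_2 h36
  have h38 := wGf28_2_3 h37
  have h39 := wGf28_2_4 h38
  have h40 := wGf28_2_5 h39
  have h41 := wGf28_2_6 h40
  have h42 := wGf28_2_7 h41
  have h43 := wGf28_2_8 h42
  have h44 := wGf28_2_9 h43
  have h45 := wGf28_2_10 h44
  have h46 := wGf28_2_11 h45
  have h47 := wGf28_2_12 h46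
  have h48 := wGf28_3_0 h47
  have h49 := wGf28_3_1 h48
  have h50 := wGf28_3_2 h49
  exact h50

theorem bGf28 : RtI (ok5 (okB 1 true)) (stD (dnL QGf27) SGf28) RBGf28 5 := by
  have h0 := rtI_zero (ok5 (okB 1 true)) (stD (dnL QGf27) SGf28) RBGf28
  have h1 := uGf28 aGf28 h0 oGf28_0_0 (show 0 + 5 = 5 from rfl)
  exact h1

theorem tGf28 : (TGf28.all okJ) = true := by decide +kernel

theorem pGf28_0 : CkP QGf27 (6, 0x19130c17100b251f06231c05201b03140f09)
    [2, 0, 0, 0, 0, 0, 0] 64 := by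
  have h0 := ckP_zero QGf27 (6, 0x19130c17100b251f06231c05201b03140f09)
    [2, 0, 0, 0, 0, 0, 0]
  have h1 := ckP_step (k := 63) h0 kGf28_0c0 rfl
  have h2 := ckP_step (k := 64) h1 kGf28_0c1 rfl
  exact h2

theorem pGf28_1 : CkP QGf27 (6, 0x19120d16110b251e07221d05211b03150f09)
    [4, 3, 0, 0, 0, 0, 0, 0] 128 := by
  have h0 := ckP_zero QGf27 (6, 0x19120d16110b251e07221d05211b03150f09)
    [4, 3, 0, 0, 0, 0, 0, 0]
  have h1 := ckP_step (k := 63) h0 kGf28_1c0 rfl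
  have h2 := ckP_step (k := 64) h1 kGf28_1c1 rfl
  have h3 := ckP_step (k := 95) h2 kGf28_1c2 rfl
  have h4 := ckP_step (k := 96) h3 kGf28_1c3 rfl
  have h5 := ckP_step (k := 111) h4 kGf28_1c4 rfl
  have h6 := ckP_step (k := 112) h5 kGf28_1c5 rfl
  have h7 := ckP_step (k := 119) h6 kGf28_1c6 rfl
  have h8 := ckP_step (k := 120) h7 kGf28_1c7 rfl
  have h9 := ckP_step (k := 123) h8 kGf28_1c8 rfl
  have h10 := ckP_step (k := 124) h9 kGf28_1c9 rfl
  have h11 := ckP_step (k := 125) h10 kGf28_1c10 rfl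
  have h12 := ckP_step (k := 126) h11 kGf28_1c11 rfl
  have h13 := ckP_step (k := 127) h12 kGf28_1c12 rfl
  have h14 := ckP_step (k := 128) h13 kGf28_1c13 rfl
  exact h14

theorem pGf28_2 : CkP QGf27 (6, 0x1010601130c01100b1d16051a1503200f09)
    [3, 2, 2, 1, 0] 16 := by
  have h0 := ckP_zero QGf27 (6, 0x1010601130c01100b1d16051a1503200f09)
    [3, 2, 2, 1, 0]
  have h1 := ckP_step (k := 16) h0 kGf28_2c0 rfl
  exact h1

theorem pGf28_3 : CkP QGf27 (9, 0x12a24010107341712321d0c01231101290b261b042015022d0e08)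
    [4, 3, 2, 2, 0, 0] 32 := by
  have h0 := ckP_zero QGf27 (9, 0x12a24010107341712321d0c01231101290b261b042015022d0e08)
    [4, 3, 2, 2, 0, 0]
  have h1 := ckP_step (k := 31) h0 kGf28_3c0 rfl
  have h2 := ckP_step (k := 32) h1 kGf28_3c1 rfl
  exact h2

theorem pGf28_4 : CkP QGf27 (0xa, 0x1013638312b352412331e0c2e190a281710231d022c1a072620050f0914)
    [4, 3, 0, 0, 0, 0, 0] 64 := by
  have h0 := ckP_zero QGf27 (0xa, 0x1013638312b352412331e0c2e190a281710231d022c1a072620050f0914)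
    [4, 3, 0, 0, 0, 0, 0]
  have h1 := ckP_step (k := 47) h0 kGf28_4c0 rfl
  have h2 := ckP_step (k := 63) h1 kGf28_4c1 rfl
  have h3 := ckP_step (k := 64) h2 kGf28_4c2 rfl
  exact h3

theorem pGf28_5 : CkP QGf27 (0xe, 0x10149463c36514e4244302a4c1e164a2412401c0c3e100634190a3a2e0e23380232281a2c2005260914)
    [0, 0, 0, 0] 8 := by
  have h0 := ckP_zero QGf27 (0xe, 0x10149463c36514e4244302a4c1e164a2412401c0c3e100634190a3a2e0e23380232281a2c2005260914)
    [0, 0, 0, 0]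
  have h1 := ckP_step (k := 8) h0 kGf28_5c0 rfl
  exact h1

theorem pGf28_6 : CkP QGf27 (0xa, 0x136233a312b35241f330c062e39022d130801100b1d160528151a260f20)
    [7, 6, 5, 4, 0, 0, 0, 0] 128 := by
  have h0 := ckP_zero QGf27 (0xa, 0x136233a312b35241f330c062e39022d130801100b1d160528151a260f20)
    [7, 6, 5, 4, 0, 0, 0, 0]
  have h1 := ckP_step (k := 128) h0 kGf28_6c0 rfl
  exact h1

theorem kGf28 : PpI QGf27 6 TGf28 CAGf CBGf 7 := by
  have h0 := ppI_zero QGf27 6 TGf28 CAGf CBGf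
  have h1 := ppI_stepV (k' := 1) (q := (6, 0x19130c17100b251f06231c05201b03140f09)) h0 rfl kGf28_0r pGf28_0 kGf28_0m rfl
  have h2 := ppI_stepV (k' := 2) (q := (6, 0x19120d16110b251e07221d05211b03150f09)) h1 rfl kGf28_1r pGf28_1 kGf28_1m rfl
  have h3 := ppI_stepV (k' := 3) (q := (6, 0x1010601130c01100b1d16051a1503200f09)) h2 rfl kGf28_2r pGf28_2 kGf28_2m rfl
  have h4 := ppI_stepV (k' := 4) (q := (9, 0x12a24010107341712321d0c01231101290b261b042015022d0e08)) h3 rfl kGf28_3r pGf28_3 kGf28_3m rfl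
  have h5 := ppI_stepV (k' := 5) (q := (0xa, 0x1013638312b352412331e0c2e190a281710231d022c1a072620050f0914)) h4 rfl kGf28_4r pGf28_4 kGf28_4m rfl
  have h6 := ppI_stepV (k' := 6) (q := (0xe, 0x10149463c36514e4244302a4c1e164a2412401c0c3e100634190a3a2e0e23380232281a2c2005260914)) h5 rfl kGf28_5r pGf28_5 kGf28_5m rfl
  have h7 := ppI_stepV (k' := 7) (q := (0xa, 0x136233a312b35241f330c062e39022d130801100b1d160528151a260f20)) h6 rfl kGf28_6r pGf28_6 kGf28_6m rfl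
  exact h7

theorem zGf28 : (!false || allK QGf27 (fun _ => true) (nzq CBGf)
  0) = true := by decide +kernel

theorem mGf28A : (Nat.ble 2 1 || memI QGf27 23 1 257) = true := by decide +kernel

theorem mGf28B : (Nat.ble 1 1 || memI QGf27 0 1 1) = true := by decide +kernel

/-- **the phase 28** -/
theorem cGf28 : Dj5 CAGf CBGf PLGf (dnL QGf28) :=
  Dj5.rawP vokAGf vokBGf mclAGf mclBGf mkoGf wfpGf cGf27 mGf28A mGf28B (by norm_num) tGf28 kGf28 lenGf zGf28 bGf28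

end EF18
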