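import Pool.Agent.Lib.MP_ef18bd_co.G5.P29

/-!
# Phase 29: closed patterns
-/

namespace EF18

set_option linter.defProp false

def jGf29_0 : j0F QGf28 BGf29 62 0
  0x2c10002410001c1000101000081000041000001000ac20009820009420008c20008420008020007c20007820007420006820006020005420005020004420004020003420002820002420001c20009030008430005c300034300000700488800a049009fc9003549003089002049001d89000e09000dc9000d49000cc9000c89000bc9000b49000b09000ac9000a8900074900018900048b00040b00008b0039110000d000010f00c95300bdd3000494013b56000116 = true := by
  decide +kernel

end EF18
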