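import Pool.Agent.Lib.MP_ef18bd_co.G5.C28
import Pool.Agent.Lib.MP_ef18bd_co.G5.P29x0
import Pool.Agent.Lib.MP_ef18bd_co.G5.P29x1
import Pool.Agent.Lib.MP_ef18bd_co.G5.P29x2
import Pool.Agent.Lib.MP_ef18bd_co.G5.P29x3
import Pool.Agent.Lib.MP_ef18bd_co.G5.P29x4
import Pool.Agent.Lib.MP_ef18bd_co.G5.P29x5
import Pool.Agent.Lib.MP_ef18bd_co.G5.P29x6
import Pool.Agent.Lib.MP_ef18bd_co.G5.P29x7
import Pool.Agent.Lib.MP_ef18bd_co.G5.P29x8
import Pool.Agent.Lib.MP_ef18bd_co.G5.P29x9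
import Pool.Agent.Lib.MP_ef18bd_co.G5.P29x10
import Pool.Agent.Lib.MP_ef18bd_co.G5.P29j0
import Pool.Agent.Lib.MP_ef18bd_co.G5.P29r0
import Pool.Agent.Lib.MP_ef18bd_co.G5.P29k0

/-!
# Phase 29
-/

namespace EF18

theorem aGf29 : ∀ i < 4000, Val (stD (dnL QGf28) SGf29) (prc BGf29 i) := by
  have j0 := ents_zeroF QGf28 SGf29 BGf29
  have j1 := ents_dnF (k := 62) j0 jGf29_0 rfl
  have h0 := j1
  have h1 := wGf29_0_0 h0
  have h2 := wGf29_0_1 h1
  have h3 := wGf29_0_2 h2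
  have h4 := wGf29_0_3 h3
  have h5 := wGf29_0_4 h4
  have h6 := wGf29_0_5 h5
  have h7 := wGf29_0_6 h6
  have h8 := wGf29_0_7 h7
  have h9 := wGf29_0_8 h8
  have h10 := wGf29_0_9 h9
  have h11 := wGf29_0_10 h10
  have h12 := wGf29_0_11 h11
  have h13 := wGf29_0_12 h12
  have h14 := wGf29_0_13 h13
  have h15 := wGf29_0_14 h14
  have h16 := wGf29_1_0 h15
  have h17 := wGf29_1_1 h16
  have h18 := wGf29_1_2 h17
  have h19 := wGf29_1_3 h18
  have h20 := wGf29_1_4 h19
  have h21 := wGf29_1_5 h20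
  have h22 := wGf29_1_6 h21
  have h23 := wGf29_1_7 h22
  have h24 := wGf29_1_8 h23
  have h25 := wGf29_1_9 h24
  have h26 := wGf29_1_10 h25
  have h27 := wGf29_1_11 h26
  have h28 := wGf29_1_12 h27
  have h29 := wGf29_1_13 h28
  have h30 := wGf29_1_14 h29
  have h31 := wGf29_1_15 h30
  have h32 := wGf29_2_0 h31
  have h33 := wGf29_2_1 h32
  have h34 := wGf29_2_2 h33
  have h35 := wGf29_2_3 h34
  have h36 := wGf29_2_4 h35
  have h37 := wGf29_2_5 h36
  have h38 := wGf29_2_6 h37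
  have h39 := wGf29_2_7 h38
  have h40 := wGf29_2_8 h39
  have h41 := wGf29_2_9 h40
  have h42 := wGf29_2_10 h41
  have h43 := wGf29_2_11 h42
  have h44 := wGf29_2_12 h43
  have h45 := wGf29_2_13 h44
  have h46 := wGf29_2_14 h45
  have h47 := wGf29_2_15 h46
  have h48 := wGf29_3_0 h47
  have h49 := wGf29_3_1 h48
  have h50 := wGf29_3_2 h49
  have h51 := wGf29_3_3 h50
  have h52 := wGf29_3_4 h51
  have h53 := wGf29_3_5 h52
  have h54 := wGf29_3_6 h53
  have h55 := wGf29_3_7 h54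
  have h56 := wGf29_3_8 h55
  have h57 := wGf29_3_9 h56
  have h58 := wGf29_3_10 h57
  have h59 := wGf29_3_11 h58
  have h60 := wGf29_3_12 h59
  have h61 := wGf29_3_13 h60
  have h62 := wGf29_3_14 h61
  have h63 := wGf29_4_0 h62
  have h64 := wGf29_4_1 h63
  have h65 := wGf29_4_2 h64
  have h66 := wGf29_4_3 h65
  have h67 := wGf29_4_4 h66
  have h68 := wGf29_4_5 h67
  have h69 := wGf29_4_6 h68
  have h70 := wGf29_4_7 h69
  have h71 := wGf29_4_8 h70
  have h72 := wGf29_4_9 h71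
  have h73 := wGf29_4_10 h72
  have h74 := wGf29_4_11 h73
  have h75 := wGf29_4_12 h74
  have h76 := wGf29_4_13 h75
  have h77 := wGf29_4_14 h76
  have h78 := wGf29_4_15 h77
  have h79 := wGf29_5_0 h78
  have h80 := wGf29_5_1 h79
  have h81 := wGf29_5_2 h80
  have h82 := wGf29_5_3 h81
  have h83 := wGf29_5_4 h82
  have h84 := wGf29_5_5 h83
  have h85 := wGf29_5_6 h84
  have h86 := wGf29_5_7 h85
  have h87 := wGf29_5_8 h86
  have h88 := wGf29_5_9 h87
  have h89 := wGf29_5_10 h88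
  have h90 := wGf29_5_11 h89
  have h91 := wGf29_5_12 h90
  have h92 := wGf29_5_13 h91
  have h93 := wGf29_6_0 h92
  have h94 := wGf29_6_1 h93
  have h95 := wGf29_6_2 h94
  have h96 := wGf29_6_3 h95
  have h97 := wGf29_6_4 h96
  have h98 := wGf29_6_5 h97
  have h99 := wGf29_6_6 h98
  have h100 := wGf29_6_7 h99
  have h101 := wGf29_6_8 h100
  have h102 := wGf29_6_9 h101
  have h103 := wGf29_6_10 h102
  have h104 := wGf29_6_11 h103
  have h105 := wGf29_6_12 h104
  have h106 := wGf29_6_13 h105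
  have h107 := wGf29_6_14 h106
  have h108 := wGf29_7_0 h107
  have h109 := wGf29_7_1 h108
  have h110 := wGf29_7_2 h109
  have h111 := wGf29_7_3 h110
  have h112 := wGf29_7_4 h111
  have h113 := wGf29_7_5 h112
  have h114 := wGf29_7_6 h113
  have h115 := wGf29_7_7 h114
  have h116 := wGf29_7_8 h115
  have h117 := wGf29_7_9 h116
  have h118 := wGf29_7_10 h117
  have h119 := wGf29_8_0 h118
  have h120 := wGf29_8_1 h119
  have h121 := wGf29_8_2 h120
  have h122 := wGf29_8_3 h121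
  have h123 := wGf29_8_4 h122
  have h124 := wGf29_8_5 h123
  have h125 := wGf29_8_6 h124
  have h126 := wGf29_8_7 h125
  have h127 := wGf29_8_8 h126
  have h128 := wGf29_8_9 h127
  have h129 := wGf29_8_10 h128
  have h130 := wGf29_8_11 h129
  have h131 := wGf29_8_12 h130
  have h132 := wGf29_8_13 h131
  have h133 := wGf29_9_0 h132
  have h134 := wGf29_9_1 h133
  have h135 := wGf29_9_2 h134
  have h136 := wGf29_9_3 h135
  have h137 := wGf29_9_4 h136
  have h138 := wGf29_9_5 h137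
  have h139 := wGf29_9_6 h138
  have h140 := wGf29_9_7 h139
  have h141 := wGf29_9_8 h140
  have h142 := wGf29_9_9 h141
  have h143 := wGf29_9_10 h142
  have h144 := wGf29_9_11 h143
  have h145 := wGf29_9_12 h144
  have h146 := wGf29_9_13 h145
  have h147 := wGf29_9_14 h146
  have h148 := wGf29_10_0 h147
  have h149 := wGf29_10_1 h148
  have h150 := wGf29_10_2 h149
  have h151 := wGf29_10_3 h150
  have h152 := wGf29_10_4 h151
  have h153 := wGf29_10_5 h152
  have h154 := wGf29_10_6 h153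
  have h155 := wGf29_10_7 h154
  have h156 := wGf29_10_8 h155
  have h157 := wGf29_10_9 h156
  have h158 := wGf29_10_10 h157
  have h159 := wGf29_10_11 h158
  have h160 := wGf29_10_12 h159
  have h161 := wGf29_10_13 h160
  have h162 := wGf29_10_14 h161
  have h163 := wGf29_10_15 h162
  exact h163

theorem bGf29 : RtI (ok5 (okB 1 true)) (stD (dnL QGf28) SGf29) RBGf29 118 := by
  have h0 := rtI_zero (ok5 (okB 1 true)) (stD (dnL QGf28) SGf29) RBGf29
  have h1 := uGf29 aGf29 h0 oGf29_0_0 (show 0 + 25 = 25 from rfl)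
  have h2 := uGf29 aGf29 h1 oGf29_0_1 (show 25 + 25 = 50 from rfl)
  have h3 := uGf29 aGf29 h2 oGf29_0_2 (show 50 + 25 = 75 from rfl)
  have h4 := uGf29 aGf29 h3 oGf29_0_3 (show 75 + 25 = 100 from rfl)
  have h5 := uGf29 aGf29 h4 oGf29_0_4 (show 100 + 18 = 118 from rfl)
  exact h5

theorem tGf29 : (TGf29.all okJ) = true := by decide +kernel

theorem pGf29_0 : CkP QGf28 (6, 0x19130c17100b251f06231c05201b03140f09)
    [2, 0, 0, 0, 0, 0, 0] 64 := by
  have h0 := ckP_zero QGf28 (6, 0x19130c17100b251f06231c05201b03140f09)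
    [2, 0, 0, 0, 0, 0, 0]
  have h1 := ckP_step (k := 63) h0 kGf29_0c0 rfl
  have h2 := ckP_step (k := 64) h1 kGf29_0c1 rfl
  exact h2

theorem pGf29_1 : CkP QGf28 (6, 0x19120d16110b251e07221d05211b03150f09)
    [4, 3, 0, 0, 0, 0, 0, 0] 128 := by
  have h0 := ckP_zero QGf28 (6, 0x19120d16110b251e07221d05211b03150f09)
    [4, 3, 0, 0, 0, 0, 0, 0]
  have h1 := ckP_step (k := 63) h0 kGf29_1c0 rfl
  have h2 := ckP_step (k := 64) h1 kGf29_1c1 rfl
  have h3 := ckP_step (k := 95) h2 kGf29_1c2 rfl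
  have h4 := ckP_step (k := 96) h3 kGf29_1c3 rfl
  have h5 := ckP_step (k := 111) h4 kGf29_1c4 rfl
  have h6 := ckP_step (k := 112) h5 kGf29_1c5 rfl
  have h7 := ckP_step (k := 119) h6 kGf29_1c6 rfl
  have h8 := ckP_step (k := 120) h7 kGf29_1c7 rfl
  have h9 := ckP_step (k := 123) h8 kGf29_1c8 rfl
  have h10 := ckP_step (k := 124) h9 kGf29_1c9 rfl
  have h11 := ckP_step (k := 125) h10 kGf29_1c10 rfl
  have h12 := ckP_step (k := 126) h11 kGf29_1c11 rfl
  have h13 := ckP_step (k := 127) h12 kGf29_1c12 rfl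
  have h14 := ckP_step (k := 128) h13 kGf29_1c13 rfl
  exact h14

theorem pGf29_2 : CkP QGf28 (6, 0x1010601130c01100b1d16051a1503200f09)
    [3, 2, 2, 0, 0] 16 := by
  have h0 := ckP_zero QGf28 (6, 0x1010601130c01100b1d16051a1503200f09)
    [3, 2, 2, 0, 0]
  have h1 := ckP_step (k := 16) h0 kGf29_2c0 rfl
  exact h1

theorem pGf29_3 : CkP QGf28 (9, 0x12a24010107341712321d0c01231101290b261b042015022d0e08)
    [4, 3, 2, 2, 0, 0] 32 := by
  have h0 := ckP_zero QGf28 (9, 0x12a24010107341712321d0c01231101290b261b042015022d0e08)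
    [4, 3, 2, 2, 0, 0]
  have h1 := ckP_step (k := 31) h0 kGf29_3c0 rfl
  have h2 := ckP_step (k := 32) h1 kGf29_3c1 rfl
  exact h2

theorem pGf29_4 : CkP QGf28 (0xa, 0x1013638312b352412331e0c2e190a281710231d022c1a072620050f0914)
    [4, 3, 0, 0, 0, 0, 0] 64 := by
  have h0 := ckP_zero QGf28 (0xa, 0x1013638312b352412331e0c2e190a281710231d022c1a072620050f0914)
    [4, 3, 0, 0, 0, 0, 0]
  have h1 := ckP_step (k := 47) h0 kGf29_4c0 rfl
  have h2 := ckP_step (k := 63) h1 kGf29_4c1 rfl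
  have h3 := ckP_step (k := 64) h2 kGf29_4c2 rfl
  exact h3

theorem pGf29_5 : CkP QGf28 (0xe, 0x10149463c36514e4244302a4c1e164a2412401c0c3e100634190a3a2e0e23380232281a2c2005260914)
    [0, 0, 0, 0] 8 := by
  have h0 := ckP_zero QGf28 (0xe, 0x10149463c36514e4244302a4c1e164a2412401c0c3e100634190a3a2e0e23380232281a2c2005260914)
    [0, 0, 0, 0]
  have h1 := ckP_step (k := 8) h0 kGf29_5c0 rfl
  exact h1

theorem pGf29_6 : CkP QGf28 (0xa, 0x136233a312b35241f330c062e39022d130801100b1d160528151a260f20)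
    [7, 6, 5, 4, 0, 0, 0, 0] 128 := by
  have h0 := ckP_zero QGf28 (0xa, 0x136233a312b35241f330c062e39022d130801100b1d160528151a260f20)
    [7, 6, 5, 4, 0, 0, 0, 0]
  have h1 := ckP_step (k := 128) h0 kGf29_6c0 rfl
  exact h1

theorem kGf29 : PpI QGf28 6 TGf29 CAGf CBGf 7 := by
  have h0 := ppI_zero QGf28 6 TGf29 CAGf CBGf
  have h1 := ppI_stepV (k' := 1) (q := (6, 0x19130c17100b251f06231c05201b03140f09)) h0 rfl kGf29_0r pGf29_0 kGf29_0m rfl
  have h2 := ppI_stepV (k' := 2) (q := (6, 0x19120d16110b251e07221d05211b03150f09)) h1 rfl kGf29_1r pGf29_1 kGf29_1m rfl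
  have h3 := ppI_stepV (k' := 3) (q := (6, 0x1010601130c01100b1d16051a1503200f09)) h2 rfl kGf29_2r pGf29_2 kGf29_2m rfl
  have h4 := ppI_stepV (k' := 4) (q := (9, 0x12a24010107341712321d0c01231101290b261b042015022d0e08)) h3 rfl kGf29_3r pGf29_3 kGf29_3m rfl
  have h5 := ppI_stepV (k' := 5) (q := (0xa, 0x1013638312b352412331e0c2e190a281710231d022c1a072620050f0914)) h4 rfl kGf29_4r pGf29_4 kGf29_4m rfl
  have h6 := ppI_stepV (k' := 6) (q := (0xe, 0x10149463c36514e4244302a4c1e164a2412401c0c3e100634190a3a2e0e23380232281a2c2005260914)) h5 rfl kGf29_5r pGf29_5 kGf29_5m rfl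
  have h7 := ppI_stepV (k' := 7) (q := (0xa, 0x136233a312b35241f330c062e39022d130801100b1d160528151a260f20)) h6 rfl kGf29_6r pGf29_6 kGf29_6m rfl
  exact h7

theorem zGf29 : (!false || allK QGf28 (fun _ => true) (nzq CBGf)
  0) = true := by decide +kernel

theorem mGf29A : (Nat.ble 2 1 || memI QGf28 24 1 257) = true := by decide +kernel

theorem mGf29B : (Nat.ble 1 1 || memI QGf28 0 1 1) = true := by decide +kernel

/-- **the phase 29** -/
theorem cGf29 : Dj5 CAGf CBGf PLGf (dnL QGf29) :=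
  Dj5.rawP vokAGf vokBGf mclAGf mclBGf mkoGf wfpGf cGf28 mGf29A mGf29B (by norm_num) tGf29 kGf29 lenGf zGf29 bGf29

end EF18
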