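import Pool.Agent.Lib.MP_ef18bd_co.G5.C2
import Pool.Agent.Lib.MP_ef18bd_co.G5.P3x0
import Pool.Agent.Lib.MP_ef18bd_co.G5.P3x1
import Pool.Agent.Lib.MP_ef18bd_co.G5.P3x2
import Pool.Agent.Lib.MP_ef18bd_co.G5.P3x3
import Pool.Agent.Lib.MP_ef18bd_co.G5.P3j0
import Pool.Agent.Lib.MP_ef18bd_co.G5.P3r0
import Pool.Agent.Lib.MP_ef18bd_co.G5.P3k0

/-!
# Phase 3
-/

namespace EF18

theorem aGf3 : ∀ i < 3987, Val (stD (dnL QGf2) SGf3) (prc BGf3 i) := by
  have j0 := ents_zeroF QGf2 SGf3 BGf3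
  have j1 := ents_dnF (k := 100) j0 jGf3_0 rfl
  have j2 := ents_dnF (k := 200) j1 jGf3_1 rfl
  have j3 := ents_dnF (k := 300) j2 jGf3_2 rfl
  have j4 := ents_dnF (k := 400) j3 jGf3_3 rfl
  have j5 := ents_dnF (k := 500) j4 jGf3_4 rfl
  have j6 := ents_dnF (k := 600) j5 jGf3_5 rfl
  have j7 := ents_dnF (k := 700) j6 jGf3_6 rfl
  have j8 := ents_dnF (k := 800) j7 jGf3_7 rfl
  have j9 := ents_dnF (k := 900) j8 jGf3_8 rfl
  have j10 := ents_dnF (k := 1000) j9 jGf3_9 rfl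
  have j11 := ents_dnF (k := 1052) j10 jGf3_10 rfl
  have h0 := j11
  have h1 := wGf3_0_0 h0
  have h2 := wGf3_0_1 h1
  have h3 := wGf3_0_2 h2
  have h4 := wGf3_0_3 h3
  have h5 := wGf3_0_4 h4
  have h6 := wGf3_0_5 h5
  have h7 := wGf3_0_6 h6
  have h8 := wGf3_0_7 h7
  have h9 := wGf3_0_8 h8
  have h10 := wGf3_0_9 h9
  have h11 := wGf3_0_10 h10
  have h12 := wGf3_0_11 h11
  have h13 := wGf3_0_12 h12
  have h14 := wGf3_0_13 h13
  have h15 := wGf3_0_14 h14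
  have h16 := wGf3_0_15 h15
  have h17 := wGf3_0_16 h16
  have h18 := wGf3_0_17 h17
  have h19 := wGf3_0_18 h18
  have h20 := wGf3_0_19 h19
  have h21 := wGf3_0_20 h20
  have h22 := wGf3_0_21 h21
  have h23 := wGf3_0_22 h22
  have h24 := wGf3_0_23 h23
  have h25 := wGf3_0_24 h24
  have h26 := wGf3_0_25 h25
  have h27 := wGf3_0_26 h26
  have h28 := wGf3_0_27 h27
  have h29 := wGf3_0_28 h28
  have h30 := wGf3_0_29 h29
  have h31 := wGf3_0_30 h30
  have h32 := wGf3_0_31 h31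
  have h33 := wGf3_0_32 h32
  have h34 := wGf3_0_33 h33
  have h35 := wGf3_0_34 h34
  have h36 := wGf3_0_35 h35
  have h37 := wGf3_0_36 h36
  have h38 := wGf3_1_0 h37
  have h39 := wGf3_1_1 h38
  have h40 := wGf3_1_2 h39
  have h41 := wGf3_1_3 h40
  have h42 := wGf3_1_4 h41
  have h43 := wGf3_1_5 h42
  have h44 := wGf3_1_6 h43
  have h45 := wGf3_1_7 h44
  have h46 := wGf3_1_8 h45
  have h47 := wGf3_1_9 h46
  have h48 := wGf3_1_10 h47
  have h49 := wGf3_1_11 h48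
  have h50 := wGf3_1_12 h49
  have h51 := wGf3_1_13 h50
  have h52 := wGf3_1_14 h51
  have h53 := wGf3_1_15 h52
  have h54 := wGf3_1_16 h53
  have h55 := wGf3_1_17 h54
  have h56 := wGf3_1_18 h55
  have h57 := wGf3_1_19 h56
  have h58 := wGf3_1_20 h57
  have h59 := wGf3_1_21 h58
  have h60 := wGf3_1_22 h59
  have h61 := wGf3_1_23 h60
  have h62 := wGf3_1_24 h61
  have h63 := wGf3_1_25 h62
  have h64 := wGf3_1_26 h63
  have h65 := wGf3_1_27 h64
  have h66 := wGf3_1_28 h65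
  have h67 := wGf3_1_29 h66
  have h68 := wGf3_1_30 h67
  have h69 := wGf3_1_31 h68
  have h70 := wGf3_1_32 h69
  have h71 := wGf3_1_33 h70
  have h72 := wGf3_1_34 h71
  have h73 := wGf3_1_35 h72
  have h74 := wGf3_1_36 h73
  have h75 := wGf3_1_37 h74
  have h76 := wGf3_2_0 h75
  have h77 := wGf3_2_1 h76
  have h78 := wGf3_2_2 h77
  have h79 := wGf3_2_3 h78
  have h80 := wGf3_2_4 h79
  have h81 := wGf3_2_5 h80
  have h82 := wGf3_2_6 h81
  have h83 := wGf3_2_7 h82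
  have h84 := wGf3_2_8 h83
  have h85 := wGf3_2_9 h84
  have h86 := wGf3_2_10 h85
  have h87 := wGf3_2_11 h86
  have h88 := wGf3_2_12 h87
  have h89 := wGf3_2_13 h88
  have h90 := wGf3_2_14 h89
  have h91 := wGf3_2_15 h90
  have h92 := wGf3_2_16 h91
  have h93 := wGf3_2_17 h92
  have h94 := wGf3_2_18 h93
  have h95 := wGf3_2_19 h94
  have h96 := wGf3_2_20 h95
  have h97 := wGf3_2_21 h96
  have h98 := wGf3_2_22 h97
  have h99 := wGf3_2_23 h98
  have h100 := wGf3_2_24 h99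
  have h101 := wGf3_2_25 h100
  have h102 := wGf3_2_26 h101
  have h103 := wGf3_2_27 h102
  have h104 := wGf3_2_28 h103
  have h105 := wGf3_2_29 h104
  have h106 := wGf3_2_30 h105
  have h107 := wGf3_2_31 h106
  have h108 := wGf3_2_32 h107
  have h109 := wGf3_2_33 h108
  have h110 := wGf3_2_34 h109
  have h111 := wGf3_2_35 h110
  have h112 := wGf3_2_36 h111
  have h113 := wGf3_2_37 h112
  have h114 := wGf3_2_38 h113
  have h115 := wGf3_2_39 h114
  have h116 := wGf3_2_40 h115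
  have h117 := wGf3_2_41 h116
  have h118 := wGf3_3_0 h117
  have h119 := wGf3_3_1 h118
  exact h119

theorem bGf3 : RtI (ok5 (okB 2 true)) (stD (dnL QGf2) SGf3) RBGf3 629 := by
  have h0 := rtI_zero (ok5 (okB 2 true)) (stD (dnL QGf2) SGf3) RBGf3
  have h1 := uGf3 aGf3 h0 oGf3_0_0 (show 0 + 25 = 25 from rfl)
  have h2 := uGf3 aGf3 h1 oGf3_0_1 (show 25 + 25 = 50 from rfl)
  have h3 := uGf3 aGf3 h2 oGf3_0_2 (show 50 + 25 = 75 from rfl)
  have h4 := uGf3 aGf3 h3 oGf3_0_3 (show 75 + 25 = 100 from rfl)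
  have h5 := uGf3 aGf3 h4 oGf3_0_4 (show 100 + 25 = 125 from rfl)
  have h6 := uGf3 aGf3 h5 oGf3_0_5 (show 125 + 25 = 150 from rfl)
  have h7 := uGf3 aGf3 h6 oGf3_0_6 (show 150 + 25 = 175 from rfl)
  have h8 := uGf3 aGf3 h7 oGf3_0_7 (show 175 + 25 = 200 from rfl)
  have h9 := uGf3 aGf3 h8 oGf3_0_8 (show 200 + 25 = 225 from rfl)
  have h10 := uGf3 aGf3 h9 oGf3_0_9 (show 225 + 25 = 250 from rfl)
  have h11 := uGf3 aGf3 h10 oGf3_0_10 (show 250 + 25 = 275 from rfl)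
  have h12 := uGf3 aGf3 h11 oGf3_0_11 (show 275 + 25 = 300 from rfl)
  have h13 := uGf3 aGf3 h12 oGf3_0_12 (show 300 + 25 = 325 from rfl)
  have h14 := uGf3 aGf3 h13 oGf3_0_13 (show 325 + 25 = 350 from rfl)
  have h15 := uGf3 aGf3 h14 oGf3_0_14 (show 350 + 25 = 375 from rfl)
  have h16 := uGf3 aGf3 h15 oGf3_0_15 (show 375 + 25 = 400 from rfl)
  have h17 := uGf3 aGf3 h16 oGf3_0_16 (show 400 + 25 = 425 from rfl)
  have h18 := uGf3 aGf3 h17 oGf3_0_17 (show 425 + 25 = 450 from rfl)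
  have h19 := uGf3 aGf3 h18 oGf3_0_18 (show 450 + 25 = 475 from rfl)
  have h20 := uGf3 aGf3 h19 oGf3_0_19 (show 475 + 25 = 500 from rfl)
  have h21 := uGf3 aGf3 h20 oGf3_0_20 (show 500 + 25 = 525 from rfl)
  have h22 := uGf3 aGf3 h21 oGf3_0_21 (show 525 + 25 = 550 from rfl)
  have h23 := uGf3 aGf3 h22 oGf3_0_22 (show 550 + 25 = 575 from rfl)
  have h24 := uGf3 aGf3 h23 oGf3_0_23 (show 575 + 25 = 600 from rfl)
  have h25 := uGf3 aGf3 h24 oGf3_0_24 (show 600 + 25 = 625 from rfl)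
  have h26 := uGf3 aGf3 h25 oGf3_0_25 (show 625 + 4 = 629 from rfl)
  exact h26

theorem tGf3 : (TGf3.all okJ) = true := by decide +kernel

theorem pGf3_0 : CkP QGf2 (6, 0x19130c17100b251f06231c05201b03140f09)
    [6, 4, 3, 0, 0, 0, 0] 64 := by
  have h0 := ckP_zero QGf2 (6, 0x19130c17100b251f06231c05201b03140f09)
    [6, 4, 3, 0, 0, 0, 0]
  have h1 := ckP_step (k := 46) h0 kGf3_0c0 rfl
  have h2 := ckP_step (k := 61) h1 kGf3_0c1 rfl
  have h3 := ckP_step (k := 64) h2 kGf3_0c2 rfl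
  exact h3

theorem pGf3_1 : CkP QGf2 (6, 0x19120d16110b251e07221d05211b03150f09)
    [7, 6, 5, 4, 3, 0, 1, 0] 128 := by
  have h0 := ckP_zero QGf2 (6, 0x19120d16110b251e07221d05211b03150f09)
    [7, 6, 5, 4, 3, 0, 1, 0]
  have h1 := ckP_step (k := 128) h0 kGf3_1c0 rfl
  exact h1

theorem pGf3_2 : CkP QGf2 (6, 0x1010601130c01100b1d16051a1503200f09)
    [4, 3, 2, 1, 0] 16 := by
  have h0 := ckP_zero QGf2 (6, 0x1010601130c01100b1d16051a1503200f09)
    [4, 3, 2, 1, 0]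
  have h1 := ckP_step (k := 16) h0 kGf3_2c0 rfl
  exact h1

theorem pGf3_3 : CkP QGf2 (9, 0x12a24010107341712321d0c01231101290b261b042015022d0e08)
    [5, 4, 3, 2, 1, 0] 32 := by
  have h0 := ckP_zero QGf2 (9, 0x12a24010107341712321d0c01231101290b261b042015022d0e08)
    [5, 4, 3, 2, 1, 0]
  have h1 := ckP_step (k := 32) h0 kGf3_3c0 rfl
  exact h1

theorem pGf3_4 : CkP QGf2 (0xa, 0x1013638312b352412331e0c2e190a281710231d022c1a072620050f0914)
    [6, 5, 4, 0, 0, 0, 0] 64 := by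
  have h0 := ckP_zero QGf2 (0xa, 0x1013638312b352412331e0c2e190a281710231d022c1a072620050f0914)
    [6, 5, 4, 0, 0, 0, 0]
  have h1 := ckP_step (k := 64) h0 kGf3_4c0 rfl
  exact h1

theorem pGf3_5 : CkP QGf2 (0xe, 0x10149463c36514e4244302a4c1e164a2412401c0c3e100634190a3a2e0e23380232281a2c2005260914)
    [3, 2, 1, 0] 8 := by
  have h0 := ckP_zero QGf2 (0xe, 0x10149463c36514e4244302a4c1e164a2412401c0c3e100634190a3a2e0e23380232281a2c2005260914)
    [3, 2, 1, 0]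
  have h1 := ckP_step (k := 8) h0 kGf3_5c0 rfl
  exact h1

theorem pGf3_6 : CkP QGf2 (0xa, 0x136233a312b35241f330c062e39022d130801100b1d160528151a260f20)
    [7, 6, 5, 4, 3, 2, 1, 0] 128 := by
  have h0 := ckP_zero QGf2 (0xa, 0x136233a312b35241f330c062e39022d130801100b1d160528151a260f20)
    [7, 6, 5, 4, 3, 2, 1, 0]
  have h1 := ckP_step (k := 128) h0 kGf3_6c0 rfl
  exact h1

theorem kGf3 : PpI QGf2 6 TGf3 CAGf CBGf 7 := by
  have h0 := ppI_zero QGf2 6 TGf3 CAGf CBGf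
  have h1 := ppI_stepV (k' := 1) (q := (6, 0x19130c17100b251f06231c05201b03140f09)) h0 rfl kGf3_0r pGf3_0 kGf3_0m rfl
  have h2 := ppI_stepV (k' := 2) (q := (6, 0x19120d16110b251e07221d05211b03150f09)) h1 rfl kGf3_1r pGf3_1 kGf3_1m rfl
  have h3 := ppI_stepV (k' := 3) (q := (6, 0x1010601130c01100b1d16051a1503200f09)) h2 rfl kGf3_2r pGf3_2 kGf3_2m rfl
  have h4 := ppI_stepV (k' := 4) (q := (9, 0x12a24010107341712321d0c01231101290b261b042015022d0e08)) h3 rfl kGf3_3r pGf3_3 kGf3_3m rfl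
  have h5 := ppI_stepV (k' := 5) (q := (0xa, 0x1013638312b352412331e0c2e190a281710231d022c1a072620050f0914)) h4 rfl kGf3_4r pGf3_4 kGf3_4m rfl
  have h6 := ppI_stepV (k' := 6) (q := (0xe, 0x10149463c36514e4244302a4c1e164a2412401c0c3e100634190a3a2e0e23380232281a2c2005260914)) h5 rfl kGf3_5r pGf3_5 kGf3_5m rfl
  have h7 := ppI_stepV (k' := 7) (q := (0xa, 0x136233a312b35241f330c062e39022d130801100b1d160528151a260f20)) h6 rfl kGf3_6r pGf3_6 kGf3_6m rfl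
  exact h7

theorem zGf3 : (!false || allK QGf2 (fun _ => true) (nzq CBGf)
  0) = true := by decide +kernel

theorem mGf3A : (Nat.ble 2 2 || memI QGf2 0 1 257) = true := by decide +kernel

theorem mGf3B : (Nat.ble 1 2 || memI QGf2 0 1 1) = true := by decide +kernel

/-- **the phase 3** -/
theorem cGf3 : Dj5 CAGf CBGf PLGf (dnL QGf3) :=
  Dj5.rawP vokAGf vokBGf mclAGf mclBGf mkoGf wfpGf cGf2 mGf3A mGf3B (by norm_num) tGf3 kGf3 lenGf zGf3 bGf3

end EF18
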