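import Pool.Agent.Lib.MP_ef18bd_co.G5.P30

/-!
# Phase 30: closed patterns
-/

namespace EF18

set_option linter.defProp false

def jGf30_0 : j0F QGf29 BGf30 100 0
  0xa40000a000009c00009800009400009000008c00008800007c00007800006c00006800005800005400005000004000003800003400003000002c00002800002400001c00001800001400000c00000400000010003020002c20002420002020001c20001820000c2000042000002000ac3000a830009c30008830008030007c30006830005c30005830005430005030004c30002430001830009040008c40008440007c4000684000604000584000544000504000344000304000008009fca00354a00308a00240a00204a000e0a000dca000d4a000cca000c8a000c0a000bca000b4a000a8a00000900048c00040c0000cc00008c003912002a920000d100299200001100011000c95400bdd40033d50019d500099501285600eb56008b97008317099b98099b1806fd98 = true := by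
  decide +kernel

def jGf30_1 : j0F QGf29 BGf30 76 100
  0x1d40001d00001cc0001c80001c40001c00001bc0001b80001b40001b00001ac0001a80001a40001a000019c00019800019400019000018c00018800018400018000017c00017800017400017000016c00016800016400016000015c00015800015400015000014c00014800014400014000013c00013800013400013000012c00012800012400012000011c00011800011400011000010c0001080001040001000000fc0000f80000f40000f00000ec0000e80000e40000e00000dc0000d80000d40000d00000cc0000c80000c40000c00000bc0000b80000b40000b00000ac0000a80 = true := by
  decide +kernel

end EF18
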