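import Pool.Agent.Lib.MP_ef18bd_co.G5.C29
import Pool.Agent.Lib.MP_ef18bd_co.G5.P30x0
import Pool.Agent.Lib.MP_ef18bd_co.G5.P30x1
import Pool.Agent.Lib.MP_ef18bd_co.G5.P30x2
import Pool.Agent.Lib.MP_ef18bd_co.G5.P30x3
import Pool.Agent.Lib.MP_ef18bd_co.G5.P30x4
import Pool.Agent.Lib.MP_ef18bd_co.G5.P30x5
import Pool.Agent.Lib.MP_ef18bd_co.G5.P30x6
import Pool.Agent.Lib.MP_ef18bd_co.G5.P30x7
import Pool.Agent.Lib.MP_ef18bd_co.G5.P30x8
import Pool.Agent.Lib.MP_ef18bd_co.G5.P30x9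
import Pool.Agent.Lib.MP_ef18bd_co.G5.P30j0
import Pool.Agent.Lib.MP_ef18bd_co.G5.P30r0
import Pool.Agent.Lib.MP_ef18bd_co.G5.P30k0

/-!
# Phase 30
-/

namespace EF18

theorem aGf30 : ∀ i < 4000, Val (stD (dnL QGf29) SGf30) (prc BGf30 i) := by
  have j0 := ents_zeroF QGf29 SGf30 BGf30
  have j1 := ents_dnF (k := 100) j0 jGf30_0 rfl
  have j2 := ents_dnF (k := 176) j1 jGf30_1 rfl
  have h0 := j2
  have h1 := wGf30_0_0 h0
  have h2 := wGf30_0_1 h1
  have h3 := wGf30_0_2 h2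
  have h4 := wGf30_0_3 h3
  have h5 := wGf30_0_4 h4
  have h6 := wGf30_0_5 h5
  have h7 := wGf30_0_6 h6
  have h8 := wGf30_0_7 h7
  have h9 := wGf30_0_8 h8
  have h10 := wGf30_0_9 h9
  have h11 := wGf30_0_10 h10
  have h12 := wGf30_0_11 h11
  have h13 := wGf30_0_12 h12
  have h14 := wGf30_0_13 h13
  have h15 := wGf30_0_14 h14
  have h16 := wGf30_0_15 h15
  have h17 := wGf30_0_16 h16
  have h18 := wGf30_0_17 h17
  have h19 := wGf30_0_18 h18
  have h20 := wGf30_1_0 h19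
  have h21 := wGf30_1_1 h20
  have h22 := wGf30_1_2 h21
  have h23 := wGf30_1_3 h22
  have h24 := wGf30_1_4 h23
  have h25 := wGf30_1_5 h24
  have h26 := wGf30_1_6 h25
  have h27 := wGf30_1_7 h26
  have h28 := wGf30_1_8 h27
  have h29 := wGf30_1_9 h28
  have h30 := wGf30_1_10 h29
  have h31 := wGf30_1_11 h30
  have h32 := wGf30_1_12 h31
  have h33 := wGf30_1_13 h32
  have h34 := wGf30_1_14 h33
  have h35 := wGf30_1_15 h34
  have h36 := wGf30_2_0 h35
  have h37 := wGf30_2_1 h36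
  have h38 := wGf30_2_2 h37
  have h39 := wGf30_2_3 h38
  have h40 := wGf30_2_4 h39
  have h41 := wGf30_2_5 h40
  have h42 := wGf30_2_6 h41
  have h43 := wGf30_2_7 h42
  have h44 := wGf30_2_8 h43
  have h45 := wGf30_2_9 h44
  have h46 := wGf30_2_10 h45
  have h47 := wGf30_2_11 h46
  have h48 := wGf30_2_12 h47
  have h49 := wGf30_2_13 h48
  have h50 := wGf30_2_14 h49
  have h51 := wGf30_2_15 h50
  have h52 := wGf30_3_0 h51
  have h53 := wGf30_3_1 h52
  have h54 := wGf30_3_2 h53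
  have h55 := wGf30_3_3 h54
  have h56 := wGf30_3_4 h55
  have h57 := wGf30_3_5 h56
  have h58 := wGf30_3_6 h57
  have h59 := wGf30_3_7 h58
  have h60 := wGf30_3_8 h59
  have h61 := wGf30_3_9 h60
  have h62 := wGf30_3_10 h61
  have h63 := wGf30_3_11 h62
  have h64 := wGf30_3_12 h63
  have h65 := wGf30_3_13 h64
  have h66 := wGf30_3_14 h65
  have h67 := wGf30_3_15 h66
  have h68 := wGf30_3_16 h67
  have h69 := wGf30_3_17 h68
  have h70 := wGf30_3_18 h69
  have h71 := wGf30_4_0 h70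
  have h72 := wGf30_4_1 h71
  have h73 := wGf30_4_2 h72
  have h74 := wGf30_4_3 h73
  have h75 := wGf30_4_4 h74
  have h76 := wGf30_4_5 h75
  have h77 := wGf30_4_6 h76
  have h78 := wGf30_4_7 h77
  have h79 := wGf30_4_8 h78
  have h80 := wGf30_4_9 h79
  have h81 := wGf30_4_10 h80
  have h82 := wGf30_4_11 h81
  have h83 := wGf30_4_12 h82
  have h84 := wGf30_4_13 h83
  have h85 := wGf30_4_14 h84
  have h86 := wGf30_4_15 h85
  have h87 := wGf30_5_0 h86
  have h88 := wGf30_5_1 h87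
  have h89 := wGf30_5_2 h88
  have h90 := wGf30_5_3 h89
  have h91 := wGf30_5_4 h90
  have h92 := wGf30_5_5 h91
  have h93 := wGf30_5_6 h92
  have h94 := wGf30_5_7 h93
  have h95 := wGf30_5_8 h94
  have h96 := wGf30_5_9 h95
  have h97 := wGf30_5_10 h96
  have h98 := wGf30_5_11 h97
  have h99 := wGf30_5_12 h98
  have h100 := wGf30_5_13 h99
  have h101 := wGf30_5_14 h100
  have h102 := wGf30_5_15 h101
  have h103 := wGf30_5_16 h102
  have h104 := wGf30_6_0 h103
  have h105 := wGf30_6_1 h104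
  have h106 := wGf30_6_2 h105
  have h107 := wGf30_6_3 h106
  have h108 := wGf30_6_4 h107
  have h109 := wGf30_6_5 h108
  have h110 := wGf30_6_6 h109
  have h111 := wGf30_6_7 h110
  have h112 := wGf30_6_8 h111
  have h113 := wGf30_6_9 h112
  have h114 := wGf30_6_10 h113
  have h115 := wGf30_6_11 h114
  have h116 := wGf30_6_12 h115
  have h117 := wGf30_6_13 h116
  have h118 := wGf30_6_14 h117
  have h119 := wGf30_6_15 h118
  have h120 := wGf30_7_0 h119
  have h121 := wGf30_7_1 h120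
  have h122 := wGf30_7_2 h121
  have h123 := wGf30_7_3 h122
  have h124 := wGf30_7_4 h123
  have h125 := wGf30_7_5 h124
  have h126 := wGf30_7_6 h125
  have h127 := wGf30_7_7 h126
  have h128 := wGf30_7_8 h127
  have h129 := wGf30_7_9 h128
  have h130 := wGf30_7_10 h129
  have h131 := wGf30_7_11 h130
  have h132 := wGf30_7_12 h131
  have h133 := wGf30_8_0 h132
  have h134 := wGf30_8_1 h133
  have h135 := wGf30_8_2 h134
  have h136 := wGf30_8_3 h135
  have h137 := wGf30_8_4 h136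
  have h138 := wGf30_8_5 h137
  have h139 := wGf30_8_6 h138
  have h140 := wGf30_8_7 h139
  have h141 := wGf30_8_8 h140
  have h142 := wGf30_8_9 h141
  have h143 := wGf30_8_10 h142
  have h144 := wGf30_8_11 h143
  have h145 := wGf30_8_12 h144
  have h146 := wGf30_8_13 h145
  have h147 := wGf30_8_14 h146
  have h148 := wGf30_8_15 h147
  have h149 := wGf30_9_0 h148
  have h150 := wGf30_9_1 h149
  have h151 := wGf30_9_2 h150
  have h152 := wGf30_9_3 h151
  have h153 := wGf30_9_4 h152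
  have h154 := wGf30_9_5 h153
  have h155 := wGf30_9_6 h154
  have h156 := wGf30_9_7 h155
  have h157 := wGf30_9_8 h156
  have h158 := wGf30_9_9 h157
  exact h158

theorem bGf30 : RtI (ok5 (okB 1 true)) (stD (dnL QGf29) SGf30) RBGf30 342 := by
  have h0 := rtI_zero (ok5 (okB 1 true)) (stD (dnL QGf29) SGf30) RBGf30
  have h1 := uGf30 aGf30 h0 oGf30_0_0 (show 0 + 25 = 25 from rfl)
  have h2 := uGf30 aGf30 h1 oGf30_0_1 (show 25 + 25 = 50 from rfl)
  have h3 := uGf30 aGf30 h2 oGf30_0_2 (show 50 + 25 = 75 from rfl)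
  have h4 := uGf30 aGf30 h3 oGf30_0_3 (show 75 + 25 = 100 from rfl)
  have h5 := uGf30 aGf30 h4 oGf30_0_4 (show 100 + 25 = 125 from rfl)
  have h6 := uGf30 aGf30 h5 oGf30_0_5 (show 125 + 25 = 150 from rfl)
  have h7 := uGf30 aGf30 h6 oGf30_0_6 (show 150 + 25 = 175 from rfl)
  have h8 := uGf30 aGf30 h7 oGf30_0_7 (show 175 + 25 = 200 from rfl)
  have h9 := uGf30 aGf30 h8 oGf30_0_8 (show 200 + 25 = 225 from rfl)
  have h10 := uGf30 aGf30 h9 oGf30_0_9 (show 225 + 25 = 250 from rfl)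
  have h11 := uGf30 aGf30 h10 oGf30_0_10 (show 250 + 25 = 275 from rfl)
  have h12 := uGf30 aGf30 h11 oGf30_0_11 (show 275 + 25 = 300 from rfl)
  have h13 := uGf30 aGf30 h12 oGf30_0_12 (show 300 + 25 = 325 from rfl)
  have h14 := uGf30 aGf30 h13 oGf30_0_13 (show 325 + 17 = 342 from rfl)
  exact h14

theorem tGf30 : (TGf30.all okJ) = true := by decide +kernel

theorem pGf30_0 : CkP QGf29 (6, 0x19130c17100b251f06231c05201b03140f09)
    [2, 0, 0, 0, 0, 0, 0] 64 := by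
  have h0 := ckP_zero QGf29 (6, 0x19130c17100b251f06231c05201b03140f09)
    [2, 0, 0, 0, 0, 0, 0]
  have h1 := ckP_step (k := 63) h0 kGf30_0c0 rfl
  have h2 := ckP_step (k := 64) h1 kGf30_0c1 rfl
  exact h2

theorem pGf30_1 : CkP QGf29 (6, 0x19120d16110b251e07221d05211b03150f09)
    [4, 3, 0, 0, 0, 0, 0, 0] 128 := by
  have h0 := ckP_zero QGf29 (6, 0x19120d16110b251e07221d05211b03150f09)
    [4, 3, 0, 0, 0, 0, 0, 0]
  have h1 := ckP_step (k := 63) h0 kGf30_1c0 rfl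
  have h2 := ckP_step (k := 64) h1 kGf30_1c1 rfl
  have h3 := ckP_step (k := 95) h2 kGf30_1c2 rfl
  have h4 := ckP_step (k := 96) h3 kGf30_1c3 rfl
  have h5 := ckP_step (k := 111) h4 kGf30_1c4 rfl
  have h6 := ckP_step (k := 112) h5 kGf30_1c5 rfl
  have h7 := ckP_step (k := 119) h6 kGf30_1c6 rfl
  have h8 := ckP_step (k := 120) h7 kGf30_1c7 rfl
  have h9 := ckP_step (k := 123) h8 kGf30_1c8 rfl
  have h10 := ckP_step (k := 124) h9 kGf30_1c9 rfl
  have h11 := ckP_step (k := 125) h10 kGf30_1c10 rfl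
  have h12 := ckP_step (k := 126) h11 kGf30_1c11 rfl
  have h13 := ckP_step (k := 127) h12 kGf30_1c12 rfl
  have h14 := ckP_step (k := 128) h13 kGf30_1c13 rfl
  exact h14

theorem pGf30_2 : CkP QGf29 (6, 0x1010601130c01100b1d16051a1503200f09)
    [3, 2, 2, 0, 0] 16 := by
  have h0 := ckP_zero QGf29 (6, 0x1010601130c01100b1d16051a1503200f09)
    [3, 2, 2, 0, 0]
  have h1 := ckP_step (k := 16) h0 kGf30_2c0 rfl
  exact h1

theorem pGf30_3 : CkP QGf29 (9, 0x12a24010107341712321d0c01231101290b261b042015022d0e08)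
    [4, 3, 2, 2, 0, 0] 32 := by
  have h0 := ckP_zero QGf29 (9, 0x12a24010107341712321d0c01231101290b261b042015022d0e08)
    [4, 3, 2, 2, 0, 0]
  have h1 := ckP_step (k := 31) h0 kGf30_3c0 rfl
  have h2 := ckP_step (k := 32) h1 kGf30_3c1 rfl
  exact h2

theorem pGf30_4 : CkP QGf29 (0xa, 0x1013638312b352412331e0c2e190a281710231d022c1a072620050f0914)
    [4, 3, 0, 0, 0, 0, 0] 64 := by
  have h0 := ckP_zero QGf29 (0xa, 0x1013638312b352412331e0c2e190a281710231d022c1a072620050f0914)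
    [4, 3, 0, 0, 0, 0, 0]
  have h1 := ckP_step (k := 47) h0 kGf30_4c0 rfl
  have h2 := ckP_step (k := 63) h1 kGf30_4c1 rfl
  have h3 := ckP_step (k := 64) h2 kGf30_4c2 rfl
  exact h3

theorem pGf30_5 : CkP QGf29 (0xe, 0x10149463c36514e4244302a4c1e164a2412401c0c3e100634190a3a2e0e23380232281a2c2005260914)
    [0, 0, 0, 0] 8 := by
  have h0 := ckP_zero QGf29 (0xe, 0x10149463c36514e4244302a4c1e164a2412401c0c3e100634190a3a2e0e23380232281a2c2005260914)
    [0, 0, 0, 0]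
  have h1 := ckP_step (k := 8) h0 kGf30_5c0 rfl
  exact h1

theorem pGf30_6 : CkP QGf29 (0xa, 0x136233a312b35241f330c062e39022d130801100b1d160528151a260f20)
    [7, 6, 5, 4, 0, 0, 0, 0] 128 := by
  have h0 := ckP_zero QGf29 (0xa, 0x136233a312b35241f330c062e39022d130801100b1d160528151a260f20)
    [7, 6, 5, 4, 0, 0, 0, 0]
  have h1 := ckP_step (k := 128) h0 kGf30_6c0 rfl
  exact h1

theorem kGf30 : PpI QGf29 6 TGf30 CAGf CBGf 7 := by
  have h0 := ppI_zero QGf29 6 TGf30 CAGf CBGf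
  have h1 := ppI_stepV (k' := 1) (q := (6, 0x19130c17100b251f06231c05201b03140f09)) h0 rfl kGf30_0r pGf30_0 kGf30_0m rfl
  have h2 := ppI_stepV (k' := 2) (q := (6, 0x19120d16110b251e07221d05211b03150f09)) h1 rfl kGf30_1r pGf30_1 kGf30_1m rfl
  have h3 := ppI_stepV (k' := 3) (q := (6, 0x1010601130c01100b1d16051a1503200f09)) h2 rfl kGf30_2r pGf30_2 kGf30_2m rfl
  have h4 := ppI_stepV (k' := 4) (q := (9, 0x12a24010107341712321d0c01231101290b261b042015022d0e08)) h3 rfl kGf30_3r pGf30_3 kGf30_3m rfl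
  have h5 := ppI_stepV (k' := 5) (q := (0xa, 0x1013638312b352412331e0c2e190a281710231d022c1a072620050f0914)) h4 rfl kGf30_4r pGf30_4 kGf30_4m rfl
  have h6 := ppI_stepV (k' := 6) (q := (0xe, 0x10149463c36514e4244302a4c1e164a2412401c0c3e100634190a3a2e0e23380232281a2c2005260914)) h5 rfl kGf30_5r pGf30_5 kGf30_5m rfl
  have h7 := ppI_stepV (k' := 7) (q := (0xa, 0x136233a312b35241f330c062e39022d130801100b1d160528151a260f20)) h6 rfl kGf30_6r pGf30_6 kGf30_6m rfl
  exact h7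

theorem zGf30 : (!false || allK QGf29 (fun _ => true) (nzq CBGf)
  0) = true := by decide +kernel

theorem mGf30A : (Nat.ble 2 1 || memI QGf29 25 1 257) = true := by decide +kernel

theorem mGf30B : (Nat.ble 1 1 || memI QGf29 0 1 1) = true := by decide +kernel

/-- **the phase 30** -/
theorem cGf30 : Dj5 CAGf CBGf PLGf (dnL QGf30) :=
  Dj5.rawP vokAGf vokBGf mclAGf mclBGf mkoGf wfpGf cGf29 mGf30A mGf30B (by norm_num) tGf30 kGf30 lenGf zGf30 bGf30

end EF18
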