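import Pool.Agent.Lib.MP_ef18bd_co.G5.P31

/-!
# Phase 31: closed patterns
-/

namespace EF18

set_option linter.defProp false

def jGf31_0 : j0F QGf30 BGf31 100 0
  0xdc1000ac1000a010009c10009010008810008410008010007c10007410007010006c10006410006010005c10005810005010004c10004810004410004010003c10003810003410002410002010001010000810000410000020002830002430001c3000143000bc4000ac40009c40009840008040007440006c40006840006040005440005040004c40002c40001440001040000c40000840007450007050006c50006850006450005850005450005050004450003c500034500030500488a0076cb00308b00240b00204b000e0b000dcb000ccb000c8b000c0b000bcb000b4b000b0b000a8b0007cb00040d0000cd00008d003913002a93002a130000d200299300295300011100bdd5003a960019d6001996000996012857008b18008a18099e19004f18000958000018 = true := by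
  decide +kernel

def jGf31_1 : j0F QGf30 BGf31 100 100
  0x17c00017800017400017000016c00016800016400016000015c00015800015400015000014c00014800014400014000013c00013800013400013000012c00012800012400012000011c00011800011400011000010c0001080001040001000000fc0000f80000f40000f00000ec0000e80000e40000e00000dc0000d80000d40000d00000cc0000c80000c40000c00000bc0000b80000b40000b00000ac0000a80000a40000a000009c00009800009400009000008c00008800008400008000007c00007800007400007000006c00006800006400006000005c00005800005400005000004c00004800004400004000003c00003800003400003000002c00002800002400002000001c00001800001400001000000c0000080000040000000001301001281000f81000e81 = true := by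
  decide +kernel

def jGf31_2 : j0F QGf30 BGf31 100 200
  0x30c0003080003040003000002fc0002f80002f40002f00002ec0002e80002e40002e00002dc0002d80002d40002d00002cc0002c80002c40002c00002bc0002b80002b40002b00002ac0002a80002a40002a000029c00029800029400029000028c00028800028400028000027c00027800027400027000026c00026800026400026000025c00025800025400025000024c00024800024400024000023c00023800023400023000022c00022800022400022000021c00021800021400021000020c0002080002040002000001fc0001f80001f40001f00001ec0001e80001e40001e00001dc0001d80001d40001d00001cc0001c80001c40001c00001bc0001b80001b40001b00001ac0001a80001a40001a000019c00019800019400019000018c0001880001840001800 = true := by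
  decide +kernel

def jGf31_3 : j0F QGf30 BGf31 100 300
  0x49c00049800049400049000048c00048800048400048000047c00047800047400047000046c00046800046400046000045c00045800045400045000044c00044800044400044000043c00043800043400043000042c00042800042400042000041c00041800041400041000040c0004080004040004000003fc0003f80003f40003f00003ec0003e80003e40003e00003dc0003d80003d40003d00003cc0003c80003c40003c00003bc0003b80003b40003b00003ac0003a80003a40003a000039c00039800039400039000038c00038800038400038000037c00037800037400037000036c00036800036400036000035c00035800035400035000034c00034800034400034000033c00033800033400033000032c00032800032400032000031c0003180003140003100 = true := by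
  decide +kernel

def jGf31_4 : j0F QGf30 BGf31 46 400
  0x55400055000054c00054800054400054000053c00053800053400053000052c00052800052400052000051c00051800051400051000050c0005080005040005000004fc0004f80004f40004f00004ec0004e80004e40004e00004dc0004d80004d40004d00004cc0004c80004c40004c00004bc0004b80004b40004b00004ac0004a80004a40004a00 = true := by
  decide +kernel

end EF18
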