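import Pool.Agent.Lib.MP_ef18bd_co.G5.C30
import Pool.Agent.Lib.MP_ef18bd_co.G5.P31x0
import Pool.Agent.Lib.MP_ef18bd_co.G5.P31x1
import Pool.Agent.Lib.MP_ef18bd_co.G5.P31x2
import Pool.Agent.Lib.MP_ef18bd_co.G5.P31x3
import Pool.Agent.Lib.MP_ef18bd_co.G5.P31x4
import Pool.Agent.Lib.MP_ef18bd_co.G5.P31x5
import Pool.Agent.Lib.MP_ef18bd_co.G5.P31x6
import Pool.Agent.Lib.MP_ef18bd_co.G5.P31x7
import Pool.Agent.Lib.MP_ef18bd_co.G5.P31j0
import Pool.Agent.Lib.MP_ef18bd_co.G5.P31r0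
import Pool.Agent.Lib.MP_ef18bd_co.G5.P31k0

/-!
# Phase 31
-/

namespace EF18

theorem aGf31 : ∀ i < 3204, Val (stD (dnL QGf30) SGf31) (prc BGf31 i) := by
  have j0 := ents_zeroF QGf30 SGf31 BGf31
  have j1 := ents_dnF (k := 100) j0 jGf31_0 rfl
  have j2 := ents_dnF (k := 200) j1 jGf31_1 rfl
  have j3 := ents_dnF (k := 300) j2 jGf31_2 rfl
  have j4 := ents_dnF (k := 400) j3 jGf31_3 rfl
  have j5 := ents_dnF (k := 446) j4 jGf31_4 rfl
  have h0 := j5
  have h1 := wGf31_0_0 h0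
  have h2 := wGf31_0_1 h1
  have h3 := wGf31_0_2 h2
  have h4 := wGf31_0_3 h3
  have h5 := wGf31_0_4 h4
  have h6 := wGf31_0_5 h5
  have h7 := wGf31_0_6 h6
  have h8 := wGf31_0_7 h7
  have h9 := wGf31_0_8 h8
  have h10 := wGf31_0_9 h9
  have h11 := wGf31_0_10 h10
  have h12 := wGf31_0_11 h11
  have h13 := wGf31_0_12 h12
  have h14 := wGf31_0_13 h13
  have h15 := wGf31_1_0 h14
  have h16 := wGf31_1_1 h15
  have h17 := wGf31_1_2 h16
  have h18 := wGf31_1_3 h17
  have h19 := wGf31_1_4 h18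
  have h20 := wGf31_1_5 h19
  have h21 := wGf31_1_6 h20
  have h22 := wGf31_1_7 h21
  have h23 := wGf31_1_8 h22
  have h24 := wGf31_1_9 h23
  have h25 := wGf31_1_10 h24
  have h26 := wGf31_1_11 h25
  have h27 := wGf31_1_12 h26
  have h28 := wGf31_1_13 h27
  have h29 := wGf31_1_14 h28
  have h30 := wGf31_2_0 h29
  have h31 := wGf31_2_1 h30
  have h32 := wGf31_2_2 h31
  have h33 := wGf31_2_3 h32
  have h34 := wGf31_2_4 h33
  have h35 := wGf31_2_5 h34
  have h36 := wGf31_2_6 h35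
  have h37 := wGf31_2_7 h36
  have h38 := wGf31_2_8 h37
  have h39 := wGf31_2_9 h38
  have h40 := wGf31_2_10 h39
  have h41 := wGf31_2_11 h40
  have h42 := wGf31_2_12 h41
  have h43 := wGf31_2_13 h42
  have h44 := wGf31_2_14 h43
  have h45 := wGf31_2_15 h44
  have h46 := wGf31_3_0 h45
  have h47 := wGf31_3_1 h46
  have h48 := wGf31_3_2 h47
  have h49 := wGf31_3_3 h48
  have h50 := wGf31_3_4 h49
  have h51 := wGf31_3_5 h50
  have h52 := wGf31_3_6 h51
  have h53 := wGf31_3_7 h52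
  have h54 := wGf31_3_8 h53
  have h55 := wGf31_3_9 h54
  have h56 := wGf31_3_10 h55
  have h57 := wGf31_3_11 h56
  have h58 := wGf31_3_12 h57
  have h59 := wGf31_3_13 h58
  have h60 := wGf31_3_14 h59
  have h61 := wGf31_4_0 h60
  have h62 := wGf31_4_1 h61
  have h63 := wGf31_4_2 h62
  have h64 := wGf31_4_3 h63
  have h65 := wGf31_4_4 h64
  have h66 := wGf31_4_5 h65
  have h67 := wGf31_4_6 h66
  have h68 := wGf31_4_7 h67
  have h69 := wGf31_4_8 h68
  have h70 := wGf31_4_9 h69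
  have h71 := wGf31_4_10 h70
  have h72 := wGf31_4_11 h71
  have h73 := wGf31_4_12 h72
  have h74 := wGf31_4_13 h73
  have h75 := wGf31_4_14 h74
  have h76 := wGf31_4_15 h75
  have h77 := wGf31_4_16 h76
  have h78 := wGf31_4_17 h77
  have h79 := wGf31_5_0 h78
  have h80 := wGf31_5_1 h79
  have h81 := wGf31_5_2 h80
  have h82 := wGf31_5_3 h81
  have h83 := wGf31_5_4 h82
  have h84 := wGf31_5_5 h83
  have h85 := wGf31_5_6 h84
  have h86 := wGf31_5_7 h85
  have h87 := wGf31_5_8 h86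
  have h88 := wGf31_5_9 h87
  have h89 := wGf31_5_10 h88
  have h90 := wGf31_5_11 h89
  have h91 := wGf31_5_12 h90
  have h92 := wGf31_5_13 h91
  have h93 := wGf31_5_14 h92
  have h94 := wGf31_6_0 h93
  have h95 := wGf31_6_1 h94
  have h96 := wGf31_6_2 h95
  have h97 := wGf31_6_3 h96
  have h98 := wGf31_6_4 h97
  have h99 := wGf31_6_5 h98
  have h100 := wGf31_6_6 h99
  have h101 := wGf31_6_7 h100
  have h102 := wGf31_6_8 h101
  have h103 := wGf31_6_9 h102
  have h104 := wGf31_6_10 h103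
  have h105 := wGf31_6_11 h104
  have h106 := wGf31_6_12 h105
  have h107 := wGf31_6_13 h106
  have h108 := wGf31_6_14 h107
  have h109 := wGf31_6_15 h108
  have h110 := wGf31_7_0 h109
  have h111 := wGf31_7_1 h110
  have h112 := wGf31_7_2 h111
  have h113 := wGf31_7_3 h112
  have h114 := wGf31_7_4 h113
  exact h114

theorem bGf31 : RtI (ok5 (okB 1 true)) (stD (dnL QGf30) SGf31) RBGf31 1 := by
  have h0 := rtI_zero (ok5 (okB 1 true)) (stD (dnL QGf30) SGf31) RBGf31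
  have h1 := uGf31 aGf31 h0 oGf31_0_0 (show 0 + 1 = 1 from rfl)
  exact h1

theorem tGf31 : (TGf31.all okJ) = true := by decide +kernel

theorem pGf31_0 : CkP QGf30 (6, 0x19130c17100b251f06231c05201b03140f09)
    [2, 0, 0, 0, 0, 0, 0] 64 := by
  have h0 := ckP_zero QGf30 (6, 0x19130c17100b251f06231c05201b03140f09)
    [2, 0, 0, 0, 0, 0, 0]
  have h1 := ckP_step (k := 63) h0 kGf31_0c0 rfl
  have h2 := ckP_step (k := 64) h1 kGf31_0c1 rfl
  exact h2

theorem pGf31_1 : CkP QGf30 (6, 0x19120d16110b251e07221d05211b03150f09)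
    [4, 3, 0, 0, 0, 0, 0, 0] 128 := by
  have h0 := ckP_zero QGf30 (6, 0x19120d16110b251e07221d05211b03150f09)
    [4, 3, 0, 0, 0, 0, 0, 0]
  have h1 := ckP_step (k := 63) h0 kGf31_1c0 rfl
  have h2 := ckP_step (k := 64) h1 kGf31_1c1 rfl
  have h3 := ckP_step (k := 95) h2 kGf31_1c2 rfl
  have h4 := ckP_step (k := 96) h3 kGf31_1c3 rfl
  have h5 := ckP_step (k := 111) h4 kGf31_1c4 rfl
  have h6 := ckP_step (k := 112) h5 kGf31_1c5 rfl
  have h7 := ckP_step (k := 119) h6 kGf31_1c6 rfl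
  have h8 := ckP_step (k := 120) h7 kGf31_1c7 rfl
  have h9 := ckP_step (k := 123) h8 kGf31_1c8 rfl
  have h10 := ckP_step (k := 124) h9 kGf31_1c9 rfl
  have h11 := ckP_step (k := 125) h10 kGf31_1c10 rfl
  have h12 := ckP_step (k := 126) h11 kGf31_1c11 rfl
  have h13 := ckP_step (k := 127) h12 kGf31_1c12 rfl
  have h14 := ckP_step (k := 128) h13 kGf31_1c13 rfl
  exact h14

theorem pGf31_2 : CkP QGf30 (6, 0x1010601130c01100b1d16051a1503200f09)
    [3, 2, 2, 0, 0] 16 := by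
  have h0 := ckP_zero QGf30 (6, 0x1010601130c01100b1d16051a1503200f09)
    [3, 2, 2, 0, 0]
  have h1 := ckP_step (k := 16) h0 kGf31_2c0 rfl
  exact h1

theorem pGf31_3 : CkP QGf30 (9, 0x12a24010107341712321d0c01231101290b261b042015022d0e08)
    [4, 3, 2, 2, 0, 0] 32 := by
  have h0 := ckP_zero QGf30 (9, 0x12a24010107341712321d0c01231101290b261b042015022d0e08)
    [4, 3, 2, 2, 0, 0]
  have h1 := ckP_step (k := 31) h0 kGf31_3c0 rfl
  have h2 := ckP_step (k := 32) h1 kGf31_3c1 rfl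
  exact h2

theorem pGf31_4 : CkP QGf30 (0xa, 0x1013638312b352412331e0c2e190a281710231d022c1a072620050f0914)
    [4, 3, 0, 0, 0, 0, 0] 64 := by
  have h0 := ckP_zero QGf30 (0xa, 0x1013638312b352412331e0c2e190a281710231d022c1a072620050f0914)
    [4, 3, 0, 0, 0, 0, 0]
  have h1 := ckP_step (k := 47) h0 kGf31_4c0 rfl
  have h2 := ckP_step (k := 63) h1 kGf31_4c1 rfl
  have h3 := ckP_step (k := 64) h2 kGf31_4c2 rfl
  exact h3

theorem pGf31_5 : CkP QGf30 (0xe, 0x10149463c36514e4244302a4c1e164a2412401c0c3e100634190a3a2e0e23380232281a2c2005260914)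
    [0, 0, 0, 0] 8 := by
  have h0 := ckP_zero QGf30 (0xe, 0x10149463c36514e4244302a4c1e164a2412401c0c3e100634190a3a2e0e23380232281a2c2005260914)
    [0, 0, 0, 0]
  have h1 := ckP_step (k := 8) h0 kGf31_5c0 rfl
  exact h1

theorem pGf31_6 : CkP QGf30 (0xa, 0x136233a312b35241f330c062e39022d130801100b1d160528151a260f20)
    [7, 6, 5, 4, 0, 0, 0, 0] 128 := by
  have h0 := ckP_zero QGf30 (0xa, 0x136233a312b35241f330c062e39022d130801100b1d160528151a260f20)
    [7, 6, 5, 4, 0, 0, 0, 0]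
  have h1 := ckP_step (k := 128) h0 kGf31_6c0 rfl
  exact h1

theorem kGf31 : PpI QGf30 6 TGf31 CAGf CBGf 7 := by
  have h0 := ppI_zero QGf30 6 TGf31 CAGf CBGf
  have h1 := ppI_stepV (k' := 1) (q := (6, 0x19130c17100b251f06231c05201b03140f09)) h0 rfl kGf31_0r pGf31_0 kGf31_0m rfl
  have h2 := ppI_stepV (k' := 2) (q := (6, 0x19120d16110b251e07221d05211b03150f09)) h1 rfl kGf31_1r pGf31_1 kGf31_1m rfl
  have h3 := ppI_stepV (k' := 3) (q := (6, 0x1010601130c01100b1d16051a1503200f09)) h2 rfl kGf31_2r pGf31_2 kGf31_2m rfl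
  have h4 := ppI_stepV (k' := 4) (q := (9, 0x12a24010107341712321d0c01231101290b261b042015022d0e08)) h3 rfl kGf31_3r pGf31_3 kGf31_3m rfl
  have h5 := ppI_stepV (k' := 5) (q := (0xa, 0x1013638312b352412331e0c2e190a281710231d022c1a072620050f0914)) h4 rfl kGf31_4r pGf31_4 kGf31_4m rfl
  have h6 := ppI_stepV (k' := 6) (q := (0xe, 0x10149463c36514e4244302a4c1e164a2412401c0c3e100634190a3a2e0e23380232281a2c2005260914)) h5 rfl kGf31_5r pGf31_5 kGf31_5m rfl
  have h7 := ppI_stepV (k' := 7) (q := (0xa, 0x136233a312b35241f330c062e39022d130801100b1d160528151a260f20)) h6 rfl kGf31_6r pGf31_6 kGf31_6m rfl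
  exact h7

theorem zGf31 : (!false || allK QGf30 (fun _ => true) (nzq CBGf)
  0) = true := by decide +kernel

theorem mGf31A : (Nat.ble 2 1 || memI QGf30 26 1 257) = true := by decide +kernel

theorem mGf31B : (Nat.ble 1 1 || memI QGf30 0 1 1) = true := by decide +kernel

/-- **the phase 31** -/
theorem cGf31 : Dj5 CAGf CBGf PLGf (dnL QGf31) :=
  Dj5.rawP vokAGf vokBGf mclAGf mclBGf mkoGf wfpGf cGf30 mGf31A mGf31B (by norm_num) tGf31 kGf31 lenGf zGf31 bGf31

end EF18
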