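import Pool.Agent.Lib.MP_ef18bd_co.G5.P33

/-!
# Phase 33: closed patterns
-/

namespace EF18

set_option linter.defProp false

def jGf33_0 : j0F QGf32 BGf33 100 0
  0x17800017400017000016c00016800016400016000015c00015800015400015000014c00014800014400014000013c00013800013400013000012c00012800012400012000011c00011800011400011000010c0001080001040001000000fc0000f80000f40000f00000ec0000e80000e40000e00000dc0000d80000d40000d00000cc0000c80000c40000c00000bc0000b80000b40000b00000ac0000a80000a40000a000009c00009800009400009000008c00008800008400008000007c00007800007400004000006c00006800006400006000005c0000580000540000500000240000305000285000004000bc6000ac60003060001860005070004c7000487000dcd000a8d00048f00008f001b1300391500ca5700c9d700c99700bdd700ac5a096ddb000ada00005d = true := by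
  decide +kernel

def jGf33_1 : j0F QGf32 BGf33 67 100
  0x28400028000027c00027800027400027000026c00026800026400026000025c00025800025400025000024c00024800024400024000023c00023800023400023000022c00022800022400022000021c00021800021400004800020c0002080002040002000001fc0001f80001f40000440001ec0001e80001e40001e00001dc0001d80001d40001d00001cc0001c80001c40001c00001bc0001b80001b40001b00001ac0001a80001a40001a000019c00019800019400019000018c00018800018400018000017c0 = true := by
  decide +kernel

end EF18
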