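import Pool.Agent.Lib.MP_ef18bd_co.G5.P33

/-!
# Phase 33: roots
-/

namespace EF18

set_option linter.defProp false

def oGf33_0_0 : rGf33 0 25
  0x9894908c8884807c7874706c6864605c5854504c4844403c3834302c2824201c1814100c0804024a92909894908c8884807c7874706c6864605c5854504c4844403c3834302c2824201c1814100c0804024a529074706c6864605c5854504c4844403c3834302c2824201c1814100c0804024a1200b0aca8a4a09c9894908c8884807c7874706c6864605c5854504c4844403c3834302c2824201c1814100c08040249d2f05c5854504c4844403c3834302c2824201c1814100c0804024991a044403c3834302c2824201c1814100c080402495140807c7874706c6864605c5854504c4844403c3834302c2824201c1814100c080402491230a4a09c9894908c8884807c7874706c6864605c5854504c4844403c3834302c2824201c1814100c08040248d2c0b0aca8a4a09c9894908c8884807c7874706c6864605c5854504c4844403c3834302c2824201c1814100c0804024892f0a4a09c9894908c8884807c7874706c6864605c5854504c4844403c3834302c2824201c1814100c0804024852c0807c7874706c6864605c5854504c4844403c3834302c2824201c1814100c080401f6523044403c3834302c2824201c1814100c080401f411406864605c5854504c4844403c3834302c2824201c1814100c080401c411d044403c3834302c2824201c1814100c0804015d91405c5854504c4844403c3834302c2824201c1814100c0804015551a0504c4844403c3834302c2824201c1814100c0804012f51706864605c5854504c4844403c3834302c2824201c1814100c0804012ed1d0807c7874706c6864605c5854504c4844403c3834302c2824201c1814100c080400cd92306864605c5854504c4844403c3834302c2824201c1814100c080400ab51d03834302c2824201c1814100c080400a8911044403c3834302c2824201c1814100c08040091d1406864605c5854504c4844403c3834302c2824201c1814100c0804009191d0504c4844403c3834302c2824201c1814100c0804006f917044403c3834302c2824201c1814100c0804005491406864605c5854504c4844403c3834302c2428201c1814100c0804024811d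 = true := by
  decide +kernel

def oGf33_0_1 : rGf33 25 4
  0xb0aca8a4a09c9894908c8884807c7874706c6864605c5854504c4844403c3834302c2824201c1814100c0804024b92f0bcb8b4b0aca8a4a09c9894908c8884807c7874706c6864605c5854504c4844403c3834302c2824201c1814100c0804024b53209894908c8884807c7874706c6864605c5854504c4844403c3834302c2824201c1814100c0804024b12909894908c8884807c7874706c6864605c5854504c4844403c3834302c2824201c1814100c0804024ad29 = true := by
  decide +kernel

end EF18
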