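import Pool.Agent.Lib.MP_ef18bd_co.G5.C32
import Pool.Agent.Lib.MP_ef18bd_co.G5.P33x0
import Pool.Agent.Lib.MP_ef18bd_co.G5.P33x1
import Pool.Agent.Lib.MP_ef18bd_co.G5.P33x2
import Pool.Agent.Lib.MP_ef18bd_co.G5.P33x3
import Pool.Agent.Lib.MP_ef18bd_co.G5.P33j0
import Pool.Agent.Lib.MP_ef18bd_co.G5.P33r0
import Pool.Agent.Lib.MP_ef18bd_co.G5.P33k0

/-!
# Phase 33
-/

namespace EF18

theorem aGf33 : ∀ i < 2351, Val (stD (dnL QGf32) SGf33) (prc BGf33 i) := by
  have j0 := ents_zeroF QGf32 SGf33 BGf33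
  have j1 := ents_dnF (k := 100) j0 jGf33_0 rfl
  have j2 := ents_dnF (k := 167) j1 jGf33_1 rfl
  have h0 := j2
  have h1 := wGf33_0_0 h0
  have h2 := wGf33_0_1 h1
  have h3 := wGf33_0_2 h2
  have h4 := wGf33_0_3 h3
  have h5 := wGf33_0_4 h4
  have h6 := wGf33_0_5 h5
  have h7 := wGf33_0_6 h6
  have h8 := wGf33_0_7 h7
  have h9 := wGf33_0_8 h8
  have h10 := wGf33_0_9 h9
  have h11 := wGf33_0_10 h10
  have h12 := wGf33_0_11 h11
  have h13 := wGf33_0_12 h12
  have h14 := wGf33_0_13 h13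
  have h15 := wGf33_0_14 h14
  have h16 := wGf33_0_15 h15
  have h17 := wGf33_0_16 h16
  have h18 := wGf33_0_17 h17
  have h19 := wGf33_0_18 h18
  have h20 := wGf33_0_19 h19
  have h21 := wGf33_0_20 h20
  have h22 := wGf33_0_21 h21
  have h23 := wGf33_0_22 h22
  have h24 := wGf33_0_23 h23
  have h25 := wGf33_0_24 h24
  have h26 := wGf33_1_0 h25
  have h27 := wGf33_1_1 h26
  have h28 := wGf33_1_2 h27
  have h29 := wGf33_1_3 h28
  have h30 := wGf33_1_4 h29
  have h31 := wGf33_1_5 h30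
  have h32 := wGf33_1_6 h31
  have h33 := wGf33_1_7 h32
  have h34 := wGf33_1_8 h33
  have h35 := wGf33_1_9 h34
  have h36 := wGf33_1_10 h35
  have h37 := wGf33_1_11 h36
  have h38 := wGf33_1_12 h37
  have h39 := wGf33_1_13 h38
  have h40 := wGf33_1_14 h39
  have h41 := wGf33_1_15 h40
  have h42 := wGf33_1_16 h41
  have h43 := wGf33_1_17 h42
  have h44 := wGf33_1_18 h43
  have h45 := wGf33_1_19 h44
  have h46 := wGf33_1_20 h45
  have h47 := wGf33_1_21 h46
  have h48 := wGf33_1_22 h47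
  have h49 := wGf33_1_23 h48
  have h50 := wGf33_1_24 h49
  have h51 := wGf33_1_25 h50
  have h52 := wGf33_1_26 h51
  have h53 := wGf33_1_27 h52
  have h54 := wGf33_2_0 h53
  have h55 := wGf33_2_1 h54
  have h56 := wGf33_2_2 h55
  have h57 := wGf33_2_3 h56
  have h58 := wGf33_2_4 h57
  have h59 := wGf33_2_5 h58
  have h60 := wGf33_2_6 h59
  have h61 := wGf33_2_7 h60
  have h62 := wGf33_2_8 h61
  have h63 := wGf33_2_9 h62
  have h64 := wGf33_2_10 h63
  have h65 := wGf33_2_11 h64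
  have h66 := wGf33_2_12 h65
  have h67 := wGf33_2_13 h66
  have h68 := wGf33_2_14 h67
  have h69 := wGf33_2_15 h68
  have h70 := wGf33_2_16 h69
  have h71 := wGf33_2_17 h70
  have h72 := wGf33_2_18 h71
  have h73 := wGf33_2_19 h72
  have h74 := wGf33_2_20 h73
  have h75 := wGf33_2_21 h74
  have h76 := wGf33_2_22 h75
  have h77 := wGf33_2_23 h76
  have h78 := wGf33_2_24 h77
  have h79 := wGf33_2_25 h78
  have h80 := wGf33_2_26 h79
  have h81 := wGf33_3_0 h80
  have h82 := wGf33_3_1 h81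
  have h83 := wGf33_3_2 h82
  have h84 := wGf33_3_3 h83
  have h85 := wGf33_3_4 h84
  have h86 := wGf33_3_5 h85
  have h87 := wGf33_3_6 h86
  have h88 := wGf33_3_7 h87
  have h89 := wGf33_3_8 h88
  exact h89

theorem bGf33 : RtI (ok5 (okB 1 true)) (stD (dnL QGf32) SGf33) RBGf33 29 := by
  have h0 := rtI_zero (ok5 (okB 1 true)) (stD (dnL QGf32) SGf33) RBGf33
  have h1 := uGf33 aGf33 h0 oGf33_0_0 (show 0 + 25 = 25 from rfl)
  have h2 := uGf33 aGf33 h1 oGf33_0_1 (show 25 + 4 = 29 from rfl)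
  exact h2

theorem tGf33 : (TGf33.all okJ) = true := by decide +kernel

theorem pGf33_0 : CkP QGf32 (6, 0x19130c17100b251f06231c05201b03140f09)
    [2, 0, 0, 0, 0, 0, 0] 64 := by
  have h0 := ckP_zero QGf32 (6, 0x19130c17100b251f06231c05201b03140f09)
    [2, 0, 0, 0, 0, 0, 0]
  have h1 := ckP_step (k := 63) h0 kGf33_0c0 rfl
  have h2 := ckP_step (k := 64) h1 kGf33_0c1 rfl
  exact h2

theorem pGf33_1 : CkP QGf32 (6, 0x19120d16110b251e07221d05211b03150f09)
    [4, 3, 0, 0, 0, 0, 0, 0] 128 := by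
  have h0 := ckP_zero QGf32 (6, 0x19120d16110b251e07221d05211b03150f09)
    [4, 3, 0, 0, 0, 0, 0, 0]
  have h1 := ckP_step (k := 63) h0 kGf33_1c0 rfl
  have h2 := ckP_step (k := 64) h1 kGf33_1c1 rfl
  have h3 := ckP_step (k := 95) h2 kGf33_1c2 rfl
  have h4 := ckP_step (k := 96) h3 kGf33_1c3 rfl
  have h5 := ckP_step (k := 111) h4 kGf33_1c4 rfl
  have h6 := ckP_step (k := 112) h5 kGf33_1c5 rfl
  have h7 := ckP_step (k := 119) h6 kGf33_1c6 rfl
  have h8 := ckP_step (k := 120) h7 kGf33_1c7 rfl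
  have h9 := ckP_step (k := 123) h8 kGf33_1c8 rfl
  have h10 := ckP_step (k := 124) h9 kGf33_1c9 rfl
  have h11 := ckP_step (k := 125) h10 kGf33_1c10 rfl
  have h12 := ckP_step (k := 126) h11 kGf33_1c11 rfl
  have h13 := ckP_step (k := 127) h12 kGf33_1c12 rfl
  have h14 := ckP_step (k := 128) h13 kGf33_1c13 rfl
  exact h14

theorem pGf33_2 : CkP QGf32 (6, 0x1010601130c01100b1d16051a1503200f09)
    [3, 2, 2, 0, 0] 16 := by
  have h0 := ckP_zero QGf32 (6, 0x1010601130c01100b1d16051a1503200f09)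
    [3, 2, 2, 0, 0]
  have h1 := ckP_step (k := 16) h0 kGf33_2c0 rfl
  exact h1

theorem pGf33_3 : CkP QGf32 (9, 0x12a24010107341712321d0c01231101290b261b042015022d0e08)
    [4, 3, 2, 2, 0, 0] 32 := by
  have h0 := ckP_zero QGf32 (9, 0x12a24010107341712321d0c01231101290b261b042015022d0e08)
    [4, 3, 2, 2, 0, 0]
  have h1 := ckP_step (k := 31) h0 kGf33_3c0 rfl
  have h2 := ckP_step (k := 32) h1 kGf33_3c1 rfl
  exact h2

theorem pGf33_4 : CkP QGf32 (0xa, 0x1013638312b352412331e0c2e190a281710231d022c1a072620050f0914)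
    [4, 3, 0, 0, 0, 0, 0] 64 := by
  have h0 := ckP_zero QGf32 (0xa, 0x1013638312b352412331e0c2e190a281710231d022c1a072620050f0914)
    [4, 3, 0, 0, 0, 0, 0]
  have h1 := ckP_step (k := 47) h0 kGf33_4c0 rfl
  have h2 := ckP_step (k := 63) h1 kGf33_4c1 rfl
  have h3 := ckP_step (k := 64) h2 kGf33_4c2 rfl
  exact h3

theorem pGf33_5 : CkP QGf32 (0xe, 0x10149463c36514e4244302a4c1e164a2412401c0c3e100634190a3a2e0e23380232281a2c2005260914)
    [0, 0, 0, 0] 8 := by
  have h0 := ckP_zero QGf32 (0xe, 0x10149463c36514e4244302a4c1e164a2412401c0c3e100634190a3a2e0e23380232281a2c2005260914)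
    [0, 0, 0, 0]
  have h1 := ckP_step (k := 8) h0 kGf33_5c0 rfl
  exact h1

theorem pGf33_6 : CkP QGf32 (0xa, 0x136233a312b35241f330c062e39022d130801100b1d160528151a260f20)
    [7, 6, 5, 4, 0, 0, 0, 0] 128 := by
  have h0 := ckP_zero QGf32 (0xa, 0x136233a312b35241f330c062e39022d130801100b1d160528151a260f20)
    [7, 6, 5, 4, 0, 0, 0, 0]
  have h1 := ckP_step (k := 128) h0 kGf33_6c0 rfl
  exact h1

theorem kGf33 : PpI QGf32 6 TGf33 CAGf CBGf 7 := by
  have h0 := ppI_zero QGf32 6 TGf33 CAGf CBGf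
  have h1 := ppI_stepV (k' := 1) (q := (6, 0x19130c17100b251f06231c05201b03140f09)) h0 rfl kGf33_0r pGf33_0 kGf33_0m rfl
  have h2 := ppI_stepV (k' := 2) (q := (6, 0x19120d16110b251e07221d05211b03150f09)) h1 rfl kGf33_1r pGf33_1 kGf33_1m rfl
  have h3 := ppI_stepV (k' := 3) (q := (6, 0x1010601130c01100b1d16051a1503200f09)) h2 rfl kGf33_2r pGf33_2 kGf33_2m rfl
  have h4 := ppI_stepV (k' := 4) (q := (9, 0x12a24010107341712321d0c01231101290b261b042015022d0e08)) h3 rfl kGf33_3r pGf33_3 kGf33_3m rfl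
  have h5 := ppI_stepV (k' := 5) (q := (0xa, 0x1013638312b352412331e0c2e190a281710231d022c1a072620050f0914)) h4 rfl kGf33_4r pGf33_4 kGf33_4m rfl
  have h6 := ppI_stepV (k' := 6) (q := (0xe, 0x10149463c36514e4244302a4c1e164a2412401c0c3e100634190a3a2e0e23380232281a2c2005260914)) h5 rfl kGf33_5r pGf33_5 kGf33_5m rfl
  have h7 := ppI_stepV (k' := 7) (q := (0xa, 0x136233a312b35241f330c062e39022d130801100b1d160528151a260f20)) h6 rfl kGf33_6r pGf33_6 kGf33_6m rfl
  exact h7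

theorem zGf33 : (!false || allK QGf32 (fun _ => true) (nzq CBGf)
  0) = true := by decide +kernel

theorem mGf33A : (Nat.ble 2 1 || memI QGf32 28 1 257) = true := by decide +kernel

theorem mGf33B : (Nat.ble 1 1 || memI QGf32 0 1 1) = true := by decide +kernel

/-- **the phase 33** -/
theorem cGf33 : Dj5 CAGf CBGf PLGf (dnL QGf33) :=
  Dj5.rawP vokAGf vokBGf mclAGf mclBGf mkoGf wfpGf cGf32 mGf33A mGf33B (by norm_num) tGf33 kGf33 lenGf zGf33 bGf33

end EF18
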