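import Pool.Agent.Lib.MP_ef18bd_co.G5.P34

/-!
# Phase 34: closed patterns
-/

namespace EF18

set_option linter.defProp false

def jGf34_0 : j0F QGf33 BGf34 66 0
  0x1010007000006c00006800006400006000005c00005400004800004400004000003c00001c00001800003c10003810003410003010002c1000281000201000181000002000246000186000005000bc70009070008870006870005870003070002470001c70001870000070009080008480008080005080004c800048800008c00354e000dce000c0e000bce000b8e000b4e000a8e00080e0001ce000193003916002b160001150023d600015400321700c95800bdd8010999009cd9008ddb000adb00011b = true := by
  decide +kernel

end EF18
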