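import Pool.Agent.Lib.MP_ef18bd_co.G5.P34

/-!
# Phase 34: roots
-/

namespace EF18

set_option linter.defProp false

def oGf34_0_0 : rGf34 0 4
  0x74706c6864605c5854504c4844403c3834302c2824201c1814100c080401b352008c8884807c7874706c6864605c5854504c4844403c3834302c2824201c1814100c080401591260a4a09c9894908c8884807c7874706c6860645c585440443c504c482c242838343010140c1c2018080005b3d2c0a4a09c9894908c8884807c7874706c6864605c58544c504844403c3830342c28241c201810140c080401b3d2c = true := by
  decide +kernel

end EF18
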