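import Pool.Agent.Lib.MP_ef18bd_co.G5.C33
import Pool.Agent.Lib.MP_ef18bd_co.G5.P34x0
import Pool.Agent.Lib.MP_ef18bd_co.G5.P34x1
import Pool.Agent.Lib.MP_ef18bd_co.G5.P34x2
import Pool.Agent.Lib.MP_ef18bd_co.G5.P34x3
import Pool.Agent.Lib.MP_ef18bd_co.G5.P34j0
import Pool.Agent.Lib.MP_ef18bd_co.G5.P34r0
import Pool.Agent.Lib.MP_ef18bd_co.G5.P34k0

/-!
# Phase 34
-/

namespace EF18

theorem aGf34 : ∀ i < 1744, Val (stD (dnL QGf33) SGf34) (prc BGf34 i) := by
  have j0 := ents_zeroF QGf33 SGf34 BGf34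
  have j1 := ents_dnF (k := 66) j0 jGf34_0 rfl
  have h0 := j1
  have h1 := wGf34_0_0 h0
  have h2 := wGf34_0_1 h1
  have h3 := wGf34_0_2 h2
  have h4 := wGf34_0_3 h3
  have h5 := wGf34_0_4 h4
  have h6 := wGf34_0_5 h5
  have h7 := wGf34_0_6 h6
  have h8 := wGf34_0_7 h7
  have h9 := wGf34_0_8 h8
  have h10 := wGf34_0_9 h9
  have h11 := wGf34_0_10 h10
  have h12 := wGf34_0_11 h11
  have h13 := wGf34_0_12 h12
  have h14 := wGf34_0_13 h13
  have h15 := wGf34_0_14 h14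
  have h16 := wGf34_0_15 h15
  have h17 := wGf34_0_16 h16
  have h18 := wGf34_0_17 h17
  have h19 := wGf34_1_0 h18
  have h20 := wGf34_1_1 h19
  have h21 := wGf34_1_2 h20
  have h22 := wGf34_1_3 h21
  have h23 := wGf34_1_4 h22
  have h24 := wGf34_1_5 h23
  have h25 := wGf34_1_6 h24
  have h26 := wGf34_1_7 h25
  have h27 := wGf34_1_8 h26
  have h28 := wGf34_1_9 h27
  have h29 := wGf34_1_10 h28
  have h30 := wGf34_1_11 h29
  have h31 := wGf34_1_12 h30
  have h32 := wGf34_1_13 h31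
  have h33 := wGf34_1_14 h32
  have h34 := wGf34_1_15 h33
  have h35 := wGf34_1_16 h34
  have h36 := wGf34_1_17 h35
  have h37 := wGf34_1_18 h36
  have h38 := wGf34_1_19 h37
  have h39 := wGf34_2_0 h38
  have h40 := wGf34_2_1 h39
  have h41 := wGf34_2_2 h40
  have h42 := wGf34_2_3 h41
  have h43 := wGf34_2_4 h42
  have h44 := wGf34_2_5 h43
  have h45 := wGf34_2_6 h44
  have h46 := wGf34_2_7 h45
  have h47 := wGf34_2_8 h46
  have h48 := wGf34_2_9 h47
  have h49 := wGf34_2_10 h48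
  have h50 := wGf34_2_11 h49
  have h51 := wGf34_2_12 h50
  have h52 := wGf34_2_13 h51
  have h53 := wGf34_2_14 h52
  have h54 := wGf34_2_15 h53
  have h55 := wGf34_2_16 h54
  have h56 := wGf34_2_17 h55
  have h57 := wGf34_2_18 h56
  have h58 := wGf34_3_0 h57
  have h59 := wGf34_3_1 h58
  have h60 := wGf34_3_2 h59
  have h61 := wGf34_3_3 h60
  have h62 := wGf34_3_4 h61
  have h63 := wGf34_3_5 h62
  have h64 := wGf34_3_6 h63
  have h65 := wGf34_3_7 h64
  have h66 := wGf34_3_8 h65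
  have h67 := wGf34_3_9 h66
  have h68 := wGf34_3_10 h67
  have h69 := wGf34_3_11 h68
  exact h69

theorem bGf34 : RtI (ok5 (okB 1 true)) (stD (dnL QGf33) SGf34) RBGf34 4 := by
  have h0 := rtI_zero (ok5 (okB 1 true)) (stD (dnL QGf33) SGf34) RBGf34
  have h1 := uGf34 aGf34 h0 oGf34_0_0 (show 0 + 4 = 4 from rfl)
  exact h1

theorem tGf34 : (TGf34.all okJ) = true := by decide +kernel

theorem pGf34_0 : CkP QGf33 (6, 0x19130c17100b251f06231c05201b03140f09)
    [2, 0, 0, 0, 0, 0, 0] 64 := by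
  have h0 := ckP_zero QGf33 (6, 0x19130c17100b251f06231c05201b03140f09)
    [2, 0, 0, 0, 0, 0, 0]
  have h1 := ckP_step (k := 63) h0 kGf34_0c0 rfl
  have h2 := ckP_step (k := 64) h1 kGf34_0c1 rfl
  exact h2

theorem pGf34_1 : CkP QGf33 (6, 0x19120d16110b251e07221d05211b03150f09)
    [4, 3, 0, 0, 0, 0, 0, 0] 128 := by
  have h0 := ckP_zero QGf33 (6, 0x19120d16110b251e07221d05211b03150f09)
    [4, 3, 0, 0, 0, 0, 0, 0]
  have h1 := ckP_step (k := 63) h0 kGf34_1c0 rfl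
  have h2 := ckP_step (k := 64) h1 kGf34_1c1 rfl
  have h3 := ckP_step (k := 95) h2 kGf34_1c2 rfl
  have h4 := ckP_step (k := 96) h3 kGf34_1c3 rfl
  have h5 := ckP_step (k := 111) h4 kGf34_1c4 rfl
  have h6 := ckP_step (k := 112) h5 kGf34_1c5 rfl
  have h7 := ckP_step (k := 119) h6 kGf34_1c6 rfl
  have h8 := ckP_step (k := 120) h7 kGf34_1c7 rfl
  have h9 := ckP_step (k := 123) h8 kGf34_1c8 rfl
  have h10 := ckP_step (k := 124) h9 kGf34_1c9 rfl
  have h11 := ckP_step (k := 125) h10 kGf34_1c10 rfl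
  have h12 := ckP_step (k := 126) h11 kGf34_1c11 rfl
  have h13 := ckP_step (k := 127) h12 kGf34_1c12 rfl
  have h14 := ckP_step (k := 128) h13 kGf34_1c13 rfl
  exact h14

theorem pGf34_2 : CkP QGf33 (6, 0x1010601130c01100b1d16051a1503200f09)
    [3, 2, 1, 0, 0] 16 := by
  have h0 := ckP_zero QGf33 (6, 0x1010601130c01100b1d16051a1503200f09)
    [3, 2, 1, 0, 0]
  have h1 := ckP_step (k := 16) h0 kGf34_2c0 rfl
  exact h1

theorem pGf34_3 : CkP QGf33 (9, 0x12a24010107341712321d0c01231101290b261b042015022d0e08)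
    [4, 3, 2, 2, 0, 0] 32 := by
  have h0 := ckP_zero QGf33 (9, 0x12a24010107341712321d0c01231101290b261b042015022d0e08)
    [4, 3, 2, 2, 0, 0]
  have h1 := ckP_step (k := 31) h0 kGf34_3c0 rfl
  have h2 := ckP_step (k := 32) h1 kGf34_3c1 rfl
  exact h2

theorem pGf34_4 : CkP QGf33 (0xa, 0x1013638312b352412331e0c2e190a281710231d022c1a072620050f0914)
    [4, 3, 0, 0, 0, 0, 0] 64 := by
  have h0 := ckP_zero QGf33 (0xa, 0x1013638312b352412331e0c2e190a281710231d022c1a072620050f0914)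
    [4, 3, 0, 0, 0, 0, 0]
  have h1 := ckP_step (k := 47) h0 kGf34_4c0 rfl
  have h2 := ckP_step (k := 63) h1 kGf34_4c1 rfl
  have h3 := ckP_step (k := 64) h2 kGf34_4c2 rfl
  exact h3

theorem pGf34_5 : CkP QGf33 (0xe, 0x10149463c36514e4244302a4c1e164a2412401c0c3e100634190a3a2e0e23380232281a2c2005260914)
    [0, 0, 0, 0] 8 := by
  have h0 := ckP_zero QGf33 (0xe, 0x10149463c36514e4244302a4c1e164a2412401c0c3e100634190a3a2e0e23380232281a2c2005260914)
    [0, 0, 0, 0]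
  have h1 := ckP_step (k := 8) h0 kGf34_5c0 rfl
  exact h1

theorem pGf34_6 : CkP QGf33 (0xa, 0x136233a312b35241f330c062e39022d130801100b1d160528151a260f20)
    [7, 6, 5, 4, 0, 0, 0, 0] 128 := by
  have h0 := ckP_zero QGf33 (0xa, 0x136233a312b35241f330c062e39022d130801100b1d160528151a260f20)
    [7, 6, 5, 4, 0, 0, 0, 0]
  have h1 := ckP_step (k := 128) h0 kGf34_6c0 rfl
  exact h1

theorem kGf34 : PpI QGf33 6 TGf34 CAGf CBGf 7 := by
  have h0 := ppI_zero QGf33 6 TGf34 CAGf CBGf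
  have h1 := ppI_stepV (k' := 1) (q := (6, 0x19130c17100b251f06231c05201b03140f09)) h0 rfl kGf34_0r pGf34_0 kGf34_0m rfl
  have h2 := ppI_stepV (k' := 2) (q := (6, 0x19120d16110b251e07221d05211b03150f09)) h1 rfl kGf34_1r pGf34_1 kGf34_1m rfl
  have h3 := ppI_stepV (k' := 3) (q := (6, 0x1010601130c01100b1d16051a1503200f09)) h2 rfl kGf34_2r pGf34_2 kGf34_2m rfl
  have h4 := ppI_stepV (k' := 4) (q := (9, 0x12a24010107341712321d0c01231101290b261b042015022d0e08)) h3 rfl kGf34_3r pGf34_3 kGf34_3m rfl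
  have h5 := ppI_stepV (k' := 5) (q := (0xa, 0x1013638312b352412331e0c2e190a281710231d022c1a072620050f0914)) h4 rfl kGf34_4r pGf34_4 kGf34_4m rfl
  have h6 := ppI_stepV (k' := 6) (q := (0xe, 0x10149463c36514e4244302a4c1e164a2412401c0c3e100634190a3a2e0e23380232281a2c2005260914)) h5 rfl kGf34_5r pGf34_5 kGf34_5m rfl
  have h7 := ppI_stepV (k' := 7) (q := (0xa, 0x136233a312b35241f330c062e39022d130801100b1d160528151a260f20)) h6 rfl kGf34_6r pGf34_6 kGf34_6m rfl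
  exact h7

theorem zGf34 : (!false || allK QGf33 (fun _ => true) (nzq CBGf)
  0) = true := by decide +kernel

theorem mGf34A : (Nat.ble 2 1 || memI QGf33 29 1 257) = true := by decide +kernel

theorem mGf34B : (Nat.ble 1 1 || memI QGf33 0 1 1) = true := by decide +kernel

/-- **the phase 34** -/
theorem cGf34 : Dj5 CAGf CBGf PLGf (dnL QGf34) :=
  Dj5.rawP vokAGf vokBGf mclAGf mclBGf mkoGf wfpGf cGf33 mGf34A mGf34B (by norm_num) tGf34 kGf34 lenGf zGf34 bGf34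

end EF18
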