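import Pool.Agent.Lib.MP_ef18bd_co.G5.P35

/-!
# Phase 35: closed patterns
-/

namespace EF18

set_option linter.defProp false

def jGf35_0 : j0F QGf34 BGf35 56 0
  0xc00000800001020000010005810005010004c10003810003410003010002c10002810002410002010001410001010000c10000810000410004820004420004020003020002420001c20001820003070002c70002870002470002070001c7000006000bc8000b88000b48000b08000a080007c800054800030800354f000dcf000a8f000491000091000194001b1500391700325800c99900c95900bdd900bd59000adc000921 = true := by
  decide +kernel

end EF18
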