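import Pool.Agent.Lib.MP_ef18bd_co.G5.P35

/-!
# Phase 35: roots
-/

namespace EF18

set_option linter.defProp false

def oGf35_0_0 : rGf35 0 1
  0x8040246504 = true := by
  decide +kernel

end EF18
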