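import Pool.Agent.Lib.MP_ef18bd_co.G5.C34
import Pool.Agent.Lib.MP_ef18bd_co.G5.P35x0
import Pool.Agent.Lib.MP_ef18bd_co.G5.P35x1
import Pool.Agent.Lib.MP_ef18bd_co.G5.P35x2
import Pool.Agent.Lib.MP_ef18bd_co.G5.P35x3
import Pool.Agent.Lib.MP_ef18bd_co.G5.P35x4
import Pool.Agent.Lib.MP_ef18bd_co.G5.P35j0
import Pool.Agent.Lib.MP_ef18bd_co.G5.P35r0
import Pool.Agent.Lib.MP_ef18bd_co.G5.P35k0

/-!
# Phase 35
-/

namespace EF18

theorem aGf35 : ∀ i < 2330, Val (stD (dnL QGf34) SGf35) (prc BGf35 i) := by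
  have j0 := ents_zeroF QGf34 SGf35 BGf35
  have j1 := ents_dnF (k := 56) j0 jGf35_0 rfl
  have h0 := j1
  have h1 := wGf35_0_0 h0
  have h2 := wGf35_0_1 h1
  have h3 := wGf35_0_2 h2
  have h4 := wGf35_0_3 h3
  have h5 := wGf35_0_4 h4
  have h6 := wGf35_0_5 h5
  have h7 := wGf35_0_6 h6
  have h8 := wGf35_0_7 h7
  have h9 := wGf35_0_8 h8
  have h10 := wGf35_0_9 h9
  have h11 := wGf35_0_10 h10
  have h12 := wGf35_0_11 h11
  have h13 := wGf35_0_12 h12
  have h14 := wGf35_0_13 h13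
  have h15 := wGf35_0_14 h14
  have h16 := wGf35_0_15 h15
  have h17 := wGf35_0_16 h16
  have h18 := wGf35_0_17 h17
  have h19 := wGf35_0_18 h18
  have h20 := wGf35_0_19 h19
  have h21 := wGf35_0_20 h20
  have h22 := wGf35_0_21 h21
  have h23 := wGf35_0_22 h22
  have h24 := wGf35_0_23 h23
  have h25 := wGf35_0_24 h24
  have h26 := wGf35_0_25 h25
  have h27 := wGf35_0_26 h26
  have h28 := wGf35_0_27 h27
  have h29 := wGf35_0_28 h28
  have h30 := wGf35_0_29 h29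
  have h31 := wGf35_0_30 h30
  have h32 := wGf35_0_31 h31
  have h33 := wGf35_1_0 h32
  have h34 := wGf35_1_1 h33
  have h35 := wGf35_1_2 h34
  have h36 := wGf35_1_3 h35
  have h37 := wGf35_1_4 h36
  have h38 := wGf35_1_5 h37
  have h39 := wGf35_1_6 h38
  have h40 := wGf35_1_7 h39
  have h41 := wGf35_1_8 h40
  have h42 := wGf35_1_9 h41
  have h43 := wGf35_1_10 h42
  have h44 := wGf35_1_11 h43
  have h45 := wGf35_1_12 h44
  have h46 := wGf35_1_13 h45
  have h47 := wGf35_1_14 h46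
  have h48 := wGf35_1_15 h47
  have h49 := wGf35_1_16 h48
  have h50 := wGf35_1_17 h49
  have h51 := wGf35_1_18 h50
  have h52 := wGf35_1_19 h51
  have h53 := wGf35_1_20 h52
  have h54 := wGf35_1_21 h53
  have h55 := wGf35_2_0 h54
  have h56 := wGf35_2_1 h55
  have h57 := wGf35_2_2 h56
  have h58 := wGf35_2_3 h57
  have h59 := wGf35_2_4 h58
  have h60 := wGf35_2_5 h59
  have h61 := wGf35_2_6 h60
  have h62 := wGf35_2_7 h61
  have h63 := wGf35_2_8 h62
  have h64 := wGf35_2_9 h63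
  have h65 := wGf35_2_10 h64
  have h66 := wGf35_2_11 h65
  have h67 := wGf35_2_12 h66
  have h68 := wGf35_2_13 h67
  have h69 := wGf35_2_14 h68
  have h70 := wGf35_2_15 h69
  have h71 := wGf35_2_16 h70
  have h72 := wGf35_2_17 h71
  have h73 := wGf35_2_18 h72
  have h74 := wGf35_2_19 h73
  have h75 := wGf35_2_20 h74
  have h76 := wGf35_3_0 h75
  have h77 := wGf35_3_1 h76
  have h78 := wGf35_3_2 h77
  have h79 := wGf35_3_3 h78
  have h80 := wGf35_3_4 h79
  have h81 := wGf35_3_5 h80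
  have h82 := wGf35_3_6 h81
  have h83 := wGf35_3_7 h82
  have h84 := wGf35_3_8 h83
  have h85 := wGf35_3_9 h84
  have h86 := wGf35_3_10 h85
  have h87 := wGf35_3_11 h86
  have h88 := wGf35_3_12 h87
  have h89 := wGf35_3_13 h88
  have h90 := wGf35_3_14 h89
  have h91 := wGf35_4_0 h90
  have h92 := wGf35_4_1 h91
  exact h92

theorem bGf35 : RtI (ok5 (okB 1 true)) (stD (dnL QGf34) SGf35) RBGf35 1 := by
  have h0 := rtI_zero (ok5 (okB 1 true)) (stD (dnL QGf34) SGf35) RBGf35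
  have h1 := uGf35 aGf35 h0 oGf35_0_0 (show 0 + 1 = 1 from rfl)
  exact h1

theorem tGf35 : (TGf35.all okJ) = true := by decide +kernel

theorem pGf35_0 : CkP QGf34 (6, 0x19130c17100b251f06231c05201b03140f09)
    [2, 0, 0, 0, 0, 0, 0] 64 := by
  have h0 := ckP_zero QGf34 (6, 0x19130c17100b251f06231c05201b03140f09)
    [2, 0, 0, 0, 0, 0, 0]
  have h1 := ckP_step (k := 63) h0 kGf35_0c0 rfl
  have h2 := ckP_step (k := 64) h1 kGf35_0c1 rfl
  exact h2

theorem pGf35_1 : CkP QGf34 (6, 0x19120d16110b251e07221d05211b03150f09)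
    [4, 3, 0, 0, 0, 0, 0, 0] 128 := by
  have h0 := ckP_zero QGf34 (6, 0x19120d16110b251e07221d05211b03150f09)
    [4, 3, 0, 0, 0, 0, 0, 0]
  have h1 := ckP_step (k := 63) h0 kGf35_1c0 rfl
  have h2 := ckP_step (k := 64) h1 kGf35_1c1 rfl
  have h3 := ckP_step (k := 95) h2 kGf35_1c2 rfl
  have h4 := ckP_step (k := 96) h3 kGf35_1c3 rfl
  have h5 := ckP_step (k := 111) h4 kGf35_1c4 rfl
  have h6 := ckP_step (k := 112) h5 kGf35_1c5 rfl
  have h7 := ckP_step (k := 119) h6 kGf35_1c6 rfl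
  have h8 := ckP_step (k := 120) h7 kGf35_1c7 rfl
  have h9 := ckP_step (k := 123) h8 kGf35_1c8 rfl
  have h10 := ckP_step (k := 124) h9 kGf35_1c9 rfl
  have h11 := ckP_step (k := 125) h10 kGf35_1c10 rfl
  have h12 := ckP_step (k := 126) h11 kGf35_1c11 rfl
  have h13 := ckP_step (k := 127) h12 kGf35_1c12 rfl
  have h14 := ckP_step (k := 128) h13 kGf35_1c13 rfl
  exact h14

theorem pGf35_2 : CkP QGf34 (6, 0x1010601130c01100b1d16051a1503200f09)
    [3, 2, 1, 0, 0] 16 := by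
  have h0 := ckP_zero QGf34 (6, 0x1010601130c01100b1d16051a1503200f09)
    [3, 2, 1, 0, 0]
  have h1 := ckP_step (k := 16) h0 kGf35_2c0 rfl
  exact h1

theorem pGf35_3 : CkP QGf34 (9, 0x12a24010107341712321d0c01231101290b261b042015022d0e08)
    [4, 3, 2, 1, 0, 0] 32 := by
  have h0 := ckP_zero QGf34 (9, 0x12a24010107341712321d0c01231101290b261b042015022d0e08)
    [4, 3, 2, 1, 0, 0]
  have h1 := ckP_step (k := 29) h0 kGf35_3c0 rfl
  have h2 := ckP_step (k := 32) h1 kGf35_3c1 rfl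
  exact h2

theorem pGf35_4 : CkP QGf34 (0xa, 0x1013638312b352412331e0c2e190a281710231d022c1a072620050f0914)
    [4, 3, 0, 0, 0, 0, 0] 64 := by
  have h0 := ckP_zero QGf34 (0xa, 0x1013638312b352412331e0c2e190a281710231d022c1a072620050f0914)
    [4, 3, 0, 0, 0, 0, 0]
  have h1 := ckP_step (k := 47) h0 kGf35_4c0 rfl
  have h2 := ckP_step (k := 63) h1 kGf35_4c1 rfl
  have h3 := ckP_step (k := 64) h2 kGf35_4c2 rfl
  exact h3

theorem pGf35_5 : CkP QGf34 (0xe, 0x10149463c36514e4244302a4c1e164a2412401c0c3e100634190a3a2e0e23380232281a2c2005260914)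
    [0, 0, 0, 0] 8 := by
  have h0 := ckP_zero QGf34 (0xe, 0x10149463c36514e4244302a4c1e164a2412401c0c3e100634190a3a2e0e23380232281a2c2005260914)
    [0, 0, 0, 0]
  have h1 := ckP_step (k := 8) h0 kGf35_5c0 rfl
  exact h1

theorem pGf35_6 : CkP QGf34 (0xa, 0x136233a312b35241f330c062e39022d130801100b1d160528151a260f20)
    [7, 6, 5, 4, 0, 0, 0, 0] 128 := by
  have h0 := ckP_zero QGf34 (0xa, 0x136233a312b35241f330c062e39022d130801100b1d160528151a260f20)
    [7, 6, 5, 4, 0, 0, 0, 0]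
  have h1 := ckP_step (k := 128) h0 kGf35_6c0 rfl
  exact h1

theorem kGf35 : PpI QGf34 6 TGf35 CAGf CBGf 7 := by
  have h0 := ppI_zero QGf34 6 TGf35 CAGf CBGf
  have h1 := ppI_stepV (k' := 1) (q := (6, 0x19130c17100b251f06231c05201b03140f09)) h0 rfl kGf35_0r pGf35_0 kGf35_0m rfl
  have h2 := ppI_stepV (k' := 2) (q := (6, 0x19120d16110b251e07221d05211b03150f09)) h1 rfl kGf35_1r pGf35_1 kGf35_1m rfl
  have h3 := ppI_stepV (k' := 3) (q := (6, 0x1010601130c01100b1d16051a1503200f09)) h2 rfl kGf35_2r pGf35_2 kGf35_2m rfl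
  have h4 := ppI_stepV (k' := 4) (q := (9, 0x12a24010107341712321d0c01231101290b261b042015022d0e08)) h3 rfl kGf35_3r pGf35_3 kGf35_3m rfl
  have h5 := ppI_stepV (k' := 5) (q := (0xa, 0x1013638312b352412331e0c2e190a281710231d022c1a072620050f0914)) h4 rfl kGf35_4r pGf35_4 kGf35_4m rfl
  have h6 := ppI_stepV (k' := 6) (q := (0xe, 0x10149463c36514e4244302a4c1e164a2412401c0c3e100634190a3a2e0e23380232281a2c2005260914)) h5 rfl kGf35_5r pGf35_5 kGf35_5m rfl
  have h7 := ppI_stepV (k' := 7) (q := (0xa, 0x136233a312b35241f330c062e39022d130801100b1d160528151a260f20)) h6 rfl kGf35_6r pGf35_6 kGf35_6m rfl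
  exact h7

theorem zGf35 : (!false || allK QGf34 (fun _ => true) (nzq CBGf)
  0) = true := by decide +kernel

theorem mGf35A : (Nat.ble 2 1 || memI QGf34 30 1 257) = true := by decide +kernel

theorem mGf35B : (Nat.ble 1 1 || memI QGf34 0 1 1) = true := by decide +kernel

/-- **the phase 35** -/
theorem cGf35 : Dj5 CAGf CBGf PLGf (dnL QGf35) :=
  Dj5.rawP vokAGf vokBGf mclAGf mclBGf mkoGf wfpGf cGf34 mGf35A mGf35B (by norm_num) tGf35 kGf35 lenGf zGf35 bGf35

end EF18
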