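import Pool.Agent.Lib.MP_ef18bd_co.G5.P36

/-!
# Phase 36: closed patterns
-/

namespace EF18

set_option linter.defProp false

def jGf36_0 : j0F QGf35 BGf36 27 0
  0xe001d9000075000000f0001d00000100000d20000920000120000130001950001150000d70028980027980023d800231800015600011600d21d000add0009dd00095d00001e00011d000020000822 = true := by
  decide +kernel

end EF18
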