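import Pool.Agent.Lib.MP_ef18bd_co.G5.C35
import Pool.Agent.Lib.MP_ef18bd_co.G5.P36x0
import Pool.Agent.Lib.MP_ef18bd_co.G5.P36x1
import Pool.Agent.Lib.MP_ef18bd_co.G5.P36x2
import Pool.Agent.Lib.MP_ef18bd_co.G5.P36x3
import Pool.Agent.Lib.MP_ef18bd_co.G5.P36x4
import Pool.Agent.Lib.MP_ef18bd_co.G5.P36x5
import Pool.Agent.Lib.MP_ef18bd_co.G5.P36x6
import Pool.Agent.Lib.MP_ef18bd_co.G5.P36j0
import Pool.Agent.Lib.MP_ef18bd_co.G5.P36r0
import Pool.Agent.Lib.MP_ef18bd_co.G5.P36k0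

/-!
# Phase 36
-/

namespace EF18

theorem aGf36 : ∀ i < 2209, Val (stD (dnL QGf35) SGf36) (prc BGf36 i) := by
  have j0 := ents_zeroF QGf35 SGf36 BGf36
  have j1 := ents_dnF (k := 27) j0 jGf36_0 rfl
  have h0 := j1
  have h1 := wGf36_0_0 h0
  have h2 := wGf36_0_1 h1
  have h3 := wGf36_0_2 h2
  have h4 := wGf36_0_3 h3
  have h5 := wGf36_0_4 h4
  have h6 := wGf36_0_5 h5
  have h7 := wGf36_0_6 h6
  have h8 := wGf36_0_7 h7
  have h9 := wGf36_1_0 h8
  have h10 := wGf36_1_1 h9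
  have h11 := wGf36_1_2 h10
  have h12 := wGf36_1_3 h11
  have h13 := wGf36_1_4 h12
  have h14 := wGf36_1_5 h13
  have h15 := wGf36_1_6 h14
  have h16 := wGf36_1_7 h15
  have h17 := wGf36_1_8 h16
  have h18 := wGf36_1_9 h17
  have h19 := wGf36_1_10 h18
  have h20 := wGf36_2_0 h19
  have h21 := wGf36_2_1 h20
  have h22 := wGf36_2_2 h21
  have h23 := wGf36_2_3 h22
  have h24 := wGf36_2_4 h23
  have h25 := wGf36_2_5 h24
  have h26 := wGf36_2_6 h25
  have h27 := wGf36_2_7 h26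
  have h28 := wGf36_2_8 h27
  have h29 := wGf36_2_9 h28
  have h30 := wGf36_2_10 h29
  have h31 := wGf36_2_11 h30
  have h32 := wGf36_2_12 h31
  have h33 := wGf36_2_13 h32
  have h34 := wGf36_2_14 h33
  have h35 := wGf36_2_15 h34
  have h36 := wGf36_2_16 h35
  have h37 := wGf36_2_17 h36
  have h38 := wGf36_2_18 h37
  have h39 := wGf36_2_19 h38
  have h40 := wGf36_3_0 h39
  have h41 := wGf36_3_1 h40
  have h42 := wGf36_3_2 h41
  have h43 := wGf36_3_3 h42
  have h44 := wGf36_3_4 h43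
  have h45 := wGf36_3_5 h44
  have h46 := wGf36_3_6 h45
  have h47 := wGf36_3_7 h46
  have h48 := wGf36_3_8 h47
  have h49 := wGf36_3_9 h48
  have h50 := wGf36_3_10 h49
  have h51 := wGf36_3_11 h50
  have h52 := wGf36_3_12 h51
  have h53 := wGf36_3_13 h52
  have h54 := wGf36_3_14 h53
  have h55 := wGf36_3_15 h54
  have h56 := wGf36_4_0 h55
  have h57 := wGf36_4_1 h56
  have h58 := wGf36_4_2 h57
  have h59 := wGf36_4_3 h58
  have h60 := wGf36_4_4 h59
  have h61 := wGf36_4_5 h60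
  have h62 := wGf36_4_6 h61
  have h63 := wGf36_4_7 h62
  have h64 := wGf36_4_8 h63
  have h65 := wGf36_4_9 h64
  have h66 := wGf36_4_10 h65
  have h67 := wGf36_4_11 h66
  have h68 := wGf36_4_12 h67
  have h69 := wGf36_4_13 h68
  have h70 := wGf36_4_14 h69
  have h71 := wGf36_4_15 h70
  have h72 := wGf36_5_0 h71
  have h73 := wGf36_5_1 h72
  have h74 := wGf36_5_2 h73
  have h75 := wGf36_5_3 h74
  have h76 := wGf36_5_4 h75
  have h77 := wGf36_5_5 h76
  have h78 := wGf36_5_6 h77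
  have h79 := wGf36_5_7 h78
  have h80 := wGf36_5_8 h79
  have h81 := wGf36_5_9 h80
  have h82 := wGf36_5_10 h81
  have h83 := wGf36_5_11 h82
  have h84 := wGf36_5_12 h83
  have h85 := wGf36_5_13 h84
  have h86 := wGf36_5_14 h85
  have h87 := wGf36_5_15 h86
  have h88 := wGf36_5_16 h87
  have h89 := wGf36_5_17 h88
  have h90 := wGf36_6_0 h89
  have h91 := wGf36_6_1 h90
  exact h91

theorem bGf36 : RtI (ok5 (okB 0 true)) (stD (dnL QGf35) SGf36) RBGf36 460 := by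
  have h0 := rtI_zero (ok5 (okB 0 true)) (stD (dnL QGf35) SGf36) RBGf36
  have h1 := uGf36 aGf36 h0 oGf36_0_0 (show 0 + 25 = 25 from rfl)
  have h2 := uGf36 aGf36 h1 oGf36_0_1 (show 25 + 25 = 50 from rfl)
  have h3 := uGf36 aGf36 h2 oGf36_0_2 (show 50 + 25 = 75 from rfl)
  have h4 := uGf36 aGf36 h3 oGf36_0_3 (show 75 + 25 = 100 from rfl)
  have h5 := uGf36 aGf36 h4 oGf36_0_4 (show 100 + 25 = 125 from rfl)
  have h6 := uGf36 aGf36 h5 oGf36_0_5 (show 125 + 25 = 150 from rfl)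
  have h7 := uGf36 aGf36 h6 oGf36_0_6 (show 150 + 25 = 175 from rfl)
  have h8 := uGf36 aGf36 h7 oGf36_0_7 (show 175 + 25 = 200 from rfl)
  have h9 := uGf36 aGf36 h8 oGf36_0_8 (show 200 + 25 = 225 from rfl)
  have h10 := uGf36 aGf36 h9 oGf36_0_9 (show 225 + 25 = 250 from rfl)
  have h11 := uGf36 aGf36 h10 oGf36_0_10 (show 250 + 25 = 275 from rfl)
  have h12 := uGf36 aGf36 h11 oGf36_0_11 (show 275 + 25 = 300 from rfl)
  have h13 := uGf36 aGf36 h12 oGf36_0_12 (show 300 + 25 = 325 from rfl)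
  have h14 := uGf36 aGf36 h13 oGf36_0_13 (show 325 + 25 = 350 from rfl)
  have h15 := uGf36 aGf36 h14 oGf36_0_14 (show 350 + 25 = 375 from rfl)
  have h16 := uGf36 aGf36 h15 oGf36_0_15 (show 375 + 25 = 400 from rfl)
  have h17 := uGf36 aGf36 h16 oGf36_0_16 (show 400 + 25 = 425 from rfl)
  have h18 := uGf36 aGf36 h17 oGf36_0_17 (show 425 + 25 = 450 from rfl)
  have h19 := uGf36 aGf36 h18 oGf36_0_18 (show 450 + 10 = 460 from rfl)
  exact h19

theorem tGf36 : (TGf36.all okJ) = true := by decide +kernel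

theorem pGf36_0 : CkP QGf35 (6, 0x19130c17100b251f06231c05201b03140f09)
    [3, 0, 0, 0, 0, 0, 0] 64 := by
  have h0 := ckP_zero QGf35 (6, 0x19130c17100b251f06231c05201b03140f09)
    [3, 0, 0, 0, 0, 0, 0]
  have h1 := ckP_step (k := 63) h0 kGf36_0c0 rfl
  have h2 := ckP_step (k := 64) h1 kGf36_0c1 rfl
  exact h2

theorem pGf36_1 : CkP QGf35 (6, 0x19120d16110b251e07221d05211b03150f09)
    [4, 3, 2, 0, 0, 0, 0, 0] 128 := by
  have h0 := ckP_zero QGf35 (6, 0x19120d16110b251e07221d05211b03150f09)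
    [4, 3, 2, 0, 0, 0, 0, 0]
  have h1 := ckP_step (k := 63) h0 kGf36_1c0 rfl
  have h2 := ckP_step (k := 64) h1 kGf36_1c1 rfl
  have h3 := ckP_step (k := 95) h2 kGf36_1c2 rfl
  have h4 := ckP_step (k := 96) h3 kGf36_1c3 rfl
  have h5 := ckP_step (k := 111) h4 kGf36_1c4 rfl
  have h6 := ckP_step (k := 112) h5 kGf36_1c5 rfl
  have h7 := ckP_step (k := 119) h6 kGf36_1c6 rfl
  have h8 := ckP_step (k := 120) h7 kGf36_1c7 rfl
  have h9 := ckP_step (k := 123) h8 kGf36_1c8 rfl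
  have h10 := ckP_step (k := 124) h9 kGf36_1c9 rfl
  have h11 := ckP_step (k := 125) h10 kGf36_1c10 rfl
  have h12 := ckP_step (k := 126) h11 kGf36_1c11 rfl
  have h13 := ckP_step (k := 127) h12 kGf36_1c12 rfl
  have h14 := ckP_step (k := 128) h13 kGf36_1c13 rfl
  exact h14

theorem pGf36_2 : CkP QGf35 (6, 0x1010601130c01100b1d16051a1503200f09)
    [3, 2, 2, 1, 0] 16 := by
  have h0 := ckP_zero QGf35 (6, 0x1010601130c01100b1d16051a1503200f09)
    [3, 2, 2, 1, 0]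
  have h1 := ckP_step (k := 16) h0 kGf36_2c0 rfl
  exact h1

theorem pGf36_3 : CkP QGf35 (9, 0x12a24010107341712321d0c01231101290b261b042015022d0e08)
    [4, 3, 2, 2, 0, 0] 32 := by
  have h0 := ckP_zero QGf35 (9, 0x12a24010107341712321d0c01231101290b261b042015022d0e08)
    [4, 3, 2, 2, 0, 0]
  have h1 := ckP_step (k := 31) h0 kGf36_3c0 rfl
  have h2 := ckP_step (k := 32) h1 kGf36_3c1 rfl
  exact h2

theorem pGf36_4 : CkP QGf35 (0xa, 0x1013638312b352412331e0c2e190a281710231d022c1a072620050f0914)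
    [4, 3, 0, 0, 0, 0, 0] 64 := by
  have h0 := ckP_zero QGf35 (0xa, 0x1013638312b352412331e0c2e190a281710231d022c1a072620050f0914)
    [4, 3, 0, 0, 0, 0, 0]
  have h1 := ckP_step (k := 47) h0 kGf36_4c0 rfl
  have h2 := ckP_step (k := 63) h1 kGf36_4c1 rfl
  have h3 := ckP_step (k := 64) h2 kGf36_4c2 rfl
  exact h3

theorem pGf36_5 : CkP QGf35 (0xe, 0x10149463c36514e4244302a4c1e164a2412401c0c3e100634190a3a2e0e23380232281a2c2005260914)
    [0, 0, 0, 0] 8 := by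
  have h0 := ckP_zero QGf35 (0xe, 0x10149463c36514e4244302a4c1e164a2412401c0c3e100634190a3a2e0e23380232281a2c2005260914)
    [0, 0, 0, 0]
  have h1 := ckP_step (k := 8) h0 kGf36_5c0 rfl
  exact h1

theorem pGf36_6 : CkP QGf35 (0xa, 0x136233a312b35241f330c062e39022d130801100b1d160528151a260f20)
    [7, 6, 5, 4, 0, 0, 0, 0] 128 := by
  have h0 := ckP_zero QGf35 (0xa, 0x136233a312b35241f330c062e39022d130801100b1d160528151a260f20)
    [7, 6, 5, 4, 0, 0, 0, 0]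
  have h1 := ckP_step (k := 128) h0 kGf36_6c0 rfl
  exact h1

theorem kGf36 : PpI QGf35 6 TGf36 CAGf CBGf 7 := by
  have h0 := ppI_zero QGf35 6 TGf36 CAGf CBGf
  have h1 := ppI_stepV (k' := 1) (q := (6, 0x19130c17100b251f06231c05201b03140f09)) h0 rfl kGf36_0r pGf36_0 kGf36_0m rfl
  have h2 := ppI_stepV (k' := 2) (q := (6, 0x19120d16110b251e07221d05211b03150f09)) h1 rfl kGf36_1r pGf36_1 kGf36_1m rfl
  have h3 := ppI_stepV (k' := 3) (q := (6, 0x1010601130c01100b1d16051a1503200f09)) h2 rfl kGf36_2r pGf36_2 kGf36_2m rfl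
  have h4 := ppI_stepV (k' := 4) (q := (9, 0x12a24010107341712321d0c01231101290b261b042015022d0e08)) h3 rfl kGf36_3r pGf36_3 kGf36_3m rfl
  have h5 := ppI_stepV (k' := 5) (q := (0xa, 0x1013638312b352412331e0c2e190a281710231d022c1a072620050f0914)) h4 rfl kGf36_4r pGf36_4 kGf36_4m rfl
  have h6 := ppI_stepV (k' := 6) (q := (0xe, 0x10149463c36514e4244302a4c1e164a2412401c0c3e100634190a3a2e0e23380232281a2c2005260914)) h5 rfl kGf36_5r pGf36_5 kGf36_5m rfl
  have h7 := ppI_stepV (k' := 7) (q := (0xa, 0x136233a312b35241f330c062e39022d130801100b1d160528151a260f20)) h6 rfl kGf36_6r pGf36_6 kGf36_6m rfl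
  exact h7

theorem zGf36 : (!false || allK QGf35 (fun _ => true) (nzq CBGf)
  0) = true := by decide +kernel

theorem mGf36A : (Nat.ble 2 0 || memI QGf35 31 1 257) = true := by decide +kernel

theorem mGf36B : (Nat.ble 1 0 || memI QGf35 0 1 1) = true := by decide +kernel

/-- **the phase 36** -/
theorem cGf36 : Dj5 CAGf CBGf PLGf (dnL QGf36) :=
  Dj5.rawP vokAGf vokBGf mclAGf mclBGf mkoGf wfpGf cGf35 mGf36A mGf36B (by norm_num) tGf36 kGf36 lenGf zGf36 bGf36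

end EF18
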