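import Pool.Agent.Lib.MP_ef18bd_co.G5.P37

/-!
# Phase 37: closed patterns
-/

namespace EF18

set_option linter.defProp false

def jGf37_0 : j0F QGf36 BGf37 100 0
  0x4080003fc0003f80003f40003f00003ec0003e80003e40003e00003dc0003d80003d40003d00003cc0003c80003c40003bc0003b80003b40003b00003ac0003a80003a40003a000039c00039800039400039000038c00038800038400038000037c00037800037400037000036c00036800036400036000035c00035800035400035000034c00034800034400034000033c00033800033400033000032c00032800032400032000031400030c0003080002f40002f00002ec0002e80002e40002dc0002d00002cc0002c80002c40002c00002bc0002b80002b40002b00002ac0002a80002a40002a000029c00029800029400029000028c00028800028400028000027c00027800027400027000026c00000d30000150001160001180023d9000117000ade0009de00011e = true := by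
  decide +kernel

def jGf37_1 : j0F QGf36 BGf37 100 100
  0x62000061c00061800061400061000060c0006080006040006000005fc0005f80005f40005ec0005e80005e40005e00005dc0005d80005d40005d00005cc0005c80005c40005c00005b80005b00005a80005a400059800059400059000058800058400057400056c00056800056000055800055400053000052c00052800052400052000051c0005180005040005000004fc0004f80004f40004f00004ec0004e80004e40004e00004dc0004d80004d40004d00004cc0004c80004c40004c00004bc0004b80004b40004b00004ac0004a80004a40004a000049c00049800049400049000048c00048800048400048000047c00047800047400047000046c00046800046400046000045c00045800045400045000044c00044800044400043c0004380004280004240004200 = true := by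
  decide +kernel

def jGf37_2 : j0F QGf36 BGf37 70 200
  0x40005400005000004400004000003c00003800003000002c00002400000080001800000800072c00072800072400072000071c00071800071000070c0007040006fc0006f80006f00006ec0006e80006e40006e00006dc0006d80006d40006d00006cc0006c80006c40006c00006bc0006b80006b40006b00006ac0006a80006a40006a000069c00069000068c00068800068400068000067c00067800067400067000066c00066800066400066000065c00064c00064400064000063c00063800063400063000062c0006280006240 = true := by
  decide +kernel

end EF18
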