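import Pool.Agent.Lib.MP_ef18bd_co.G5.C36
import Pool.Agent.Lib.MP_ef18bd_co.G5.P37x0
import Pool.Agent.Lib.MP_ef18bd_co.G5.P37x1
import Pool.Agent.Lib.MP_ef18bd_co.G5.P37j0
import Pool.Agent.Lib.MP_ef18bd_co.G5.P37r0
import Pool.Agent.Lib.MP_ef18bd_co.G5.P37k0

/-!
# Phase 37
-/

namespace EF18

theorem aGf37 : ∀ i < 578, Val (stD (dnL QGf36) SGf37) (prc BGf37 i) := by
  have j0 := ents_zeroF QGf36 SGf37 BGf37
  have j1 := ents_dnF (k := 100) j0 jGf37_0 rfl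
  have j2 := ents_dnF (k := 200) j1 jGf37_1 rfl
  have j3 := ents_dnF (k := 270) j2 jGf37_2 rfl
  have h0 := j3
  have h1 := wGf37_0_0 h0
  have h2 := wGf37_0_1 h1
  have h3 := wGf37_0_2 h2
  have h4 := wGf37_0_3 h3
  have h5 := wGf37_0_4 h4
  have h6 := wGf37_0_5 h5
  have h7 := wGf37_0_6 h6
  have h8 := wGf37_0_7 h7
  have h9 := wGf37_0_8 h8
  have h10 := wGf37_0_9 h9
  have h11 := wGf37_0_10 h10
  have h12 := wGf37_0_11 h11
  have h13 := wGf37_0_12 h12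
  have h14 := wGf37_1_0 h13
  exact h14

theorem bGf37 : RtI (ok5 (okB 0 true)) (stD (dnL QGf36) SGf37) RBGf37 165 := by
  have h0 := rtI_zero (ok5 (okB 0 true)) (stD (dnL QGf36) SGf37) RBGf37
  have h1 := uGf37 aGf37 h0 oGf37_0_0 (show 0 + 25 = 25 from rfl)
  have h2 := uGf37 aGf37 h1 oGf37_0_1 (show 25 + 25 = 50 from rfl)
  have h3 := uGf37 aGf37 h2 oGf37_0_2 (show 50 + 25 = 75 from rfl)
  have h4 := uGf37 aGf37 h3 oGf37_0_3 (show 75 + 25 = 100 from rfl)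
  have h5 := uGf37 aGf37 h4 oGf37_0_4 (show 100 + 25 = 125 from rfl)
  have h6 := uGf37 aGf37 h5 oGf37_0_5 (show 125 + 25 = 150 from rfl)
  have h7 := uGf37 aGf37 h6 oGf37_0_6 (show 150 + 15 = 165 from rfl)
  exact h7

theorem tGf37 : (TGf37.all okJ) = true := by decide +kernel

theorem pGf37_0 : CkP QGf36 (6, 0x19130c17100b251f06231c05201b03140f09)
    [3, 0, 0, 0, 0, 0, 0] 64 := by
  have h0 := ckP_zero QGf36 (6, 0x19130c17100b251f06231c05201b03140f09)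
    [3, 0, 0, 0, 0, 0, 0]
  have h1 := ckP_step (k := 63) h0 kGf37_0c0 rfl
  have h2 := ckP_step (k := 64) h1 kGf37_0c1 rfl
  exact h2

theorem pGf37_1 : CkP QGf36 (6, 0x19120d16110b251e07221d05211b03150f09)
    [4, 3, 2, 0, 0, 0, 0, 0] 128 := by
  have h0 := ckP_zero QGf36 (6, 0x19120d16110b251e07221d05211b03150f09)
    [4, 3, 2, 0, 0, 0, 0, 0]
  have h1 := ckP_step (k := 126) h0 kGf37_1c0 rfl
  have h2 := ckP_step (k := 127) h1 kGf37_1c1 rfl
  have h3 := ckP_step (k := 128) h2 kGf37_1c2 rfl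
  exact h3

theorem pGf37_2 : CkP QGf36 (6, 0x1010601130c01100b1d16051a1503200f09)
    [3, 2, 2, 0, 0] 16 := by
  have h0 := ckP_zero QGf36 (6, 0x1010601130c01100b1d16051a1503200f09)
    [3, 2, 2, 0, 0]
  have h1 := ckP_step (k := 16) h0 kGf37_2c0 rfl
  exact h1

theorem pGf37_3 : CkP QGf36 (9, 0x12a24010107341712321d0c01231101290b261b042015022d0e08)
    [4, 3, 2, 2, 0, 0] 32 := by
  have h0 := ckP_zero QGf36 (9, 0x12a24010107341712321d0c01231101290b261b042015022d0e08)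
    [4, 3, 2, 2, 0, 0]
  have h1 := ckP_step (k := 32) h0 kGf37_3c0 rfl
  exact h1

theorem pGf37_4 : CkP QGf36 (0xa, 0x1013638312b352412331e0c2e190a281710231d022c1a072620050f0914)
    [4, 0, 0, 0, 0, 0, 0] 64 := by
  have h0 := ckP_zero QGf36 (0xa, 0x1013638312b352412331e0c2e190a281710231d022c1a072620050f0914)
    [4, 0, 0, 0, 0, 0, 0]
  have h1 := ckP_step (k := 64) h0 kGf37_4c0 rfl
  exact h1

theorem pGf37_5 : CkP QGf36 (0xe, 0x10149463c36514e4244302a4c1e164a2412401c0c3e100634190a3a2e0e23380232281a2c2005260914)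
    [0, 0, 0, 0] 8 := by
  have h0 := ckP_zero QGf36 (0xe, 0x10149463c36514e4244302a4c1e164a2412401c0c3e100634190a3a2e0e23380232281a2c2005260914)
    [0, 0, 0, 0]
  have h1 := ckP_step (k := 8) h0 kGf37_5c0 rfl
  exact h1

theorem pGf37_6 : CkP QGf36 (0xa, 0x136233a312b35241f330c062e39022d130801100b1d160528151a260f20)
    [7, 6, 5, 4, 0, 0, 0, 0] 128 := by
  have h0 := ckP_zero QGf36 (0xa, 0x136233a312b35241f330c062e39022d130801100b1d160528151a260f20)
    [7, 6, 5, 4, 0, 0, 0, 0]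
  have h1 := ckP_step (k := 128) h0 kGf37_6c0 rfl
  exact h1

theorem kGf37 : PpI QGf36 6 TGf37 CAGf CBGf 7 := by
  have h0 := ppI_zero QGf36 6 TGf37 CAGf CBGf
  have h1 := ppI_stepV (k' := 1) (q := (6, 0x19130c17100b251f06231c05201b03140f09)) h0 rfl kGf37_0r pGf37_0 kGf37_0m rfl
  have h2 := ppI_stepV (k' := 2) (q := (6, 0x19120d16110b251e07221d05211b03150f09)) h1 rfl kGf37_1r pGf37_1 kGf37_1m rfl
  have h3 := ppI_stepV (k' := 3) (q := (6, 0x1010601130c01100b1d16051a1503200f09)) h2 rfl kGf37_2r pGf37_2 kGf37_2m rfl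
  have h4 := ppI_stepV (k' := 4) (q := (9, 0x12a24010107341712321d0c01231101290b261b042015022d0e08)) h3 rfl kGf37_3r pGf37_3 kGf37_3m rfl
  have h5 := ppI_stepV (k' := 5) (q := (0xa, 0x1013638312b352412331e0c2e190a281710231d022c1a072620050f0914)) h4 rfl kGf37_4r pGf37_4 kGf37_4m rfl
  have h6 := ppI_stepV (k' := 6) (q := (0xe, 0x10149463c36514e4244302a4c1e164a2412401c0c3e100634190a3a2e0e23380232281a2c2005260914)) h5 rfl kGf37_5r pGf37_5 kGf37_5m rfl
  have h7 := ppI_stepV (k' := 7) (q := (0xa, 0x136233a312b35241f330c062e39022d130801100b1d160528151a260f20)) h6 rfl kGf37_6r pGf37_6 kGf37_6m rfl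
  exact h7

theorem zGf37 : (!true || allK QGf36 (fun _ => true) (nzq CBGf)
  0x880005e40005240002c0000180) = true := by decide +kernel

theorem mGf37A : (Nat.ble 2 0 || memI QGf36 32 1 257) = true := by decide +kernel

theorem mGf37B : (Nat.ble 1 0 || memI QGf36 1 1 1) = true := by decide +kernel

/-- **the phase 37** -/
theorem cGf37 : Dj5 CAGf CBGf PLGf (dnL QGf37) :=
  Dj5.rawP vokAGf vokBGf mclAGf mclBGf mkoGf wfpGf cGf36 mGf37A mGf37B (by norm_num) tGf37 kGf37 lenGf zGf37 bGf37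

end EF18
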