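import Pool.Agent.Lib.MP_ef18bd_co.G5.P38

/-!
# Phase 38: closed patterns
-/

namespace EF18

set_option linter.defProp false

def jGf38_0 : j0F QGf37 BGf38 42 0
  0x400002410071c10070010064410026400061810025800060410025400025000024800024400024000023c0002380005b010022c00022400059410058c10021c00058410058010021800053c1001b400031010030c10030810030410019000018c0001880002b010029c10029010028c1002881001640002841001600 = true := by
  decide +kernel

end EF18
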