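import Pool.Agent.Lib.MP_ef18bd_co.G5.P38

/-!
# Phase 38: roots
-/

namespace EF18

set_option linter.defProp false

def oGf38_0_0 : rGf38 0 16
  0x201c1814100c0804000d90b03834302c2824201c1814100c0804000d1110807c7874706c6864605c5854504c4844403c3834302c2824201c1814100c0804000cd230504c4844403c3834302c2824201c1814100c0804000c9170b0aca8a4a09c9894908c8884807c7874706c6864605c5854504c4844403c3834302c2824201c1814100c0804000bd2f09894908c8884807c7874706c6864605c5854504c4844403c3834302c2824201c1814100c0804000b92909894908c8884807c7874706c6864605c5854504c4844403c3834302c2824201c1814100c0804000b5290b0aca8a4a09c9894908c8884807c7874706c6864605c5854504c4844403c3834302c2824201c1814100c0804000b12f0b0a8aca49ca020181c706c745c5854686064807c78504c489490980c1014040008343038403c4428242c8c88840c12f0b0a8aca49ca0100c146460685c5854746c708c8884504c4898909418201c0400083c40443034382c2428807c780c12f0a49ca0b0a8ac2c282488848c80787c504c485c5458686064909894100c14383034080004443c40181c2074706c0c12f0a49ca0b0a8ac2c28247c78808c84885c585450484c746c7090989420181c44403c0804003834300c14106864600c12f0a49ca0b0a8ac44403c706c748c8884686460504c48807c789098943830342c282414100c201c180008045c58540c12f0a49ca0b0a8ac3830346460688c888474706c5c5854807c7894989044403c2c28241c201810140c040800504c480c12f074706c807c786864605c5854504c48343830443c401c18202c2824140c100400080ad230807c7874706c6864605c5854504c4844403c3430382c24281c2018100c140800040ad23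 = true := by
  decide +kernel

end EF18
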