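import Pool.Agent.Lib.MP_ef18bd_co.G5.C37
import Pool.Agent.Lib.MP_ef18bd_co.G5.P38x0
import Pool.Agent.Lib.MP_ef18bd_co.G5.P38j0
import Pool.Agent.Lib.MP_ef18bd_co.G5.P38r0
import Pool.Agent.Lib.MP_ef18bd_co.G5.P38k0

/-!
# Phase 38
-/

namespace EF18

theorem aGf38 : ∀ i < 55, Val (stD (dnL QGf37) SGf38) (prc BGf38 i) := by
  have j0 := ents_zeroF QGf37 SGf38 BGf38
  have j1 := ents_dnF (k := 42) j0 jGf38_0 rfl
  have h0 := j1
  have h1 := wGf38_0_0 h0
  exact h1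

theorem bGf38 : RtI (ok5 (okB 0 true)) (stD (dnL QGf37) SGf38) RBGf38 16 := by
  have h0 := rtI_zero (ok5 (okB 0 true)) (stD (dnL QGf37) SGf38) RBGf38
  have h1 := uGf38 aGf38 h0 oGf38_0_0 (show 0 + 16 = 16 from rfl)
  exact h1

theorem tGf38 : (TGf38.all okJ) = true := by decide +kernel

theorem pGf38_0 : CkP QGf37 (6, 0x19130c17100b251f06231c05201b03140f09)
    [3, 0, 0, 0, 0, 0, 0] 64 := by
  have h0 := ckP_zero QGf37 (6, 0x19130c17100b251f06231c05201b03140f09)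
    [3, 0, 0, 0, 0, 0, 0]
  have h1 := ckP_step (k := 63) h0 kGf38_0c0 rfl
  have h2 := ckP_step (k := 64) h1 kGf38_0c1 rfl
  exact h2

theorem pGf38_1 : CkP QGf37 (6, 0x19120d16110b251e07221d05211b03150f09)
    [4, 3, 2, 0, 0, 0, 0, 0] 128 := by
  have h0 := ckP_zero QGf37 (6, 0x19120d16110b251e07221d05211b03150f09)
    [4, 3, 2, 0, 0, 0, 0, 0]
  have h1 := ckP_step (k := 126) h0 kGf38_1c0 rfl
  have h2 := ckP_step (k := 127) h1 kGf38_1c1 rfl
  have h3 := ckP_step (k := 128) h2 kGf38_1c2 rfl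
  exact h3

theorem pGf38_2 : CkP QGf37 (6, 0x1010601130c01100b1d16051a1503200f09)
    [3, 2, 2, 0, 0] 16 := by
  have h0 := ckP_zero QGf37 (6, 0x1010601130c01100b1d16051a1503200f09)
    [3, 2, 2, 0, 0]
  have h1 := ckP_step (k := 16) h0 kGf38_2c0 rfl
  exact h1

theorem pGf38_3 : CkP QGf37 (9, 0x12a24010107341712321d0c01231101290b261b042015022d0e08)
    [4, 3, 2, 2, 0, 0] 32 := by
  have h0 := ckP_zero QGf37 (9, 0x12a24010107341712321d0c01231101290b261b042015022d0e08)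
    [4, 3, 2, 2, 0, 0]
  have h1 := ckP_step (k := 32) h0 kGf38_3c0 rfl
  exact h1

theorem pGf38_4 : CkP QGf37 (0xa, 0x1013638312b352412331e0c2e190a281710231d022c1a072620050f0914)
    [4, 0, 0, 0, 0, 0, 0] 64 := by
  have h0 := ckP_zero QGf37 (0xa, 0x1013638312b352412331e0c2e190a281710231d022c1a072620050f0914)
    [4, 0, 0, 0, 0, 0, 0]
  have h1 := ckP_step (k := 64) h0 kGf38_4c0 rfl
  exact h1

theorem pGf38_5 : CkP QGf37 (0xe, 0x10149463c36514e4244302a4c1e164a2412401c0c3e100634190a3a2e0e23380232281a2c2005260914)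
    [0, 0, 0, 0] 8 := by
  have h0 := ckP_zero QGf37 (0xe, 0x10149463c36514e4244302a4c1e164a2412401c0c3e100634190a3a2e0e23380232281a2c2005260914)
    [0, 0, 0, 0]
  have h1 := ckP_step (k := 8) h0 kGf38_5c0 rfl
  exact h1

theorem pGf38_6 : CkP QGf37 (0xa, 0x136233a312b35241f330c062e39022d130801100b1d160528151a260f20)
    [7, 6, 5, 4, 0, 0, 0, 0] 128 := by
  have h0 := ckP_zero QGf37 (0xa, 0x136233a312b35241f330c062e39022d130801100b1d160528151a260f20)
    [7, 6, 5, 4, 0, 0, 0, 0]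
  have h1 := ckP_step (k := 128) h0 kGf38_6c0 rfl
  exact h1

theorem kGf38 : PpI QGf37 6 TGf38 CAGf CBGf 7 := by
  have h0 := ppI_zero QGf37 6 TGf38 CAGf CBGf
  have h1 := ppI_stepV (k' := 1) (q := (6, 0x19130c17100b251f06231c05201b03140f09)) h0 rfl kGf38_0r pGf38_0 kGf38_0m rfl
  have h2 := ppI_stepV (k' := 2) (q := (6, 0x19120d16110b251e07221d05211b03150f09)) h1 rfl kGf38_1r pGf38_1 kGf38_1m rfl
  have h3 := ppI_stepV (k' := 3) (q := (6, 0x1010601130c01100b1d16051a1503200f09)) h2 rfl kGf38_2r pGf38_2 kGf38_2m rfl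
  have h4 := ppI_stepV (k' := 4) (q := (9, 0x12a24010107341712321d0c01231101290b261b042015022d0e08)) h3 rfl kGf38_3r pGf38_3 kGf38_3m rfl
  have h5 := ppI_stepV (k' := 5) (q := (0xa, 0x1013638312b352412331e0c2e190a281710231d022c1a072620050f0914)) h4 rfl kGf38_4r pGf38_4 kGf38_4m rfl
  have h6 := ppI_stepV (k' := 6) (q := (0xe, 0x10149463c36514e4244302a4c1e164a2412401c0c3e100634190a3a2e0e23380232281a2c2005260914)) h5 rfl kGf38_5r pGf38_5 kGf38_5m rfl
  have h7 := ppI_stepV (k' := 7) (q := (0xa, 0x136233a312b35241f330c062e39022d130801100b1d160528151a260f20)) h6 rfl kGf38_6r pGf38_6 kGf38_6m rfl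
  exact h7

theorem zGf38 : (!true || allK QGf37 (fun _ => true) (nzq CBGf)
  0x890005e50005250002c1000181) = true := by decide +kernel

theorem mGf38A : (Nat.ble 2 0 || memI QGf37 33 1 257) = true := by decide +kernel

theorem mGf38B : (Nat.ble 1 0 || memI QGf37 2 1 1) = true := by decide +kernel

/-- **the phase 38** -/
theorem cGf38 : Dj5 CAGf CBGf PLGf (dnL QGf38) :=
  Dj5.rawP vokAGf vokBGf mclAGf mclBGf mkoGf wfpGf cGf37 mGf38A mGf38B (by norm_num) tGf38 kGf38 lenGf zGf38 bGf38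

end EF18
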