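import Pool.Agent.Lib.MP_ef18bd_co.G5.P39

/-!
# Phase 39: closed patterns
-/

namespace EF18

set_option linter.defProp false

def jGf39_0 : j0F QGf38 BGf39 100 0
  0x6f420028c1006ec20028810028410028010027c10027810027410069820069420027010026c10069020068c20026810067c20065820065420065020064820064420026410026010025c1006042002441005c820023c1002381000340005842002141005582002081005302002041002001001fc1001f81001f41001f01001ec1001e81001e41001e01005142001dc10051020050c2001d81001d41001d01005082001cc1004fc2001c81001c41001c01001bc1001b81001b410044020041c2001a410031c20031820031420002c00019c1003042003002002fc2002f82000280002f42000240001981002e020019410018c1002d82001881001841000200002d42001801002d020017c10017810017410017010016c1001681002ac20026c20000150023db000119000120 = true := by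
  decide +kernel

def jGf39_1 : j0F QGf38 BGf39 11 100
  0xc000041000001000542000502000442000382000302000242007142002901 = true := by
  decide +kernel

end EF18
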