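import Pool.Agent.Lib.MP_ef18bd_co.G5.P39

/-!
# Phase 39: roots
-/

namespace EF18

set_option linter.defProp false

def oGf39_0_0 : rGf39 0 11
  0x807c7874706c6860645c585440443c504c482c242838343010140c1c2018080004209230807c7874706c6864605c58544c504844403c3830342c28241c201810140c08040020923080787c74706c3834305c5854140c1008000468646018201c50484c2c28241e9200bcb8b4b0aca8a4a09c989490807c788c888468646074706c504c485c585438303444403c282c2410140c1c201808000424d320bcb8b4b0aca8a4a09c9894908c8884807c7874706c6864605c5854504c4844403c3830342c2824201c1814100c08040024d320b0aca8a4a09c9894908c8884807c78746c706864605c5458504c4844403c3834302c2428201c1814100c0804002252f0a4a09c9894908c8884807c78746c706864605c5854504c4844403c3834302c2428201c1814100c0804002112c08c8884807c7868606440443c504c482c282438343010140c1c20180800041e9200807c7874706c6860645c585440443c504c482c242838343010140c1c2018080004209230807c7874706c6864605c58544c504844403c3830342c28241c201810140c0804002092308c8884807c786864604c504844403c3834302c28241c201810140c0804001e920 = true := by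
  decide +kernel

end EF18
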