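import Pool.Agent.Lib.MP_ef18bd_co.G5.C38
import Pool.Agent.Lib.MP_ef18bd_co.G5.P39x0
import Pool.Agent.Lib.MP_ef18bd_co.G5.P39j0
import Pool.Agent.Lib.MP_ef18bd_co.G5.P39r0
import Pool.Agent.Lib.MP_ef18bd_co.G5.P39k0

/-!
# Phase 39
-/

namespace EF18

theorem aGf39 : ∀ i < 148, Val (stD (dnL QGf38) SGf39) (prc BGf39 i) := by
  have j0 := ents_zeroF QGf38 SGf39 BGf39
  have j1 := ents_dnF (k := 100) j0 jGf39_0 rfl
  have j2 := ents_dnF (k := 111) j1 jGf39_1 rfl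
  have h0 := j2
  have h1 := wGf39_0_0 h0
  have h2 := wGf39_0_1 h1
  exact h2

theorem bGf39 : RtI (ok5 (okB 0 true)) (stD (dnL QGf38) SGf39) RBGf39 11 := by
  have h0 := rtI_zero (ok5 (okB 0 true)) (stD (dnL QGf38) SGf39) RBGf39
  have h1 := uGf39 aGf39 h0 oGf39_0_0 (show 0 + 11 = 11 from rfl)
  exact h1

theorem tGf39 : (TGf39.all okJ) = true := by decide +kernel

theorem pGf39_0 : CkP QGf38 (6, 0x19130c17100b251f06231c05201b03140f09)
    [3, 0, 0, 0, 0, 0, 0] 64 := by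
  have h0 := ckP_zero QGf38 (6, 0x19130c17100b251f06231c05201b03140f09)
    [3, 0, 0, 0, 0, 0, 0]
  have h1 := ckP_step (k := 63) h0 kGf39_0c0 rfl
  have h2 := ckP_step (k := 64) h1 kGf39_0c1 rfl
  exact h2

theorem pGf39_1 : CkP QGf38 (6, 0x19120d16110b251e07221d05211b03150f09)
    [4, 3, 0, 0, 0, 0, 0, 0] 128 := by
  have h0 := ckP_zero QGf38 (6, 0x19120d16110b251e07221d05211b03150f09)
    [4, 3, 0, 0, 0, 0, 0, 0]
  have h1 := ckP_step (k := 126) h0 kGf39_1c0 rfl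
  have h2 := ckP_step (k := 127) h1 kGf39_1c1 rfl
  have h3 := ckP_step (k := 128) h2 kGf39_1c2 rfl
  exact h3

theorem pGf39_2 : CkP QGf38 (6, 0x1010601130c01100b1d16051a1503200f09)
    [3, 2, 2, 0, 0] 16 := by
  have h0 := ckP_zero QGf38 (6, 0x1010601130c01100b1d16051a1503200f09)
    [3, 2, 2, 0, 0]
  have h1 := ckP_step (k := 16) h0 kGf39_2c0 rfl
  exact h1

theorem pGf39_3 : CkP QGf38 (9, 0x12a24010107341712321d0c01231101290b261b042015022d0e08)
    [4, 3, 2, 2, 0, 0] 32 := by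
  have h0 := ckP_zero QGf38 (9, 0x12a24010107341712321d0c01231101290b261b042015022d0e08)
    [4, 3, 2, 2, 0, 0]
  have h1 := ckP_step (k := 32) h0 kGf39_3c0 rfl
  exact h1

theorem pGf39_4 : CkP QGf38 (0xa, 0x1013638312b352412331e0c2e190a281710231d022c1a072620050f0914)
    [4, 0, 0, 0, 0, 0, 0] 64 := by
  have h0 := ckP_zero QGf38 (0xa, 0x1013638312b352412331e0c2e190a281710231d022c1a072620050f0914)
    [4, 0, 0, 0, 0, 0, 0]
  have h1 := ckP_step (k := 64) h0 kGf39_4c0 rfl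
  exact h1

theorem pGf39_5 : CkP QGf38 (0xe, 0x10149463c36514e4244302a4c1e164a2412401c0c3e100634190a3a2e0e23380232281a2c2005260914)
    [0, 0, 0, 0] 8 := by
  have h0 := ckP_zero QGf38 (0xe, 0x10149463c36514e4244302a4c1e164a2412401c0c3e100634190a3a2e0e23380232281a2c2005260914)
    [0, 0, 0, 0]
  have h1 := ckP_step (k := 8) h0 kGf39_5c0 rfl
  exact h1

theorem pGf39_6 : CkP QGf38 (0xa, 0x136233a312b35241f330c062e39022d130801100b1d160528151a260f20)
    [7, 6, 5, 4, 0, 0, 0, 0] 128 := by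
  have h0 := ckP_zero QGf38 (0xa, 0x136233a312b35241f330c062e39022d130801100b1d160528151a260f20)
    [7, 6, 5, 4, 0, 0, 0, 0]
  have h1 := ckP_step (k := 128) h0 kGf39_6c0 rfl
  exact h1

theorem kGf39 : PpI QGf38 6 TGf39 CAGf CBGf 7 := by
  have h0 := ppI_zero QGf38 6 TGf39 CAGf CBGf
  have h1 := ppI_stepV (k' := 1) (q := (6, 0x19130c17100b251f06231c05201b03140f09)) h0 rfl kGf39_0r pGf39_0 kGf39_0m rfl
  have h2 := ppI_stepV (k' := 2) (q := (6, 0x19120d16110b251e07221d05211b03150f09)) h1 rfl kGf39_1r pGf39_1 kGf39_1m rfl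
  have h3 := ppI_stepV (k' := 3) (q := (6, 0x1010601130c01100b1d16051a1503200f09)) h2 rfl kGf39_2r pGf39_2 kGf39_2m rfl
  have h4 := ppI_stepV (k' := 4) (q := (9, 0x12a24010107341712321d0c01231101290b261b042015022d0e08)) h3 rfl kGf39_3r pGf39_3 kGf39_3m rfl
  have h5 := ppI_stepV (k' := 5) (q := (0xa, 0x1013638312b352412331e0c2e190a281710231d022c1a072620050f0914)) h4 rfl kGf39_4r pGf39_4 kGf39_4m rfl
  have h6 := ppI_stepV (k' := 6) (q := (0xe, 0x10149463c36514e4244302a4c1e164a2412401c0c3e100634190a3a2e0e23380232281a2c2005260914)) h5 rfl kGf39_5r pGf39_5 kGf39_5m rfl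
  have h7 := ppI_stepV (k' := 7) (q := (0xa, 0x136233a312b35241f330c062e39022d130801100b1d160528151a260f20)) h6 rfl kGf39_6r pGf39_6 kGf39_6m rfl
  exact h7

theorem zGf39 : (!true || allK QGf38 (fun _ => true) (nzq CBGf)
  0x8a0005e60005260002c2000182) = true := by decide +kernel

theorem mGf39A : (Nat.ble 2 0 || memI QGf38 34 1 257) = true := by decide +kernel

theorem mGf39B : (Nat.ble 1 0 || memI QGf38 3 1 1) = true := by decide +kernel

/-- **the phase 39** -/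
theorem cGf39 : Dj5 CAGf CBGf PLGf (dnL QGf39) :=
  Dj5.rawP vokAGf vokBGf mclAGf mclBGf mkoGf wfpGf cGf38 mGf39A mGf39B (by norm_num) tGf39 kGf39 lenGf zGf39 bGf39

end EF18
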