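import Pool.Agent.Lib.MP_ef18bd_co.G5.C3
import Pool.Agent.Lib.MP_ef18bd_co.G5.P4x0
import Pool.Agent.Lib.MP_ef18bd_co.G5.P4x1
import Pool.Agent.Lib.MP_ef18bd_co.G5.P4j0
import Pool.Agent.Lib.MP_ef18bd_co.G5.P4r0
import Pool.Agent.Lib.MP_ef18bd_co.G5.P4k0

/-!
# Phase 4
-/

namespace EF18

theorem aGf4 : ∀ i < 2150, Val (stD (dnL QGf3) SGf4) (prc BGf4 i) := by
  have j0 := ents_zeroF QGf3 SGf4 BGf4
  have j1 := ents_dnF (k := 100) j0 jGf4_0 rfl
  have j2 := ents_dnF (k := 200) j1 jGf4_1 rfl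
  have j3 := ents_dnF (k := 300) j2 jGf4_2 rfl
  have j4 := ents_dnF (k := 400) j3 jGf4_3 rfl
  have j5 := ents_dnF (k := 500) j4 jGf4_4 rfl
  have j6 := ents_dnF (k := 600) j5 jGf4_5 rfl
  have j7 := ents_dnF (k := 700) j6 jGf4_6 rfl
  have j8 := ents_dnF (k := 800) j7 jGf4_7 rfl
  have j9 := ents_dnF (k := 900) j8 jGf4_8 rfl
  have j10 := ents_dnF (k := 1000) j9 jGf4_9 rfl
  have j11 := ents_dnF (k := 1040) j10 jGf4_10 rfl
  have h0 := j11
  have h1 := wGf4_0_0 h0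
  have h2 := wGf4_0_1 h1
  have h3 := wGf4_0_2 h2
  have h4 := wGf4_0_3 h3
  have h5 := wGf4_0_4 h4
  have h6 := wGf4_0_5 h5
  have h7 := wGf4_0_6 h6
  have h8 := wGf4_0_7 h7
  have h9 := wGf4_0_8 h8
  have h10 := wGf4_0_9 h9
  have h11 := wGf4_0_10 h10
  have h12 := wGf4_0_11 h11
  have h13 := wGf4_0_12 h12
  have h14 := wGf4_0_13 h13
  have h15 := wGf4_0_14 h14
  have h16 := wGf4_0_15 h15
  have h17 := wGf4_0_16 h16
  have h18 := wGf4_0_17 h17
  have h19 := wGf4_0_18 h18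
  have h20 := wGf4_0_19 h19
  have h21 := wGf4_0_20 h20
  have h22 := wGf4_0_21 h21
  have h23 := wGf4_0_22 h22
  have h24 := wGf4_0_23 h23
  have h25 := wGf4_0_24 h24
  have h26 := wGf4_0_25 h25
  have h27 := wGf4_0_26 h26
  have h28 := wGf4_1_0 h27
  have h29 := wGf4_1_1 h28
  have h30 := wGf4_1_2 h29
  have h31 := wGf4_1_3 h30
  have h32 := wGf4_1_4 h31
  have h33 := wGf4_1_5 h32
  have h34 := wGf4_1_6 h33
  have h35 := wGf4_1_7 h34
  have h36 := wGf4_1_8 h35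
  have h37 := wGf4_1_9 h36
  have h38 := wGf4_1_10 h37
  have h39 := wGf4_1_11 h38
  have h40 := wGf4_1_12 h39
  have h41 := wGf4_1_13 h40
  have h42 := wGf4_1_14 h41
  have h43 := wGf4_1_15 h42
  have h44 := wGf4_1_16 h43
  have h45 := wGf4_1_17 h44
  exact h45

theorem bGf4 : RtI (ok5 (okB 2 true)) (stD (dnL QGf3) SGf4) RBGf4 1 := by
  have h0 := rtI_zero (ok5 (okB 2 true)) (stD (dnL QGf3) SGf4) RBGf4
  have h1 := uGf4 aGf4 h0 oGf4_0_0 (show 0 + 1 = 1 from rfl)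
  exact h1

theorem tGf4 : (TGf4.all okJ) = true := by decide +kernel

theorem pGf4_0 : CkP QGf3 (6, 0x19130c17100b251f06231c05201b03140f09)
    [6, 4, 3, 0, 0, 0, 0] 64 := by
  have h0 := ckP_zero QGf3 (6, 0x19130c17100b251f06231c05201b03140f09)
    [6, 4, 3, 0, 0, 0, 0]
  have h1 := ckP_step (k := 46) h0 kGf4_0c0 rfl
  have h2 := ckP_step (k := 61) h1 kGf4_0c1 rfl
  have h3 := ckP_step (k := 64) h2 kGf4_0c2 rfl
  exact h3

theorem pGf4_1 : CkP QGf3 (6, 0x19120d16110b251e07221d05211b03150f09)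
    [7, 6, 5, 4, 3, 0, 0, 0] 128 := by
  have h0 := ckP_zero QGf3 (6, 0x19120d16110b251e07221d05211b03150f09)
    [7, 6, 5, 4, 3, 0, 0, 0]
  have h1 := ckP_step (k := 128) h0 kGf4_1c0 rfl
  exact h1

theorem pGf4_2 : CkP QGf3 (6, 0x1010601130c01100b1d16051a1503200f09)
    [4, 3, 2, 1, 0] 16 := by
  have h0 := ckP_zero QGf3 (6, 0x1010601130c01100b1d16051a1503200f09)
    [4, 3, 2, 1, 0]
  have h1 := ckP_step (k := 16) h0 kGf4_2c0 rfl
  exact h1

theorem pGf4_3 : CkP QGf3 (9, 0x12a24010107341712321d0c01231101290b261b042015022d0e08)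
    [5, 4, 3, 2, 1, 0] 32 := by
  have h0 := ckP_zero QGf3 (9, 0x12a24010107341712321d0c01231101290b261b042015022d0e08)
    [5, 4, 3, 2, 1, 0]
  have h1 := ckP_step (k := 32) h0 kGf4_3c0 rfl
  exact h1

theorem pGf4_4 : CkP QGf3 (0xa, 0x1013638312b352412331e0c2e190a281710231d022c1a072620050f0914)
    [6, 5, 4, 0, 0, 0, 0] 64 := by
  have h0 := ckP_zero QGf3 (0xa, 0x1013638312b352412331e0c2e190a281710231d022c1a072620050f0914)
    [6, 5, 4, 0, 0, 0, 0]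
  have h1 := ckP_step (k := 64) h0 kGf4_4c0 rfl
  exact h1

theorem pGf4_5 : CkP QGf3 (0xe, 0x10149463c36514e4244302a4c1e164a2412401c0c3e100634190a3a2e0e23380232281a2c2005260914)
    [3, 2, 1, 0] 8 := by
  have h0 := ckP_zero QGf3 (0xe, 0x10149463c36514e4244302a4c1e164a2412401c0c3e100634190a3a2e0e23380232281a2c2005260914)
    [3, 2, 1, 0]
  have h1 := ckP_step (k := 8) h0 kGf4_5c0 rfl
  exact h1

theorem pGf4_6 : CkP QGf3 (0xa, 0x136233a312b35241f330c062e39022d130801100b1d160528151a260f20)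
    [7, 6, 5, 4, 3, 2, 1, 0] 128 := by
  have h0 := ckP_zero QGf3 (0xa, 0x136233a312b35241f330c062e39022d130801100b1d160528151a260f20)
    [7, 6, 5, 4, 3, 2, 1, 0]
  have h1 := ckP_step (k := 128) h0 kGf4_6c0 rfl
  exact h1

theorem kGf4 : PpI QGf3 6 TGf4 CAGf CBGf 7 := by
  have h0 := ppI_zero QGf3 6 TGf4 CAGf CBGf
  have h1 := ppI_stepV (k' := 1) (q := (6, 0x19130c17100b251f06231c05201b03140f09)) h0 rfl kGf4_0r pGf4_0 kGf4_0m rfl
  have h2 := ppI_stepV (k' := 2) (q := (6, 0x19120d16110b251e07221d05211b03150f09)) h1 rfl kGf4_1r pGf4_1 kGf4_1m rfl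
  have h3 := ppI_stepV (k' := 3) (q := (6, 0x1010601130c01100b1d16051a1503200f09)) h2 rfl kGf4_2r pGf4_2 kGf4_2m rfl
  have h4 := ppI_stepV (k' := 4) (q := (9, 0x12a24010107341712321d0c01231101290b261b042015022d0e08)) h3 rfl kGf4_3r pGf4_3 kGf4_3m rfl
  have h5 := ppI_stepV (k' := 5) (q := (0xa, 0x1013638312b352412331e0c2e190a281710231d022c1a072620050f0914)) h4 rfl kGf4_4r pGf4_4 kGf4_4m rfl
  have h6 := ppI_stepV (k' := 6) (q := (0xe, 0x10149463c36514e4244302a4c1e164a2412401c0c3e100634190a3a2e0e23380232281a2c2005260914)) h5 rfl kGf4_5r pGf4_5 kGf4_5m rfl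
  have h7 := ppI_stepV (k' := 7) (q := (0xa, 0x136233a312b35241f330c062e39022d130801100b1d160528151a260f20)) h6 rfl kGf4_6r pGf4_6 kGf4_6m rfl
  exact h7

theorem zGf4 : (!false || allK QGf3 (fun _ => true) (nzq CBGf)
  0) = true := by decide +kernel

theorem mGf4A : (Nat.ble 2 2 || memI QGf3 0 1 257) = true := by decide +kernel

theorem mGf4B : (Nat.ble 1 2 || memI QGf3 0 1 1) = true := by decide +kernel

/-- **the phase 4** -/
theorem cGf4 : Dj5 CAGf CBGf PLGf (dnL QGf4) :=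
  Dj5.rawP vokAGf vokBGf mclAGf mclBGf mkoGf wfpGf cGf3 mGf4A mGf4B (by norm_num) tGf4 kGf4 lenGf zGf4 bGf4

end EF18
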