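import Pool.Agent.Lib.MP_ef18bd_co.G5.P40

/-!
# Phase 40: closed patterns
-/

namespace EF18

set_option linter.defProp false

def jGf40_0 : j0F QGf39 BGf40 89 0
  0x4000000d00010700000600010200004200000200038300024300000b0000830070830024c2002482005f03005ec3002442005c83005bc3002382005b830003c1005b43000381005ac3002342002302005a830022c2002282002242005a030059c30059830059430059030022020021c20058430003010057c30057830057030056c30021420056430021020055c30055830055030054c30054830054430054030053c30020c2005383002082005303004343001b02001ac20043030042c3001a820041c30041830041430041030040c3004043004003003fc3003f03001a02003c03003983003203002ac30029c30026c30026830026430000120062d30000130023dc000ae1000866 = true := by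
  decide +kernel

end EF18
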