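import Pool.Agent.Lib.MP_ef18bd_co.G5.P40

/-!
# Phase 40: roots
-/

namespace EF18

set_option linter.defProp false

def oGf40_0_0 : rGf40 0 25
  0x807c7874706c6864605c5854504c4844403c3834302c2824201c1814100c0804005d1230504c4844403c3834302c2824201c1814100c0804005cd17074706c6864605c5854504c4844403c3834302c2824201c1814100c0804005c92005c5854504c4844403c3834302c2824201c1814100c0804005c51a05c5854504c4844403c3834302c2824201c1814100c0804005bd1a044403c3834302c2824201c1814100c08040059d1403834302c2824201c1814100c0804005911108c8884807c7874706c6864605c5854504c4844403c3834302c2824201c1814100c08040056d26074706c6864605c5854504c4844403c3834302c2824201c1814100c08040055520074706c6864605c5854504c4844403c3834302c2824201c1814100c08040054d200201c1814100c08040052d0b08c8884807c7874706c6864605c5854504c4844403c3834302c2824201c1814100c08040049d260504c4844403c3834302c2824201c1814100c080400499170504c48807c7844403c2c2428383034100c141c201800080417d1a07010607020b0aca8040008100c14545c5874706c64686044403c4c504817d1a0807c788c888474706c6860645c585440443c4c50482c282438343010140c1c20180800043912608c8884807c7874706c6864605c58544c504840443c3834302c28241c201810140c0804003912602c28241c20184c485074706c040008686460100c1440443c5c58545d91d08c8884807c7874706c68606440443c504c482c242838343010140c1c201808000426123038343010140c403c44807c780004086860641c18204c50485c58545d91d08c8884807c7874706c6864604c504844403c3830342c28241c201810140c080400261230201c1814100c08040052d0b05c5854504c4844403c3834302c2824201c1814100c08040017d1a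 = true := by
  decide +kernel

def oGf40_0_1 : rGf40 25 3
  0x8c8884807c7874706c6864605c5854504c4844403c3834302c2824201c1814100c0804005dd2606864605c5854504c4844403c3834302c2824201c1814100c0804005d91d06864605c5854504c4844403c3834302c2824201c1814100c0804005d51d = true := by
  decide +kernel

end EF18
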