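import Pool.Agent.Lib.MP_ef18bd_co.G5.C39
import Pool.Agent.Lib.MP_ef18bd_co.G5.P40x0
import Pool.Agent.Lib.MP_ef18bd_co.G5.P40j0
import Pool.Agent.Lib.MP_ef18bd_co.G5.P40r0
import Pool.Agent.Lib.MP_ef18bd_co.G5.P40k0

/-!
# Phase 40
-/

namespace EF18

theorem aGf40 : ∀ i < 376, Val (stD (dnL QGf39) SGf40) (prc BGf40 i) := by
  have j0 := ents_zeroF QGf39 SGf40 BGf40
  have j1 := ents_dnF (k := 89) j0 jGf40_0 rfl
  have h0 := j1
  have h1 := wGf40_0_0 h0
  have h2 := wGf40_0_1 h1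
  have h3 := wGf40_0_2 h2
  have h4 := wGf40_0_3 h3
  have h5 := wGf40_0_4 h4
  have h6 := wGf40_0_5 h5
  have h7 := wGf40_0_6 h6
  have h8 := wGf40_0_7 h7
  have h9 := wGf40_0_8 h8
  have h10 := wGf40_0_9 h9
  have h11 := wGf40_0_10 h10
  have h12 := wGf40_0_11 h11
  exact h12

theorem bGf40 : RtI (ok5 (okB 0 true)) (stD (dnL QGf39) SGf40) RBGf40 28 := by
  have h0 := rtI_zero (ok5 (okB 0 true)) (stD (dnL QGf39) SGf40) RBGf40
  have h1 := uGf40 aGf40 h0 oGf40_0_0 (show 0 + 25 = 25 from rfl)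
  have h2 := uGf40 aGf40 h1 oGf40_0_1 (show 25 + 3 = 28 from rfl)
  exact h2

theorem tGf40 : (TGf40.all okJ) = true := by decide +kernel

theorem pGf40_0 : CkP QGf39 (6, 0x19130c17100b251f06231c05201b03140f09)
    [2, 0, 0, 0, 0, 0, 0] 64 := by
  have h0 := ckP_zero QGf39 (6, 0x19130c17100b251f06231c05201b03140f09)
    [2, 0, 0, 0, 0, 0, 0]
  have h1 := ckP_step (k := 63) h0 kGf40_0c0 rfl
  have h2 := ckP_step (k := 64) h1 kGf40_0c1 rfl
  exact h2

theorem pGf40_1 : CkP QGf39 (6, 0x19120d16110b251e07221d05211b03150f09)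
    [4, 3, 0, 0, 0, 0, 0, 0] 128 := by
  have h0 := ckP_zero QGf39 (6, 0x19120d16110b251e07221d05211b03150f09)
    [4, 3, 0, 0, 0, 0, 0, 0]
  have h1 := ckP_step (k := 126) h0 kGf40_1c0 rfl
  have h2 := ckP_step (k := 127) h1 kGf40_1c1 rfl
  have h3 := ckP_step (k := 128) h2 kGf40_1c2 rfl
  exact h3

theorem pGf40_2 : CkP QGf39 (6, 0x1010601130c01100b1d16051a1503200f09)
    [3, 2, 1, 0, 0] 16 := by
  have h0 := ckP_zero QGf39 (6, 0x1010601130c01100b1d16051a1503200f09)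
    [3, 2, 1, 0, 0]
  have h1 := ckP_step (k := 16) h0 kGf40_2c0 rfl
  exact h1

theorem pGf40_3 : CkP QGf39 (9, 0x12a24010107341712321d0c01231101290b261b042015022d0e08)
    [4, 3, 2, 0, 0, 0] 32 := by
  have h0 := ckP_zero QGf39 (9, 0x12a24010107341712321d0c01231101290b261b042015022d0e08)
    [4, 3, 2, 0, 0, 0]
  have h1 := ckP_step (k := 32) h0 kGf40_3c0 rfl
  exact h1

theorem pGf40_4 : CkP QGf39 (0xa, 0x1013638312b352412331e0c2e190a281710231d022c1a072620050f0914)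
    [4, 0, 0, 0, 0, 0, 0] 64 := by
  have h0 := ckP_zero QGf39 (0xa, 0x1013638312b352412331e0c2e190a281710231d022c1a072620050f0914)
    [4, 0, 0, 0, 0, 0, 0]
  have h1 := ckP_step (k := 64) h0 kGf40_4c0 rfl
  exact h1

theorem pGf40_5 : CkP QGf39 (0xe, 0x10149463c36514e4244302a4c1e164a2412401c0c3e100634190a3a2e0e23380232281a2c2005260914)
    [0, 0, 0, 0] 8 := by
  have h0 := ckP_zero QGf39 (0xe, 0x10149463c36514e4244302a4c1e164a2412401c0c3e100634190a3a2e0e23380232281a2c2005260914)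
    [0, 0, 0, 0]
  have h1 := ckP_step (k := 8) h0 kGf40_5c0 rfl
  exact h1

theorem pGf40_6 : CkP QGf39 (0xa, 0x136233a312b35241f330c062e39022d130801100b1d160528151a260f20)
    [7, 6, 5, 0, 0, 0, 0, 0] 128 := by
  have h0 := ckP_zero QGf39 (0xa, 0x136233a312b35241f330c062e39022d130801100b1d160528151a260f20)
    [7, 6, 5, 0, 0, 0, 0, 0]
  have h1 := ckP_step (k := 128) h0 kGf40_6c0 rfl
  exact h1

theorem kGf40 : PpI QGf39 6 TGf40 CAGf CBGf 7 := by
  have h0 := ppI_zero QGf39 6 TGf40 CAGf CBGf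
  have h1 := ppI_stepV (k' := 1) (q := (6, 0x19130c17100b251f06231c05201b03140f09)) h0 rfl kGf40_0r pGf40_0 kGf40_0m rfl
  have h2 := ppI_stepV (k' := 2) (q := (6, 0x19120d16110b251e07221d05211b03150f09)) h1 rfl kGf40_1r pGf40_1 kGf40_1m rfl
  have h3 := ppI_stepV (k' := 3) (q := (6, 0x1010601130c01100b1d16051a1503200f09)) h2 rfl kGf40_2r pGf40_2 kGf40_2m rfl
  have h4 := ppI_stepV (k' := 4) (q := (9, 0x12a24010107341712321d0c01231101290b261b042015022d0e08)) h3 rfl kGf40_3r pGf40_3 kGf40_3m rfl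
  have h5 := ppI_stepV (k' := 5) (q := (0xa, 0x1013638312b352412331e0c2e190a281710231d022c1a072620050f0914)) h4 rfl kGf40_4r pGf40_4 kGf40_4m rfl
  have h6 := ppI_stepV (k' := 6) (q := (0xe, 0x10149463c36514e4244302a4c1e164a2412401c0c3e100634190a3a2e0e23380232281a2c2005260914)) h5 rfl kGf40_5r pGf40_5 kGf40_5m rfl
  have h7 := ppI_stepV (k' := 7) (q := (0xa, 0x136233a312b35241f330c062e39022d130801100b1d160528151a260f20)) h6 rfl kGf40_6r pGf40_6 kGf40_6m rfl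
  exact h7

theorem zGf40 : (!true || allK QGf39 (fun _ => true) (nzq CBGf)
  0x8b0005e70005270002c3000183) = true := by decide +kernel

theorem mGf40A : (Nat.ble 2 0 || memI QGf39 35 1 257) = true := by decide +kernel

theorem mGf40B : (Nat.ble 1 0 || memI QGf39 4 1 1) = true := by decide +kernel

/-- **the phase 40** -/
theorem cGf40 : Dj5 CAGf CBGf PLGf (dnL QGf40) :=
  Dj5.rawP vokAGf vokBGf mclAGf mclBGf mkoGf wfpGf cGf39 mGf40A mGf40B (by norm_num) tGf40 kGf40 lenGf zGf40 bGf40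

end EF18
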