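import Pool.Agent.Lib.MP_ef18bd_co.G5.P41

/-!
# Phase 41: closed patterns
-/

namespace EF18

set_option linter.defProp false

def jGf41_0 : j0F QGf40 BGf41 25 0
  0x800000000000430000030000080003c40002440006c00006800006400006000005c00005800005400005000003820004c00004800004400004000003c0000380000340000300005344 = true := by
  decide +kernel

end EF18
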