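import Pool.Agent.Lib.MP_ef18bd_co.G5.P41

/-!
# Phase 41: roots
-/

namespace EF18

set_option linter.defProp false

def oGf41_0_0 : rGf41 0 12
  0x201c180800040f10805c58543430380f10806864604c48500f10805c58540400080f10802c2824140c100f108038343020181c0f108050484c2c24280f1080443c403830340f108014100c0804000f1080201c180800040f108014100c0804000f108014100c0804000f108 = true := by
  decide +kernel

end EF18
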