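import Pool.Agent.Lib.MP_ef18bd_co.G5.C40
import Pool.Agent.Lib.MP_ef18bd_co.G5.P41x0
import Pool.Agent.Lib.MP_ef18bd_co.G5.P41j0
import Pool.Agent.Lib.MP_ef18bd_co.G5.P41r0
import Pool.Agent.Lib.MP_ef18bd_co.G5.P41k0

/-!
# Phase 41
-/

namespace EF18

theorem aGf41 : ∀ i < 61, Val (stD (dnL QGf40) SGf41) (prc BGf41 i) := by
  have j0 := ents_zeroF QGf40 SGf41 BGf41
  have j1 := ents_dnF (k := 25) j0 jGf41_0 rfl
  have h0 := j1
  have h1 := wGf41_0_0 h0
  have h2 := wGf41_0_1 h1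
  exact h2

theorem bGf41 : RtI (ok5 (okB 0 true)) (stD (dnL QGf40) SGf41) RBGf41 12 := by
  have h0 := rtI_zero (ok5 (okB 0 true)) (stD (dnL QGf40) SGf41) RBGf41
  have h1 := uGf41 aGf41 h0 oGf41_0_0 (show 0 + 12 = 12 from rfl)
  exact h1

theorem tGf41 : (TGf41.all okJ) = true := by decide +kernel

theorem pGf41_0 : CkP QGf40 (6, 0x19130c17100b251f06231c05201b03140f09)
    [2, 0, 0, 0, 0, 0, 0] 64 := by
  have h0 := ckP_zero QGf40 (6, 0x19130c17100b251f06231c05201b03140f09)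
    [2, 0, 0, 0, 0, 0, 0]
  have h1 := ckP_step (k := 63) h0 kGf41_0c0 rfl
  have h2 := ckP_step (k := 64) h1 kGf41_0c1 rfl
  exact h2

theorem pGf41_1 : CkP QGf40 (6, 0x19120d16110b251e07221d05211b03150f09)
    [4, 3, 0, 0, 0, 0, 0, 0] 128 := by
  have h0 := ckP_zero QGf40 (6, 0x19120d16110b251e07221d05211b03150f09)
    [4, 3, 0, 0, 0, 0, 0, 0]
  have h1 := ckP_step (k := 126) h0 kGf41_1c0 rfl
  have h2 := ckP_step (k := 127) h1 kGf41_1c1 rfl
  have h3 := ckP_step (k := 128) h2 kGf41_1c2 rfl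
  exact h3

theorem pGf41_2 : CkP QGf40 (6, 0x1010601130c01100b1d16051a1503200f09)
    [3, 2, 0, 0, 0] 16 := by
  have h0 := ckP_zero QGf40 (6, 0x1010601130c01100b1d16051a1503200f09)
    [3, 2, 0, 0, 0]
  have h1 := ckP_step (k := 16) h0 kGf41_2c0 rfl
  exact h1

theorem pGf41_3 : CkP QGf40 (9, 0x12a24010107341712321d0c01231101290b261b042015022d0e08)
    [4, 3, 0, 0, 0, 0] 32 := by
  have h0 := ckP_zero QGf40 (9, 0x12a24010107341712321d0c01231101290b261b042015022d0e08)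
    [4, 3, 0, 0, 0, 0]
  have h1 := ckP_step (k := 32) h0 kGf41_3c0 rfl
  exact h1

theorem pGf41_4 : CkP QGf40 (0xa, 0x1013638312b352412331e0c2e190a281710231d022c1a072620050f0914)
    [4, 0, 0, 0, 0, 0, 0] 64 := by
  have h0 := ckP_zero QGf40 (0xa, 0x1013638312b352412331e0c2e190a281710231d022c1a072620050f0914)
    [4, 0, 0, 0, 0, 0, 0]
  have h1 := ckP_step (k := 64) h0 kGf41_4c0 rfl
  exact h1

theorem pGf41_5 : CkP QGf40 (0xe, 0x10149463c36514e4244302a4c1e164a2412401c0c3e100634190a3a2e0e23380232281a2c2005260914)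
    [0, 0, 0, 0] 8 := by
  have h0 := ckP_zero QGf40 (0xe, 0x10149463c36514e4244302a4c1e164a2412401c0c3e100634190a3a2e0e23380232281a2c2005260914)
    [0, 0, 0, 0]
  have h1 := ckP_step (k := 8) h0 kGf41_5c0 rfl
  exact h1

theorem pGf41_6 : CkP QGf40 (0xa, 0x136233a312b35241f330c062e39022d130801100b1d160528151a260f20)
    [7, 6, 0, 0, 0, 0, 0, 0] 128 := by
  have h0 := ckP_zero QGf40 (0xa, 0x136233a312b35241f330c062e39022d130801100b1d160528151a260f20)
    [7, 6, 0, 0, 0, 0, 0, 0]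
  have h1 := ckP_step (k := 128) h0 kGf41_6c0 rfl
  exact h1

theorem kGf41 : PpI QGf40 6 TGf41 CAGf CBGf 7 := by
  have h0 := ppI_zero QGf40 6 TGf41 CAGf CBGf
  have h1 := ppI_stepV (k' := 1) (q := (6, 0x19130c17100b251f06231c05201b03140f09)) h0 rfl kGf41_0r pGf41_0 kGf41_0m rfl
  have h2 := ppI_stepV (k' := 2) (q := (6, 0x19120d16110b251e07221d05211b03150f09)) h1 rfl kGf41_1r pGf41_1 kGf41_1m rfl
  have h3 := ppI_stepV (k' := 3) (q := (6, 0x1010601130c01100b1d16051a1503200f09)) h2 rfl kGf41_2r pGf41_2 kGf41_2m rfl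
  have h4 := ppI_stepV (k' := 4) (q := (9, 0x12a24010107341712321d0c01231101290b261b042015022d0e08)) h3 rfl kGf41_3r pGf41_3 kGf41_3m rfl
  have h5 := ppI_stepV (k' := 5) (q := (0xa, 0x1013638312b352412331e0c2e190a281710231d022c1a072620050f0914)) h4 rfl kGf41_4r pGf41_4 kGf41_4m rfl
  have h6 := ppI_stepV (k' := 6) (q := (0xe, 0x10149463c36514e4244302a4c1e164a2412401c0c3e100634190a3a2e0e23380232281a2c2005260914)) h5 rfl kGf41_5r pGf41_5 kGf41_5m rfl
  have h7 := ppI_stepV (k' := 7) (q := (0xa, 0x136233a312b35241f330c062e39022d130801100b1d160528151a260f20)) h6 rfl kGf41_6r pGf41_6 kGf41_6m rfl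
  exact h7

theorem zGf41 : (!true || allK QGf40 (fun _ => true) (nzq CBGf)
  0x8c0005e80005280002c4000184) = true := by decide +kernel

theorem mGf41A : (Nat.ble 2 0 || memI QGf40 36 1 257) = true := by decide +kernel

theorem mGf41B : (Nat.ble 1 0 || memI QGf40 5 1 1) = true := by decide +kernel

/-- **the phase 41** -/
theorem cGf41 : Dj5 CAGf CBGf PLGf (dnL QGf41) :=
  Dj5.rawP vokAGf vokBGf mclAGf mclBGf mkoGf wfpGf cGf40 mGf41A mGf41B (by norm_num) tGf41 kGf41 lenGf zGf41 bGf41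

end EF18
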