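import Pool.Agent.Lib.MP_ef18bd_co.G5.C4
import Pool.Agent.Lib.MP_ef18bd_co.G5.P5x0
import Pool.Agent.Lib.MP_ef18bd_co.G5.P5x1
import Pool.Agent.Lib.MP_ef18bd_co.G5.P5x2
import Pool.Agent.Lib.MP_ef18bd_co.G5.P5x3
import Pool.Agent.Lib.MP_ef18bd_co.G5.P5x4
import Pool.Agent.Lib.MP_ef18bd_co.G5.P5x5
import Pool.Agent.Lib.MP_ef18bd_co.G5.P5x6
import Pool.Agent.Lib.MP_ef18bd_co.G5.P5x7
import Pool.Agent.Lib.MP_ef18bd_co.G5.P5x8
import Pool.Agent.Lib.MP_ef18bd_co.G5.P5x9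
import Pool.Agent.Lib.MP_ef18bd_co.G5.P5x10
import Pool.Agent.Lib.MP_ef18bd_co.G5.P5j0
import Pool.Agent.Lib.MP_ef18bd_co.G5.P5r0
import Pool.Agent.Lib.MP_ef18bd_co.G5.P5k0

/-!
# Phase 5
-/

namespace EF18

theorem aGf5 : ∀ i < 4000, Val (stD (dnL QGf4) SGf5) (prc BGf5 i) := by
  have j0 := ents_zeroF QGf4 SGf5 BGf5
  have j1 := ents_dnF (k := 3) j0 jGf5_0 rfl
  have h0 := j1
  have h1 := wGf5_0_0 h0
  have h2 := wGf5_0_1 h1
  have h3 := wGf5_0_2 h2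
  have h4 := wGf5_0_3 h3
  have h5 := wGf5_0_4 h4
  have h6 := wGf5_0_5 h5
  have h7 := wGf5_0_6 h6
  have h8 := wGf5_0_7 h7
  have h9 := wGf5_0_8 h8
  have h10 := wGf5_0_9 h9
  have h11 := wGf5_0_10 h10
  have h12 := wGf5_0_11 h11
  have h13 := wGf5_0_12 h12
  have h14 := wGf5_0_13 h13
  have h15 := wGf5_0_14 h14
  have h16 := wGf5_1_0 h15
  have h17 := wGf5_1_1 h16
  have h18 := wGf5_1_2 h17
  have h19 := wGf5_1_3 h18
  have h20 := wGf5_1_4 h19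
  have h21 := wGf5_1_5 h20
  have h22 := wGf5_1_6 h21
  have h23 := wGf5_1_7 h22
  have h24 := wGf5_1_8 h23
  have h25 := wGf5_1_9 h24
  have h26 := wGf5_1_10 h25
  have h27 := wGf5_1_11 h26
  have h28 := wGf5_1_12 h27
  have h29 := wGf5_1_13 h28
  have h30 := wGf5_1_14 h29
  have h31 := wGf5_1_15 h30
  have h32 := wGf5_2_0 h31
  have h33 := wGf5_2_1 h32
  have h34 := wGf5_2_2 h33
  have h35 := wGf5_2_3 h34
  have h36 := wGf5_2_4 h35
  have h37 := wGf5_2_5 h36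
  have h38 := wGf5_2_6 h37
  have h39 := wGf5_2_7 h38
  have h40 := wGf5_2_8 h39
  have h41 := wGf5_2_9 h40
  have h42 := wGf5_2_10 h41
  have h43 := wGf5_2_11 h42
  have h44 := wGf5_2_12 h43
  have h45 := wGf5_2_13 h44
  have h46 := wGf5_3_0 h45
  have h47 := wGf5_3_1 h46
  have h48 := wGf5_3_2 h47
  have h49 := wGf5_3_3 h48
  have h50 := wGf5_3_4 h49
  have h51 := wGf5_3_5 h50
  have h52 := wGf5_3_6 h51
  have h53 := wGf5_3_7 h52
  have h54 := wGf5_3_8 h53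
  have h55 := wGf5_3_9 h54
  have h56 := wGf5_3_10 h55
  have h57 := wGf5_3_11 h56
  have h58 := wGf5_3_12 h57
  have h59 := wGf5_3_13 h58
  have h60 := wGf5_4_0 h59
  have h61 := wGf5_4_1 h60
  have h62 := wGf5_4_2 h61
  have h63 := wGf5_4_3 h62
  have h64 := wGf5_4_4 h63
  have h65 := wGf5_4_5 h64
  have h66 := wGf5_4_6 h65
  have h67 := wGf5_4_7 h66
  have h68 := wGf5_4_8 h67
  have h69 := wGf5_4_9 h68
  have h70 := wGf5_4_10 h69
  have h71 := wGf5_4_11 h70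
  have h72 := wGf5_4_12 h71
  have h73 := wGf5_4_13 h72
  have h74 := wGf5_4_14 h73
  have h75 := wGf5_4_15 h74
  have h76 := wGf5_4_16 h75
  have h77 := wGf5_5_0 h76
  have h78 := wGf5_5_1 h77
  have h79 := wGf5_5_2 h78
  have h80 := wGf5_5_3 h79
  have h81 := wGf5_5_4 h80
  have h82 := wGf5_5_5 h81
  have h83 := wGf5_5_6 h82
  have h84 := wGf5_5_7 h83
  have h85 := wGf5_5_8 h84
  have h86 := wGf5_5_9 h85
  have h87 := wGf5_5_10 h86
  have h88 := wGf5_5_11 h87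
  have h89 := wGf5_5_12 h88
  have h90 := wGf5_5_13 h89
  have h91 := wGf5_5_14 h90
  have h92 := wGf5_5_15 h91
  have h93 := wGf5_5_16 h92
  have h94 := wGf5_5_17 h93
  have h95 := wGf5_6_0 h94
  have h96 := wGf5_6_1 h95
  have h97 := wGf5_6_2 h96
  have h98 := wGf5_6_3 h97
  have h99 := wGf5_6_4 h98
  have h100 := wGf5_6_5 h99
  have h101 := wGf5_6_6 h100
  have h102 := wGf5_6_7 h101
  have h103 := wGf5_6_8 h102
  have h104 := wGf5_6_9 h103
  have h105 := wGf5_6_10 h104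
  have h106 := wGf5_6_11 h105
  have h107 := wGf5_6_12 h106
  have h108 := wGf5_6_13 h107
  have h109 := wGf5_6_14 h108
  have h110 := wGf5_6_15 h109
  have h111 := wGf5_7_0 h110
  have h112 := wGf5_7_1 h111
  have h113 := wGf5_7_2 h112
  have h114 := wGf5_7_3 h113
  have h115 := wGf5_7_4 h114
  have h116 := wGf5_7_5 h115
  have h117 := wGf5_7_6 h116
  have h118 := wGf5_7_7 h117
  have h119 := wGf5_7_8 h118
  have h120 := wGf5_7_9 h119
  have h121 := wGf5_7_10 h120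
  have h122 := wGf5_7_11 h121
  have h123 := wGf5_7_12 h122
  have h124 := wGf5_7_13 h123
  have h125 := wGf5_8_0 h124
  have h126 := wGf5_8_1 h125
  have h127 := wGf5_8_2 h126
  have h128 := wGf5_8_3 h127
  have h129 := wGf5_8_4 h128
  have h130 := wGf5_8_5 h129
  have h131 := wGf5_8_6 h130
  have h132 := wGf5_8_7 h131
  have h133 := wGf5_8_8 h132
  have h134 := wGf5_8_9 h133
  have h135 := wGf5_8_10 h134
  have h136 := wGf5_8_11 h135
  have h137 := wGf5_8_12 h136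
  have h138 := wGf5_8_13 h137
  have h139 := wGf5_8_14 h138
  have h140 := wGf5_8_15 h139
  have h141 := wGf5_8_16 h140
  have h142 := wGf5_8_17 h141
  have h143 := wGf5_9_0 h142
  have h144 := wGf5_9_1 h143
  have h145 := wGf5_9_2 h144
  have h146 := wGf5_9_3 h145
  have h147 := wGf5_9_4 h146
  have h148 := wGf5_9_5 h147
  have h149 := wGf5_9_6 h148
  have h150 := wGf5_9_7 h149
  have h151 := wGf5_9_8 h150
  have h152 := wGf5_9_9 h151
  have h153 := wGf5_9_10 h152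
  have h154 := wGf5_9_11 h153
  have h155 := wGf5_9_12 h154
  have h156 := wGf5_9_13 h155
  have h157 := wGf5_9_14 h156
  have h158 := wGf5_9_15 h157
  have h159 := wGf5_9_16 h158
  have h160 := wGf5_10_0 h159
  have h161 := wGf5_10_1 h160
  have h162 := wGf5_10_2 h161
  have h163 := wGf5_10_3 h162
  have h164 := wGf5_10_4 h163
  have h165 := wGf5_10_5 h164
  exact h165

theorem bGf5 : RtI (ok5 (okB 1 true)) (stD (dnL QGf4) SGf5) RBGf5 10273 := by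
  have h0 := rtI_zero (ok5 (okB 1 true)) (stD (dnL QGf4) SGf5) RBGf5
  have h1 := uGf5 aGf5 h0 oGf5_0_0 (show 0 + 25 = 25 from rfl)
  have h2 := uGf5 aGf5 h1 oGf5_0_1 (show 25 + 25 = 50 from rfl)
  have h3 := uGf5 aGf5 h2 oGf5_0_2 (show 50 + 25 = 75 from rfl)
  have h4 := uGf5 aGf5 h3 oGf5_0_3 (show 75 + 25 = 100 from rfl)
  have h5 := uGf5 aGf5 h4 oGf5_0_4 (show 100 + 25 = 125 from rfl)
  have h6 := uGf5 aGf5 h5 oGf5_0_5 (show 125 + 25 = 150 from rfl)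
  have h7 := uGf5 aGf5 h6 oGf5_0_6 (show 150 + 25 = 175 from rfl)
  have h8 := uGf5 aGf5 h7 oGf5_0_7 (show 175 + 25 = 200 from rfl)
  have h9 := uGf5 aGf5 h8 oGf5_0_8 (show 200 + 25 = 225 from rfl)
  have h10 := uGf5 aGf5 h9 oGf5_0_9 (show 225 + 25 = 250 from rfl)
  have h11 := uGf5 aGf5 h10 oGf5_0_10 (show 250 + 25 = 275 from rfl)
  have h12 := uGf5 aGf5 h11 oGf5_0_11 (show 275 + 25 = 300 from rfl)
  have h13 := uGf5 aGf5 h12 oGf5_0_12 (show 300 + 25 = 325 from rfl)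
  have h14 := uGf5 aGf5 h13 oGf5_0_13 (show 325 + 25 = 350 from rfl)
  have h15 := uGf5 aGf5 h14 oGf5_0_14 (show 350 + 25 = 375 from rfl)
  have h16 := uGf5 aGf5 h15 oGf5_0_15 (show 375 + 25 = 400 from rfl)
  have h17 := uGf5 aGf5 h16 oGf5_0_16 (show 400 + 25 = 425 from rfl)
  have h18 := uGf5 aGf5 h17 oGf5_0_17 (show 425 + 25 = 450 from rfl)
  have h19 := uGf5 aGf5 h18 oGf5_0_18 (show 450 + 25 = 475 from rfl)
  have h20 := uGf5 aGf5 h19 oGf5_0_19 (show 475 + 25 = 500 from rfl)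
  have h21 := uGf5 aGf5 h20 oGf5_0_20 (show 500 + 25 = 525 from rfl)
  have h22 := uGf5 aGf5 h21 oGf5_0_21 (show 525 + 25 = 550 from rfl)
  have h23 := uGf5 aGf5 h22 oGf5_0_22 (show 550 + 25 = 575 from rfl)
  have h24 := uGf5 aGf5 h23 oGf5_0_23 (show 575 + 25 = 600 from rfl)
  have h25 := uGf5 aGf5 h24 oGf5_0_24 (show 600 + 25 = 625 from rfl)
  have h26 := uGf5 aGf5 h25 oGf5_0_25 (show 625 + 25 = 650 from rfl)
  have h27 := uGf5 aGf5 h26 oGf5_0_26 (show 650 + 25 = 675 from rfl)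
  have h28 := uGf5 aGf5 h27 oGf5_0_27 (show 675 + 25 = 700 from rfl)
  have h29 := uGf5 aGf5 h28 oGf5_0_28 (show 700 + 25 = 725 from rfl)
  have h30 := uGf5 aGf5 h29 oGf5_0_29 (show 725 + 25 = 750 from rfl)
  have h31 := uGf5 aGf5 h30 oGf5_0_30 (show 750 + 25 = 775 from rfl)
  have h32 := uGf5 aGf5 h31 oGf5_0_31 (show 775 + 25 = 800 from rfl)
  have h33 := uGf5 aGf5 h32 oGf5_0_32 (show 800 + 25 = 825 from rfl)
  have h34 := uGf5 aGf5 h33 oGf5_0_33 (show 825 + 25 = 850 from rfl)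
  have h35 := uGf5 aGf5 h34 oGf5_0_34 (show 850 + 25 = 875 from rfl)
  have h36 := uGf5 aGf5 h35 oGf5_0_35 (show 875 + 25 = 900 from rfl)
  have h37 := uGf5 aGf5 h36 oGf5_0_36 (show 900 + 25 = 925 from rfl)
  have h38 := uGf5 aGf5 h37 oGf5_0_37 (show 925 + 25 = 950 from rfl)
  have h39 := uGf5 aGf5 h38 oGf5_0_38 (show 950 + 25 = 975 from rfl)
  have h40 := uGf5 aGf5 h39 oGf5_0_39 (show 975 + 25 = 1000 from rfl)
  have h41 := uGf5 aGf5 h40 oGf5_0_40 (show 1000 + 25 = 1025 from rfl)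
  have h42 := uGf5 aGf5 h41 oGf5_0_41 (show 1025 + 25 = 1050 from rfl)
  have h43 := uGf5 aGf5 h42 oGf5_0_42 (show 1050 + 25 = 1075 from rfl)
  have h44 := uGf5 aGf5 h43 oGf5_0_43 (show 1075 + 25 = 1100 from rfl)
  have h45 := uGf5 aGf5 h44 oGf5_0_44 (show 1100 + 25 = 1125 from rfl)
  have h46 := uGf5 aGf5 h45 oGf5_0_45 (show 1125 + 25 = 1150 from rfl)
  have h47 := uGf5 aGf5 h46 oGf5_0_46 (show 1150 + 25 = 1175 from rfl)
  have h48 := uGf5 aGf5 h47 oGf5_0_47 (show 1175 + 25 = 1200 from rfl)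
  have h49 := uGf5 aGf5 h48 oGf5_0_48 (show 1200 + 25 = 1225 from rfl)
  have h50 := uGf5 aGf5 h49 oGf5_0_49 (show 1225 + 25 = 1250 from rfl)
  have h51 := uGf5 aGf5 h50 oGf5_0_50 (show 1250 + 25 = 1275 from rfl)
  have h52 := uGf5 aGf5 h51 oGf5_0_51 (show 1275 + 25 = 1300 from rfl)
  have h53 := uGf5 aGf5 h52 oGf5_0_52 (show 1300 + 25 = 1325 from rfl)
  have h54 := uGf5 aGf5 h53 oGf5_0_53 (show 1325 + 25 = 1350 from rfl)
  have h55 := uGf5 aGf5 h54 oGf5_0_54 (show 1350 + 25 = 1375 from rfl)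
  have h56 := uGf5 aGf5 h55 oGf5_0_55 (show 1375 + 25 = 1400 from rfl)
  have h57 := uGf5 aGf5 h56 oGf5_0_56 (show 1400 + 25 = 1425 from rfl)
  have h58 := uGf5 aGf5 h57 oGf5_0_57 (show 1425 + 25 = 1450 from rfl)
  have h59 := uGf5 aGf5 h58 oGf5_0_58 (show 1450 + 25 = 1475 from rfl)
  have h60 := uGf5 aGf5 h59 oGf5_0_59 (show 1475 + 25 = 1500 from rfl)
  have h61 := uGf5 aGf5 h60 oGf5_0_60 (show 1500 + 25 = 1525 from rfl)
  have h62 := uGf5 aGf5 h61 oGf5_0_61 (show 1525 + 25 = 1550 from rfl)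
  have h63 := uGf5 aGf5 h62 oGf5_0_62 (show 1550 + 25 = 1575 from rfl)
  have h64 := uGf5 aGf5 h63 oGf5_0_63 (show 1575 + 25 = 1600 from rfl)
  have h65 := uGf5 aGf5 h64 oGf5_0_64 (show 1600 + 25 = 1625 from rfl)
  have h66 := uGf5 aGf5 h65 oGf5_0_65 (show 1625 + 25 = 1650 from rfl)
  have h67 := uGf5 aGf5 h66 oGf5_0_66 (show 1650 + 25 = 1675 from rfl)
  have h68 := uGf5 aGf5 h67 oGf5_0_67 (show 1675 + 25 = 1700 from rfl)
  have h69 := uGf5 aGf5 h68 oGf5_0_68 (show 1700 + 25 = 1725 from rfl)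
  have h70 := uGf5 aGf5 h69 oGf5_0_69 (show 1725 + 25 = 1750 from rfl)
  have h71 := uGf5 aGf5 h70 oGf5_0_70 (show 1750 + 25 = 1775 from rfl)
  have h72 := uGf5 aGf5 h71 oGf5_0_71 (show 1775 + 25 = 1800 from rfl)
  have h73 := uGf5 aGf5 h72 oGf5_0_72 (show 1800 + 25 = 1825 from rfl)
  have h74 := uGf5 aGf5 h73 oGf5_0_73 (show 1825 + 25 = 1850 from rfl)
  have h75 := uGf5 aGf5 h74 oGf5_0_74 (show 1850 + 25 = 1875 from rfl)
  have h76 := uGf5 aGf5 h75 oGf5_0_75 (show 1875 + 25 = 1900 from rfl)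
  have h77 := uGf5 aGf5 h76 oGf5_0_76 (show 1900 + 25 = 1925 from rfl)
  have h78 := uGf5 aGf5 h77 oGf5_0_77 (show 1925 + 25 = 1950 from rfl)
  have h79 := uGf5 aGf5 h78 oGf5_0_78 (show 1950 + 25 = 1975 from rfl)
  have h80 := uGf5 aGf5 h79 oGf5_0_79 (show 1975 + 25 = 2000 from rfl)
  have h81 := uGf5 aGf5 h80 oGf5_0_80 (show 2000 + 25 = 2025 from rfl)
  have h82 := uGf5 aGf5 h81 oGf5_0_81 (show 2025 + 25 = 2050 from rfl)
  have h83 := uGf5 aGf5 h82 oGf5_0_82 (show 2050 + 25 = 2075 from rfl)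
  have h84 := uGf5 aGf5 h83 oGf5_0_83 (show 2075 + 25 = 2100 from rfl)
  have h85 := uGf5 aGf5 h84 oGf5_0_84 (show 2100 + 25 = 2125 from rfl)
  have h86 := uGf5 aGf5 h85 oGf5_0_85 (show 2125 + 25 = 2150 from rfl)
  have h87 := uGf5 aGf5 h86 oGf5_0_86 (show 2150 + 25 = 2175 from rfl)
  have h88 := uGf5 aGf5 h87 oGf5_0_87 (show 2175 + 25 = 2200 from rfl)
  have h89 := uGf5 aGf5 h88 oGf5_0_88 (show 2200 + 25 = 2225 from rfl)
  have h90 := uGf5 aGf5 h89 oGf5_0_89 (show 2225 + 25 = 2250 from rfl)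
  have h91 := uGf5 aGf5 h90 oGf5_0_90 (show 2250 + 25 = 2275 from rfl)
  have h92 := uGf5 aGf5 h91 oGf5_0_91 (show 2275 + 25 = 2300 from rfl)
  have h93 := uGf5 aGf5 h92 oGf5_0_92 (show 2300 + 25 = 2325 from rfl)
  have h94 := uGf5 aGf5 h93 oGf5_0_93 (show 2325 + 25 = 2350 from rfl)
  have h95 := uGf5 aGf5 h94 oGf5_0_94 (show 2350 + 25 = 2375 from rfl)
  have h96 := uGf5 aGf5 h95 oGf5_0_95 (show 2375 + 25 = 2400 from rfl)
  have h97 := uGf5 aGf5 h96 oGf5_0_96 (show 2400 + 25 = 2425 from rfl)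
  have h98 := uGf5 aGf5 h97 oGf5_0_97 (show 2425 + 25 = 2450 from rfl)
  have h99 := uGf5 aGf5 h98 oGf5_0_98 (show 2450 + 25 = 2475 from rfl)
  have h100 := uGf5 aGf5 h99 oGf5_0_99 (show 2475 + 25 = 2500 from rfl)
  have h101 := uGf5 aGf5 h100 oGf5_0_100 (show 2500 + 25 = 2525 from rfl)
  have h102 := uGf5 aGf5 h101 oGf5_0_101 (show 2525 + 25 = 2550 from rfl)
  have h103 := uGf5 aGf5 h102 oGf5_0_102 (show 2550 + 25 = 2575 from rfl)
  have h104 := uGf5 aGf5 h103 oGf5_0_103 (show 2575 + 25 = 2600 from rfl)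
  have h105 := uGf5 aGf5 h104 oGf5_0_104 (show 2600 + 25 = 2625 from rfl)
  have h106 := uGf5 aGf5 h105 oGf5_0_105 (show 2625 + 25 = 2650 from rfl)
  have h107 := uGf5 aGf5 h106 oGf5_0_106 (show 2650 + 25 = 2675 from rfl)
  have h108 := uGf5 aGf5 h107 oGf5_0_107 (show 2675 + 25 = 2700 from rfl)
  have h109 := uGf5 aGf5 h108 oGf5_0_108 (show 2700 + 25 = 2725 from rfl)
  have h110 := uGf5 aGf5 h109 oGf5_0_109 (show 2725 + 25 = 2750 from rfl)
  have h111 := uGf5 aGf5 h110 oGf5_0_110 (show 2750 + 25 = 2775 from rfl)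
  have h112 := uGf5 aGf5 h111 oGf5_0_111 (show 2775 + 25 = 2800 from rfl)
  have h113 := uGf5 aGf5 h112 oGf5_0_112 (show 2800 + 25 = 2825 from rfl)
  have h114 := uGf5 aGf5 h113 oGf5_0_113 (show 2825 + 25 = 2850 from rfl)
  have h115 := uGf5 aGf5 h114 oGf5_0_114 (show 2850 + 25 = 2875 from rfl)
  have h116 := uGf5 aGf5 h115 oGf5_0_115 (show 2875 + 25 = 2900 from rfl)
  have h117 := uGf5 aGf5 h116 oGf5_0_116 (show 2900 + 25 = 2925 from rfl)
  have h118 := uGf5 aGf5 h117 oGf5_0_117 (show 2925 + 25 = 2950 from rfl)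
  have h119 := uGf5 aGf5 h118 oGf5_0_118 (show 2950 + 25 = 2975 from rfl)
  have h120 := uGf5 aGf5 h119 oGf5_0_119 (show 2975 + 25 = 3000 from rfl)
  have h121 := uGf5 aGf5 h120 oGf5_0_120 (show 3000 + 25 = 3025 from rfl)
  have h122 := uGf5 aGf5 h121 oGf5_0_121 (show 3025 + 25 = 3050 from rfl)
  have h123 := uGf5 aGf5 h122 oGf5_0_122 (show 3050 + 25 = 3075 from rfl)
  have h124 := uGf5 aGf5 h123 oGf5_0_123 (show 3075 + 25 = 3100 from rfl)
  have h125 := uGf5 aGf5 h124 oGf5_0_124 (show 3100 + 25 = 3125 from rfl)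
  have h126 := uGf5 aGf5 h125 oGf5_0_125 (show 3125 + 25 = 3150 from rfl)
  have h127 := uGf5 aGf5 h126 oGf5_0_126 (show 3150 + 25 = 3175 from rfl)
  have h128 := uGf5 aGf5 h127 oGf5_0_127 (show 3175 + 25 = 3200 from rfl)
  have h129 := uGf5 aGf5 h128 oGf5_0_128 (show 3200 + 25 = 3225 from rfl)
  have h130 := uGf5 aGf5 h129 oGf5_0_129 (show 3225 + 25 = 3250 from rfl)
  have h131 := uGf5 aGf5 h130 oGf5_0_130 (show 3250 + 25 = 3275 from rfl)
  have h132 := uGf5 aGf5 h131 oGf5_0_131 (show 3275 + 25 = 3300 from rfl)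
  have h133 := uGf5 aGf5 h132 oGf5_0_132 (show 3300 + 25 = 3325 from rfl)
  have h134 := uGf5 aGf5 h133 oGf5_0_133 (show 3325 + 25 = 3350 from rfl)
  have h135 := uGf5 aGf5 h134 oGf5_0_134 (show 3350 + 25 = 3375 from rfl)
  have h136 := uGf5 aGf5 h135 oGf5_0_135 (show 3375 + 25 = 3400 from rfl)
  have h137 := uGf5 aGf5 h136 oGf5_0_136 (show 3400 + 25 = 3425 from rfl)
  have h138 := uGf5 aGf5 h137 oGf5_0_137 (show 3425 + 25 = 3450 from rfl)
  have h139 := uGf5 aGf5 h138 oGf5_0_138 (show 3450 + 25 = 3475 from rfl)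
  have h140 := uGf5 aGf5 h139 oGf5_0_139 (show 3475 + 25 = 3500 from rfl)
  have h141 := uGf5 aGf5 h140 oGf5_0_140 (show 3500 + 25 = 3525 from rfl)
  have h142 := uGf5 aGf5 h141 oGf5_0_141 (show 3525 + 25 = 3550 from rfl)
  have h143 := uGf5 aGf5 h142 oGf5_0_142 (show 3550 + 25 = 3575 from rfl)
  have h144 := uGf5 aGf5 h143 oGf5_0_143 (show 3575 + 25 = 3600 from rfl)
  have h145 := uGf5 aGf5 h144 oGf5_0_144 (show 3600 + 25 = 3625 from rfl)
  have h146 := uGf5 aGf5 h145 oGf5_0_145 (show 3625 + 25 = 3650 from rfl)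
  have h147 := uGf5 aGf5 h146 oGf5_0_146 (show 3650 + 25 = 3675 from rfl)
  have h148 := uGf5 aGf5 h147 oGf5_0_147 (show 3675 + 25 = 3700 from rfl)
  have h149 := uGf5 aGf5 h148 oGf5_0_148 (show 3700 + 25 = 3725 from rfl)
  have h150 := uGf5 aGf5 h149 oGf5_0_149 (show 3725 + 25 = 3750 from rfl)
  have h151 := uGf5 aGf5 h150 oGf5_0_150 (show 3750 + 25 = 3775 from rfl)
  have h152 := uGf5 aGf5 h151 oGf5_0_151 (show 3775 + 25 = 3800 from rfl)
  have h153 := uGf5 aGf5 h152 oGf5_0_152 (show 3800 + 25 = 3825 from rfl)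
  have h154 := uGf5 aGf5 h153 oGf5_0_153 (show 3825 + 25 = 3850 from rfl)
  have h155 := uGf5 aGf5 h154 oGf5_0_154 (show 3850 + 25 = 3875 from rfl)
  have h156 := uGf5 aGf5 h155 oGf5_0_155 (show 3875 + 25 = 3900 from rfl)
  have h157 := uGf5 aGf5 h156 oGf5_0_156 (show 3900 + 25 = 3925 from rfl)
  have h158 := uGf5 aGf5 h157 oGf5_0_157 (show 3925 + 25 = 3950 from rfl)
  have h159 := uGf5 aGf5 h158 oGf5_0_158 (show 3950 + 25 = 3975 from rfl)
  have h160 := uGf5 aGf5 h159 oGf5_0_159 (show 3975 + 25 = 4000 from rfl)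
  have h161 := uGf5 aGf5 h160 oGf5_0_160 (show 4000 + 25 = 4025 from rfl)
  have h162 := uGf5 aGf5 h161 oGf5_0_161 (show 4025 + 25 = 4050 from rfl)
  have h163 := uGf5 aGf5 h162 oGf5_0_162 (show 4050 + 25 = 4075 from rfl)
  have h164 := uGf5 aGf5 h163 oGf5_0_163 (show 4075 + 25 = 4100 from rfl)
  have h165 := uGf5 aGf5 h164 oGf5_0_164 (show 4100 + 25 = 4125 from rfl)
  have h166 := uGf5 aGf5 h165 oGf5_0_165 (show 4125 + 25 = 4150 from rfl)
  have h167 := uGf5 aGf5 h166 oGf5_0_166 (show 4150 + 25 = 4175 from rfl)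
  have h168 := uGf5 aGf5 h167 oGf5_0_167 (show 4175 + 25 = 4200 from rfl)
  have h169 := uGf5 aGf5 h168 oGf5_0_168 (show 4200 + 25 = 4225 from rfl)
  have h170 := uGf5 aGf5 h169 oGf5_0_169 (show 4225 + 25 = 4250 from rfl)
  have h171 := uGf5 aGf5 h170 oGf5_0_170 (show 4250 + 25 = 4275 from rfl)
  have h172 := uGf5 aGf5 h171 oGf5_0_171 (show 4275 + 25 = 4300 from rfl)
  have h173 := uGf5 aGf5 h172 oGf5_0_172 (show 4300 + 25 = 4325 from rfl)
  have h174 := uGf5 aGf5 h173 oGf5_0_173 (show 4325 + 25 = 4350 from rfl)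
  have h175 := uGf5 aGf5 h174 oGf5_0_174 (show 4350 + 25 = 4375 from rfl)
  have h176 := uGf5 aGf5 h175 oGf5_0_175 (show 4375 + 25 = 4400 from rfl)
  have h177 := uGf5 aGf5 h176 oGf5_0_176 (show 4400 + 25 = 4425 from rfl)
  have h178 := uGf5 aGf5 h177 oGf5_0_177 (show 4425 + 25 = 4450 from rfl)
  have h179 := uGf5 aGf5 h178 oGf5_0_178 (show 4450 + 25 = 4475 from rfl)
  have h180 := uGf5 aGf5 h179 oGf5_0_179 (show 4475 + 25 = 4500 from rfl)
  have h181 := uGf5 aGf5 h180 oGf5_0_180 (show 4500 + 25 = 4525 from rfl)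
  have h182 := uGf5 aGf5 h181 oGf5_0_181 (show 4525 + 25 = 4550 from rfl)
  have h183 := uGf5 aGf5 h182 oGf5_0_182 (show 4550 + 25 = 4575 from rfl)
  have h184 := uGf5 aGf5 h183 oGf5_0_183 (show 4575 + 25 = 4600 from rfl)
  have h185 := uGf5 aGf5 h184 oGf5_0_184 (show 4600 + 25 = 4625 from rfl)
  have h186 := uGf5 aGf5 h185 oGf5_0_185 (show 4625 + 25 = 4650 from rfl)
  have h187 := uGf5 aGf5 h186 oGf5_0_186 (show 4650 + 25 = 4675 from rfl)
  have h188 := uGf5 aGf5 h187 oGf5_0_187 (show 4675 + 25 = 4700 from rfl)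
  have h189 := uGf5 aGf5 h188 oGf5_0_188 (show 4700 + 25 = 4725 from rfl)
  have h190 := uGf5 aGf5 h189 oGf5_0_189 (show 4725 + 25 = 4750 from rfl)
  have h191 := uGf5 aGf5 h190 oGf5_0_190 (show 4750 + 25 = 4775 from rfl)
  have h192 := uGf5 aGf5 h191 oGf5_0_191 (show 4775 + 25 = 4800 from rfl)
  have h193 := uGf5 aGf5 h192 oGf5_0_192 (show 4800 + 25 = 4825 from rfl)
  have h194 := uGf5 aGf5 h193 oGf5_0_193 (show 4825 + 25 = 4850 from rfl)
  have h195 := uGf5 aGf5 h194 oGf5_0_194 (show 4850 + 25 = 4875 from rfl)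
  have h196 := uGf5 aGf5 h195 oGf5_0_195 (show 4875 + 25 = 4900 from rfl)
  have h197 := uGf5 aGf5 h196 oGf5_0_196 (show 4900 + 25 = 4925 from rfl)
  have h198 := uGf5 aGf5 h197 oGf5_0_197 (show 4925 + 25 = 4950 from rfl)
  have h199 := uGf5 aGf5 h198 oGf5_0_198 (show 4950 + 25 = 4975 from rfl)
  have h200 := uGf5 aGf5 h199 oGf5_0_199 (show 4975 + 25 = 5000 from rfl)
  have h201 := uGf5 aGf5 h200 oGf5_0_200 (show 5000 + 25 = 5025 from rfl)
  have h202 := uGf5 aGf5 h201 oGf5_0_201 (show 5025 + 25 = 5050 from rfl)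
  have h203 := uGf5 aGf5 h202 oGf5_0_202 (show 5050 + 25 = 5075 from rfl)
  have h204 := uGf5 aGf5 h203 oGf5_0_203 (show 5075 + 25 = 5100 from rfl)
  have h205 := uGf5 aGf5 h204 oGf5_0_204 (show 5100 + 25 = 5125 from rfl)
  have h206 := uGf5 aGf5 h205 oGf5_0_205 (show 5125 + 25 = 5150 from rfl)
  have h207 := uGf5 aGf5 h206 oGf5_0_206 (show 5150 + 25 = 5175 from rfl)
  have h208 := uGf5 aGf5 h207 oGf5_0_207 (show 5175 + 25 = 5200 from rfl)
  have h209 := uGf5 aGf5 h208 oGf5_0_208 (show 5200 + 25 = 5225 from rfl)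
  have h210 := uGf5 aGf5 h209 oGf5_0_209 (show 5225 + 25 = 5250 from rfl)
  have h211 := uGf5 aGf5 h210 oGf5_0_210 (show 5250 + 25 = 5275 from rfl)
  have h212 := uGf5 aGf5 h211 oGf5_0_211 (show 5275 + 25 = 5300 from rfl)
  have h213 := uGf5 aGf5 h212 oGf5_0_212 (show 5300 + 25 = 5325 from rfl)
  have h214 := uGf5 aGf5 h213 oGf5_0_213 (show 5325 + 25 = 5350 from rfl)
  have h215 := uGf5 aGf5 h214 oGf5_0_214 (show 5350 + 25 = 5375 from rfl)
  have h216 := uGf5 aGf5 h215 oGf5_0_215 (show 5375 + 25 = 5400 from rfl)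
  have h217 := uGf5 aGf5 h216 oGf5_0_216 (show 5400 + 25 = 5425 from rfl)
  have h218 := uGf5 aGf5 h217 oGf5_0_217 (show 5425 + 25 = 5450 from rfl)
  have h219 := uGf5 aGf5 h218 oGf5_0_218 (show 5450 + 25 = 5475 from rfl)
  have h220 := uGf5 aGf5 h219 oGf5_0_219 (show 5475 + 25 = 5500 from rfl)
  have h221 := uGf5 aGf5 h220 oGf5_0_220 (show 5500 + 25 = 5525 from rfl)
  have h222 := uGf5 aGf5 h221 oGf5_0_221 (show 5525 + 25 = 5550 from rfl)
  have h223 := uGf5 aGf5 h222 oGf5_0_222 (show 5550 + 25 = 5575 from rfl)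
  have h224 := uGf5 aGf5 h223 oGf5_0_223 (show 5575 + 25 = 5600 from rfl)
  have h225 := uGf5 aGf5 h224 oGf5_0_224 (show 5600 + 25 = 5625 from rfl)
  have h226 := uGf5 aGf5 h225 oGf5_0_225 (show 5625 + 25 = 5650 from rfl)
  have h227 := uGf5 aGf5 h226 oGf5_0_226 (show 5650 + 25 = 5675 from rfl)
  have h228 := uGf5 aGf5 h227 oGf5_0_227 (show 5675 + 25 = 5700 from rfl)
  have h229 := uGf5 aGf5 h228 oGf5_0_228 (show 5700 + 25 = 5725 from rfl)
  have h230 := uGf5 aGf5 h229 oGf5_0_229 (show 5725 + 25 = 5750 from rfl)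
  have h231 := uGf5 aGf5 h230 oGf5_0_230 (show 5750 + 25 = 5775 from rfl)
  have h232 := uGf5 aGf5 h231 oGf5_0_231 (show 5775 + 25 = 5800 from rfl)
  have h233 := uGf5 aGf5 h232 oGf5_0_232 (show 5800 + 25 = 5825 from rfl)
  have h234 := uGf5 aGf5 h233 oGf5_0_233 (show 5825 + 25 = 5850 from rfl)
  have h235 := uGf5 aGf5 h234 oGf5_0_234 (show 5850 + 25 = 5875 from rfl)
  have h236 := uGf5 aGf5 h235 oGf5_0_235 (show 5875 + 25 = 5900 from rfl)
  have h237 := uGf5 aGf5 h236 oGf5_0_236 (show 5900 + 25 = 5925 from rfl)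
  have h238 := uGf5 aGf5 h237 oGf5_0_237 (show 5925 + 25 = 5950 from rfl)
  have h239 := uGf5 aGf5 h238 oGf5_0_238 (show 5950 + 25 = 5975 from rfl)
  have h240 := uGf5 aGf5 h239 oGf5_0_239 (show 5975 + 25 = 6000 from rfl)
  have h241 := uGf5 aGf5 h240 oGf5_0_240 (show 6000 + 25 = 6025 from rfl)
  have h242 := uGf5 aGf5 h241 oGf5_0_241 (show 6025 + 25 = 6050 from rfl)
  have h243 := uGf5 aGf5 h242 oGf5_0_242 (show 6050 + 25 = 6075 from rfl)
  have h244 := uGf5 aGf5 h243 oGf5_0_243 (show 6075 + 25 = 6100 from rfl)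
  have h245 := uGf5 aGf5 h244 oGf5_0_244 (show 6100 + 25 = 6125 from rfl)
  have h246 := uGf5 aGf5 h245 oGf5_0_245 (show 6125 + 25 = 6150 from rfl)
  have h247 := uGf5 aGf5 h246 oGf5_0_246 (show 6150 + 25 = 6175 from rfl)
  have h248 := uGf5 aGf5 h247 oGf5_0_247 (show 6175 + 25 = 6200 from rfl)
  have h249 := uGf5 aGf5 h248 oGf5_0_248 (show 6200 + 25 = 6225 from rfl)
  have h250 := uGf5 aGf5 h249 oGf5_0_249 (show 6225 + 25 = 6250 from rfl)
  have h251 := uGf5 aGf5 h250 oGf5_0_250 (show 6250 + 25 = 6275 from rfl)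
  have h252 := uGf5 aGf5 h251 oGf5_0_251 (show 6275 + 25 = 6300 from rfl)
  have h253 := uGf5 aGf5 h252 oGf5_0_252 (show 6300 + 25 = 6325 from rfl)
  have h254 := uGf5 aGf5 h253 oGf5_0_253 (show 6325 + 25 = 6350 from rfl)
  have h255 := uGf5 aGf5 h254 oGf5_0_254 (show 6350 + 25 = 6375 from rfl)
  have h256 := uGf5 aGf5 h255 oGf5_0_255 (show 6375 + 25 = 6400 from rfl)
  have h257 := uGf5 aGf5 h256 oGf5_0_256 (show 6400 + 25 = 6425 from rfl)
  have h258 := uGf5 aGf5 h257 oGf5_0_257 (show 6425 + 25 = 6450 from rfl)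
  have h259 := uGf5 aGf5 h258 oGf5_0_258 (show 6450 + 25 = 6475 from rfl)
  have h260 := uGf5 aGf5 h259 oGf5_0_259 (show 6475 + 25 = 6500 from rfl)
  have h261 := uGf5 aGf5 h260 oGf5_0_260 (show 6500 + 25 = 6525 from rfl)
  have h262 := uGf5 aGf5 h261 oGf5_0_261 (show 6525 + 25 = 6550 from rfl)
  have h263 := uGf5 aGf5 h262 oGf5_0_262 (show 6550 + 25 = 6575 from rfl)
  have h264 := uGf5 aGf5 h263 oGf5_0_263 (show 6575 + 25 = 6600 from rfl)
  have h265 := uGf5 aGf5 h264 oGf5_0_264 (show 6600 + 25 = 6625 from rfl)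
  have h266 := uGf5 aGf5 h265 oGf5_0_265 (show 6625 + 25 = 6650 from rfl)
  have h267 := uGf5 aGf5 h266 oGf5_0_266 (show 6650 + 25 = 6675 from rfl)
  have h268 := uGf5 aGf5 h267 oGf5_0_267 (show 6675 + 25 = 6700 from rfl)
  have h269 := uGf5 aGf5 h268 oGf5_0_268 (show 6700 + 25 = 6725 from rfl)
  have h270 := uGf5 aGf5 h269 oGf5_0_269 (show 6725 + 25 = 6750 from rfl)
  have h271 := uGf5 aGf5 h270 oGf5_0_270 (show 6750 + 25 = 6775 from rfl)
  have h272 := uGf5 aGf5 h271 oGf5_0_271 (show 6775 + 25 = 6800 from rfl)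
  have h273 := uGf5 aGf5 h272 oGf5_0_272 (show 6800 + 25 = 6825 from rfl)
  have h274 := uGf5 aGf5 h273 oGf5_0_273 (show 6825 + 25 = 6850 from rfl)
  have h275 := uGf5 aGf5 h274 oGf5_0_274 (show 6850 + 25 = 6875 from rfl)
  have h276 := uGf5 aGf5 h275 oGf5_0_275 (show 6875 + 25 = 6900 from rfl)
  have h277 := uGf5 aGf5 h276 oGf5_0_276 (show 6900 + 25 = 6925 from rfl)
  have h278 := uGf5 aGf5 h277 oGf5_0_277 (show 6925 + 25 = 6950 from rfl)
  have h279 := uGf5 aGf5 h278 oGf5_0_278 (show 6950 + 25 = 6975 from rfl)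
  have h280 := uGf5 aGf5 h279 oGf5_0_279 (show 6975 + 25 = 7000 from rfl)
  have h281 := uGf5 aGf5 h280 oGf5_0_280 (show 7000 + 25 = 7025 from rfl)
  have h282 := uGf5 aGf5 h281 oGf5_0_281 (show 7025 + 25 = 7050 from rfl)
  have h283 := uGf5 aGf5 h282 oGf5_0_282 (show 7050 + 25 = 7075 from rfl)
  have h284 := uGf5 aGf5 h283 oGf5_0_283 (show 7075 + 25 = 7100 from rfl)
  have h285 := uGf5 aGf5 h284 oGf5_0_284 (show 7100 + 25 = 7125 from rfl)
  have h286 := uGf5 aGf5 h285 oGf5_0_285 (show 7125 + 25 = 7150 from rfl)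
  have h287 := uGf5 aGf5 h286 oGf5_0_286 (show 7150 + 25 = 7175 from rfl)
  have h288 := uGf5 aGf5 h287 oGf5_0_287 (show 7175 + 25 = 7200 from rfl)
  have h289 := uGf5 aGf5 h288 oGf5_0_288 (show 7200 + 25 = 7225 from rfl)
  have h290 := uGf5 aGf5 h289 oGf5_0_289 (show 7225 + 25 = 7250 from rfl)
  have h291 := uGf5 aGf5 h290 oGf5_0_290 (show 7250 + 25 = 7275 from rfl)
  have h292 := uGf5 aGf5 h291 oGf5_0_291 (show 7275 + 25 = 7300 from rfl)
  have h293 := uGf5 aGf5 h292 oGf5_0_292 (show 7300 + 25 = 7325 from rfl)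
  have h294 := uGf5 aGf5 h293 oGf5_0_293 (show 7325 + 25 = 7350 from rfl)
  have h295 := uGf5 aGf5 h294 oGf5_0_294 (show 7350 + 25 = 7375 from rfl)
  have h296 := uGf5 aGf5 h295 oGf5_0_295 (show 7375 + 25 = 7400 from rfl)
  have h297 := uGf5 aGf5 h296 oGf5_0_296 (show 7400 + 25 = 7425 from rfl)
  have h298 := uGf5 aGf5 h297 oGf5_0_297 (show 7425 + 25 = 7450 from rfl)
  have h299 := uGf5 aGf5 h298 oGf5_0_298 (show 7450 + 25 = 7475 from rfl)
  have h300 := uGf5 aGf5 h299 oGf5_0_299 (show 7475 + 25 = 7500 from rfl)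
  have h301 := uGf5 aGf5 h300 oGf5_0_300 (show 7500 + 25 = 7525 from rfl)
  have h302 := uGf5 aGf5 h301 oGf5_0_301 (show 7525 + 25 = 7550 from rfl)
  have h303 := uGf5 aGf5 h302 oGf5_0_302 (show 7550 + 25 = 7575 from rfl)
  have h304 := uGf5 aGf5 h303 oGf5_0_303 (show 7575 + 25 = 7600 from rfl)
  have h305 := uGf5 aGf5 h304 oGf5_0_304 (show 7600 + 25 = 7625 from rfl)
  have h306 := uGf5 aGf5 h305 oGf5_0_305 (show 7625 + 25 = 7650 from rfl)
  have h307 := uGf5 aGf5 h306 oGf5_0_306 (show 7650 + 25 = 7675 from rfl)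
  have h308 := uGf5 aGf5 h307 oGf5_0_307 (show 7675 + 25 = 7700 from rfl)
  have h309 := uGf5 aGf5 h308 oGf5_0_308 (show 7700 + 25 = 7725 from rfl)
  have h310 := uGf5 aGf5 h309 oGf5_0_309 (show 7725 + 25 = 7750 from rfl)
  have h311 := uGf5 aGf5 h310 oGf5_0_310 (show 7750 + 25 = 7775 from rfl)
  have h312 := uGf5 aGf5 h311 oGf5_0_311 (show 7775 + 25 = 7800 from rfl)
  have h313 := uGf5 aGf5 h312 oGf5_0_312 (show 7800 + 25 = 7825 from rfl)
  have h314 := uGf5 aGf5 h313 oGf5_0_313 (show 7825 + 25 = 7850 from rfl)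
  have h315 := uGf5 aGf5 h314 oGf5_0_314 (show 7850 + 25 = 7875 from rfl)
  have h316 := uGf5 aGf5 h315 oGf5_0_315 (show 7875 + 25 = 7900 from rfl)
  have h317 := uGf5 aGf5 h316 oGf5_0_316 (show 7900 + 25 = 7925 from rfl)
  have h318 := uGf5 aGf5 h317 oGf5_0_317 (show 7925 + 25 = 7950 from rfl)
  have h319 := uGf5 aGf5 h318 oGf5_0_318 (show 7950 + 25 = 7975 from rfl)
  have h320 := uGf5 aGf5 h319 oGf5_0_319 (show 7975 + 25 = 8000 from rfl)
  have h321 := uGf5 aGf5 h320 oGf5_0_320 (show 8000 + 25 = 8025 from rfl)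
  have h322 := uGf5 aGf5 h321 oGf5_0_321 (show 8025 + 25 = 8050 from rfl)
  have h323 := uGf5 aGf5 h322 oGf5_0_322 (show 8050 + 25 = 8075 from rfl)
  have h324 := uGf5 aGf5 h323 oGf5_0_323 (show 8075 + 25 = 8100 from rfl)
  have h325 := uGf5 aGf5 h324 oGf5_0_324 (show 8100 + 25 = 8125 from rfl)
  have h326 := uGf5 aGf5 h325 oGf5_0_325 (show 8125 + 25 = 8150 from rfl)
  have h327 := uGf5 aGf5 h326 oGf5_0_326 (show 8150 + 25 = 8175 from rfl)
  have h328 := uGf5 aGf5 h327 oGf5_0_327 (show 8175 + 25 = 8200 from rfl)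
  have h329 := uGf5 aGf5 h328 oGf5_0_328 (show 8200 + 25 = 8225 from rfl)
  have h330 := uGf5 aGf5 h329 oGf5_0_329 (show 8225 + 25 = 8250 from rfl)
  have h331 := uGf5 aGf5 h330 oGf5_0_330 (show 8250 + 25 = 8275 from rfl)
  have h332 := uGf5 aGf5 h331 oGf5_0_331 (show 8275 + 25 = 8300 from rfl)
  have h333 := uGf5 aGf5 h332 oGf5_0_332 (show 8300 + 25 = 8325 from rfl)
  have h334 := uGf5 aGf5 h333 oGf5_0_333 (show 8325 + 25 = 8350 from rfl)
  have h335 := uGf5 aGf5 h334 oGf5_0_334 (show 8350 + 25 = 8375 from rfl)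
  have h336 := uGf5 aGf5 h335 oGf5_0_335 (show 8375 + 25 = 8400 from rfl)
  have h337 := uGf5 aGf5 h336 oGf5_0_336 (show 8400 + 25 = 8425 from rfl)
  have h338 := uGf5 aGf5 h337 oGf5_0_337 (show 8425 + 25 = 8450 from rfl)
  have h339 := uGf5 aGf5 h338 oGf5_0_338 (show 8450 + 25 = 8475 from rfl)
  have h340 := uGf5 aGf5 h339 oGf5_0_339 (show 8475 + 25 = 8500 from rfl)
  have h341 := uGf5 aGf5 h340 oGf5_0_340 (show 8500 + 25 = 8525 from rfl)
  have h342 := uGf5 aGf5 h341 oGf5_0_341 (show 8525 + 25 = 8550 from rfl)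
  have h343 := uGf5 aGf5 h342 oGf5_0_342 (show 8550 + 25 = 8575 from rfl)
  have h344 := uGf5 aGf5 h343 oGf5_0_343 (show 8575 + 25 = 8600 from rfl)
  have h345 := uGf5 aGf5 h344 oGf5_0_344 (show 8600 + 25 = 8625 from rfl)
  have h346 := uGf5 aGf5 h345 oGf5_0_345 (show 8625 + 25 = 8650 from rfl)
  have h347 := uGf5 aGf5 h346 oGf5_0_346 (show 8650 + 25 = 8675 from rfl)
  have h348 := uGf5 aGf5 h347 oGf5_0_347 (show 8675 + 25 = 8700 from rfl)
  have h349 := uGf5 aGf5 h348 oGf5_0_348 (show 8700 + 25 = 8725 from rfl)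
  have h350 := uGf5 aGf5 h349 oGf5_0_349 (show 8725 + 25 = 8750 from rfl)
  have h351 := uGf5 aGf5 h350 oGf5_0_350 (show 8750 + 25 = 8775 from rfl)
  have h352 := uGf5 aGf5 h351 oGf5_0_351 (show 8775 + 25 = 8800 from rfl)
  have h353 := uGf5 aGf5 h352 oGf5_0_352 (show 8800 + 25 = 8825 from rfl)
  have h354 := uGf5 aGf5 h353 oGf5_0_353 (show 8825 + 25 = 8850 from rfl)
  have h355 := uGf5 aGf5 h354 oGf5_0_354 (show 8850 + 25 = 8875 from rfl)
  have h356 := uGf5 aGf5 h355 oGf5_0_355 (show 8875 + 25 = 8900 from rfl)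
  have h357 := uGf5 aGf5 h356 oGf5_0_356 (show 8900 + 25 = 8925 from rfl)
  have h358 := uGf5 aGf5 h357 oGf5_0_357 (show 8925 + 25 = 8950 from rfl)
  have h359 := uGf5 aGf5 h358 oGf5_0_358 (show 8950 + 25 = 8975 from rfl)
  have h360 := uGf5 aGf5 h359 oGf5_0_359 (show 8975 + 25 = 9000 from rfl)
  have h361 := uGf5 aGf5 h360 oGf5_0_360 (show 9000 + 25 = 9025 from rfl)
  have h362 := uGf5 aGf5 h361 oGf5_0_361 (show 9025 + 25 = 9050 from rfl)
  have h363 := uGf5 aGf5 h362 oGf5_0_362 (show 9050 + 25 = 9075 from rfl)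
  have h364 := uGf5 aGf5 h363 oGf5_0_363 (show 9075 + 25 = 9100 from rfl)
  have h365 := uGf5 aGf5 h364 oGf5_0_364 (show 9100 + 25 = 9125 from rfl)
  have h366 := uGf5 aGf5 h365 oGf5_0_365 (show 9125 + 25 = 9150 from rfl)
  have h367 := uGf5 aGf5 h366 oGf5_0_366 (show 9150 + 25 = 9175 from rfl)
  have h368 := uGf5 aGf5 h367 oGf5_0_367 (show 9175 + 25 = 9200 from rfl)
  have h369 := uGf5 aGf5 h368 oGf5_0_368 (show 9200 + 25 = 9225 from rfl)
  have h370 := uGf5 aGf5 h369 oGf5_0_369 (show 9225 + 25 = 9250 from rfl)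
  have h371 := uGf5 aGf5 h370 oGf5_0_370 (show 9250 + 25 = 9275 from rfl)
  have h372 := uGf5 aGf5 h371 oGf5_0_371 (show 9275 + 25 = 9300 from rfl)
  have h373 := uGf5 aGf5 h372 oGf5_0_372 (show 9300 + 25 = 9325 from rfl)
  have h374 := uGf5 aGf5 h373 oGf5_0_373 (show 9325 + 25 = 9350 from rfl)
  have h375 := uGf5 aGf5 h374 oGf5_0_374 (show 9350 + 25 = 9375 from rfl)
  have h376 := uGf5 aGf5 h375 oGf5_0_375 (show 9375 + 25 = 9400 from rfl)
  have h377 := uGf5 aGf5 h376 oGf5_0_376 (show 9400 + 25 = 9425 from rfl)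
  have h378 := uGf5 aGf5 h377 oGf5_0_377 (show 9425 + 25 = 9450 from rfl)
  have h379 := uGf5 aGf5 h378 oGf5_0_378 (show 9450 + 25 = 9475 from rfl)
  have h380 := uGf5 aGf5 h379 oGf5_0_379 (show 9475 + 25 = 9500 from rfl)
  have h381 := uGf5 aGf5 h380 oGf5_0_380 (show 9500 + 25 = 9525 from rfl)
  have h382 := uGf5 aGf5 h381 oGf5_0_381 (show 9525 + 25 = 9550 from rfl)
  have h383 := uGf5 aGf5 h382 oGf5_0_382 (show 9550 + 25 = 9575 from rfl)
  have h384 := uGf5 aGf5 h383 oGf5_0_383 (show 9575 + 25 = 9600 from rfl)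
  have h385 := uGf5 aGf5 h384 oGf5_0_384 (show 9600 + 25 = 9625 from rfl)
  have h386 := uGf5 aGf5 h385 oGf5_0_385 (show 9625 + 25 = 9650 from rfl)
  have h387 := uGf5 aGf5 h386 oGf5_0_386 (show 9650 + 25 = 9675 from rfl)
  have h388 := uGf5 aGf5 h387 oGf5_0_387 (show 9675 + 25 = 9700 from rfl)
  have h389 := uGf5 aGf5 h388 oGf5_0_388 (show 9700 + 25 = 9725 from rfl)
  have h390 := uGf5 aGf5 h389 oGf5_0_389 (show 9725 + 25 = 9750 from rfl)
  have h391 := uGf5 aGf5 h390 oGf5_0_390 (show 9750 + 25 = 9775 from rfl)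
  have h392 := uGf5 aGf5 h391 oGf5_0_391 (show 9775 + 25 = 9800 from rfl)
  have h393 := uGf5 aGf5 h392 oGf5_0_392 (show 9800 + 25 = 9825 from rfl)
  have h394 := uGf5 aGf5 h393 oGf5_0_393 (show 9825 + 25 = 9850 from rfl)
  have h395 := uGf5 aGf5 h394 oGf5_0_394 (show 9850 + 25 = 9875 from rfl)
  have h396 := uGf5 aGf5 h395 oGf5_0_395 (show 9875 + 25 = 9900 from rfl)
  have h397 := uGf5 aGf5 h396 oGf5_0_396 (show 9900 + 25 = 9925 from rfl)
  have h398 := uGf5 aGf5 h397 oGf5_0_397 (show 9925 + 25 = 9950 from rfl)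
  have h399 := uGf5 aGf5 h398 oGf5_0_398 (show 9950 + 25 = 9975 from rfl)
  have h400 := uGf5 aGf5 h399 oGf5_0_399 (show 9975 + 25 = 10000 from rfl)
  have h401 := uGf5 aGf5 h400 oGf5_0_400 (show 10000 + 25 = 10025 from rfl)
  have h402 := uGf5 aGf5 h401 oGf5_0_401 (show 10025 + 25 = 10050 from rfl)
  have h403 := uGf5 aGf5 h402 oGf5_0_402 (show 10050 + 25 = 10075 from rfl)
  have h404 := uGf5 aGf5 h403 oGf5_0_403 (show 10075 + 25 = 10100 from rfl)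
  have h405 := uGf5 aGf5 h404 oGf5_0_404 (show 10100 + 25 = 10125 from rfl)
  have h406 := uGf5 aGf5 h405 oGf5_0_405 (show 10125 + 25 = 10150 from rfl)
  have h407 := uGf5 aGf5 h406 oGf5_0_406 (show 10150 + 25 = 10175 from rfl)
  have h408 := uGf5 aGf5 h407 oGf5_0_407 (show 10175 + 25 = 10200 from rfl)
  have h409 := uGf5 aGf5 h408 oGf5_0_408 (show 10200 + 25 = 10225 from rfl)
  have h410 := uGf5 aGf5 h409 oGf5_0_409 (show 10225 + 25 = 10250 from rfl)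
  have h411 := uGf5 aGf5 h410 oGf5_0_410 (show 10250 + 23 = 10273 from rfl)
  exact h411

theorem tGf5 : (TGf5.all okJ) = true := by decide +kernel

theorem pGf5_0 : CkP QGf4 (6, 0x19130c17100b251f06231c05201b03140f09)
    [6, 5, 4, 0, 0, 0, 0] 64 := by
  have h0 := ckP_zero QGf4 (6, 0x19130c17100b251f06231c05201b03140f09)
    [6, 5, 4, 0, 0, 0, 0]
  have h1 := ckP_step (k := 64) h0 kGf5_0c0 rfl
  exact h1

theorem pGf5_1 : CkP QGf4 (6, 0x19120d16110b251e07221d05211b03150f09)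
    [7, 6, 5, 4, 3, 0, 0, 0] 128 := by
  have h0 := ckP_zero QGf4 (6, 0x19120d16110b251e07221d05211b03150f09)
    [7, 6, 5, 4, 3, 0, 0, 0]
  have h1 := ckP_step (k := 128) h0 kGf5_1c0 rfl
  exact h1

theorem pGf5_2 : CkP QGf4 (6, 0x1010601130c01100b1d16051a1503200f09)
    [4, 3, 2, 1, 0] 16 := by
  have h0 := ckP_zero QGf4 (6, 0x1010601130c01100b1d16051a1503200f09)
    [4, 3, 2, 1, 0]
  have h1 := ckP_step (k := 16) h0 kGf5_2c0 rfl
  exact h1

theorem pGf5_3 : CkP QGf4 (9, 0x12a24010107341712321d0c01231101290b261b042015022d0e08)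
    [5, 4, 3, 2, 1, 0] 32 := by
  have h0 := ckP_zero QGf4 (9, 0x12a24010107341712321d0c01231101290b261b042015022d0e08)
    [5, 4, 3, 2, 1, 0]
  have h1 := ckP_step (k := 32) h0 kGf5_3c0 rfl
  exact h1

theorem pGf5_4 : CkP QGf4 (0xa, 0x1013638312b352412331e0c2e190a281710231d022c1a072620050f0914)
    [6, 5, 4, 0, 0, 0, 0] 64 := by
  have h0 := ckP_zero QGf4 (0xa, 0x1013638312b352412331e0c2e190a281710231d022c1a072620050f0914)
    [6, 5, 4, 0, 0, 0, 0]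
  have h1 := ckP_step (k := 64) h0 kGf5_4c0 rfl
  exact h1

theorem pGf5_5 : CkP QGf4 (0xe, 0x10149463c36514e4244302a4c1e164a2412401c0c3e100634190a3a2e0e23380232281a2c2005260914)
    [3, 2, 1, 0] 8 := by
  have h0 := ckP_zero QGf4 (0xe, 0x10149463c36514e4244302a4c1e164a2412401c0c3e100634190a3a2e0e23380232281a2c2005260914)
    [3, 2, 1, 0]
  have h1 := ckP_step (k := 8) h0 kGf5_5c0 rfl
  exact h1

theorem pGf5_6 : CkP QGf4 (0xa, 0x136233a312b35241f330c062e39022d130801100b1d160528151a260f20)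
    [7, 6, 5, 4, 3, 2, 1, 0] 128 := by
  have h0 := ckP_zero QGf4 (0xa, 0x136233a312b35241f330c062e39022d130801100b1d160528151a260f20)
    [7, 6, 5, 4, 3, 2, 1, 0]
  have h1 := ckP_step (k := 128) h0 kGf5_6c0 rfl
  exact h1

theorem kGf5 : PpI QGf4 6 TGf5 CAGf CBGf 7 := by
  have h0 := ppI_zero QGf4 6 TGf5 CAGf CBGf
  have h1 := ppI_stepV (k' := 1) (q := (6, 0x19130c17100b251f06231c05201b03140f09)) h0 rfl kGf5_0r pGf5_0 kGf5_0m rfl
  have h2 := ppI_stepV (k' := 2) (q := (6, 0x19120d16110b251e07221d05211b03150f09)) h1 rfl kGf5_1r pGf5_1 kGf5_1m rfl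
  have h3 := ppI_stepV (k' := 3) (q := (6, 0x1010601130c01100b1d16051a1503200f09)) h2 rfl kGf5_2r pGf5_2 kGf5_2m rfl
  have h4 := ppI_stepV (k' := 4) (q := (9, 0x12a24010107341712321d0c01231101290b261b042015022d0e08)) h3 rfl kGf5_3r pGf5_3 kGf5_3m rfl
  have h5 := ppI_stepV (k' := 5) (q := (0xa, 0x1013638312b352412331e0c2e190a281710231d022c1a072620050f0914)) h4 rfl kGf5_4r pGf5_4 kGf5_4m rfl
  have h6 := ppI_stepV (k' := 6) (q := (0xe, 0x10149463c36514e4244302a4c1e164a2412401c0c3e100634190a3a2e0e23380232281a2c2005260914)) h5 rfl kGf5_5r pGf5_5 kGf5_5m rfl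
  have h7 := ppI_stepV (k' := 7) (q := (0xa, 0x136233a312b35241f330c062e39022d130801100b1d160528151a260f20)) h6 rfl kGf5_6r pGf5_6 kGf5_6m rfl
  exact h7

theorem zGf5 : (!false || allK QGf4 (fun _ => true) (nzq CBGf)
  0) = true := by decide +kernel

theorem mGf5A : (Nat.ble 2 1 || memI QGf4 0 1 257) = true := by decide +kernel

theorem mGf5B : (Nat.ble 1 1 || memI QGf4 0 1 1) = true := by decide +kernel

/-- **the phase 5** -/
theorem cGf5 : Dj5 CAGf CBGf PLGf (dnL QGf5) :=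
  Dj5.rawP vokAGf vokBGf mclAGf mclBGf mkoGf wfpGf cGf4 mGf5A mGf5B (by norm_num) tGf5 kGf5 lenGf zGf5 bGf5

end EF18
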