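import Pool.Agent.Lib.MP_ef18bd_co.G5.C5
import Pool.Agent.Lib.MP_ef18bd_co.G5.P6x0
import Pool.Agent.Lib.MP_ef18bd_co.G5.P6x1
import Pool.Agent.Lib.MP_ef18bd_co.G5.P6x2
import Pool.Agent.Lib.MP_ef18bd_co.G5.P6x3
import Pool.Agent.Lib.MP_ef18bd_co.G5.P6x4
import Pool.Agent.Lib.MP_ef18bd_co.G5.P6x5
import Pool.Agent.Lib.MP_ef18bd_co.G5.P6x6
import Pool.Agent.Lib.MP_ef18bd_co.G5.P6x7
import Pool.Agent.Lib.MP_ef18bd_co.G5.P6x8
import Pool.Agent.Lib.MP_ef18bd_co.G5.P6j0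
import Pool.Agent.Lib.MP_ef18bd_co.G5.P6r0
import Pool.Agent.Lib.MP_ef18bd_co.G5.P6k0

/-!
# Phase 6
-/

namespace EF18

theorem aGf6 : ∀ i < 4000, Val (stD (dnL QGf5) SGf6) (prc BGf6 i) := by
  have j0 := ents_zeroF QGf5 SGf6 BGf6
  have j1 := ents_dnF (k := 65) j0 jGf6_0 rfl
  have h0 := j1
  have h1 := wGf6_0_0 h0
  have h2 := wGf6_0_1 h1
  have h3 := wGf6_0_2 h2
  have h4 := wGf6_0_3 h3
  have h5 := wGf6_0_4 h4
  have h6 := wGf6_0_5 h5
  have h7 := wGf6_0_6 h6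
  have h8 := wGf6_0_7 h7
  have h9 := wGf6_0_8 h8
  have h10 := wGf6_0_9 h9
  have h11 := wGf6_0_10 h10
  have h12 := wGf6_0_11 h11
  have h13 := wGf6_0_12 h12
  have h14 := wGf6_0_13 h13
  have h15 := wGf6_0_14 h14
  have h16 := wGf6_0_15 h15
  have h17 := wGf6_0_16 h16
  have h18 := wGf6_0_17 h17
  have h19 := wGf6_0_18 h18
  have h20 := wGf6_1_0 h19
  have h21 := wGf6_1_1 h20
  have h22 := wGf6_1_2 h21
  have h23 := wGf6_1_3 h22
  have h24 := wGf6_1_4 h23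
  have h25 := wGf6_1_5 h24
  have h26 := wGf6_1_6 h25
  have h27 := wGf6_1_7 h26
  have h28 := wGf6_1_8 h27
  have h29 := wGf6_1_9 h28
  have h30 := wGf6_1_10 h29
  have h31 := wGf6_1_11 h30
  have h32 := wGf6_1_12 h31
  have h33 := wGf6_1_13 h32
  have h34 := wGf6_1_14 h33
  have h35 := wGf6_1_15 h34
  have h36 := wGf6_1_16 h35
  have h37 := wGf6_1_17 h36
  have h38 := wGf6_1_18 h37
  have h39 := wGf6_1_19 h38
  have h40 := wGf6_2_0 h39
  have h41 := wGf6_2_1 h40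
  have h42 := wGf6_2_2 h41
  have h43 := wGf6_2_3 h42
  have h44 := wGf6_2_4 h43
  have h45 := wGf6_2_5 h44
  have h46 := wGf6_2_6 h45
  have h47 := wGf6_2_7 h46
  have h48 := wGf6_2_8 h47
  have h49 := wGf6_2_9 h48
  have h50 := wGf6_2_10 h49
  have h51 := wGf6_2_11 h50
  have h52 := wGf6_2_12 h51
  have h53 := wGf6_2_13 h52
  have h54 := wGf6_2_14 h53
  have h55 := wGf6_2_15 h54
  have h56 := wGf6_2_16 h55
  have h57 := wGf6_3_0 h56
  have h58 := wGf6_3_1 h57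
  have h59 := wGf6_3_2 h58
  have h60 := wGf6_3_3 h59
  have h61 := wGf6_3_4 h60
  have h62 := wGf6_3_5 h61
  have h63 := wGf6_3_6 h62
  have h64 := wGf6_3_7 h63
  have h65 := wGf6_3_8 h64
  have h66 := wGf6_3_9 h65
  have h67 := wGf6_3_10 h66
  have h68 := wGf6_3_11 h67
  have h69 := wGf6_3_12 h68
  have h70 := wGf6_3_13 h69
  have h71 := wGf6_3_14 h70
  have h72 := wGf6_3_15 h71
  have h73 := wGf6_3_16 h72
  have h74 := wGf6_3_17 h73
  have h75 := wGf6_3_18 h74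
  have h76 := wGf6_3_19 h75
  have h77 := wGf6_3_20 h76
  have h78 := wGf6_3_21 h77
  have h79 := wGf6_3_22 h78
  have h80 := wGf6_3_23 h79
  have h81 := wGf6_4_0 h80
  have h82 := wGf6_4_1 h81
  have h83 := wGf6_4_2 h82
  have h84 := wGf6_4_3 h83
  have h85 := wGf6_4_4 h84
  have h86 := wGf6_4_5 h85
  have h87 := wGf6_4_6 h86
  have h88 := wGf6_4_7 h87
  have h89 := wGf6_4_8 h88
  have h90 := wGf6_4_9 h89
  have h91 := wGf6_4_10 h90
  have h92 := wGf6_4_11 h91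
  have h93 := wGf6_4_12 h92
  have h94 := wGf6_4_13 h93
  have h95 := wGf6_4_14 h94
  have h96 := wGf6_4_15 h95
  have h97 := wGf6_4_16 h96
  have h98 := wGf6_4_17 h97
  have h99 := wGf6_4_18 h98
  have h100 := wGf6_4_19 h99
  have h101 := wGf6_4_20 h100
  have h102 := wGf6_4_21 h101
  have h103 := wGf6_5_0 h102
  have h104 := wGf6_5_1 h103
  have h105 := wGf6_5_2 h104
  have h106 := wGf6_5_3 h105
  have h107 := wGf6_5_4 h106
  have h108 := wGf6_5_5 h107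
  have h109 := wGf6_5_6 h108
  have h110 := wGf6_5_7 h109
  have h111 := wGf6_5_8 h110
  have h112 := wGf6_5_9 h111
  have h113 := wGf6_5_10 h112
  have h114 := wGf6_5_11 h113
  have h115 := wGf6_5_12 h114
  have h116 := wGf6_5_13 h115
  have h117 := wGf6_5_14 h116
  have h118 := wGf6_5_15 h117
  have h119 := wGf6_5_16 h118
  have h120 := wGf6_6_0 h119
  have h121 := wGf6_6_1 h120
  have h122 := wGf6_6_2 h121
  have h123 := wGf6_6_3 h122
  have h124 := wGf6_6_4 h123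
  have h125 := wGf6_6_5 h124
  have h126 := wGf6_6_6 h125
  have h127 := wGf6_6_7 h126
  have h128 := wGf6_6_8 h127
  have h129 := wGf6_6_9 h128
  have h130 := wGf6_6_10 h129
  have h131 := wGf6_6_11 h130
  have h132 := wGf6_6_12 h131
  have h133 := wGf6_6_13 h132
  have h134 := wGf6_6_14 h133
  have h135 := wGf6_7_0 h134
  have h136 := wGf6_7_1 h135
  have h137 := wGf6_7_2 h136
  have h138 := wGf6_7_3 h137
  have h139 := wGf6_7_4 h138
  have h140 := wGf6_7_5 h139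
  have h141 := wGf6_7_6 h140
  have h142 := wGf6_7_7 h141
  have h143 := wGf6_7_8 h142
  have h144 := wGf6_7_9 h143
  have h145 := wGf6_7_10 h144
  have h146 := wGf6_7_11 h145
  have h147 := wGf6_7_12 h146
  have h148 := wGf6_7_13 h147
  have h149 := wGf6_7_14 h148
  have h150 := wGf6_7_15 h149
  have h151 := wGf6_7_16 h150
  have h152 := wGf6_8_0 h151
  have h153 := wGf6_8_1 h152
  have h154 := wGf6_8_2 h153
  have h155 := wGf6_8_3 h154
  have h156 := wGf6_8_4 h155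
  have h157 := wGf6_8_5 h156
  have h158 := wGf6_8_6 h157
  have h159 := wGf6_8_7 h158
  have h160 := wGf6_8_8 h159
  have h161 := wGf6_8_9 h160
  have h162 := wGf6_8_10 h161
  exact h162

theorem bGf6 : RtI (ok5 (okB 1 true)) (stD (dnL QGf5) SGf6) RBGf6 1661 := by
  have h0 := rtI_zero (ok5 (okB 1 true)) (stD (dnL QGf5) SGf6) RBGf6
  have h1 := uGf6 aGf6 h0 oGf6_0_0 (show 0 + 25 = 25 from rfl)
  have h2 := uGf6 aGf6 h1 oGf6_0_1 (show 25 + 25 = 50 from rfl)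
  have h3 := uGf6 aGf6 h2 oGf6_0_2 (show 50 + 25 = 75 from rfl)
  have h4 := uGf6 aGf6 h3 oGf6_0_3 (show 75 + 25 = 100 from rfl)
  have h5 := uGf6 aGf6 h4 oGf6_0_4 (show 100 + 25 = 125 from rfl)
  have h6 := uGf6 aGf6 h5 oGf6_0_5 (show 125 + 25 = 150 from rfl)
  have h7 := uGf6 aGf6 h6 oGf6_0_6 (show 150 + 25 = 175 from rfl)
  have h8 := uGf6 aGf6 h7 oGf6_0_7 (show 175 + 25 = 200 from rfl)
  have h9 := uGf6 aGf6 h8 oGf6_0_8 (show 200 + 25 = 225 from rfl)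
  have h10 := uGf6 aGf6 h9 oGf6_0_9 (show 225 + 25 = 250 from rfl)
  have h11 := uGf6 aGf6 h10 oGf6_0_10 (show 250 + 25 = 275 from rfl)
  have h12 := uGf6 aGf6 h11 oGf6_0_11 (show 275 + 25 = 300 from rfl)
  have h13 := uGf6 aGf6 h12 oGf6_0_12 (show 300 + 25 = 325 from rfl)
  have h14 := uGf6 aGf6 h13 oGf6_0_13 (show 325 + 25 = 350 from rfl)
  have h15 := uGf6 aGf6 h14 oGf6_0_14 (show 350 + 25 = 375 from rfl)
  have h16 := uGf6 aGf6 h15 oGf6_0_15 (show 375 + 25 = 400 from rfl)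
  have h17 := uGf6 aGf6 h16 oGf6_0_16 (show 400 + 25 = 425 from rfl)
  have h18 := uGf6 aGf6 h17 oGf6_0_17 (show 425 + 25 = 450 from rfl)
  have h19 := uGf6 aGf6 h18 oGf6_0_18 (show 450 + 25 = 475 from rfl)
  have h20 := uGf6 aGf6 h19 oGf6_0_19 (show 475 + 25 = 500 from rfl)
  have h21 := uGf6 aGf6 h20 oGf6_0_20 (show 500 + 25 = 525 from rfl)
  have h22 := uGf6 aGf6 h21 oGf6_0_21 (show 525 + 25 = 550 from rfl)
  have h23 := uGf6 aGf6 h22 oGf6_0_22 (show 550 + 25 = 575 from rfl)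
  have h24 := uGf6 aGf6 h23 oGf6_0_23 (show 575 + 25 = 600 from rfl)
  have h25 := uGf6 aGf6 h24 oGf6_0_24 (show 600 + 25 = 625 from rfl)
  have h26 := uGf6 aGf6 h25 oGf6_0_25 (show 625 + 25 = 650 from rfl)
  have h27 := uGf6 aGf6 h26 oGf6_0_26 (show 650 + 25 = 675 from rfl)
  have h28 := uGf6 aGf6 h27 oGf6_0_27 (show 675 + 25 = 700 from rfl)
  have h29 := uGf6 aGf6 h28 oGf6_0_28 (show 700 + 25 = 725 from rfl)
  have h30 := uGf6 aGf6 h29 oGf6_0_29 (show 725 + 25 = 750 from rfl)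
  have h31 := uGf6 aGf6 h30 oGf6_0_30 (show 750 + 25 = 775 from rfl)
  have h32 := uGf6 aGf6 h31 oGf6_0_31 (show 775 + 25 = 800 from rfl)
  have h33 := uGf6 aGf6 h32 oGf6_0_32 (show 800 + 25 = 825 from rfl)
  have h34 := uGf6 aGf6 h33 oGf6_0_33 (show 825 + 25 = 850 from rfl)
  have h35 := uGf6 aGf6 h34 oGf6_0_34 (show 850 + 25 = 875 from rfl)
  have h36 := uGf6 aGf6 h35 oGf6_0_35 (show 875 + 25 = 900 from rfl)
  have h37 := uGf6 aGf6 h36 oGf6_0_36 (show 900 + 25 = 925 from rfl)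
  have h38 := uGf6 aGf6 h37 oGf6_0_37 (show 925 + 25 = 950 from rfl)
  have h39 := uGf6 aGf6 h38 oGf6_0_38 (show 950 + 25 = 975 from rfl)
  have h40 := uGf6 aGf6 h39 oGf6_0_39 (show 975 + 25 = 1000 from rfl)
  have h41 := uGf6 aGf6 h40 oGf6_0_40 (show 1000 + 25 = 1025 from rfl)
  have h42 := uGf6 aGf6 h41 oGf6_0_41 (show 1025 + 25 = 1050 from rfl)
  have h43 := uGf6 aGf6 h42 oGf6_0_42 (show 1050 + 25 = 1075 from rfl)
  have h44 := uGf6 aGf6 h43 oGf6_0_43 (show 1075 + 25 = 1100 from rfl)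
  have h45 := uGf6 aGf6 h44 oGf6_0_44 (show 1100 + 25 = 1125 from rfl)
  have h46 := uGf6 aGf6 h45 oGf6_0_45 (show 1125 + 25 = 1150 from rfl)
  have h47 := uGf6 aGf6 h46 oGf6_0_46 (show 1150 + 25 = 1175 from rfl)
  have h48 := uGf6 aGf6 h47 oGf6_0_47 (show 1175 + 25 = 1200 from rfl)
  have h49 := uGf6 aGf6 h48 oGf6_0_48 (show 1200 + 25 = 1225 from rfl)
  have h50 := uGf6 aGf6 h49 oGf6_0_49 (show 1225 + 25 = 1250 from rfl)
  have h51 := uGf6 aGf6 h50 oGf6_0_50 (show 1250 + 25 = 1275 from rfl)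
  have h52 := uGf6 aGf6 h51 oGf6_0_51 (show 1275 + 25 = 1300 from rfl)
  have h53 := uGf6 aGf6 h52 oGf6_0_52 (show 1300 + 25 = 1325 from rfl)
  have h54 := uGf6 aGf6 h53 oGf6_0_53 (show 1325 + 25 = 1350 from rfl)
  have h55 := uGf6 aGf6 h54 oGf6_0_54 (show 1350 + 25 = 1375 from rfl)
  have h56 := uGf6 aGf6 h55 oGf6_0_55 (show 1375 + 25 = 1400 from rfl)
  have h57 := uGf6 aGf6 h56 oGf6_0_56 (show 1400 + 25 = 1425 from rfl)
  have h58 := uGf6 aGf6 h57 oGf6_0_57 (show 1425 + 25 = 1450 from rfl)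
  have h59 := uGf6 aGf6 h58 oGf6_0_58 (show 1450 + 25 = 1475 from rfl)
  have h60 := uGf6 aGf6 h59 oGf6_0_59 (show 1475 + 25 = 1500 from rfl)
  have h61 := uGf6 aGf6 h60 oGf6_0_60 (show 1500 + 25 = 1525 from rfl)
  have h62 := uGf6 aGf6 h61 oGf6_0_61 (show 1525 + 25 = 1550 from rfl)
  have h63 := uGf6 aGf6 h62 oGf6_0_62 (show 1550 + 25 = 1575 from rfl)
  have h64 := uGf6 aGf6 h63 oGf6_0_63 (show 1575 + 25 = 1600 from rfl)
  have h65 := uGf6 aGf6 h64 oGf6_0_64 (show 1600 + 25 = 1625 from rfl)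
  have h66 := uGf6 aGf6 h65 oGf6_0_65 (show 1625 + 25 = 1650 from rfl)
  have h67 := uGf6 aGf6 h66 oGf6_0_66 (show 1650 + 11 = 1661 from rfl)
  exact h67

theorem tGf6 : (TGf6.all okJ) = true := by decide +kernel

theorem pGf6_0 : CkP QGf5 (6, 0x19130c17100b251f06231c05201b03140f09)
    [6, 5, 4, 0, 0, 0, 0] 64 := by
  have h0 := ckP_zero QGf5 (6, 0x19130c17100b251f06231c05201b03140f09)
    [6, 5, 4, 0, 0, 0, 0]
  have h1 := ckP_step (k := 64) h0 kGf6_0c0 rfl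
  exact h1

theorem pGf6_1 : CkP QGf5 (6, 0x19120d16110b251e07221d05211b03150f09)
    [7, 6, 5, 4, 3, 0, 0, 0] 128 := by
  have h0 := ckP_zero QGf5 (6, 0x19120d16110b251e07221d05211b03150f09)
    [7, 6, 5, 4, 3, 0, 0, 0]
  have h1 := ckP_step (k := 128) h0 kGf6_1c0 rfl
  exact h1

theorem pGf6_2 : CkP QGf5 (6, 0x1010601130c01100b1d16051a1503200f09)
    [4, 3, 2, 1, 0] 16 := by
  have h0 := ckP_zero QGf5 (6, 0x1010601130c01100b1d16051a1503200f09)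
    [4, 3, 2, 1, 0]
  have h1 := ckP_step (k := 16) h0 kGf6_2c0 rfl
  exact h1

theorem pGf6_3 : CkP QGf5 (9, 0x12a24010107341712321d0c01231101290b261b042015022d0e08)
    [5, 4, 3, 2, 1, 0] 32 := by
  have h0 := ckP_zero QGf5 (9, 0x12a24010107341712321d0c01231101290b261b042015022d0e08)
    [5, 4, 3, 2, 1, 0]
  have h1 := ckP_step (k := 32) h0 kGf6_3c0 rfl
  exact h1

theorem pGf6_4 : CkP QGf5 (0xa, 0x1013638312b352412331e0c2e190a281710231d022c1a072620050f0914)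
    [6, 5, 4, 0, 0, 0, 0] 64 := by
  have h0 := ckP_zero QGf5 (0xa, 0x1013638312b352412331e0c2e190a281710231d022c1a072620050f0914)
    [6, 5, 4, 0, 0, 0, 0]
  have h1 := ckP_step (k := 64) h0 kGf6_4c0 rfl
  exact h1

theorem pGf6_5 : CkP QGf5 (0xe, 0x10149463c36514e4244302a4c1e164a2412401c0c3e100634190a3a2e0e23380232281a2c2005260914)
    [3, 2, 1, 0] 8 := by
  have h0 := ckP_zero QGf5 (0xe, 0x10149463c36514e4244302a4c1e164a2412401c0c3e100634190a3a2e0e23380232281a2c2005260914)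
    [3, 2, 1, 0]
  have h1 := ckP_step (k := 8) h0 kGf6_5c0 rfl
  exact h1

theorem pGf6_6 : CkP QGf5 (0xa, 0x136233a312b35241f330c062e39022d130801100b1d160528151a260f20)
    [7, 6, 5, 4, 3, 2, 1, 0] 128 := by
  have h0 := ckP_zero QGf5 (0xa, 0x136233a312b35241f330c062e39022d130801100b1d160528151a260f20)
    [7, 6, 5, 4, 3, 2, 1, 0]
  have h1 := ckP_step (k := 128) h0 kGf6_6c0 rfl
  exact h1

theorem kGf6 : PpI QGf5 6 TGf6 CAGf CBGf 7 := by
  have h0 := ppI_zero QGf5 6 TGf6 CAGf CBGf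
  have h1 := ppI_stepV (k' := 1) (q := (6, 0x19130c17100b251f06231c05201b03140f09)) h0 rfl kGf6_0r pGf6_0 kGf6_0m rfl
  have h2 := ppI_stepV (k' := 2) (q := (6, 0x19120d16110b251e07221d05211b03150f09)) h1 rfl kGf6_1r pGf6_1 kGf6_1m rfl
  have h3 := ppI_stepV (k' := 3) (q := (6, 0x1010601130c01100b1d16051a1503200f09)) h2 rfl kGf6_2r pGf6_2 kGf6_2m rfl
  have h4 := ppI_stepV (k' := 4) (q := (9, 0x12a24010107341712321d0c01231101290b261b042015022d0e08)) h3 rfl kGf6_3r pGf6_3 kGf6_3m rfl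
  have h5 := ppI_stepV (k' := 5) (q := (0xa, 0x1013638312b352412331e0c2e190a281710231d022c1a072620050f0914)) h4 rfl kGf6_4r pGf6_4 kGf6_4m rfl
  have h6 := ppI_stepV (k' := 6) (q := (0xe, 0x10149463c36514e4244302a4c1e164a2412401c0c3e100634190a3a2e0e23380232281a2c2005260914)) h5 rfl kGf6_5r pGf6_5 kGf6_5m rfl
  have h7 := ppI_stepV (k' := 7) (q := (0xa, 0x136233a312b35241f330c062e39022d130801100b1d160528151a260f20)) h6 rfl kGf6_6r pGf6_6 kGf6_6m rfl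
  exact h7

theorem zGf6 : (!false || allK QGf5 (fun _ => true) (nzq CBGf)
  0) = true := by decide +kernel

theorem mGf6A : (Nat.ble 2 1 || memI QGf5 1 1 257) = true := by decide +kernel

theorem mGf6B : (Nat.ble 1 1 || memI QGf5 0 1 1) = true := by decide +kernel

/-- **the phase 6** -/
theorem cGf6 : Dj5 CAGf CBGf PLGf (dnL QGf6) :=
  Dj5.rawP vokAGf vokBGf mclAGf mclBGf mkoGf wfpGf cGf5 mGf6A mGf6B (by norm_num) tGf6 kGf6 lenGf zGf6 bGf6

end EF18
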