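import Pool.Agent.Lib.MP_ef18bd_co.G5.P7

/-!
# Phase 7: closed patterns
-/

namespace EF18

set_option linter.defProp false

def jGf7_0 : j0F QGf6 BGf7 100 0
  0x17980019a000178c00178000199400177800176400176000175c00175800175400175000174c0017480017440019680019600017000016f00016ec0016e40016dc0016d00016a000168800168000193800166c00193000163400161c00192400161000191c00191800191400191000190c00160c0019040019000018dc000bac000ac400188c00188800187c00087c00086400075c00060c009e6810a01c109ff4109fd4109b601099c81099441099141098fc1098e01096dc109670109f641090c0109f0410906c109068109050109044109ef0109030109ee4109018109edc109014109010109ed0109ecc109ec4109ec0109ebc109eb8109eb4109eb0109eac109000108ffc108ff8109e9c109e98108ff4108ff0109e88109e84109e80109e7c10003440001440016c5 = true := by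
  decide +kernel

def jGf7_1 : j0F QGf6 BGf7 19 100
  0x19f00019ec0019e80019e40019e00019dc00184800182c0019d00018140018100018000019c00019bc0017e80017d00017cc0017a00019a80 = true := by
  decide +kernel

end EF18
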