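import Pool.Agent.Lib.MP_ef18bd_co.G5.C6
import Pool.Agent.Lib.MP_ef18bd_co.G5.P7x0
import Pool.Agent.Lib.MP_ef18bd_co.G5.P7x1
import Pool.Agent.Lib.MP_ef18bd_co.G5.P7x2
import Pool.Agent.Lib.MP_ef18bd_co.G5.P7x3
import Pool.Agent.Lib.MP_ef18bd_co.G5.P7x4
import Pool.Agent.Lib.MP_ef18bd_co.G5.P7x5
import Pool.Agent.Lib.MP_ef18bd_co.G5.P7x6
import Pool.Agent.Lib.MP_ef18bd_co.G5.P7x7
import Pool.Agent.Lib.MP_ef18bd_co.G5.P7x8
import Pool.Agent.Lib.MP_ef18bd_co.G5.P7x9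
import Pool.Agent.Lib.MP_ef18bd_co.G5.P7x10
import Pool.Agent.Lib.MP_ef18bd_co.G5.P7j0
import Pool.Agent.Lib.MP_ef18bd_co.G5.P7r0
import Pool.Agent.Lib.MP_ef18bd_co.G5.P7k0

/-!
# Phase 7
-/

namespace EF18

theorem aGf7 : ∀ i < 4000, Val (stD (dnL QGf6) SGf7) (prc BGf7 i) := by
  have j0 := ents_zeroF QGf6 SGf7 BGf7
  have j1 := ents_dnF (k := 100) j0 jGf7_0 rfl
  have j2 := ents_dnF (k := 119) j1 jGf7_1 rfl
  have h0 := j2
  have h1 := wGf7_0_0 h0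
  have h2 := wGf7_0_1 h1
  have h3 := wGf7_0_2 h2
  have h4 := wGf7_0_3 h3
  have h5 := wGf7_0_4 h4
  have h6 := wGf7_0_5 h5
  have h7 := wGf7_0_6 h6
  have h8 := wGf7_0_7 h7
  have h9 := wGf7_0_8 h8
  have h10 := wGf7_0_9 h9
  have h11 := wGf7_0_10 h10
  have h12 := wGf7_0_11 h11
  have h13 := wGf7_0_12 h12
  have h14 := wGf7_1_0 h13
  have h15 := wGf7_1_1 h14
  have h16 := wGf7_1_2 h15
  have h17 := wGf7_1_3 h16
  have h18 := wGf7_1_4 h17
  have h19 := wGf7_1_5 h18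
  have h20 := wGf7_1_6 h19
  have h21 := wGf7_1_7 h20
  have h22 := wGf7_1_8 h21
  have h23 := wGf7_1_9 h22
  have h24 := wGf7_1_10 h23
  have h25 := wGf7_1_11 h24
  have h26 := wGf7_2_0 h25
  have h27 := wGf7_2_1 h26
  have h28 := wGf7_2_2 h27
  have h29 := wGf7_2_3 h28
  have h30 := wGf7_2_4 h29
  have h31 := wGf7_2_5 h30
  have h32 := wGf7_2_6 h31
  have h33 := wGf7_2_7 h32
  have h34 := wGf7_2_8 h33
  have h35 := wGf7_2_9 h34
  have h36 := wGf7_2_10 h35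
  have h37 := wGf7_2_11 h36
  have h38 := wGf7_2_12 h37
  have h39 := wGf7_2_13 h38
  have h40 := wGf7_2_14 h39
  have h41 := wGf7_3_0 h40
  have h42 := wGf7_3_1 h41
  have h43 := wGf7_3_2 h42
  have h44 := wGf7_3_3 h43
  have h45 := wGf7_3_4 h44
  have h46 := wGf7_3_5 h45
  have h47 := wGf7_3_6 h46
  have h48 := wGf7_3_7 h47
  have h49 := wGf7_3_8 h48
  have h50 := wGf7_3_9 h49
  have h51 := wGf7_3_10 h50
  have h52 := wGf7_3_11 h51
  have h53 := wGf7_3_12 h52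
  have h54 := wGf7_3_13 h53
  have h55 := wGf7_4_0 h54
  have h56 := wGf7_4_1 h55
  have h57 := wGf7_4_2 h56
  have h58 := wGf7_4_3 h57
  have h59 := wGf7_4_4 h58
  have h60 := wGf7_4_5 h59
  have h61 := wGf7_4_6 h60
  have h62 := wGf7_4_7 h61
  have h63 := wGf7_4_8 h62
  have h64 := wGf7_4_9 h63
  have h65 := wGf7_4_10 h64
  have h66 := wGf7_4_11 h65
  have h67 := wGf7_4_12 h66
  have h68 := wGf7_4_13 h67
  have h69 := wGf7_4_14 h68
  have h70 := wGf7_4_15 h69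
  have h71 := wGf7_4_16 h70
  have h72 := wGf7_4_17 h71
  have h73 := wGf7_4_18 h72
  have h74 := wGf7_5_0 h73
  have h75 := wGf7_5_1 h74
  have h76 := wGf7_5_2 h75
  have h77 := wGf7_5_3 h76
  have h78 := wGf7_5_4 h77
  have h79 := wGf7_5_5 h78
  have h80 := wGf7_5_6 h79
  have h81 := wGf7_5_7 h80
  have h82 := wGf7_5_8 h81
  have h83 := wGf7_5_9 h82
  have h84 := wGf7_5_10 h83
  have h85 := wGf7_5_11 h84
  have h86 := wGf7_5_12 h85
  have h87 := wGf7_5_13 h86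
  have h88 := wGf7_5_14 h87
  have h89 := wGf7_5_15 h88
  have h90 := wGf7_5_16 h89
  have h91 := wGf7_6_0 h90
  have h92 := wGf7_6_1 h91
  have h93 := wGf7_6_2 h92
  have h94 := wGf7_6_3 h93
  have h95 := wGf7_6_4 h94
  have h96 := wGf7_6_5 h95
  have h97 := wGf7_6_6 h96
  have h98 := wGf7_6_7 h97
  have h99 := wGf7_6_8 h98
  have h100 := wGf7_6_9 h99
  have h101 := wGf7_6_10 h100
  have h102 := wGf7_6_11 h101
  have h103 := wGf7_7_0 h102
  have h104 := wGf7_7_1 h103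
  have h105 := wGf7_7_2 h104
  have h106 := wGf7_7_3 h105
  have h107 := wGf7_7_4 h106
  have h108 := wGf7_7_5 h107
  have h109 := wGf7_7_6 h108
  have h110 := wGf7_7_7 h109
  have h111 := wGf7_7_8 h110
  have h112 := wGf7_7_9 h111
  have h113 := wGf7_7_10 h112
  have h114 := wGf7_7_11 h113
  have h115 := wGf7_8_0 h114
  have h116 := wGf7_8_1 h115
  have h117 := wGf7_8_2 h116
  have h118 := wGf7_8_3 h117
  have h119 := wGf7_8_4 h118
  have h120 := wGf7_8_5 h119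
  have h121 := wGf7_8_6 h120
  have h122 := wGf7_8_7 h121
  have h123 := wGf7_8_8 h122
  have h124 := wGf7_8_9 h123
  have h125 := wGf7_8_10 h124
  have h126 := wGf7_8_11 h125
  have h127 := wGf7_8_12 h126
  have h128 := wGf7_8_13 h127
  have h129 := wGf7_8_14 h128
  have h130 := wGf7_8_15 h129
  have h131 := wGf7_8_16 h130
  have h132 := wGf7_9_0 h131
  have h133 := wGf7_9_1 h132
  have h134 := wGf7_9_2 h133
  have h135 := wGf7_9_3 h134
  have h136 := wGf7_9_4 h135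
  have h137 := wGf7_9_5 h136
  have h138 := wGf7_9_6 h137
  have h139 := wGf7_9_7 h138
  have h140 := wGf7_9_8 h139
  have h141 := wGf7_9_9 h140
  have h142 := wGf7_9_10 h141
  have h143 := wGf7_9_11 h142
  have h144 := wGf7_9_12 h143
  have h145 := wGf7_9_13 h144
  have h146 := wGf7_9_14 h145
  have h147 := wGf7_9_15 h146
  have h148 := wGf7_9_16 h147
  have h149 := wGf7_9_17 h148
  have h150 := wGf7_9_18 h149
  have h151 := wGf7_9_19 h150
  have h152 := wGf7_10_0 h151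
  have h153 := wGf7_10_1 h152
  have h154 := wGf7_10_2 h153
  have h155 := wGf7_10_3 h154
  have h156 := wGf7_10_4 h155
  have h157 := wGf7_10_5 h156
  have h158 := wGf7_10_6 h157
  have h159 := wGf7_10_7 h158
  have h160 := wGf7_10_8 h159
  have h161 := wGf7_10_9 h160
  exact h161

theorem bGf7 : RtI (ok5 (okB 1 true)) (stD (dnL QGf6) SGf7) RBGf7 1831 := by
  have h0 := rtI_zero (ok5 (okB 1 true)) (stD (dnL QGf6) SGf7) RBGf7
  have h1 := uGf7 aGf7 h0 oGf7_0_0 (show 0 + 25 = 25 from rfl)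
  have h2 := uGf7 aGf7 h1 oGf7_0_1 (show 25 + 25 = 50 from rfl)
  have h3 := uGf7 aGf7 h2 oGf7_0_2 (show 50 + 25 = 75 from rfl)
  have h4 := uGf7 aGf7 h3 oGf7_0_3 (show 75 + 25 = 100 from rfl)
  have h5 := uGf7 aGf7 h4 oGf7_0_4 (show 100 + 25 = 125 from rfl)
  have h6 := uGf7 aGf7 h5 oGf7_0_5 (show 125 + 25 = 150 from rfl)
  have h7 := uGf7 aGf7 h6 oGf7_0_6 (show 150 + 25 = 175 from rfl)
  have h8 := uGf7 aGf7 h7 oGf7_0_7 (show 175 + 25 = 200 from rfl)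
  have h9 := uGf7 aGf7 h8 oGf7_0_8 (show 200 + 25 = 225 from rfl)
  have h10 := uGf7 aGf7 h9 oGf7_0_9 (show 225 + 25 = 250 from rfl)
  have h11 := uGf7 aGf7 h10 oGf7_0_10 (show 250 + 25 = 275 from rfl)
  have h12 := uGf7 aGf7 h11 oGf7_0_11 (show 275 + 25 = 300 from rfl)
  have h13 := uGf7 aGf7 h12 oGf7_0_12 (show 300 + 25 = 325 from rfl)
  have h14 := uGf7 aGf7 h13 oGf7_0_13 (show 325 + 25 = 350 from rfl)
  have h15 := uGf7 aGf7 h14 oGf7_0_14 (show 350 + 25 = 375 from rfl)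
  have h16 := uGf7 aGf7 h15 oGf7_0_15 (show 375 + 25 = 400 from rfl)
  have h17 := uGf7 aGf7 h16 oGf7_0_16 (show 400 + 25 = 425 from rfl)
  have h18 := uGf7 aGf7 h17 oGf7_0_17 (show 425 + 25 = 450 from rfl)
  have h19 := uGf7 aGf7 h18 oGf7_0_18 (show 450 + 25 = 475 from rfl)
  have h20 := uGf7 aGf7 h19 oGf7_0_19 (show 475 + 25 = 500 from rfl)
  have h21 := uGf7 aGf7 h20 oGf7_0_20 (show 500 + 25 = 525 from rfl)
  have h22 := uGf7 aGf7 h21 oGf7_0_21 (show 525 + 25 = 550 from rfl)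
  have h23 := uGf7 aGf7 h22 oGf7_0_22 (show 550 + 25 = 575 from rfl)
  have h24 := uGf7 aGf7 h23 oGf7_0_23 (show 575 + 25 = 600 from rfl)
  have h25 := uGf7 aGf7 h24 oGf7_0_24 (show 600 + 25 = 625 from rfl)
  have h26 := uGf7 aGf7 h25 oGf7_0_25 (show 625 + 25 = 650 from rfl)
  have h27 := uGf7 aGf7 h26 oGf7_0_26 (show 650 + 25 = 675 from rfl)
  have h28 := uGf7 aGf7 h27 oGf7_0_27 (show 675 + 25 = 700 from rfl)
  have h29 := uGf7 aGf7 h28 oGf7_0_28 (show 700 + 25 = 725 from rfl)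
  have h30 := uGf7 aGf7 h29 oGf7_0_29 (show 725 + 25 = 750 from rfl)
  have h31 := uGf7 aGf7 h30 oGf7_0_30 (show 750 + 25 = 775 from rfl)
  have h32 := uGf7 aGf7 h31 oGf7_0_31 (show 775 + 25 = 800 from rfl)
  have h33 := uGf7 aGf7 h32 oGf7_0_32 (show 800 + 25 = 825 from rfl)
  have h34 := uGf7 aGf7 h33 oGf7_0_33 (show 825 + 25 = 850 from rfl)
  have h35 := uGf7 aGf7 h34 oGf7_0_34 (show 850 + 25 = 875 from rfl)
  have h36 := uGf7 aGf7 h35 oGf7_0_35 (show 875 + 25 = 900 from rfl)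
  have h37 := uGf7 aGf7 h36 oGf7_0_36 (show 900 + 25 = 925 from rfl)
  have h38 := uGf7 aGf7 h37 oGf7_0_37 (show 925 + 25 = 950 from rfl)
  have h39 := uGf7 aGf7 h38 oGf7_0_38 (show 950 + 25 = 975 from rfl)
  have h40 := uGf7 aGf7 h39 oGf7_0_39 (show 975 + 25 = 1000 from rfl)
  have h41 := uGf7 aGf7 h40 oGf7_0_40 (show 1000 + 25 = 1025 from rfl)
  have h42 := uGf7 aGf7 h41 oGf7_0_41 (show 1025 + 25 = 1050 from rfl)
  have h43 := uGf7 aGf7 h42 oGf7_0_42 (show 1050 + 25 = 1075 from rfl)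
  have h44 := uGf7 aGf7 h43 oGf7_0_43 (show 1075 + 25 = 1100 from rfl)
  have h45 := uGf7 aGf7 h44 oGf7_0_44 (show 1100 + 25 = 1125 from rfl)
  have h46 := uGf7 aGf7 h45 oGf7_0_45 (show 1125 + 25 = 1150 from rfl)
  have h47 := uGf7 aGf7 h46 oGf7_0_46 (show 1150 + 25 = 1175 from rfl)
  have h48 := uGf7 aGf7 h47 oGf7_0_47 (show 1175 + 25 = 1200 from rfl)
  have h49 := uGf7 aGf7 h48 oGf7_0_48 (show 1200 + 25 = 1225 from rfl)
  have h50 := uGf7 aGf7 h49 oGf7_0_49 (show 1225 + 25 = 1250 from rfl)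
  have h51 := uGf7 aGf7 h50 oGf7_0_50 (show 1250 + 25 = 1275 from rfl)
  have h52 := uGf7 aGf7 h51 oGf7_0_51 (show 1275 + 25 = 1300 from rfl)
  have h53 := uGf7 aGf7 h52 oGf7_0_52 (show 1300 + 25 = 1325 from rfl)
  have h54 := uGf7 aGf7 h53 oGf7_0_53 (show 1325 + 25 = 1350 from rfl)
  have h55 := uGf7 aGf7 h54 oGf7_0_54 (show 1350 + 25 = 1375 from rfl)
  have h56 := uGf7 aGf7 h55 oGf7_0_55 (show 1375 + 25 = 1400 from rfl)
  have h57 := uGf7 aGf7 h56 oGf7_0_56 (show 1400 + 25 = 1425 from rfl)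
  have h58 := uGf7 aGf7 h57 oGf7_0_57 (show 1425 + 25 = 1450 from rfl)
  have h59 := uGf7 aGf7 h58 oGf7_0_58 (show 1450 + 25 = 1475 from rfl)
  have h60 := uGf7 aGf7 h59 oGf7_0_59 (show 1475 + 25 = 1500 from rfl)
  have h61 := uGf7 aGf7 h60 oGf7_0_60 (show 1500 + 25 = 1525 from rfl)
  have h62 := uGf7 aGf7 h61 oGf7_0_61 (show 1525 + 25 = 1550 from rfl)
  have h63 := uGf7 aGf7 h62 oGf7_0_62 (show 1550 + 25 = 1575 from rfl)
  have h64 := uGf7 aGf7 h63 oGf7_0_63 (show 1575 + 25 = 1600 from rfl)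
  have h65 := uGf7 aGf7 h64 oGf7_0_64 (show 1600 + 25 = 1625 from rfl)
  have h66 := uGf7 aGf7 h65 oGf7_0_65 (show 1625 + 25 = 1650 from rfl)
  have h67 := uGf7 aGf7 h66 oGf7_0_66 (show 1650 + 25 = 1675 from rfl)
  have h68 := uGf7 aGf7 h67 oGf7_0_67 (show 1675 + 25 = 1700 from rfl)
  have h69 := uGf7 aGf7 h68 oGf7_0_68 (show 1700 + 25 = 1725 from rfl)
  have h70 := uGf7 aGf7 h69 oGf7_0_69 (show 1725 + 25 = 1750 from rfl)
  have h71 := uGf7 aGf7 h70 oGf7_0_70 (show 1750 + 25 = 1775 from rfl)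
  have h72 := uGf7 aGf7 h71 oGf7_0_71 (show 1775 + 25 = 1800 from rfl)
  have h73 := uGf7 aGf7 h72 oGf7_0_72 (show 1800 + 25 = 1825 from rfl)
  have h74 := uGf7 aGf7 h73 oGf7_0_73 (show 1825 + 6 = 1831 from rfl)
  exact h74

theorem tGf7 : (TGf7.all okJ) = true := by decide +kernel

theorem pGf7_0 : CkP QGf6 (6, 0x19130c17100b251f06231c05201b03140f09)
    [6, 5, 4, 0, 0, 0, 0] 64 := by
  have h0 := ckP_zero QGf6 (6, 0x19130c17100b251f06231c05201b03140f09)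
    [6, 5, 4, 0, 0, 0, 0]
  have h1 := ckP_step (k := 64) h0 kGf7_0c0 rfl
  exact h1

theorem pGf7_1 : CkP QGf6 (6, 0x19120d16110b251e07221d05211b03150f09)
    [7, 6, 5, 4, 3, 0, 0, 0] 128 := by
  have h0 := ckP_zero QGf6 (6, 0x19120d16110b251e07221d05211b03150f09)
    [7, 6, 5, 4, 3, 0, 0, 0]
  have h1 := ckP_step (k := 128) h0 kGf7_1c0 rfl
  exact h1

theorem pGf7_2 : CkP QGf6 (6, 0x1010601130c01100b1d16051a1503200f09)
    [4, 3, 2, 1, 0] 16 := by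
  have h0 := ckP_zero QGf6 (6, 0x1010601130c01100b1d16051a1503200f09)
    [4, 3, 2, 1, 0]
  have h1 := ckP_step (k := 16) h0 kGf7_2c0 rfl
  exact h1

theorem pGf7_3 : CkP QGf6 (9, 0x12a24010107341712321d0c01231101290b261b042015022d0e08)
    [5, 4, 3, 2, 1, 0] 32 := by
  have h0 := ckP_zero QGf6 (9, 0x12a24010107341712321d0c01231101290b261b042015022d0e08)
    [5, 4, 3, 2, 1, 0]
  have h1 := ckP_step (k := 32) h0 kGf7_3c0 rfl
  exact h1

theorem pGf7_4 : CkP QGf6 (0xa, 0x1013638312b352412331e0c2e190a281710231d022c1a072620050f0914)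
    [6, 5, 4, 0, 0, 0, 0] 64 := by
  have h0 := ckP_zero QGf6 (0xa, 0x1013638312b352412331e0c2e190a281710231d022c1a072620050f0914)
    [6, 5, 4, 0, 0, 0, 0]
  have h1 := ckP_step (k := 64) h0 kGf7_4c0 rfl
  exact h1

theorem pGf7_5 : CkP QGf6 (0xe, 0x10149463c36514e4244302a4c1e164a2412401c0c3e100634190a3a2e0e23380232281a2c2005260914)
    [3, 2, 1, 0] 8 := by
  have h0 := ckP_zero QGf6 (0xe, 0x10149463c36514e4244302a4c1e164a2412401c0c3e100634190a3a2e0e23380232281a2c2005260914)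
    [3, 2, 1, 0]
  have h1 := ckP_step (k := 8) h0 kGf7_5c0 rfl
  exact h1

theorem pGf7_6 : CkP QGf6 (0xa, 0x136233a312b35241f330c062e39022d130801100b1d160528151a260f20)
    [7, 6, 5, 4, 3, 2, 1, 0] 128 := by
  have h0 := ckP_zero QGf6 (0xa, 0x136233a312b35241f330c062e39022d130801100b1d160528151a260f20)
    [7, 6, 5, 4, 3, 2, 1, 0]
  have h1 := ckP_step (k := 128) h0 kGf7_6c0 rfl
  exact h1

theorem kGf7 : PpI QGf6 6 TGf7 CAGf CBGf 7 := by
  have h0 := ppI_zero QGf6 6 TGf7 CAGf CBGf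
  have h1 := ppI_stepV (k' := 1) (q := (6, 0x19130c17100b251f06231c05201b03140f09)) h0 rfl kGf7_0r pGf7_0 kGf7_0m rfl
  have h2 := ppI_stepV (k' := 2) (q := (6, 0x19120d16110b251e07221d05211b03150f09)) h1 rfl kGf7_1r pGf7_1 kGf7_1m rfl
  have h3 := ppI_stepV (k' := 3) (q := (6, 0x1010601130c01100b1d16051a1503200f09)) h2 rfl kGf7_2r pGf7_2 kGf7_2m rfl
  have h4 := ppI_stepV (k' := 4) (q := (9, 0x12a24010107341712321d0c01231101290b261b042015022d0e08)) h3 rfl kGf7_3r pGf7_3 kGf7_3m rfl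
  have h5 := ppI_stepV (k' := 5) (q := (0xa, 0x1013638312b352412331e0c2e190a281710231d022c1a072620050f0914)) h4 rfl kGf7_4r pGf7_4 kGf7_4m rfl
  have h6 := ppI_stepV (k' := 6) (q := (0xe, 0x10149463c36514e4244302a4c1e164a2412401c0c3e100634190a3a2e0e23380232281a2c2005260914)) h5 rfl kGf7_5r pGf7_5 kGf7_5m rfl
  have h7 := ppI_stepV (k' := 7) (q := (0xa, 0x136233a312b35241f330c062e39022d130801100b1d160528151a260f20)) h6 rfl kGf7_6r pGf7_6 kGf7_6m rfl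
  exact h7

theorem zGf7 : (!false || allK QGf6 (fun _ => true) (nzq CBGf)
  0) = true := by decide +kernel

theorem mGf7A : (Nat.ble 2 1 || memI QGf6 2 1 257) = true := by decide +kernel

theorem mGf7B : (Nat.ble 1 1 || memI QGf6 0 1 1) = true := by decide +kernel

/-- **the phase 7** -/
theorem cGf7 : Dj5 CAGf CBGf PLGf (dnL QGf7) :=
  Dj5.rawP vokAGf vokBGf mclAGf mclBGf mkoGf wfpGf cGf6 mGf7A mGf7B (by norm_num) tGf7 kGf7 lenGf zGf7 bGf7

end EF18
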