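import Pool.Agent.Lib.MP_ef18bd_co.G5.C7
import Pool.Agent.Lib.MP_ef18bd_co.G5.P8x0
import Pool.Agent.Lib.MP_ef18bd_co.G5.P8x1
import Pool.Agent.Lib.MP_ef18bd_co.G5.P8x2
import Pool.Agent.Lib.MP_ef18bd_co.G5.P8x3
import Pool.Agent.Lib.MP_ef18bd_co.G5.P8x4
import Pool.Agent.Lib.MP_ef18bd_co.G5.P8x5
import Pool.Agent.Lib.MP_ef18bd_co.G5.P8x6
import Pool.Agent.Lib.MP_ef18bd_co.G5.P8x7
import Pool.Agent.Lib.MP_ef18bd_co.G5.P8x8
import Pool.Agent.Lib.MP_ef18bd_co.G5.P8j0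
import Pool.Agent.Lib.MP_ef18bd_co.G5.P8r0
import Pool.Agent.Lib.MP_ef18bd_co.G5.P8k0

/-!
# Phase 8
-/

namespace EF18

theorem aGf8 : ∀ i < 4000, Val (stD (dnL QGf7) SGf8) (prc BGf8 i) := by
  have j0 := ents_zeroF QGf7 SGf8 BGf8
  have j1 := ents_dnF (k := 41) j0 jGf8_0 rfl
  have h0 := j1
  have h1 := wGf8_0_0 h0
  have h2 := wGf8_0_1 h1
  have h3 := wGf8_0_2 h2
  have h4 := wGf8_0_3 h3
  have h5 := wGf8_0_4 h4
  have h6 := wGf8_0_5 h5
  have h7 := wGf8_0_6 h6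
  have h8 := wGf8_0_7 h7
  have h9 := wGf8_0_8 h8
  have h10 := wGf8_0_9 h9
  have h11 := wGf8_0_10 h10
  have h12 := wGf8_0_11 h11
  have h13 := wGf8_0_12 h12
  have h14 := wGf8_0_13 h13
  have h15 := wGf8_0_14 h14
  have h16 := wGf8_0_15 h15
  have h17 := wGf8_0_16 h16
  have h18 := wGf8_0_17 h17
  have h19 := wGf8_0_18 h18
  have h20 := wGf8_0_19 h19
  have h21 := wGf8_0_20 h20
  have h22 := wGf8_1_0 h21
  have h23 := wGf8_1_1 h22
  have h24 := wGf8_1_2 h23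
  have h25 := wGf8_1_3 h24
  have h26 := wGf8_1_4 h25
  have h27 := wGf8_1_5 h26
  have h28 := wGf8_1_6 h27
  have h29 := wGf8_1_7 h28
  have h30 := wGf8_1_8 h29
  have h31 := wGf8_1_9 h30
  have h32 := wGf8_1_10 h31
  have h33 := wGf8_1_11 h32
  have h34 := wGf8_1_12 h33
  have h35 := wGf8_1_13 h34
  have h36 := wGf8_1_14 h35
  have h37 := wGf8_1_15 h36
  have h38 := wGf8_1_16 h37
  have h39 := wGf8_1_17 h38
  have h40 := wGf8_1_18 h39
  have h41 := wGf8_2_0 h40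
  have h42 := wGf8_2_1 h41
  have h43 := wGf8_2_2 h42
  have h44 := wGf8_2_3 h43
  have h45 := wGf8_2_4 h44
  have h46 := wGf8_2_5 h45
  have h47 := wGf8_2_6 h46
  have h48 := wGf8_2_7 h47
  have h49 := wGf8_2_8 h48
  have h50 := wGf8_2_9 h49
  have h51 := wGf8_2_10 h50
  have h52 := wGf8_2_11 h51
  have h53 := wGf8_2_12 h52
  have h54 := wGf8_2_13 h53
  have h55 := wGf8_2_14 h54
  have h56 := wGf8_2_15 h55
  have h57 := wGf8_2_16 h56
  have h58 := wGf8_2_17 h57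
  have h59 := wGf8_2_18 h58
  have h60 := wGf8_3_0 h59
  have h61 := wGf8_3_1 h60
  have h62 := wGf8_3_2 h61
  have h63 := wGf8_3_3 h62
  have h64 := wGf8_3_4 h63
  have h65 := wGf8_3_5 h64
  have h66 := wGf8_3_6 h65
  have h67 := wGf8_3_7 h66
  have h68 := wGf8_3_8 h67
  have h69 := wGf8_3_9 h68
  have h70 := wGf8_3_10 h69
  have h71 := wGf8_3_11 h70
  have h72 := wGf8_3_12 h71
  have h73 := wGf8_3_13 h72
  have h74 := wGf8_3_14 h73
  have h75 := wGf8_3_15 h74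
  have h76 := wGf8_3_16 h75
  have h77 := wGf8_3_17 h76
  have h78 := wGf8_4_0 h77
  have h79 := wGf8_4_1 h78
  have h80 := wGf8_4_2 h79
  have h81 := wGf8_4_3 h80
  have h82 := wGf8_4_4 h81
  have h83 := wGf8_4_5 h82
  have h84 := wGf8_4_6 h83
  have h85 := wGf8_4_7 h84
  have h86 := wGf8_4_8 h85
  have h87 := wGf8_4_9 h86
  have h88 := wGf8_4_10 h87
  have h89 := wGf8_4_11 h88
  have h90 := wGf8_4_12 h89
  have h91 := wGf8_4_13 h90
  have h92 := wGf8_4_14 h91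
  have h93 := wGf8_4_15 h92
  have h94 := wGf8_4_16 h93
  have h95 := wGf8_4_17 h94
  have h96 := wGf8_4_18 h95
  have h97 := wGf8_4_19 h96
  have h98 := wGf8_5_0 h97
  have h99 := wGf8_5_1 h98
  have h100 := wGf8_5_2 h99
  have h101 := wGf8_5_3 h100
  have h102 := wGf8_5_4 h101
  have h103 := wGf8_5_5 h102
  have h104 := wGf8_5_6 h103
  have h105 := wGf8_5_7 h104
  have h106 := wGf8_5_8 h105
  have h107 := wGf8_5_9 h106
  have h108 := wGf8_5_10 h107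
  have h109 := wGf8_5_11 h108
  have h110 := wGf8_5_12 h109
  have h111 := wGf8_5_13 h110
  have h112 := wGf8_5_14 h111
  have h113 := wGf8_5_15 h112
  have h114 := wGf8_5_16 h113
  have h115 := wGf8_5_17 h114
  have h116 := wGf8_5_18 h115
  have h117 := wGf8_6_0 h116
  have h118 := wGf8_6_1 h117
  have h119 := wGf8_6_2 h118
  have h120 := wGf8_6_3 h119
  have h121 := wGf8_6_4 h120
  have h122 := wGf8_6_5 h121
  have h123 := wGf8_6_6 h122
  have h124 := wGf8_6_7 h123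
  have h125 := wGf8_6_8 h124
  have h126 := wGf8_6_9 h125
  have h127 := wGf8_6_10 h126
  have h128 := wGf8_6_11 h127
  have h129 := wGf8_6_12 h128
  have h130 := wGf8_6_13 h129
  have h131 := wGf8_6_14 h130
  have h132 := wGf8_6_15 h131
  have h133 := wGf8_6_16 h132
  have h134 := wGf8_6_17 h133
  have h135 := wGf8_7_0 h134
  have h136 := wGf8_7_1 h135
  have h137 := wGf8_7_2 h136
  have h138 := wGf8_7_3 h137
  have h139 := wGf8_7_4 h138
  have h140 := wGf8_7_5 h139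
  have h141 := wGf8_7_6 h140
  have h142 := wGf8_7_7 h141
  have h143 := wGf8_7_8 h142
  have h144 := wGf8_7_9 h143
  have h145 := wGf8_7_10 h144
  have h146 := wGf8_7_11 h145
  have h147 := wGf8_7_12 h146
  have h148 := wGf8_7_13 h147
  have h149 := wGf8_7_14 h148
  have h150 := wGf8_7_15 h149
  have h151 := wGf8_7_16 h150
  have h152 := wGf8_7_17 h151
  have h153 := wGf8_7_18 h152
  have h154 := wGf8_7_19 h153
  have h155 := wGf8_8_0 h154
  have h156 := wGf8_8_1 h155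
  have h157 := wGf8_8_2 h156
  have h158 := wGf8_8_3 h157
  have h159 := wGf8_8_4 h158
  have h160 := wGf8_8_5 h159
  have h161 := wGf8_8_6 h160
  exact h161

theorem bGf8 : RtI (ok5 (okB 1 true)) (stD (dnL QGf7) SGf8) RBGf8 1650 := by
  have h0 := rtI_zero (ok5 (okB 1 true)) (stD (dnL QGf7) SGf8) RBGf8
  have h1 := uGf8 aGf8 h0 oGf8_0_0 (show 0 + 25 = 25 from rfl)
  have h2 := uGf8 aGf8 h1 oGf8_0_1 (show 25 + 25 = 50 from rfl)
  have h3 := uGf8 aGf8 h2 oGf8_0_2 (show 50 + 25 = 75 from rfl)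
  have h4 := uGf8 aGf8 h3 oGf8_0_3 (show 75 + 25 = 100 from rfl)
  have h5 := uGf8 aGf8 h4 oGf8_0_4 (show 100 + 25 = 125 from rfl)
  have h6 := uGf8 aGf8 h5 oGf8_0_5 (show 125 + 25 = 150 from rfl)
  have h7 := uGf8 aGf8 h6 oGf8_0_6 (show 150 + 25 = 175 from rfl)
  have h8 := uGf8 aGf8 h7 oGf8_0_7 (show 175 + 25 = 200 from rfl)
  have h9 := uGf8 aGf8 h8 oGf8_0_8 (show 200 + 25 = 225 from rfl)
  have h10 := uGf8 aGf8 h9 oGf8_0_9 (show 225 + 25 = 250 from rfl)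
  have h11 := uGf8 aGf8 h10 oGf8_0_10 (show 250 + 25 = 275 from rfl)
  have h12 := uGf8 aGf8 h11 oGf8_0_11 (show 275 + 25 = 300 from rfl)
  have h13 := uGf8 aGf8 h12 oGf8_0_12 (show 300 + 25 = 325 from rfl)
  have h14 := uGf8 aGf8 h13 oGf8_0_13 (show 325 + 25 = 350 from rfl)
  have h15 := uGf8 aGf8 h14 oGf8_0_14 (show 350 + 25 = 375 from rfl)
  have h16 := uGf8 aGf8 h15 oGf8_0_15 (show 375 + 25 = 400 from rfl)
  have h17 := uGf8 aGf8 h16 oGf8_0_16 (show 400 + 25 = 425 from rfl)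
  have h18 := uGf8 aGf8 h17 oGf8_0_17 (show 425 + 25 = 450 from rfl)
  have h19 := uGf8 aGf8 h18 oGf8_0_18 (show 450 + 25 = 475 from rfl)
  have h20 := uGf8 aGf8 h19 oGf8_0_19 (show 475 + 25 = 500 from rfl)
  have h21 := uGf8 aGf8 h20 oGf8_0_20 (show 500 + 25 = 525 from rfl)
  have h22 := uGf8 aGf8 h21 oGf8_0_21 (show 525 + 25 = 550 from rfl)
  have h23 := uGf8 aGf8 h22 oGf8_0_22 (show 550 + 25 = 575 from rfl)
  have h24 := uGf8 aGf8 h23 oGf8_0_23 (show 575 + 25 = 600 from rfl)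
  have h25 := uGf8 aGf8 h24 oGf8_0_24 (show 600 + 25 = 625 from rfl)
  have h26 := uGf8 aGf8 h25 oGf8_0_25 (show 625 + 25 = 650 from rfl)
  have h27 := uGf8 aGf8 h26 oGf8_0_26 (show 650 + 25 = 675 from rfl)
  have h28 := uGf8 aGf8 h27 oGf8_0_27 (show 675 + 25 = 700 from rfl)
  have h29 := uGf8 aGf8 h28 oGf8_0_28 (show 700 + 25 = 725 from rfl)
  have h30 := uGf8 aGf8 h29 oGf8_0_29 (show 725 + 25 = 750 from rfl)
  have h31 := uGf8 aGf8 h30 oGf8_0_30 (show 750 + 25 = 775 from rfl)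
  have h32 := uGf8 aGf8 h31 oGf8_0_31 (show 775 + 25 = 800 from rfl)
  have h33 := uGf8 aGf8 h32 oGf8_0_32 (show 800 + 25 = 825 from rfl)
  have h34 := uGf8 aGf8 h33 oGf8_0_33 (show 825 + 25 = 850 from rfl)
  have h35 := uGf8 aGf8 h34 oGf8_0_34 (show 850 + 25 = 875 from rfl)
  have h36 := uGf8 aGf8 h35 oGf8_0_35 (show 875 + 25 = 900 from rfl)
  have h37 := uGf8 aGf8 h36 oGf8_0_36 (show 900 + 25 = 925 from rfl)
  have h38 := uGf8 aGf8 h37 oGf8_0_37 (show 925 + 25 = 950 from rfl)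
  have h39 := uGf8 aGf8 h38 oGf8_0_38 (show 950 + 25 = 975 from rfl)
  have h40 := uGf8 aGf8 h39 oGf8_0_39 (show 975 + 25 = 1000 from rfl)
  have h41 := uGf8 aGf8 h40 oGf8_0_40 (show 1000 + 25 = 1025 from rfl)
  have h42 := uGf8 aGf8 h41 oGf8_0_41 (show 1025 + 25 = 1050 from rfl)
  have h43 := uGf8 aGf8 h42 oGf8_0_42 (show 1050 + 25 = 1075 from rfl)
  have h44 := uGf8 aGf8 h43 oGf8_0_43 (show 1075 + 25 = 1100 from rfl)
  have h45 := uGf8 aGf8 h44 oGf8_0_44 (show 1100 + 25 = 1125 from rfl)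
  have h46 := uGf8 aGf8 h45 oGf8_0_45 (show 1125 + 25 = 1150 from rfl)
  have h47 := uGf8 aGf8 h46 oGf8_0_46 (show 1150 + 25 = 1175 from rfl)
  have h48 := uGf8 aGf8 h47 oGf8_0_47 (show 1175 + 25 = 1200 from rfl)
  have h49 := uGf8 aGf8 h48 oGf8_0_48 (show 1200 + 25 = 1225 from rfl)
  have h50 := uGf8 aGf8 h49 oGf8_0_49 (show 1225 + 25 = 1250 from rfl)
  have h51 := uGf8 aGf8 h50 oGf8_0_50 (show 1250 + 25 = 1275 from rfl)
  have h52 := uGf8 aGf8 h51 oGf8_0_51 (show 1275 + 25 = 1300 from rfl)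
  have h53 := uGf8 aGf8 h52 oGf8_0_52 (show 1300 + 25 = 1325 from rfl)
  have h54 := uGf8 aGf8 h53 oGf8_0_53 (show 1325 + 25 = 1350 from rfl)
  have h55 := uGf8 aGf8 h54 oGf8_0_54 (show 1350 + 25 = 1375 from rfl)
  have h56 := uGf8 aGf8 h55 oGf8_0_55 (show 1375 + 25 = 1400 from rfl)
  have h57 := uGf8 aGf8 h56 oGf8_0_56 (show 1400 + 25 = 1425 from rfl)
  have h58 := uGf8 aGf8 h57 oGf8_0_57 (show 1425 + 25 = 1450 from rfl)
  have h59 := uGf8 aGf8 h58 oGf8_0_58 (show 1450 + 25 = 1475 from rfl)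
  have h60 := uGf8 aGf8 h59 oGf8_0_59 (show 1475 + 25 = 1500 from rfl)
  have h61 := uGf8 aGf8 h60 oGf8_0_60 (show 1500 + 25 = 1525 from rfl)
  have h62 := uGf8 aGf8 h61 oGf8_0_61 (show 1525 + 25 = 1550 from rfl)
  have h63 := uGf8 aGf8 h62 oGf8_0_62 (show 1550 + 25 = 1575 from rfl)
  have h64 := uGf8 aGf8 h63 oGf8_0_63 (show 1575 + 25 = 1600 from rfl)
  have h65 := uGf8 aGf8 h64 oGf8_0_64 (show 1600 + 25 = 1625 from rfl)
  have h66 := uGf8 aGf8 h65 oGf8_0_65 (show 1625 + 25 = 1650 from rfl)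
  exact h66

theorem tGf8 : (TGf8.all okJ) = true := by decide +kernel

theorem pGf8_0 : CkP QGf7 (6, 0x19130c17100b251f06231c05201b03140f09)
    [6, 5, 4, 0, 0, 0, 0] 64 := by
  have h0 := ckP_zero QGf7 (6, 0x19130c17100b251f06231c05201b03140f09)
    [6, 5, 4, 0, 0, 0, 0]
  have h1 := ckP_step (k := 64) h0 kGf8_0c0 rfl
  exact h1

theorem pGf8_1 : CkP QGf7 (6, 0x19120d16110b251e07221d05211b03150f09)
    [7, 6, 5, 4, 3, 0, 0, 0] 128 := by
  have h0 := ckP_zero QGf7 (6, 0x19120d16110b251e07221d05211b03150f09)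
    [7, 6, 5, 4, 3, 0, 0, 0]
  have h1 := ckP_step (k := 128) h0 kGf8_1c0 rfl
  exact h1

theorem pGf8_2 : CkP QGf7 (6, 0x1010601130c01100b1d16051a1503200f09)
    [4, 3, 2, 1, 0] 16 := by
  have h0 := ckP_zero QGf7 (6, 0x1010601130c01100b1d16051a1503200f09)
    [4, 3, 2, 1, 0]
  have h1 := ckP_step (k := 16) h0 kGf8_2c0 rfl
  exact h1

theorem pGf8_3 : CkP QGf7 (9, 0x12a24010107341712321d0c01231101290b261b042015022d0e08)
    [5, 4, 3, 2, 1, 0] 32 := by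
  have h0 := ckP_zero QGf7 (9, 0x12a24010107341712321d0c01231101290b261b042015022d0e08)
    [5, 4, 3, 2, 1, 0]
  have h1 := ckP_step (k := 32) h0 kGf8_3c0 rfl
  exact h1

theorem pGf8_4 : CkP QGf7 (0xa, 0x1013638312b352412331e0c2e190a281710231d022c1a072620050f0914)
    [6, 5, 4, 0, 0, 0, 0] 64 := by
  have h0 := ckP_zero QGf7 (0xa, 0x1013638312b352412331e0c2e190a281710231d022c1a072620050f0914)
    [6, 5, 4, 0, 0, 0, 0]
  have h1 := ckP_step (k := 64) h0 kGf8_4c0 rfl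
  exact h1

theorem pGf8_5 : CkP QGf7 (0xe, 0x10149463c36514e4244302a4c1e164a2412401c0c3e100634190a3a2e0e23380232281a2c2005260914)
    [3, 2, 1, 0] 8 := by
  have h0 := ckP_zero QGf7 (0xe, 0x10149463c36514e4244302a4c1e164a2412401c0c3e100634190a3a2e0e23380232281a2c2005260914)
    [3, 2, 1, 0]
  have h1 := ckP_step (k := 8) h0 kGf8_5c0 rfl
  exact h1

theorem pGf8_6 : CkP QGf7 (0xa, 0x136233a312b35241f330c062e39022d130801100b1d160528151a260f20)
    [7, 6, 5, 4, 3, 2, 1, 0] 128 := by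
  have h0 := ckP_zero QGf7 (0xa, 0x136233a312b35241f330c062e39022d130801100b1d160528151a260f20)
    [7, 6, 5, 4, 3, 2, 1, 0]
  have h1 := ckP_step (k := 128) h0 kGf8_6c0 rfl
  exact h1

theorem kGf8 : PpI QGf7 6 TGf8 CAGf CBGf 7 := by
  have h0 := ppI_zero QGf7 6 TGf8 CAGf CBGf
  have h1 := ppI_stepV (k' := 1) (q := (6, 0x19130c17100b251f06231c05201b03140f09)) h0 rfl kGf8_0r pGf8_0 kGf8_0m rfl
  have h2 := ppI_stepV (k' := 2) (q := (6, 0x19120d16110b251e07221d05211b03150f09)) h1 rfl kGf8_1r pGf8_1 kGf8_1m rfl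
  have h3 := ppI_stepV (k' := 3) (q := (6, 0x1010601130c01100b1d16051a1503200f09)) h2 rfl kGf8_2r pGf8_2 kGf8_2m rfl
  have h4 := ppI_stepV (k' := 4) (q := (9, 0x12a24010107341712321d0c01231101290b261b042015022d0e08)) h3 rfl kGf8_3r pGf8_3 kGf8_3m rfl
  have h5 := ppI_stepV (k' := 5) (q := (0xa, 0x1013638312b352412331e0c2e190a281710231d022c1a072620050f0914)) h4 rfl kGf8_4r pGf8_4 kGf8_4m rfl
  have h6 := ppI_stepV (k' := 6) (q := (0xe, 0x10149463c36514e4244302a4c1e164a2412401c0c3e100634190a3a2e0e23380232281a2c2005260914)) h5 rfl kGf8_5r pGf8_5 kGf8_5m rfl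
  have h7 := ppI_stepV (k' := 7) (q := (0xa, 0x136233a312b35241f330c062e39022d130801100b1d160528151a260f20)) h6 rfl kGf8_6r pGf8_6 kGf8_6m rfl
  exact h7

theorem zGf8 : (!false || allK QGf7 (fun _ => true) (nzq CBGf)
  0) = true := by decide +kernel

theorem mGf8A : (Nat.ble 2 1 || memI QGf7 3 1 257) = true := by decide +kernel

theorem mGf8B : (Nat.ble 1 1 || memI QGf7 0 1 1) = true := by decide +kernel

/-- **the phase 8** -/
theorem cGf8 : Dj5 CAGf CBGf PLGf (dnL QGf8) :=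
  Dj5.rawP vokAGf vokBGf mclAGf mclBGf mkoGf wfpGf cGf7 mGf8A mGf8B (by norm_num) tGf8 kGf8 lenGf zGf8 bGf8

end EF18
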