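import Pool.Agent.Lib.MP_ef18bd_co.G5.C8
import Pool.Agent.Lib.MP_ef18bd_co.G5.P9x0
import Pool.Agent.Lib.MP_ef18bd_co.G5.P9x1
import Pool.Agent.Lib.MP_ef18bd_co.G5.P9x2
import Pool.Agent.Lib.MP_ef18bd_co.G5.P9x3
import Pool.Agent.Lib.MP_ef18bd_co.G5.P9x4
import Pool.Agent.Lib.MP_ef18bd_co.G5.P9x5
import Pool.Agent.Lib.MP_ef18bd_co.G5.P9x6
import Pool.Agent.Lib.MP_ef18bd_co.G5.P9x7
import Pool.Agent.Lib.MP_ef18bd_co.G5.P9x8
import Pool.Agent.Lib.MP_ef18bd_co.G5.P9j0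
import Pool.Agent.Lib.MP_ef18bd_co.G5.P9r0
import Pool.Agent.Lib.MP_ef18bd_co.G5.P9k0

/-!
# Phase 9
-/

namespace EF18

theorem aGf9 : ∀ i < 4000, Val (stD (dnL QGf8) SGf9) (prc BGf9 i) := by
  have j0 := ents_zeroF QGf8 SGf9 BGf9
  have j1 := ents_dnF (k := 100) j0 jGf9_0 rfl
  have j2 := ents_dnF (k := 200) j1 jGf9_1 rfl
  have j3 := ents_dnF (k := 300) j2 jGf9_2 rfl
  have j4 := ents_dnF (k := 396) j3 jGf9_3 rfl
  have h0 := j4
  have h1 := wGf9_0_0 h0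
  have h2 := wGf9_0_1 h1
  have h3 := wGf9_0_2 h2
  have h4 := wGf9_0_3 h3
  have h5 := wGf9_0_4 h4
  have h6 := wGf9_0_5 h5
  have h7 := wGf9_0_6 h6
  have h8 := wGf9_0_7 h7
  have h9 := wGf9_0_8 h8
  have h10 := wGf9_0_9 h9
  have h11 := wGf9_0_10 h10
  have h12 := wGf9_0_11 h11
  have h13 := wGf9_0_12 h12
  have h14 := wGf9_0_13 h13
  have h15 := wGf9_0_14 h14
  have h16 := wGf9_0_15 h15
  have h17 := wGf9_0_16 h16
  have h18 := wGf9_0_17 h17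
  have h19 := wGf9_1_0 h18
  have h20 := wGf9_1_1 h19
  have h21 := wGf9_1_2 h20
  have h22 := wGf9_1_3 h21
  have h23 := wGf9_1_4 h22
  have h24 := wGf9_1_5 h23
  have h25 := wGf9_1_6 h24
  have h26 := wGf9_1_7 h25
  have h27 := wGf9_1_8 h26
  have h28 := wGf9_1_9 h27
  have h29 := wGf9_1_10 h28
  have h30 := wGf9_1_11 h29
  have h31 := wGf9_1_12 h30
  have h32 := wGf9_1_13 h31
  have h33 := wGf9_1_14 h32
  have h34 := wGf9_1_15 h33
  have h35 := wGf9_1_16 h34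
  have h36 := wGf9_1_17 h35
  have h37 := wGf9_1_18 h36
  have h38 := wGf9_1_19 h37
  have h39 := wGf9_1_20 h38
  have h40 := wGf9_1_21 h39
  have h41 := wGf9_1_22 h40
  have h42 := wGf9_2_0 h41
  have h43 := wGf9_2_1 h42
  have h44 := wGf9_2_2 h43
  have h45 := wGf9_2_3 h44
  have h46 := wGf9_2_4 h45
  have h47 := wGf9_2_5 h46
  have h48 := wGf9_2_6 h47
  have h49 := wGf9_2_7 h48
  have h50 := wGf9_2_8 h49
  have h51 := wGf9_2_9 h50
  have h52 := wGf9_2_10 h51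
  have h53 := wGf9_2_11 h52
  have h54 := wGf9_2_12 h53
  have h55 := wGf9_2_13 h54
  have h56 := wGf9_2_14 h55
  have h57 := wGf9_2_15 h56
  have h58 := wGf9_2_16 h57
  have h59 := wGf9_2_17 h58
  have h60 := wGf9_3_0 h59
  have h61 := wGf9_3_1 h60
  have h62 := wGf9_3_2 h61
  have h63 := wGf9_3_3 h62
  have h64 := wGf9_3_4 h63
  have h65 := wGf9_3_5 h64
  have h66 := wGf9_3_6 h65
  have h67 := wGf9_3_7 h66
  have h68 := wGf9_3_8 h67
  have h69 := wGf9_3_9 h68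
  have h70 := wGf9_3_10 h69
  have h71 := wGf9_3_11 h70
  have h72 := wGf9_3_12 h71
  have h73 := wGf9_3_13 h72
  have h74 := wGf9_3_14 h73
  have h75 := wGf9_3_15 h74
  have h76 := wGf9_3_16 h75
  have h77 := wGf9_3_17 h76
  have h78 := wGf9_3_18 h77
  have h79 := wGf9_3_19 h78
  have h80 := wGf9_3_20 h79
  have h81 := wGf9_3_21 h80
  have h82 := wGf9_3_22 h81
  have h83 := wGf9_3_23 h82
  have h84 := wGf9_4_0 h83
  have h85 := wGf9_4_1 h84
  have h86 := wGf9_4_2 h85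
  have h87 := wGf9_4_3 h86
  have h88 := wGf9_4_4 h87
  have h89 := wGf9_4_5 h88
  have h90 := wGf9_4_6 h89
  have h91 := wGf9_4_7 h90
  have h92 := wGf9_4_8 h91
  have h93 := wGf9_4_9 h92
  have h94 := wGf9_4_10 h93
  have h95 := wGf9_4_11 h94
  have h96 := wGf9_4_12 h95
  have h97 := wGf9_4_13 h96
  have h98 := wGf9_4_14 h97
  have h99 := wGf9_5_0 h98
  have h100 := wGf9_5_1 h99
  have h101 := wGf9_5_2 h100
  have h102 := wGf9_5_3 h101
  have h103 := wGf9_5_4 h102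
  have h104 := wGf9_5_5 h103
  have h105 := wGf9_5_6 h104
  have h106 := wGf9_5_7 h105
  have h107 := wGf9_5_8 h106
  have h108 := wGf9_5_9 h107
  have h109 := wGf9_5_10 h108
  have h110 := wGf9_5_11 h109
  have h111 := wGf9_5_12 h110
  have h112 := wGf9_5_13 h111
  have h113 := wGf9_5_14 h112
  have h114 := wGf9_5_15 h113
  have h115 := wGf9_6_0 h114
  have h116 := wGf9_6_1 h115
  have h117 := wGf9_6_2 h116
  have h118 := wGf9_6_3 h117
  have h119 := wGf9_6_4 h118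
  have h120 := wGf9_6_5 h119
  have h121 := wGf9_6_6 h120
  have h122 := wGf9_6_7 h121
  have h123 := wGf9_6_8 h122
  have h124 := wGf9_6_9 h123
  have h125 := wGf9_6_10 h124
  have h126 := wGf9_6_11 h125
  have h127 := wGf9_6_12 h126
  have h128 := wGf9_7_0 h127
  have h129 := wGf9_7_1 h128
  have h130 := wGf9_7_2 h129
  have h131 := wGf9_7_3 h130
  have h132 := wGf9_7_4 h131
  have h133 := wGf9_7_5 h132
  have h134 := wGf9_7_6 h133
  have h135 := wGf9_7_7 h134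
  have h136 := wGf9_7_8 h135
  have h137 := wGf9_7_9 h136
  have h138 := wGf9_7_10 h137
  have h139 := wGf9_7_11 h138
  have h140 := wGf9_7_12 h139
  have h141 := wGf9_8_0 h140
  have h142 := wGf9_8_1 h141
  have h143 := wGf9_8_2 h142
  have h144 := wGf9_8_3 h143
  have h145 := wGf9_8_4 h144
  have h146 := wGf9_8_5 h145
  have h147 := wGf9_8_6 h146
  have h148 := wGf9_8_7 h147
  have h149 := wGf9_8_8 h148
  exact h149

theorem bGf9 : RtI (ok5 (okB 1 true)) (stD (dnL QGf8) SGf9) RBGf9 1278 := by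
  have h0 := rtI_zero (ok5 (okB 1 true)) (stD (dnL QGf8) SGf9) RBGf9
  have h1 := uGf9 aGf9 h0 oGf9_0_0 (show 0 + 25 = 25 from rfl)
  have h2 := uGf9 aGf9 h1 oGf9_0_1 (show 25 + 25 = 50 from rfl)
  have h3 := uGf9 aGf9 h2 oGf9_0_2 (show 50 + 25 = 75 from rfl)
  have h4 := uGf9 aGf9 h3 oGf9_0_3 (show 75 + 25 = 100 from rfl)
  have h5 := uGf9 aGf9 h4 oGf9_0_4 (show 100 + 25 = 125 from rfl)
  have h6 := uGf9 aGf9 h5 oGf9_0_5 (show 125 + 25 = 150 from rfl)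
  have h7 := uGf9 aGf9 h6 oGf9_0_6 (show 150 + 25 = 175 from rfl)
  have h8 := uGf9 aGf9 h7 oGf9_0_7 (show 175 + 25 = 200 from rfl)
  have h9 := uGf9 aGf9 h8 oGf9_0_8 (show 200 + 25 = 225 from rfl)
  have h10 := uGf9 aGf9 h9 oGf9_0_9 (show 225 + 25 = 250 from rfl)
  have h11 := uGf9 aGf9 h10 oGf9_0_10 (show 250 + 25 = 275 from rfl)
  have h12 := uGf9 aGf9 h11 oGf9_0_11 (show 275 + 25 = 300 from rfl)
  have h13 := uGf9 aGf9 h12 oGf9_0_12 (show 300 + 25 = 325 from rfl)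
  have h14 := uGf9 aGf9 h13 oGf9_0_13 (show 325 + 25 = 350 from rfl)
  have h15 := uGf9 aGf9 h14 oGf9_0_14 (show 350 + 25 = 375 from rfl)
  have h16 := uGf9 aGf9 h15 oGf9_0_15 (show 375 + 25 = 400 from rfl)
  have h17 := uGf9 aGf9 h16 oGf9_0_16 (show 400 + 25 = 425 from rfl)
  have h18 := uGf9 aGf9 h17 oGf9_0_17 (show 425 + 25 = 450 from rfl)
  have h19 := uGf9 aGf9 h18 oGf9_0_18 (show 450 + 25 = 475 from rfl)
  have h20 := uGf9 aGf9 h19 oGf9_0_19 (show 475 + 25 = 500 from rfl)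
  have h21 := uGf9 aGf9 h20 oGf9_0_20 (show 500 + 25 = 525 from rfl)
  have h22 := uGf9 aGf9 h21 oGf9_0_21 (show 525 + 25 = 550 from rfl)
  have h23 := uGf9 aGf9 h22 oGf9_0_22 (show 550 + 25 = 575 from rfl)
  have h24 := uGf9 aGf9 h23 oGf9_0_23 (show 575 + 25 = 600 from rfl)
  have h25 := uGf9 aGf9 h24 oGf9_0_24 (show 600 + 25 = 625 from rfl)
  have h26 := uGf9 aGf9 h25 oGf9_0_25 (show 625 + 25 = 650 from rfl)
  have h27 := uGf9 aGf9 h26 oGf9_0_26 (show 650 + 25 = 675 from rfl)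
  have h28 := uGf9 aGf9 h27 oGf9_0_27 (show 675 + 25 = 700 from rfl)
  have h29 := uGf9 aGf9 h28 oGf9_0_28 (show 700 + 25 = 725 from rfl)
  have h30 := uGf9 aGf9 h29 oGf9_0_29 (show 725 + 25 = 750 from rfl)
  have h31 := uGf9 aGf9 h30 oGf9_0_30 (show 750 + 25 = 775 from rfl)
  have h32 := uGf9 aGf9 h31 oGf9_0_31 (show 775 + 25 = 800 from rfl)
  have h33 := uGf9 aGf9 h32 oGf9_0_32 (show 800 + 25 = 825 from rfl)
  have h34 := uGf9 aGf9 h33 oGf9_0_33 (show 825 + 25 = 850 from rfl)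
  have h35 := uGf9 aGf9 h34 oGf9_0_34 (show 850 + 25 = 875 from rfl)
  have h36 := uGf9 aGf9 h35 oGf9_0_35 (show 875 + 25 = 900 from rfl)
  have h37 := uGf9 aGf9 h36 oGf9_0_36 (show 900 + 25 = 925 from rfl)
  have h38 := uGf9 aGf9 h37 oGf9_0_37 (show 925 + 25 = 950 from rfl)
  have h39 := uGf9 aGf9 h38 oGf9_0_38 (show 950 + 25 = 975 from rfl)
  have h40 := uGf9 aGf9 h39 oGf9_0_39 (show 975 + 25 = 1000 from rfl)
  have h41 := uGf9 aGf9 h40 oGf9_0_40 (show 1000 + 25 = 1025 from rfl)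
  have h42 := uGf9 aGf9 h41 oGf9_0_41 (show 1025 + 25 = 1050 from rfl)
  have h43 := uGf9 aGf9 h42 oGf9_0_42 (show 1050 + 25 = 1075 from rfl)
  have h44 := uGf9 aGf9 h43 oGf9_0_43 (show 1075 + 25 = 1100 from rfl)
  have h45 := uGf9 aGf9 h44 oGf9_0_44 (show 1100 + 25 = 1125 from rfl)
  have h46 := uGf9 aGf9 h45 oGf9_0_45 (show 1125 + 25 = 1150 from rfl)
  have h47 := uGf9 aGf9 h46 oGf9_0_46 (show 1150 + 25 = 1175 from rfl)
  have h48 := uGf9 aGf9 h47 oGf9_0_47 (show 1175 + 25 = 1200 from rfl)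
  have h49 := uGf9 aGf9 h48 oGf9_0_48 (show 1200 + 25 = 1225 from rfl)
  have h50 := uGf9 aGf9 h49 oGf9_0_49 (show 1225 + 25 = 1250 from rfl)
  have h51 := uGf9 aGf9 h50 oGf9_0_50 (show 1250 + 25 = 1275 from rfl)
  have h52 := uGf9 aGf9 h51 oGf9_0_51 (show 1275 + 3 = 1278 from rfl)
  exact h52

theorem tGf9 : (TGf9.all okJ) = true := by decide +kernel

theorem pGf9_0 : CkP QGf8 (6, 0x19130c17100b251f06231c05201b03140f09)
    [6, 5, 4, 0, 0, 0, 0] 64 := by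
  have h0 := ckP_zero QGf8 (6, 0x19130c17100b251f06231c05201b03140f09)
    [6, 5, 4, 0, 0, 0, 0]
  have h1 := ckP_step (k := 64) h0 kGf9_0c0 rfl
  exact h1

theorem pGf9_1 : CkP QGf8 (6, 0x19120d16110b251e07221d05211b03150f09)
    [7, 6, 5, 4, 3, 0, 0, 0] 128 := by
  have h0 := ckP_zero QGf8 (6, 0x19120d16110b251e07221d05211b03150f09)
    [7, 6, 5, 4, 3, 0, 0, 0]
  have h1 := ckP_step (k := 128) h0 kGf9_1c0 rfl
  exact h1

theorem pGf9_2 : CkP QGf8 (6, 0x1010601130c01100b1d16051a1503200f09)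
    [4, 3, 2, 1, 0] 16 := by
  have h0 := ckP_zero QGf8 (6, 0x1010601130c01100b1d16051a1503200f09)
    [4, 3, 2, 1, 0]
  have h1 := ckP_step (k := 16) h0 kGf9_2c0 rfl
  exact h1

theorem pGf9_3 : CkP QGf8 (9, 0x12a24010107341712321d0c01231101290b261b042015022d0e08)
    [5, 4, 3, 2, 1, 0] 32 := by
  have h0 := ckP_zero QGf8 (9, 0x12a24010107341712321d0c01231101290b261b042015022d0e08)
    [5, 4, 3, 2, 1, 0]
  have h1 := ckP_step (k := 32) h0 kGf9_3c0 rfl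
  exact h1

theorem pGf9_4 : CkP QGf8 (0xa, 0x1013638312b352412331e0c2e190a281710231d022c1a072620050f0914)
    [6, 5, 4, 0, 0, 0, 0] 64 := by
  have h0 := ckP_zero QGf8 (0xa, 0x1013638312b352412331e0c2e190a281710231d022c1a072620050f0914)
    [6, 5, 4, 0, 0, 0, 0]
  have h1 := ckP_step (k := 64) h0 kGf9_4c0 rfl
  exact h1

theorem pGf9_5 : CkP QGf8 (0xe, 0x10149463c36514e4244302a4c1e164a2412401c0c3e100634190a3a2e0e23380232281a2c2005260914)
    [3, 2, 1, 0] 8 := by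
  have h0 := ckP_zero QGf8 (0xe, 0x10149463c36514e4244302a4c1e164a2412401c0c3e100634190a3a2e0e23380232281a2c2005260914)
    [3, 2, 1, 0]
  have h1 := ckP_step (k := 8) h0 kGf9_5c0 rfl
  exact h1

theorem pGf9_6 : CkP QGf8 (0xa, 0x136233a312b35241f330c062e39022d130801100b1d160528151a260f20)
    [7, 6, 5, 4, 3, 2, 1, 0] 128 := by
  have h0 := ckP_zero QGf8 (0xa, 0x136233a312b35241f330c062e39022d130801100b1d160528151a260f20)
    [7, 6, 5, 4, 3, 2, 1, 0]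
  have h1 := ckP_step (k := 128) h0 kGf9_6c0 rfl
  exact h1

theorem kGf9 : PpI QGf8 6 TGf9 CAGf CBGf 7 := by
  have h0 := ppI_zero QGf8 6 TGf9 CAGf CBGf
  have h1 := ppI_stepV (k' := 1) (q := (6, 0x19130c17100b251f06231c05201b03140f09)) h0 rfl kGf9_0r pGf9_0 kGf9_0m rfl
  have h2 := ppI_stepV (k' := 2) (q := (6, 0x19120d16110b251e07221d05211b03150f09)) h1 rfl kGf9_1r pGf9_1 kGf9_1m rfl
  have h3 := ppI_stepV (k' := 3) (q := (6, 0x1010601130c01100b1d16051a1503200f09)) h2 rfl kGf9_2r pGf9_2 kGf9_2m rfl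
  have h4 := ppI_stepV (k' := 4) (q := (9, 0x12a24010107341712321d0c01231101290b261b042015022d0e08)) h3 rfl kGf9_3r pGf9_3 kGf9_3m rfl
  have h5 := ppI_stepV (k' := 5) (q := (0xa, 0x1013638312b352412331e0c2e190a281710231d022c1a072620050f0914)) h4 rfl kGf9_4r pGf9_4 kGf9_4m rfl
  have h6 := ppI_stepV (k' := 6) (q := (0xe, 0x10149463c36514e4244302a4c1e164a2412401c0c3e100634190a3a2e0e23380232281a2c2005260914)) h5 rfl kGf9_5r pGf9_5 kGf9_5m rfl
  have h7 := ppI_stepV (k' := 7) (q := (0xa, 0x136233a312b35241f330c062e39022d130801100b1d160528151a260f20)) h6 rfl kGf9_6r pGf9_6 kGf9_6m rfl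
  exact h7

theorem zGf9 : (!false || allK QGf8 (fun _ => true) (nzq CBGf)
  0) = true := by decide +kernel

theorem mGf9A : (Nat.ble 2 1 || memI QGf8 4 1 257) = true := by decide +kernel

theorem mGf9B : (Nat.ble 1 1 || memI QGf8 0 1 1) = true := by decide +kernel

/-- **the phase 9** -/
theorem cGf9 : Dj5 CAGf CBGf PLGf (dnL QGf9) :=
  Dj5.rawP vokAGf vokBGf mclAGf mclBGf mkoGf wfpGf cGf8 mGf9A mGf9B (by norm_num) tGf9 kGf9 lenGf zGf9 bGf9

end EF18
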