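import Pool.Agent.Lib.MP_ef18bd_co.G5.C41
import Pool.Agent.Lib.MP_ef18bd_co.P.Gij

/-!
# The chain is complete
-/

namespace EF18

theorem pl4Gf : (PLGf.all sq4) = true := by decide +kernel

theorem f13Gf : f13 CAGf = true := by decide +kernel

theorem yGfA : memI QGf41 6 1 1 = true := by decide +kernel

theorem yGfB : memI QGf41 0 2 (9 + 3 * 256 ^ 3) = true := by decide +kernel

/-- **the chain** -/
theorem chainGf : Chj5 :=
  ⟨CAGf, CBGf, PLGf, dnL QGf41, f13Gf, pl4Gf, cGf41, memI_of yGfA, memI_of yGfB⟩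

end EF18
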