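import Pool.Agent.Lib.MP_ef18bd_co.G5.P14

/-!
# Phase 15: the data
-/

namespace EF18

/-- data -/
noncomputable def RBGf15c0 : ℕ := 0x484c30424a2a0058525a2418541e16002212001a0a560e04500802463a0c401034443e06381c2e203228142c260f0000000000000000000000000000000000000000000000000000000000000000000000000000000000000000000000000000484c363c4a2a0058525a2418001e16542212561a0a000e04500802463a0c401034443e06381c2e203228142c260f0000000000000000000000000000000000000000000000000000000000000000000000000000000000000000000000000000424c3c364a300058520024185a1e16562212541a0a500e04000802463a0c401034443e06381c2e203228142c260f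

/-- the patterns, 768 bits for each -/
noncomputable def RBGf15 : ℕ := RBGf15c0

/-- the closed patterns -/
noncomputable def QGf15 : List (ℕ × ℕ) := (RBGf15, 3) :: QGf14

/-- the tables -/
noncomputable def TGf15 : List (List (List ℕ)) := [[[1, 7, 13, 19, 25, 31, 37, 43, 49, 55, 61, 67, 73, 79], [0, 1, 7, 13, 19, 25, 31, 37, 43, 49, 55, 61, 67,
73], [0, 1, 7, 13, 19, 25, 31, 37, 43, 49, 55, 61, 67, 73]],
  [[1, 7, 13, 19, 25, 31, 37, 43, 49, 55, 61, 67, 73, 79], [0, 1, 7, 13, 19, 25, 31, 37, 43, 49, 55, 61, 67,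
73], [0, 1, 7, 13, 19, 25, 31, 37, 43, 49, 55, 61, 67, 73]],
  [[1, 7, 13, 19, 25, 37, 43, 49, 55, 61, 73, 79, 85, 91], [0, 1, 7, 13, 19, 25, 37, 43, 49, 55, 61, 73, 79,
85], [0, 1, 7, 13, 19, 25, 37, 43, 49, 55, 61, 73, 79, 85]],
  [[1], [0], [0]],
  [[1], [0], [0]],
  [[1], [0], [0]],
  [[1], [0], [0]]]

/-- data -/
noncomputable def BGf15c0 : ℕ := 0x4c48304a422a005a54582418521e16002212001c0c561006500a04463a0840340e443e02382e1a3228202c26140f000000000000000000000000000000000000000000000000000000000000000000000000000000000000000000006163484200342a003a22001c125e160a5c0e0400523638583133241f560c062e50022d4c080046104a144028441a263e201100000000000000000000000000000000000000000000000000000000000000000000000000000000000000000000004e524842503c005e5860221c5c28165a1a1056140a002a24000007344612324c0c004a4000443a263e042038022d0e08100000000000000000000000000000000000000000000000000000000000000000000000000000000000000000000000000000000000000000000000000000001c10001a0a001406000e0400080219120d16403a251e34223e2e213828322c260b000000000000000000000000000000000000000000000000000000000000000000000000000000000000000000000000000000000046423000443c00544c5222184a1e16011c0c501006000a040040083a340e3e3802002e1a3228202c26140e00000000000000000000000000000000000000000000000000000000000000000000000000000000000000000000000000364c48304a422a005a54582418521e160022125c1c0c561006500a04463a0840340e443e02382e1a3228202c261410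

/-- the patterns, 768 bits for each -/
noncomputable def BGf15 : ℕ := BGf15c0

/-- the step of the phase -/
noncomputable abbrev SGf15 : Stp :=
  flt ok4 (stJ false CAGf CBGf 6 TGf15 true MLGf PLGf 1)

/-- the check of a list of entries -/
noncomputable def gGf15 (es : List (ℕ × ℕ)) (j : ℕ) : Bool :=
  entsR (sfV 1 true MLGf (tEq false CAGf CBGf 6 TGf15 1 MLGf) (tWq false CAGf CBGf 6 TGf15 1 MLGf))
    (lfJ false CAGf CBGf 6 TGf15 1 true MLGf PLGf (lwq false CAGf CBGf 6 TGf15 1 MLGf)) (dl5 (dlB 1 true)) BGf15 es j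

/-- the check of the roots -/
noncomputable def rGf15 (k n z : ℕ) : Bool :=
  clsM (lfJ false CAGf CBGf 6 TGf15 1 true MLGf PLGf (lwq false CAGf CBGf 6 TGf15 1 MLGf))
    (dl5 (dlB 1 true)) BGf15 6 (unp RBGf15 n k) z

theorem sGf15 : Sfn (ok5 (okB 1 true)) SGf15
    (sfV 1 true MLGf (tEq false CAGf CBGf 6 TGf15 1 MLGf) (tWq false CAGf CBGf 6 TGf15 1 MLGf))
    (lfJ false CAGf CBGf 6 TGf15 1 true MLGf PLGf (lwq false CAGf CBGf 6 TGf15 1 MLGf)) (dl5 (dlB 1 true)) :=
  (sfn_stJ bdGf (tokJu false CAGf CBGf 6 TGf15 (by norm_num) MLGf)).flt4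

theorem nGf15 {es : List (ℕ × ℕ)} {j k : ℕ} (h : ∀ i < j, Val (stD (dnL QGf14) SGf15) (prc BGf15 i))
    (h2 : gGf15 es j = true) (hk : j + es.length = k) : ∀ i < k, Val (stD (dnL QGf14) SGf15) (prc BGf15 i) := by
  rw [← hk]
  exact entsR_sound (sGf15.stD (dnL QGf14)) h h2

theorem iGf15 {x t j k : ℕ} (h : ∀ i < j, Val (stD (dnL QGf14) SGf15) (prc BGf15 i))
    (h2 : gGf15 [(x, t)] j = true) (hk : j + 1 = k) : ∀ i < k, Val (stD (dnL QGf14) SGf15) (prc BGf15 i) :=
  nGf15 h h2 hk

theorem uGf15 (hV : ∀ i < 6, Val (stD (dnL QGf14) SGf15) (prc BGf15 i)) {k n k' z : ℕ}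
    (h : RtI (ok5 (okB 1 true)) (stD (dnL QGf14) SGf15) RBGf15 k) (hz : rGf15 k n z = true) (hk : k + n = k') :
    RtI (ok5 (okB 1 true)) (stD (dnL QGf14) SGf15) RBGf15 k' :=
  rtI_step (sGf15.stD (dnL QGf14)) hV h hz hk

end EF18
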