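import Pool.Agent.Lib.MP_ef18bd_co.G5.P17

/-!
# Phase 17: roots
-/

namespace EF18

set_option linter.defProp false

def oGf17_0_0 : rGf17 0 19
  0x8c8884807c7874706c6864605c5854504c4844403c3834302c2824201c1814100c080400cfd2609894908c8884807c7874706c6864605c5854504c4844403c3834302c2824201c1814100c080400ac12909894908c8884807c7874706c6864605c5854504c4844403c3834302c2824201c1814100c08040088929050484c686460746c708c8488a49ca09890945c5458807c780400083830340c1014181c2028242c40443fca92c05c545874706c68606480787ca49ca094909850484c8c888400040844403c18201c0c14102c2428303837ca92c0504c485c5854807c788c8884a49ca0989094686064746c70100c1420181c000408303438403c44282c27ca92c068606480787c5c545874706ca49ca0949098504c488c84880c10142c2824303834000804443c4018201fca92c074706c5c545880787c686064a49ca09498908c888450484c44403c00040820181c2c24280c1410383037ca92c080787c68606474706c5c5458a49ca09498908c8488504c482c28240c1014383034443c4000080420181fca92c05c5854504c488c8884807c78a49ca0989490746c7068606420181c100c14040008403c443034382c2827ca92c068646050484c8c8488746c70a49ca0949890807c785c5458383034040008100c1428242c181c2044403fca92c0746c708c848850484c686460a49ca09490985c585480787c18201c282c2440443c0408003834300c1017ca92c08c8488746c7068646050484ca49ca090989480787c5c5854282c2418201c44403c383430040800100c17ca92c0807c788c8884504c485c5854a49ca090949868646074706c30383440443c282c2410140c201c1800040bca92c08c8884807c785c5854504c48a49ca090989474706c68646040443c3038342c2824201c1810140c04000bca92c0a4a09c9894908c8884807c7874706c6864605c5854504c4844403c3834302c2824201c1814100c080403cb52c074706c6864605c5854504c4844403c3834302c28241c201810140c080403c2d20068646074706c5c5854504c48343830443c401c2018282c2410140c040800ab520074706c6864605c5854504c4844403c3430382c2824201c1814100c080400ab520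 = true := by
  decide +kernel

end EF18
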