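import Pool.Agent.Lib.MP_ef18bd_co.G5.P22

/-!
# Phase 22: roots
-/

namespace EF18

set_option linter.defProp false

def oGf22_0_0 : rGf22 0 2
  0xbcb8b4b0aca8a4a09c989490807c788c888468646074706c504c485c585438303444403c282c24100c1420181c00040ad2d320bcb8b4b0aca8a4a09c9894908c8884807c7874706c6864605c5854504c4844403c3830342c282420181c100c1404000ad2d32 = true := by
  decide +kernel

end EF18
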