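import Pool.Agent.Lib.MP_ef18bd_co.G5.P27

/-!
# Phase 27: closed patterns
-/

namespace EF18

set_option linter.defProp false

def jGf27_0 : j0F QGf26 BGf27 49 0
  0xbc0000b80000b40000b00000a800009000008800007400007000006800006400006000004800003c00003800003000002000008810008410006810005010004c1000481004587003547003087000dc700048900008900014a00000a00010c001b0d00064d00390f00010d0032d000bdd100ac9100409200ac540097d4096dd5000ad40000150023590008990001d900025a = true := by
  decide +kernel

end EF18
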