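import Pool.Agent.Lib.MP_ef18bd_co.G5.P32

/-!
# Phase 32: closed patterns
-/

namespace EF18

set_option linter.defProp false

def jGf32_0 : j0F QGf31 BGf32 94 0
  0x20003040002c40002840002440001840000c4000084000044000003000ac500098500090500088500080500068500044500030500024500018500090600088600084600080600068600050600038600034600000a009fcc00458c00354c00308c001d8c000dcc000c8c000c0c000bcc000b4c000a8c00048e00040e00008e00224f000391000191000111001b120008d20039140028d40028940000130026540032d50031d50030d5002f1500c9d600c95600bdd600b21600af16006bd60063d6019ad80197580197180193d80179d8015818015458015118014ed8013b58013a1801391800831800d21900cb99008719007e9909e4da09799a096dda0942da070f5a06fd9a000ad90008d900051900009900005c = true := by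
  decide +kernel

end EF18
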