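import Pool.Agent.Lib.MP_ef18bd_co.G5.P6

/-!
# Phase 6: closed patterns
-/

namespace EF18

set_option linter.defProp false

def jGf6_0 : j0F QGf5 BGf6 65 0
  0xa08000a07c00a07800a07400a07000a06c00a06800a06400a060009e6c00a05800a05400a05000a04c00a04800a04400a04000a03c00a03800a03400a03000a02c009e6800a02400a02000a01800a01400a010009e6400a00800a004009e5c009ffc009ff8009ff0009cb8009fe0009fc00097540096dc009f8800967000958400948400942c009f68009f0c009ecc008ff4009e78009e700000343000103001c840013c40012c40001c400a345009dc5009a45009a050023c5002345002245000045 = true := by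
  decide +kernel

end EF18
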