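import Pool.Agent.Lib.MP_ef18bd_co.G5.P8

/-!
# Phase 8: closed patterns
-/

namespace EF18

set_option linter.defProp false

def jGf8_0 : j0F QGf7 BGf8 41 0
  0x1c9400172c001c60001284001be4001ae4000eb4001a9c000d88001a94000cb8100bf81009841018901018841018801018781008dc1008b81008b4109ff8209da8209c00209bfc209be0209bc8209bbc209a48209fb0209fa82099142097542096dc209670209f8020942c209ecc209ec420006450016c60001c6 = true := by
  decide +kernel

end EF18
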