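import Pool.Agent.Lib.MP_ef18bd_co.G5.P9

/-!
# Phase 9: closed patterns
-/

namespace EF18

set_option linter.defProp false

def jGf9_0 : j0F QGf8 BGf9 100 0
  0xfe0101ae8101ae0101adc101ad8101ad4101ad0100fc0101ac8101ac4101ac0101abc101ab8100eb8101ab0101aac100eb4100eb0100abc1009fc101a8810172c201680200d14200d102018f4200cbc200cb4200cb02018e0200c582018d42018d02018cc2018c8200bf02018b82018b02018ac20189c2009f420098420187c2018742008b82008b420065c201854209e68309e243099b8309fb0309fac309944309f9c3097543096dc30967030942c309f68309f58309f54309f50309f4c3091ac309f44309f40309f3c309f38309f343091a0309f2c309f28309f24309f20309f1c309f183091143090fc3090c0309068309038309018309ecc309ec8309ec4309eb8308ff8308ff4308ff0309e8c309e88309e7430046850006460016c70012c70001c70117c8011788 = true := by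
  decide +kernel

def jGf9_1 : j0F QGf8 BGf9 100 100
  0x179c1015441014d41014d0101c74101c7010149c101494101488101c601013ac1013a0101c4c10125410124010122c101c3c101c38101c34101c3010121c101218101c24101210101c1c1011fc1011e8101c10101c0c1011dc101c04101c001011d81011c81011bc101bf0101bec101be8101be4101be0101bdc101bd8101bd4101bd0101bcc101bc8101bc4101bc0101bbc101bb8101bb4101bb01011041010e4101ba41010c8101b9c101098101b94101b90101b8c10107c101b84101b80101b7c101b78101b74101b70101b6c101b68101b64101048101b5c10104410104010103c101b4c101b48101b44101b40101b3c101b38101b34101b30101b2c101b28101b24101b20101b1c101b18101008101b10101b0c101b08101b04101b00101afc101af8101af4100fe41 = true := by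
  decide +kernel

def jGf9_2 : j0F QGf8 BGf9 100 200
  0x31c00184000183c00183800183400183000182c0018280002e40002b80002ac00029400029000028800027c0018080018040018000017fc0002600002540002400017ec0017e80002340002140002080017d80017d40017d00017cc0001d40001c80001c00017bc0001bc0017b40017b00017ac00019400016c00016800013000179800179400179000012400011400010c00178000177c00177800177400177000176c0017680017640017600000c00000bc0000a800009c00174c00009800174400174000173c00173800173400008800172c00172800008000172000007c00171800171400171000170c0017080017040017000000500016f800004c0016f00016ec0016e80016e40000480016dc0016d80016d40016d00016cc0016c80016c400003c0019641018241 = true := by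
  decide +kernel

def jGf9_3 : j0F QGf8 BGf9 96 300
  0x19c40019c00019bc0016780019b400163800149c0019a80019a40010a000199c0019980006b400068400065400065000198400063000197c0019780006180005f400196c0019680019640019600005d80005d40005c00005b000194c00194800058000057400057000193800054000193000192c00192800051c00192000191c0005000004fc00191000190c0004d40004a40004940018fc0018f80018f40018f00018ec0004480018e400042c0018dc00040c0018d40018d00018cc0018c80018c40003f40003ec0018b80003d00018b00003b00018a80018a40018a000189c00189800189400189000188c00038000188400188000187c00187800187400187000186c00186800186400186000185c00034000033c00033800184c0018480 = true := by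
  decide +kernel

end EF18
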